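import Mathlib

/-!
# Combinatorics of the reading of a real from positions: definitions

`Lo` and `Up` are the sets of lower and upper coordinates, `P M k` (resp. `Q N k`) the position of the
`k`-th coordinate at stage `M` (`N`), and `Z N` reads the first `N` values of a real from the positions
at stage `N` of the coordinates with index `< N`.
-/

set_option autoImplicit false

namespace LM

open Classical in
/-- all functions with values `≤ N` vanishing at all `k ≥ N` -/
noncomputable def Tau (N : ℕ) : Finset (ℕ → ℕ) :=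
  (Finset.univ : Finset (Fin N → Fin (N + 1))).image
    (fun g k => if h : k < N then (g ⟨k, h⟩ : ℕ) else 0)

open Classical in
/-- the vector of positions at stage `M` with lower part `P` and upper part `τ` -/
noncomputable def vv (Lo : Set ℕ) (P : ℕ → ℕ → ℕ) (M : ℕ) (τ : ℕ → ℕ) (k : ℕ) : ℕ :=
  if k ∈ Lo ∧ k < M then P M k else τ k

open Classical in
/-- the upper part of the vector of positions at stage `N` -/
noncomputable def tv (Up : Set ℕ) (Q : ℕ → ℕ → ℕ) (N k : ℕ) : ℕ :=
  if k ∈ Up ∧ k < N then Q N k else 0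

/-- the real which would be read if the upper part of the vector of positions were `τ` from stage `N` on -/
noncomputable def zz (Z : ℕ → (ℕ → ℕ) → ℕ → Bool) (Lo : Set ℕ) (P : ℕ → ℕ → ℕ) (N : ℕ) (τ : ℕ → ℕ)
    (i : ℕ) : Bool :=
  Z (max N (i + 1)) (vv Lo P (max N (i + 1)) τ) i

/-- closure bounds -/
noncomputable def bf (Z : ℕ → (ℕ → ℕ) → ℕ → Bool) (Lo : Set ℕ) (P : ℕ → ℕ → ℕ) (c : ℕ → Bool) :
    ℕ → ℕ → ℕ
  | 0, m => m
  | d + 1, m => max (bf Z Lo P c d m) ((Finset.range (bf Z Lo P c d m + 1)).sup fun N =>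
      (Tau N).sup fun τ => sInf {j | m ≤ j ∧ zz Z Lo P N τ j ≠ c j} + 1)

end LM
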