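import Pool.Agent.Helper18.LM.Comb

/-!
# LM-C1: a real with few moves differs from `c` on a long block (about 120 lines)

`comb_step`: induction on `e`, generalizing `d` and `N`.  Let `τ = tv Up Q N ∈ Tau N`,
`j = sInf {j | m ≤ j ∧ zz Z Lo P N τ j ≠ c j}` (nonempty by `hz`, so `m ≤ j` and `zz .. j ≠ c j`); by
definition of `bf`, `j + 1 ≤ bf (d + 1) m ≤ bf (d + e + 1) m ≤ m'`.  Let `M = max N (j + 1) ≤ m'`.
Case 1: `tv Up Q N' = tv Up Q (N' - 1)` for all `N' ∈ (N, M]`.  Then `tv Up Q M = τ`, so by `hx` (with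
`j < M`) `x j = Z M (vv Lo P M τ) j = zz Z Lo P N τ j ≠ c j`, and `i = j` works.
Case 2: there is `N' ∈ (N, M]` with `tv Up Q N' ≠ tv Up Q (N' - 1)`.  Then `M = j + 1`, so
`N' ≤ j + 1 ≤ bf (d + 1) m`, `N' ≤ m'`, and the set of moves in `(N', m']` is a proper subset of the set
of moves in `(N, m']` (it does not contain `N'`), so `e = e' + 1` and the induction hypothesis applies
with `e'`, `d + 1`, `N'`.
-/

set_option autoImplicit false

namespace LM

theorem bf_mono (Z : ℕ → (ℕ → ℕ) → ℕ → Bool) (Lo : Set ℕ) (P : ℕ → ℕ → ℕ) (c : ℕ → Bool) (m : ℕ)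
    {d d' : ℕ} (h : d ≤ d') : bf Z Lo P c d m ≤ bf Z Lo P c d' m := by
  induction d', h using Nat.le_induction with
  | base => exact le_refl _
  | succ k _ ih =>
    refine ih.trans ?_
    rw [bf]
    exact le_max_left _ _

theorem tv_mem_Tau {Up : Set ℕ} {Q : ℕ → ℕ → ℕ} (hQ : ∀ N k, Q N k ≤ N) (N : ℕ) :
    tv Up Q N ∈ Tau N := by
  classical
  have hb : ∀ k, tv Up Q N k ≤ N := by
    intro k
    unfold tv
    split_ifs
    · exact hQ N k
    · exact Nat.zero_le _
  unfold Tau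
  rw [Finset.mem_image]
  refine ⟨fun i => ⟨tv Up Q N i, Nat.lt_succ_of_le (hb i)⟩, Finset.mem_univ _, ?_⟩
  funext k
  by_cases hk : k < N
  · simp [hk]
  · simp [hk, tv]

open Classical in
theorem comb_step {Z : ℕ → (ℕ → ℕ) → ℕ → Bool} {Lo Up : Set ℕ} {P Q : ℕ → ℕ → ℕ} {c x : ℕ → Bool}
    (hx : ∀ N i, i < N → x i = Z N (vv Lo P N (tv Up Q N)) i)
    (hz : ∀ N, ∀ τ ∈ Tau N, ∀ m, ∃ j, m ≤ j ∧ zz Z Lo P N τ j ≠ c j)
    (hQ : ∀ N k, Q N k ≤ N) {m m' : ℕ} (e d N : ℕ) (hmN : m ≤ N) (hN : N ≤ bf Z Lo P c d m)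
    (hNm : N ≤ m') (hb : bf Z Lo P c (d + e + 1) m ≤ m')
    (hc : ((Finset.Ioc N m').filter (fun N => tv Up Q N ≠ tv Up Q (N - 1))).card ≤ e) :
    ∃ i, m ≤ i ∧ i < m' ∧ x i ≠ c i := by
  induction e generalizing d N with
  | zero =>
    set j := sInf {j | m ≤ j ∧ zz Z Lo P N (tv Up Q N) j ≠ c j} with hj
    have hjm : j ∈ {j | m ≤ j ∧ zz Z Lo P N (tv Up Q N) j ≠ c j} :=
      Nat.sInf_mem (hz N _ (tv_mem_Tau hQ N) m)
    have hj1 : j + 1 ≤ bf Z Lo P c (d + 1) m := by
      rw [bf]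
      refine le_trans ?_ (le_max_right _ _)
      refine le_trans ?_ (Finset.le_sup (f := fun N => (Tau N).sup fun τ =>
        sInf {j | m ≤ j ∧ zz Z Lo P N τ j ≠ c j} + 1) (Finset.mem_range.mpr (Nat.lt_succ_of_le hN)))
      exact Finset.le_sup (f := fun τ => sInf {j | m ≤ j ∧ zz Z Lo P N τ j ≠ c j} + 1)
        (tv_mem_Tau hQ N)
    have hj2 : j + 1 ≤ m' := hj1.trans ((bf_mono Z Lo P c m (by omega)).trans hb)
    have hempty : (Finset.Ioc N m').filter (fun N => tv Up Q N ≠ tv Up Q (N - 1)) = ∅ :=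
      Finset.card_eq_zero.mp (Nat.le_zero.mp hc)
    have hstay : ∀ M, N ≤ M → M ≤ m' → tv Up Q M = tv Up Q N := by
      intro M hM
      induction M, hM using Nat.le_induction with
      | base => intro _; rfl
      | succ k hk ih =>
        intro hk'
        rw [← ih (by omega)]
        by_contra hne
        have : k + 1 ∈ (Finset.Ioc N m').filter (fun N => tv Up Q N ≠ tv Up Q (N - 1)) := by
          rw [Finset.mem_filter, Finset.mem_Ioc]
          exact ⟨⟨by omega, hk'⟩, by simpa using hne⟩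
        rw [hempty] at this
        exact absurd this (Finset.notMem_empty _)
    refine ⟨j, hjm.1, by omega, ?_⟩
    have hM := hstay (max N (j + 1)) (le_max_left _ _) (max_le hNm hj2)
    rw [hx (max N (j + 1)) j (lt_of_lt_of_le (Nat.lt_succ_self j) (le_max_right _ _)), hM]
    exact hjm.2
  | succ e ih =>
    set j := sInf {j | m ≤ j ∧ zz Z Lo P N (tv Up Q N) j ≠ c j} with hj
    have hjm : j ∈ {j | m ≤ j ∧ zz Z Lo P N (tv Up Q N) j ≠ c j} :=
      Nat.sInf_mem (hz N _ (tv_mem_Tau hQ N) m)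
    have hj1 : j + 1 ≤ bf Z Lo P c (d + 1) m := by
      rw [bf]
      refine le_trans ?_ (le_max_right _ _)
      refine le_trans ?_ (Finset.le_sup (f := fun N => (Tau N).sup fun τ =>
        sInf {j | m ≤ j ∧ zz Z Lo P N τ j ≠ c j} + 1) (Finset.mem_range.mpr (Nat.lt_succ_of_le hN)))
      exact Finset.le_sup (f := fun τ => sInf {j | m ≤ j ∧ zz Z Lo P N τ j ≠ c j} + 1)
        (tv_mem_Tau hQ N)
    have hj2 : j + 1 ≤ m' := hj1.trans ((bf_mono Z Lo P c m (by omega)).trans hb)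
    by_cases hall : ∀ N', N < N' → N' ≤ max N (j + 1) → tv Up Q N' = tv Up Q (N' - 1)
    · have hstay : ∀ M, N ≤ M → M ≤ max N (j + 1) → tv Up Q M = tv Up Q N := by
        intro M hM
        induction M, hM using Nat.le_induction with
        | base => intro _; rfl
        | succ k hk ih' =>
          intro hk'
          rw [← ih' (by omega)]
          simpa using hall (k + 1) (by omega) hk'
      refine ⟨j, hjm.1, by omega, ?_⟩
      have hM := hstay (max N (j + 1)) (le_max_left _ _) le_rfl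
      rw [hx (max N (j + 1)) j (lt_of_lt_of_le (Nat.lt_succ_self j) (le_max_right _ _)), hM]
      exact hjm.2
    · push Not at hall
      obtain ⟨N', h1, h2, h3⟩ := hall
      have h4 : N' ≤ j + 1 := by
        rcases le_max_iff.mp h2 with h | h
        · omega
        · exact h
      refine ih (d + 1) N' (by omega) (h4.trans hj1) (h4.trans hj2)
        (by rw [show d + 1 + e + 1 = d + (e + 1) + 1 by omega]; exact hb) ?_
      have hsub : (Finset.Ioc N' m').filter (fun N => tv Up Q N ≠ tv Up Q (N - 1)) ⊂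
          (Finset.Ioc N m').filter (fun N => tv Up Q N ≠ tv Up Q (N - 1)) := by
        rw [Finset.ssubset_iff_of_subset]
        · refine ⟨N', ?_, ?_⟩
          · rw [Finset.mem_filter, Finset.mem_Ioc]
            exact ⟨⟨h1, h4.trans hj2⟩, h3⟩
          · rw [Finset.mem_filter, Finset.mem_Ioc]
            rintro ⟨⟨h, _⟩, _⟩
            exact absurd h (lt_irrefl _)
        · apply Finset.filter_subset_filter
          exact Finset.Ioc_subset_Ioc_left h1.le
      have := Finset.card_lt_card hsub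
      omega

open Classical in
/-- apply `comb_step` with `m = r n`, `m' = r (n + 1)`, `e = n`, `d = 0`, `N = m` -/
theorem comb_main {Z : ℕ → (ℕ → ℕ) → ℕ → Bool} {Lo Up : Set ℕ} {P Q : ℕ → ℕ → ℕ} {c x : ℕ → Bool}
    {r : ℕ → ℕ} (hx : ∀ N i, i < N → x i = Z N (vv Lo P N (tv Up Q N)) i)
    (hz : ∀ N, ∀ τ ∈ Tau N, ∀ m, ∃ j, m ≤ j ∧ zz Z Lo P N τ j ≠ c j)
    (hQ : ∀ N k, Q N k ≤ N) (n : ℕ) (hr : bf Z Lo P c (n + 1) (r n) ≤ r (n + 1))
    (hc : ((Finset.Ioc (r n) (r (n + 1))).filter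
      (fun N => tv Up Q N ≠ tv Up Q (N - 1))).card ≤ n) :
    ∃ i, r n ≤ i ∧ i < r (n + 1) ∧ x i ≠ c i := by
  have h0 : bf Z Lo P c 0 (r n) = r n := by rw [bf]
  refine comb_step hx hz hQ n 0 (r n) le_rfl h0.ge ?_ ?_ hc
  · have := bf_mono Z Lo P c (r n) (Nat.zero_le (n + 1))
    rw [h0] at this
    exact this.trans hr
  · rw [show 0 + n + 1 = n + 1 by omega]
    exact hr

end LM
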