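import Pool.Agent.Helper18.LM.Comb

/-!
# LM-C2: counting the moves in a block (about 150 lines)

Let `n` be large.  Let `N ∈ (r n, r (n + 1)]` be a move, `tv Up Q N ≠ tv Up Q (N - 1)`; note
`N > r n ≥ n`.  There is `k` with `tv Up Q N k ≠ tv Up Q (N - 1) k`; then `k ∈ Up` and `k < N`.
If `k = N - 1` then `tv Up Q (N - 1) k = 0`, so `Q N k ≠ 0` and there is `i` with `0 < i ≤ N = k + 1`,
`On k i`; as `k ≥ n ≥ k₀`, `h3` (with `On k 0`) gives `ρ k ≤ i ≤ k + 1`, while `k + 1 ≤ r (k + 1) < ρ k`,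
a contradiction.  So `k < N - 1`, `Q N k ≠ Q (N - 1) k`, and `On k N`.
(1) `k < n`: if `k ≥ k₀` then `ρ k ≤ N ≤ r (n + 1)` by `h3` with `i = 0`, so
`r (k + 1) < ρ k ≤ r (n + 1)`, and `k ≥ n` is impossible as `r` increases from `n₀` on.
If `k < k₀` then `k < n` for `n ≥ k₀`.
(2) For a given `k` there is at most one such `N` in the block: if `N < N'` are two, then for `k ≥ k₀`
`ρ (N + k) ≤ N' ≤ r (n + 1) < ρ (N + k)` (use `hρ` with `j = n + 1 ≤ N + k + 2`); for `k < k₀` (finitely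
many `k`, so for `n` large `N > r n` is `≥ i₀(k)` for all `k < k₀` in `Up`) use `h2`:
`ρ N ≤ N' ≤ r (n + 1) < ρ N`.
So choosing a `k` for every move `N` gives an injection of the set of moves into `{0, ..., n - 1}`.
-/

set_option autoImplicit false

namespace LM

open Classical in
theorem comb_count {Up : Set ℕ} {On : ℕ → ℕ → Prop} {Q : ℕ → ℕ → ℕ} {r ρ : ℕ → ℕ}
    (hQ0 : ∀ k ∈ Up, ∀ N, Q N k ≠ 0 → ∃ i, 0 < i ∧ i ≤ N ∧ On k i)
    (hQ : ∀ k ∈ Up, ∀ N, Q (N + 1) k ≠ Q N k → On k (N + 1))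
    (hρ : ∀ m j, j ≤ m + 2 → r j < ρ m)
    (hr : ∃ n₀, ∀ n, n₀ ≤ n → n ≤ r n ∧ r n < r (n + 1))
    (h2 : ∀ k ∈ Up, ∃ i₀, ∀ i i', i₀ ≤ i → i < i' → On k i → On k i' → ρ i ≤ i')
    (h3 : ∃ k₀, ∀ k ∈ Up, k₀ ≤ k → ∀ i i', i < i' → On k i → On k i' → ρ (i + k) ≤ i')
    (h4 : ∀ k ∈ Up, On k 0) :
    ∃ n₀, ∀ n, n₀ ≤ n → ((Finset.Ioc (r n) (r (n + 1))).filter
      (fun N => tv Up Q N ≠ tv Up Q (N - 1))).card ≤ n := by
  classical
  obtain ⟨n₀, hr0⟩ := hr
  obtain ⟨k₀, h3'⟩ := h3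
  -- bounds for the finitely many small coordinates
  have h2' : ∃ i₀, ∀ k ∈ Up, k < k₀ → ∀ i i', i₀ ≤ i → i < i' → On k i → On k i' → ρ i ≤ i' := by
    choose! f hf using h2
    refine ⟨(Finset.range k₀).sup f, fun k hk hkk i i' hi hii h1 h1' => ?_⟩
    exact hf k hk i i' (le_trans (Finset.le_sup (f := f) (Finset.mem_range.2 hkk)) hi) hii h1 h1'
  obtain ⟨i₀, h2'⟩ := h2'
  have hmono : ∀ a b, n₀ ≤ a → a ≤ b → r a ≤ r b := by
    intro a b ha hab
    induction b, hab using Nat.le_induction with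
    | base => exact le_rfl
    | succ b hb ih => exact ih.trans (hr0 b (ha.trans hb)).2.le
  refine ⟨max n₀ (max k₀ i₀), fun n hn => ?_⟩
  have hn0 : n₀ ≤ n := (le_max_left _ _).trans hn
  have hnk : k₀ ≤ n := (le_max_left _ _).trans ((le_max_right _ _).trans hn)
  have hni : i₀ ≤ n := (le_max_right _ _).trans ((le_max_right _ _).trans hn)
  have hrn : n ≤ r n := (hr0 n hn0).1
  -- every move comes from a coordinate `< n`
  have key : ∀ N, N ∈ (Finset.Ioc (r n) (r (n + 1))).filter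
      (fun N => tv Up Q N ≠ tv Up Q (N - 1)) → ∃ k, k < n ∧ k ∈ Up ∧ On k N := by
    intro N hN
    rw [Finset.mem_filter, Finset.mem_Ioc] at hN
    obtain ⟨⟨hN1, hN2⟩, hN3⟩ := hN
    obtain ⟨k, hk⟩ := Function.ne_iff.1 hN3
    obtain ⟨M, rfl⟩ : ∃ M, N = M + 1 := ⟨N - 1, by omega⟩
    rw [Nat.add_sub_cancel] at hk
    have hkU : k ∈ Up := by
      by_contra hkU
      apply hk
      unfold tv
      rw [if_neg (fun h => hkU h.1), if_neg (fun h => hkU h.1)]
    have hkN : k < M + 1 := by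
      by_contra hkN
      apply hk
      unfold tv
      rw [if_neg (fun h => hkN h.2), if_neg (fun h => hkN (by have := h.2; omega))]
    have hkM : k < M := by
      by_contra hkM
      have hkM' : k = M := by omega
      subst hkM'
      have hQ1 : Q (k + 1) k ≠ 0 := by
        intro h0
        apply hk
        unfold tv
        rw [if_pos ⟨hkU, hkN⟩, if_neg (fun h => hkM h.2), h0]
      obtain ⟨i, hi0, hi1, hi2⟩ := hQ0 k hkU (k + 1) hQ1
      have e1 := h3' k hkU (by omega) 0 i hi0 (h4 k hkU) hi2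
      rw [Nat.zero_add] at e1
      have e2 := hρ k (k + 1) (by omega)
      have e3 := (hr0 (k + 1) (by omega)).1
      omega
    have hOn : On k (M + 1) := by
      apply hQ k hkU M
      intro h0
      apply hk
      unfold tv
      rw [if_pos ⟨hkU, hkN⟩, if_pos ⟨hkU, hkM⟩, h0]
    refine ⟨k, ?_, hkU, hOn⟩
    by_contra hkn
    have e1 := h3' k hkU (by omega) 0 (M + 1) (by omega) (h4 k hkU) hOn
    rw [Nat.zero_add] at e1
    have e2 := hρ k (k + 1) (by omega)
    have e3 := hmono (n + 1) (k + 1) (by omega) (by omega)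
    omega
  choose! f hf using key
  have hcard := Finset.card_le_card_of_injOn
    (s := (Finset.Ioc (r n) (r (n + 1))).filter (fun N => tv Up Q N ≠ tv Up Q (N - 1)))
    (t := Finset.range n) f (fun N hN => Finset.mem_coe.2 (Finset.mem_range.2 (hf N hN).1)) ?_
  · rwa [Finset.card_range] at hcard
  · have main : ∀ N N', N ∈ (Finset.Ioc (r n) (r (n + 1))).filter
        (fun N => tv Up Q N ≠ tv Up Q (N - 1)) → N' ∈ (Finset.Ioc (r n) (r (n + 1))).filter
        (fun N => tv Up Q N ≠ tv Up Q (N - 1)) → f N = f N' → ¬ N < N' := by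
      intro N N' hN hN' hff hlt
      obtain ⟨hk1, hk2, hk3⟩ := hf N hN
      obtain ⟨hk1', hk2', hk3'⟩ := hf N' hN'
      rw [← hff] at hk1' hk2' hk3'
      rw [Finset.mem_filter, Finset.mem_Ioc] at hN hN'
      obtain ⟨⟨hN1, hN2⟩, -⟩ := hN
      obtain ⟨⟨hN1', hN2'⟩, -⟩ := hN'
      by_cases hkk : f N < k₀
      · have e1 := h2' (f N) hk2 hkk N N' (by omega) hlt hk3 hk3'
        have e2 := hρ N (n + 1) (by omega)
        omega
      · have e1 := h3' (f N) hk2 (by omega) N N' hlt hk3 hk3'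
        have e2 := hρ (N + f N) (n + 1) (by omega)
        omega
    intro N hN N' hN' hff
    rcases lt_trichotomy N N' with h | h | h
    · exact absurd h (main N N' (Finset.mem_coe.1 hN) (Finset.mem_coe.1 hN') hff)
    · exact h
    · exact absurd h (main N' N (Finset.mem_coe.1 hN') (Finset.mem_coe.1 hN) hff.symm)

end LM
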