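import Pool.Agent.Helper18.LM.Comb

/-!
# LM-C3: measurability of the closure bounds (about 100 lines)

`measurable_zz`: for fixed `M`, `τ` the function `vv Lo P M τ` depends only on the finitely many numbers
`P M k`, `k < M`: the map `P ↦ (fun k : Fin M => P M k)` into the countable discrete space `Fin M → ℕ` is
measurable, and every map from a countable space with measurable singletons is measurable
(`measurable_of_countable`).
`measurable_bf`: by induction on `d`; the value of `bf d m` ranges over a countable set, and for a fixed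
value `b` the expression `max b (sup over N ≤ b, τ ∈ Tau N of sInf {...} + 1)` is a finite supremum of
measurable functions; `{x | sInf {j | m ≤ j ∧ S x j} = a}` is a countable Boolean combination of the
measurable sets `{x | S x j}`.
-/

set_option autoImplicit false

namespace LM

open Classical in
theorem measurable_zz (Z : ℕ → (ℕ → ℕ) → ℕ → Bool) (Lo : Set ℕ) (N : ℕ) (τ : ℕ → ℕ) :
    Measurable (fun P : ℕ → ℕ → ℕ => zz Z Lo P N τ) := by
  rw [measurable_pi_iff]
  intro i
  let M := max N (i + 1)
  let h : (Fin M → ℕ) → ℕ → ℕ := fun g k => if hk : k ∈ Lo ∧ k < M then g ⟨k, hk.2⟩ else τ k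
  have h1 : ∀ P : ℕ → ℕ → ℕ, vv Lo P M τ = h (fun k : Fin M => P M k) := by
    intro P
    funext k
    unfold vv
    by_cases hk : k ∈ Lo ∧ k < M
    · simp only [h, dif_pos hk, if_pos hk]
    · simp only [h, dif_neg hk, if_neg hk]
  have h2 : (fun P : ℕ → ℕ → ℕ => zz Z Lo P N τ i) =
      (fun g : Fin M → ℕ => Z M (h g) i) ∘ fun (P : ℕ → ℕ → ℕ) (k : Fin M) => P M k := by
    funext P
    show Z M (vv Lo P M τ) i = Z M (h (fun k : Fin M => P M k)) i
    rw [h1]
  rw [h2]
  refine (measurable_of_countable _).comp ?_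
  refine measurable_pi_lambda _ fun k => ?_
  exact (measurable_pi_apply (k : ℕ)).comp (measurable_pi_apply M)

private theorem measurable_sInf_aux {X : Type} [MeasurableSpace X] (m : ℕ) (S : X → ℕ → Prop)
    (hS : ∀ j, MeasurableSet {x | S x j}) : Measurable (fun x => sInf {j | m ≤ j ∧ S x j}) := by
  classical
  refine measurable_to_countable' fun y => ?_
  have hA : ∀ j, MeasurableSet {x | m ≤ j ∧ S x j} := by
    intro j
    by_cases hj : m ≤ j
    · have : {x | m ≤ j ∧ S x j} = {x | S x j} := by
        ext x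
        simp [hj]
      rw [this]
      exact hS j
    · have : {x | m ≤ j ∧ S x j} = ∅ := by
        ext x
        simp [hj]
      rw [this]
      exact MeasurableSet.empty
  have h1 : (fun x => sInf {j | m ≤ j ∧ S x j}) ⁻¹' {y} =
      ({x | m ≤ y ∧ S x y} ∩ ⋂ j, ⋂ (_ : j < y), {x | m ≤ j ∧ S x j}ᶜ) ∪
        (if y = 0 then ⋂ j, {x | m ≤ j ∧ S x j}ᶜ else ∅) := by
    ext x
    rw [Set.mem_preimage, Set.mem_singleton_iff]
    constructor
    · intro hx
      by_cases hne : {j | m ≤ j ∧ S x j}.Nonempty
      · left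
        refine ⟨?_, ?_⟩
        · have := Nat.sInf_mem hne
          rw [hx] at this
          exact this
        · simp only [Set.mem_iInter]
          intro j hj hj'
          have h5 : sInf {j | m ≤ j ∧ S x j} ≤ j := Nat.sInf_le hj'
          have h6 : sInf {j | m ≤ j ∧ S x j} = y := hx
          omega
      · right
        rw [Set.not_nonempty_iff_eq_empty] at hne
        rw [hne, Nat.sInf_empty] at hx
        rw [if_pos hx.symm]
        simp only [Set.mem_iInter]
        intro j hj
        have : j ∈ {j | m ≤ j ∧ S x j} := hj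
        rw [hne] at this
        exact this
    · rintro (⟨h2, h3⟩ | h2)
      · refine le_antisymm (Nat.sInf_le h2) ?_
        by_contra hlt
        push Not at hlt
        simp only [Set.mem_iInter] at h3
        have hmem : sInf {j | m ≤ j ∧ S x j} ∈ {j | m ≤ j ∧ S x j} := Nat.sInf_mem ⟨y, h2⟩
        exact h3 _ hlt hmem
      · by_cases hy : y = 0
        · rw [if_pos hy] at h2
          simp only [Set.mem_iInter] at h2
          have : {j | m ≤ j ∧ S x j} = ∅ := by
            rw [Set.eq_empty_iff_forall_notMem]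
            intro j hj
            exact h2 j hj
          rw [this, Nat.sInf_empty, hy]
        · rw [if_neg hy] at h2
          exact absurd h2 (Set.notMem_empty x)
  rw [h1]
  refine MeasurableSet.union ((hA y).inter (MeasurableSet.iInter fun j =>
    MeasurableSet.iInter fun _ => (hA j).compl)) ?_
  split_ifs
  · exact MeasurableSet.iInter fun j => (hA j).compl
  · exact MeasurableSet.empty

private theorem measurable_finset_sup_aux {X ι : Type} [MeasurableSpace X] (s : Finset ι)
    (f : ι → X → ℕ) (hf : ∀ i ∈ s, Measurable (f i)) : Measurable (fun x => s.sup fun i => f i x) := by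
  classical
  induction s using Finset.induction_on with
  | empty =>
    simp only [Finset.sup_empty]
    exact measurable_const
  | insert a s ha ih =>
    simp only [Finset.sup_insert]
    exact (hf a (Finset.mem_insert_self a s)).sup
      (ih fun i hi => hf i (Finset.mem_insert_of_mem hi))

theorem measurable_bf (Z : ℕ → (ℕ → ℕ) → ℕ → Bool) (Lo : Set ℕ) (d m : ℕ) :
    Measurable (fun x : (ℕ → ℕ → ℕ) × (ℕ → Bool) => bf Z Lo x.1 x.2 d m) := by
  induction d with
  | zero => exact measurable_const
  | succ d ih =>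
    have hne : ∀ (N : ℕ) (τ : ℕ → ℕ) (j : ℕ),
        MeasurableSet {x : (ℕ → ℕ → ℕ) × (ℕ → Bool) | zz Z Lo x.1 N τ j ≠ x.2 j} := by
      intro N τ j
      have h0 : Measurable (fun x : (ℕ → ℕ → ℕ) × (ℕ → Bool) => zz Z Lo x.1 N τ) :=
        (measurable_zz Z Lo N τ).comp measurable_fst
      have h1 : Measurable (fun x : (ℕ → ℕ → ℕ) × (ℕ → Bool) => zz Z Lo x.1 N τ j) :=
        measurable_pi_iff.1 h0 j
      have h2 : Measurable (fun x : (ℕ → ℕ → ℕ) × (ℕ → Bool) => x.2 j) :=
        (measurable_pi_apply j).comp measurable_snd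
      exact (measurableSet_eq_fun h1 h2).compl
    let F : ℕ × ((ℕ → ℕ → ℕ) × (ℕ → Bool)) → ℕ := fun y =>
      max y.1 ((Finset.range (y.1 + 1)).sup fun N =>
        (Tau N).sup fun τ => sInf {j | m ≤ j ∧ zz Z Lo y.2.1 N τ j ≠ y.2.2 j} + 1)
    have hF : Measurable F := by
      refine measurable_from_prod_countable_right fun b => ?_
      have h4 : ∀ N τ, Measurable (fun x : (ℕ → ℕ → ℕ) × (ℕ → Bool) =>
          sInf {j | m ≤ j ∧ zz Z Lo x.1 N τ j ≠ x.2 j} + 1) := fun N τ =>
        (measurable_sInf_aux m _ (hne N τ)).add_const 1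
      have h5 : ∀ N, Measurable (fun x : (ℕ → ℕ → ℕ) × (ℕ → Bool) => (Tau N).sup fun τ =>
          sInf {j | m ≤ j ∧ zz Z Lo x.1 N τ j ≠ x.2 j} + 1) := fun N =>
        measurable_finset_sup_aux (Tau N) (fun τ (x : (ℕ → ℕ → ℕ) × (ℕ → Bool)) =>
          sInf {j | m ≤ j ∧ zz Z Lo x.1 N τ j ≠ x.2 j} + 1) fun τ _ => h4 N τ
      have h6 : Measurable (fun x : (ℕ → ℕ → ℕ) × (ℕ → Bool) =>
          (Finset.range (b + 1)).sup fun N => (Tau N).sup fun τ =>
          sInf {j | m ≤ j ∧ zz Z Lo x.1 N τ j ≠ x.2 j} + 1) :=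
        measurable_finset_sup_aux (Finset.range (b + 1))
          (fun N (x : (ℕ → ℕ → ℕ) × (ℕ → Bool)) => (Tau N).sup fun τ =>
            sInf {j | m ≤ j ∧ zz Z Lo x.1 N τ j ≠ x.2 j} + 1) fun N _ => h5 N
      exact measurable_const.sup h6
    have h3 : (fun x : (ℕ → ℕ → ℕ) × (ℕ → Bool) => bf Z Lo x.1 x.2 (d + 1) m) =
        F ∘ fun x => (bf Z Lo x.1 x.2 d m, x) := rfl
    rw [h3]
    exact hF.comp (ih.prodMk measurable_id)

end LM
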