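import Mathlib

/-!
# Countable support iterations of Laver forcing, names for reals, and slalom capture modulo meager

Conventions.  A forcing notion is a preorder; `q ≤ p` means that `q` is stronger than `p`.
A finite sequence of natural numbers is represented by the list of its entries in REVERSE order, in
everything that concerns Laver trees: `m :: s` is the sequence `s` followed by the entry `m`, and
`s <:+ t` (`s` is a tail of the list `t`) says that `s` is an initial segment of `t`.
-/

set_option autoImplicit false

namespace LM

section Forcing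

variable {C : Type} [Preorder C]

/-- Let `Q` be a set of conditions (a forcing notion with the induced order) and `A ⊆ Q`.
`FIn Q A c`: the condition `c` forces (with respect to `Q`) that the generic filter meets `A`. -/
def FIn (Q A : Set C) (c : C) : Prop :=
  ∀ r ∈ Q, r ≤ c → ∃ r' ∈ Q, r' ≤ r ∧ ∃ a ∈ A, r' ≤ a

/-- A `Q`-name `τ` for a set of finite sequences is given by the sets `τ s ⊆ Q`: the sequence `s`
belongs to the set named by `τ` iff the generic filter meets `τ s`.
`FLaver Q τ`: every condition of `Q` forces that `τ` is a Laver tree: a set of finite sequences which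
is closed under initial segments and has an element `s₀` (the stem) such that all elements are
comparable with `s₀`, and every element `s` extending `s₀` has infinitely many immediate successors
`m :: s` in the set. -/
def FLaver (Q : Set C) (τ : List ℕ → Set C) : Prop :=
  ∀ p ∈ Q, ∃ q ∈ Q, q ≤ p ∧ ∃ s₀ : List ℕ, FIn Q (τ s₀) q ∧
    ∀ c ∈ Q, c ≤ q → ∀ s : List ℕ, FIn Q (τ s) c →
      (s <:+ s₀ ∨ s₀ <:+ s) ∧ (∀ s' : List ℕ, s' <:+ s → FIn Q (τ s') c) ∧
      (s₀ <:+ s → ∀ n : ℕ, ∃ m : ℕ, n ≤ m ∧ ∃ c' ∈ Q, c' ≤ c ∧ FIn Q (τ (m :: s)) c')

end Forcing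

/-- `LIter J C`: the preorder `C` is the countable support iteration of Laver forcing along the
well-ordered index set `J`.

A condition `p : C` has, for every `i : J`, a restriction `res i p` (its part with coordinates below
`i`), and the forcing `P_i` consists of the conditions `q` with `res i q = q`.  The `i`-th coordinate of
`p` is the `P_i`-name `t p i` of a set of finite sequences, forced to be a Laver tree.  The support,
the set of all `i` for which `t p i` is not the canonical name of the full tree, is countable.  All
such families of names occur (`cond`), a condition is determined by its coordinates (`ext`), and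
`p ≤ q` iff for every `i` the restriction `res i p` forces `t p i ⊆ t q i`. -/
structure LIter (J C : Type) [LinearOrder J] [Preorder C] where
  /-- restriction to the coordinates below `i` -/
  res : J → C → C
  /-- the coordinates -/
  t : C → J → List ℕ → Set C
  /-- the `i`-th coordinate is a `P_i`-name -/
  sub : ∀ (p : C) (i : J) (s : List ℕ), t p i s ⊆ {q | res i q = q}
  /-- the `i`-th coordinate is forced to be a Laver tree -/
  laver : ∀ (p : C) (i : J), FLaver {q | res i q = q} (t p i)
  /-- supports are countable -/
  ctb : ∀ p : C, {i : J | t p i ≠ fun _ => {q | res i q = q}}.Countable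
  /-- every family of names for Laver trees with countable support is a condition -/
  cond : ∀ τ : J → List ℕ → Set C, (∀ i s, τ i s ⊆ {q | res i q = q}) →
    (∀ i, FLaver {q | res i q = q} (τ i)) →
    {i : J | τ i ≠ fun _ => {q | res i q = q}}.Countable → ∃ p : C, t p = τ
  /-- a condition is determined by its coordinates -/
  ext : ∀ p q : C, t p = t q → p = q
  /-- the coordinates of a restriction -/
  res_lt : ∀ (i : J) (p : C) (j : J), j < i → t (res i p) j = t p j
  res_ge : ∀ (i : J) (p : C) (j : J), i ≤ j → t (res i p) j = fun _ => {q | res j q = q}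
  /-- the order -/
  le_iff : ∀ p q : C, p ≤ q ↔ ∀ (i : J) (s : List ℕ) (c : C), res i c = c → c ≤ res i p →
    FIn {q | res i q = q} (t p i s) c → FIn {q | res i q = q} (t q i s) c

section Names

variable (C : Type) [Preorder C] (A : Type)

/-- A name for a function `ω → A`: the conditions in `val n a` force that the value at `n` is `a`. -/
structure Nm where
  val : ℕ → A → Set C
  total : ∀ (n : ℕ) (p : C), ∃ q, q ≤ p ∧ ∃ a, ∃ r ∈ val n a, q ≤ r
  uniq : ∀ (n : ℕ) (a b : A), ∀ p ∈ val n a, ∀ q ∈ val n b, ∀ r : C, r ≤ p → r ≤ q → a = b

end Names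

section Statement

variable {C : Type} [Preorder C] {A B : Type}

/-- `p` forces `x(n) = a`. -/
def Vl (x : Nm C A) (n : ℕ) (a : A) (p : C) : Prop := FIn Set.univ (x.val n a) p

/-- `p` forces `x = y`. -/
def FEq (x y : Nm C A) (p : C) : Prop :=
  ∀ (n : ℕ) (a : A) (q : C), q ≤ p → (Vl x n a q ↔ Vl y n a q)

/-- A map `F` from names to names is extensional if every condition which forces `x = y` also forces
`F(x) = F(y)`.  Extensional maps from names of elements of `A^ω` to names of elements of `B^ω` are
(the same as) names for functions from `A^ω` to `B^ω` in the extension. -/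
def Extl (F : Nm C A → Nm C B) : Prop := ∀ (x y : Nm C A) (p : C), FEq x y p → FEq (F x) (F y) p

/-- `s` is a name for a slalom: it is forced that `s(n)` has at most `n` elements for every `n`. -/
def IsSlalom (s : Nm C (Finset ℕ)) : Prop := ∀ (n : ℕ) (F : Finset ℕ), (s.val n F).Nonempty → F.card ≤ n

/-- `p` forces that `y(k) ∈ s(k)` for all but finitely many `k`. -/
def FMem (y : Nm C ℕ) (s : Nm C (Finset ℕ)) (p : C) : Prop :=
  ∀ q, q ≤ p → ∃ r, r ≤ q ∧ ∃ N : ℕ, ∀ k, N ≤ k → ∀ c, c ≤ r → ∀ (a : ℕ) (F : Finset ℕ),
    Vl y k a c → Vl s k F c → a ∈ F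

/-- `p` forces that `x` extends the finite sequence `s` (here the list `s` has the usual order). -/
def FInit (x : Nm C ℕ) (s : List ℕ) (p : C) : Prop := ∀ (i : ℕ) (h : i < s.length), Vl x i s[i] p

/-- A name for a sequence `U_0, U_1, ...` of open subsets of Baire space is given by sets
`U k s` of conditions, those which put the basic open set of the sequence `s` into `U_k`.
`FDense U`: it is forced that every `U_k` is dense. -/
def FDense (U : ℕ → List ℕ → Set C) : Prop :=
  ∀ (k : ℕ) (s : List ℕ) (p : C), ∃ q, q ≤ p ∧ ∃ s' : List ℕ, s <+: s' ∧ FIn Set.univ (U k s') q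

/-- `p` forces that `x` belongs to the intersection of the open sets `U_k`. -/
def FMeet (x : Nm C ℕ) (U : ℕ → List ℕ → Set C) (p : C) : Prop :=
  ∀ (k : ℕ) (q : C), q ≤ p → ∃ r, r ≤ q ∧ ∃ s : List ℕ, FIn Set.univ (U k s) r ∧ FInit x s r

/-- `FBdd I C`: the forcing `C` forces that for every family `(f_i)`, `i ∈ I`, of functions from
Baire space to Baire space there is a function `g` from Baire space to slaloms such that for every
`i ∈ I` the set of all `x` such that `f_i(x)` is not captured by `g(x)` is meager: it is disjoint from
the intersection of countably many dense open sets. -/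
def FBdd (I C : Type) [Preorder C] : Prop :=
  ∀ f : I → Nm C ℕ → Nm C ℕ, (∀ i, Extl (f i)) →
    ∃ g : Nm C ℕ → Nm C (Finset ℕ), Extl g ∧ (∀ x, IsSlalom (g x)) ∧
      ∀ i, ∃ U : ℕ → List ℕ → Set C, FDense U ∧
        ∀ (x : Nm C ℕ) (p : C), FMeet x U p → FMem (f i x) (g x) p

end Statement

end LM
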