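import Pool.Agent.Helper18.LM.EXA

/-!
# LM-E1: existence of the iteration

For every well-ordered `J` there is a countable support iteration of Laver forcing along `J`: the good
elements of `Pre ⊤`, for the well-order `WithTop J`.
-/

set_option autoImplicit false

namespace LM

namespace EX

variable {J : Type} [LinearOrder J] [WellFoundedLT J]

/-- the conditions -/
def Cn (J : Type) [LinearOrder J] [WellFoundedLT J] : Type := {p : Pre (⊤ : WithTop J) // Good p}

instance : Preorder (Cn J) where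
  le p q := Le p.1 q.1
  le_refl p := EX.le_refl p.1
  le_trans _ _ _ h h' := EX.le_trans h h'

theorem cn_le (p q : Cn J) : p ≤ q ↔ Le p.1 q.1 := Iff.rfl

/-- restriction -/
noncomputable def rc (i : J) (p : Cn J) : Cn J := ⟨tru (i : WithTop J) p.1, good_tru _ p.2⟩

/-- the restriction as an element of `Pre i` -/
noncomputable def rr (i : J) (p : Cn J) : Pre (i : WithTop J) := rst (WithTop.coe_lt_top i).le p.1

/-- the coordinate `i` as a name in `Pre i` -/
noncomputable def cc (p : Cn J) (i : J) : List ℕ → Set (Pre (i : WithTop J)) :=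
  co p.1 (i : WithTop J) (WithTop.coe_lt_top i)

theorem rc_eq_iff {i : J} {p : Cn J} : rc i p = p ↔ tru (i : WithTop J) p.1 = p.1 := Subtype.ext_iff

theorem rc_eq_iff' {i : J} {p : Cn J} : rc i p = p ↔ ∀ j : J, i ≤ j → cc p j = fun _ => {a | Good a} := by
  rw [rc_eq_iff, tru_eq_iff]
  constructor
  · intro h j hj
    exact h j (WithTop.coe_lt_top j) (by exact_mod_cast hj)
  · intro h k hk hik
    induction k with
    | top => exact absurd hk (lt_irrefl _)
    | coe j => exact h j (by exact_mod_cast hik)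

theorem cn_ext {p q : Cn J} (h : ∀ i : J, cc p i = cc q i) : p = q := by
  apply Subtype.ext
  apply co_inj
  funext k hk
  induction k with
  | top => exact absurd hk (lt_irrefl _)
  | coe j => exact h j

theorem good_rr (i : J) (p : Cn J) : Good (rr i p) := good_rst _ p.2

theorem rr_rc (i : J) (p : Cn J) : rr i (rc i p) = rr i p := rst_tru _ _

theorem rc_rc (i : J) (p : Cn J) : rc i (rc i p) = rc i p := by
  rw [rc_eq_iff', ]
  intro j hj
  exact co_tru_ge _ _ _ (by exact_mod_cast hj)

theorem le_iff_rr {i : J} {p q : Cn J} (hq : rc i q = q) : p ≤ q ↔ Le (rr i p) (rr i q) :=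
  le_iff_rst _ (rc_eq_iff.1 hq)

theorem exists_rr {i : J} {a : Pre (i : WithTop J)} (ha : Good a) : ∃ q : Cn J, rc i q = q ∧ rr i q = a := by
  obtain ⟨q, h1, h2, h3⟩ := exists_pad (WithTop.coe_lt_top i).le ha
  exact ⟨⟨q, h1⟩, rc_eq_iff.2 h2, h3⟩

theorem rr_inj {i : J} {p q : Cn J} (hp : rc i p = p) (hq : rc i q = q) (h : rr i p = rr i q) : p = q :=
  Subtype.ext (eq_of_rst _ (rc_eq_iff.1 hp) (rc_eq_iff.1 hq) h)

/-- the coordinates as names in `Cn J` -/
def tt (p : Cn J) (i : J) (s : List ℕ) : Set (Cn J) := {q | rc i q = q ∧ rr i q ∈ cc p i s}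

theorem good_of_cc {p : Cn J} {i : J} {s : List ℕ} {a : Pre (i : WithTop J)} (h : a ∈ cc p i s) : Good a :=
  (((good_iff p.1).1 p.2).1 (i : WithTop J) (WithTop.coe_lt_top i)).1 s a h

theorem fIn_iff {i : J} {A : Set (Cn J)} {B : Set (Pre (i : WithTop J))}
    (hA : ∀ q ∈ A, rc i q = q) (hB : ∀ b ∈ B, Good b) (hAB : ∀ q, rc i q = q → (q ∈ A ↔ rr i q ∈ B))
    {c : Cn J} (hc : rc i c = c) :
    FIn {q | rc i q = q} A c ↔ FInR (Good (j := (i : WithTop J))) (Le (j := (i : WithTop J))) B (rr i c) := by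
  constructor
  · intro h r hr hrc
    obtain ⟨q, h1, rfl⟩ := exists_rr hr
    obtain ⟨r', h2, h3, a, ha, h4⟩ := h q h1 ((le_iff_rr hc).2 hrc)
    exact ⟨rr i r', good_rr i r', (le_iff_rr h1).1 h3, rr i a, (hAB a (hA a ha)).1 ha,
      (le_iff_rr (hA a ha)).1 h4⟩
  · intro h r hr hrc
    obtain ⟨r', h2, h3, b, hb, h4⟩ := h (rr i r) (good_rr i r) ((le_iff_rr hc).1 hrc)
    obtain ⟨r₁, h5, rfl⟩ := exists_rr h2
    obtain ⟨a, h6, rfl⟩ := exists_rr (hB b hb)
    exact ⟨r₁, h5, (le_iff_rr hr).2 h3, a, (hAB a h6).2 hb, (le_iff_rr h6).2 h4⟩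

theorem fIn_tt {p : Cn J} {i : J} {s : List ℕ} {c : Cn J} (hc : rc i c = c) :
    FIn {q | rc i q = q} (tt p i s) c ↔
      FInR (Good (j := (i : WithTop J))) (Le (j := (i : WithTop J))) (cc p i s) (rr i c) :=
  fIn_iff (A := tt p i s) (B := cc p i s) (fun _ h => h.1) (fun _ h => good_of_cc h)
    (fun q hq => Iff.intro (fun h => h.2) (fun h => And.intro hq h)) hc

/-- the forcing statement about Laver trees is the same for both kinds of names -/
theorem fLaver_iff {i : J} {τ : List ℕ → Set (Cn J)} {σ : List ℕ → Set (Pre (i : WithTop J))}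
    (hτ : ∀ s, ∀ q ∈ τ s, rc i q = q) (hσ : ∀ s, ∀ b ∈ σ s, Good b)
    (h : ∀ s q, rc i q = q → (q ∈ τ s ↔ rr i q ∈ σ s)) :
    FLaver {q | rc i q = q} τ ↔ FLaverR (Good (j := (i : WithTop J))) (Le (j := (i : WithTop J))) σ := by
  have key : ∀ (s : List ℕ) (c : Cn J), rc i c = c → (FIn {q | rc i q = q} (τ s) c ↔
      FInR (Good (j := (i : WithTop J))) (Le (j := (i : WithTop J))) (σ s) (rr i c)) :=
    fun s c hc => fIn_iff (hτ s) (hσ s) (h s) hc
  constructor
  · intro h1 p hp
    obtain ⟨p, hp', rfl⟩ := exists_rr hp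
    obtain ⟨q, hq, hqp, s₀, h2, h3⟩ := h1 p hp'
    refine ⟨rr i q, good_rr i q, (le_iff_rr hp').1 hqp, s₀, (key s₀ q hq).1 h2, ?_⟩
    intro c hc hcq s hs
    obtain ⟨c, hc', rfl⟩ := exists_rr hc
    obtain ⟨h4, h5, h6⟩ := h3 c hc' ((le_iff_rr hq).2 hcq) s ((key s c hc').2 hs)
    refine ⟨h4, fun s' hs' => (key s' c hc').1 (h5 s' hs'), fun h7 n => ?_⟩
    obtain ⟨m, hm, c', hc'', h8, h9⟩ := h6 h7 n
    exact ⟨m, hm, rr i c', good_rr i c', (le_iff_rr hc').1 h8, (key _ c' hc'').1 h9⟩
  · intro h1 p hp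
    obtain ⟨q, hq, hqp, s₀, h2, h3⟩ := h1 (rr i p) (good_rr i p)
    obtain ⟨q, hq', rfl⟩ := exists_rr hq
    refine ⟨q, hq', (le_iff_rr hp).2 hqp, s₀, (key s₀ q hq').2 h2, ?_⟩
    intro c hc hcq s hs
    obtain ⟨h4, h5, h6⟩ := h3 (rr i c) (good_rr i c) ((le_iff_rr hq').1 hcq) s ((key s c hc).1 hs)
    refine ⟨h4, fun s' hs' => (key s' c hc).2 (h5 s' hs'), fun h7 n => ?_⟩
    obtain ⟨m, hm, c', hc', h8, h9⟩ := h6 h7 n
    obtain ⟨c', hc'', rfl⟩ := exists_rr hc'
    exact ⟨m, hm, c', hc'', (le_iff_rr hc).2 h8, (key _ c' hc'').2 h9⟩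

theorem tt_full {p : Cn J} {i : J} (h : cc p i = fun _ => {a | Good a}) :
    tt p i = fun _ => {q | rc i q = q} := by
  funext s
  ext q
  constructor
  · intro h1
    exact h1.1
  · intro h1
    refine ⟨h1, ?_⟩
    rw [h]
    exact good_rr i q

theorem cc_of_tt {p q : Cn J} {i : J} (h : tt p i = tt q i) : cc p i = cc q i := by
  have key : ∀ p q : Cn J, tt p i = tt q i → ∀ s, cc p i s ⊆ cc q i s := by
    intro p q h s a ha
    obtain ⟨r, h1, rfl⟩ := exists_rr (good_of_cc ha)
    have h2 : r ∈ tt p i s := ⟨h1, ha⟩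
    rw [h] at h2
    exact h2.2
  funext s
  exact Set.Subset.antisymm (key p q h s) (key q p h.symm s)

/-- the iteration -/
noncomputable def iter : LIter J (Cn J) where
  res := rc
  t := tt
  sub _ _ _ _ hq := hq.1
  laver p i := by
    refine (fLaver_iff (τ := tt p i) (σ := cc p i) (fun s q hq => hq.1) (fun s b hb => good_of_cc hb)
      (fun s q hq => Iff.intro (fun h => h.2) (fun h => And.intro hq h))).2 ?_
    exact (((good_iff p.1).1 p.2).1 (i : WithTop J) (WithTop.coe_lt_top i)).2
  ctb p := by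
    have h1 := ((good_iff p.1).1 p.2).2
    have h2 : (fun i : J => (i : WithTop J)) '' {i : J | tt p i ≠ fun _ => {q | rc i q = q}} ⊆
        {i : WithTop J | ∃ hi : i < ⊤, co p.1 i hi ≠ fun _ => {a | Good a}} := by
      rintro _ ⟨i, hi, rfl⟩
      exact ⟨WithTop.coe_lt_top i, fun h => hi (tt_full h)⟩
    exact Set.countable_of_injective_of_countable_image
      (fun a _ b _ hab => WithTop.coe_injective hab) (h1.mono h2)
  cond τ h1 h2 h3 := by
    classical
    let f : (k : WithTop J) → k < ⊤ → List ℕ → Set (Pre k) := fun k =>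
      match k with
      | (i : J) => fun _ s => {a | ∃ q ∈ τ i s, rr i q = a}
      | ⊤ => fun h => absurd h (lt_irrefl _)
    have hf : ∀ (i : J), co (mkp f) (i : WithTop J) (WithTop.coe_lt_top i) =
        fun s => {a | ∃ q ∈ τ i s, rr i q = a} := by
      intro i
      rw [co_mkp]
    have hmem : ∀ (i : J) (s : List ℕ) (q : Cn J), rc i q = q →
        (q ∈ τ i s ↔ rr i q ∈ {a | ∃ q ∈ τ i s, rr i q = a}) := by
      intro i s q hq
      constructor
      · intro h
        exact ⟨q, h, rfl⟩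
      · rintro ⟨q', h, h'⟩
        rwa [← rr_inj (h1 i s h) hq h']
    have hgood : Good (mkp f) := by
      rw [good_iff]
      refine ⟨fun k hk => ?_, ?_⟩
      · induction k with
        | top => exact absurd hk (lt_irrefl _)
        | coe i =>
          rw [hf i]
          refine ⟨?_, ?_⟩
          · rintro s a ⟨q, _, rfl⟩
            exact good_rr i q
          · refine (fLaver_iff (τ := τ i) (fun s q hq => h1 i s hq) ?_ (hmem i)).1 (h2 i)
            rintro s b ⟨q, _, rfl⟩
            exact good_rr i q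
      · refine (h3.image (fun i : J => (i : WithTop J))).mono ?_
        rintro k ⟨hk, hk'⟩
        induction k with
        | top => exact absurd hk (lt_irrefl _)
        | coe i =>
          refine ⟨i, ?_, rfl⟩
          intro h
          apply hk'
          rw [hf i]
          funext s
          ext a
          constructor
          · rintro ⟨q, _, rfl⟩
            exact good_rr i q
          · intro ha
            obtain ⟨q, hq, hqa⟩ := exists_rr (i := i) (a := a) ha
            refine ⟨q, ?_, hqa⟩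
            rw [h]
            exact hq
    refine ⟨⟨mkp f, hgood⟩, ?_⟩
    funext i s
    ext q
    constructor
    · rintro ⟨hq, h⟩
      unfold cc at h
      rw [hf i] at h
      exact (hmem i s q hq).2 h
    · intro h
      refine ⟨h1 i s h, ?_⟩
      unfold cc
      rw [hf i]
      exact ⟨q, h, rfl⟩
  ext p q h := cn_ext fun i => cc_of_tt (congrFun h i)
  res_lt i p j hj := by
    have h : cc (rc i p) j = cc p j := co_tru_lt _ _ _ (by exact_mod_cast hj)
    funext s
    ext q
    unfold tt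
    rw [h]
  res_ge i p j hj := tt_full (co_tru_ge _ _ _ (by exact_mod_cast hj))
  le_iff p q := by
    rw [cn_le, EX.le_iff]
    constructor
    · intro h i s c hc hcp h1
      rw [fIn_tt hc] at h1 ⊢
      refine h (i : WithTop J) (WithTop.coe_lt_top i) s (rr i c) (good_rr i c) ?_ h1
      have h2 := (le_iff_rr (rc_rc i p)).1 hcp
      rwa [rr_rc] at h2
    · intro h k hk s c hc h1 h2
      induction k with
      | top => exact absurd hk (lt_irrefl _)
      | coe i =>
        obtain ⟨c, hc', rfl⟩ := exists_rr hc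
        have h3 := h i s c hc'
        rw [fIn_tt hc', fIn_tt hc'] at h3
        refine h3 ?_ h2
        rw [le_iff_rr (rc_rc i p), rr_rc]
        exact h1

end EX

theorem exists_liter (J : Type) [LinearOrder J] [WellFoundedLT J] :
    ∃ (C : Type) (_ : Preorder C), Nonempty (LIter J C) :=
  ⟨EX.Cn J, inferInstance, ⟨EX.iter⟩⟩

end LM
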