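import Pool.Agent.Helper18.LM.Defs

/-!
# Existence of the iteration, part A: the recursion
-/

set_option autoImplicit false

namespace LM

namespace EX

/-- `FIn` for a relation -/
def FInR {α : Type} (G : α → Prop) (R : α → α → Prop) (A : Set α) (c : α) : Prop :=
  ∀ r, G r → R r c → ∃ r', G r' ∧ R r' r ∧ ∃ a ∈ A, R r' a

/-- `FLaver` for a relation -/
def FLaverR {α : Type} (G : α → Prop) (R : α → α → Prop) (τ : List ℕ → Set α) : Prop :=
  ∀ p, G p → ∃ q, G q ∧ R q p ∧ ∃ s₀ : List ℕ, FInR G R (τ s₀) q ∧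
    ∀ c, G c → R c q → ∀ s : List ℕ, FInR G R (τ s) c →
      (s <:+ s₀ ∨ s₀ <:+ s) ∧ (∀ s' : List ℕ, s' <:+ s → FInR G R (τ s') c) ∧
      (s₀ <:+ s → ∀ n : ℕ, ∃ m : ℕ, n ≤ m ∧ ∃ c', G c' ∧ R c' c ∧ FInR G R (τ (m :: s)) c')

variable {K : Type} [LinearOrder K] [WellFoundedLT K]

/-- families of names, by recursion -/
noncomputable def Pre : K → Type := WellFounded.fix (C := fun _ => Type) (wellFounded_lt (α := K))
  (fun j F => (k : K) → (h : k < j) → List ℕ → Set (F k h))

theorem pre_eq (j : K) : Pre j = ((k : K) → k < j → List ℕ → Set (Pre k)) := by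
  unfold Pre
  rw [WellFounded.fix_eq]

/-- coordinates -/
noncomputable def co {j : K} (p : Pre j) : (k : K) → k < j → List ℕ → Set (Pre k) :=
  cast (pre_eq j) p

/-- families from coordinates -/
noncomputable def mkp {j : K} (f : (k : K) → k < j → List ℕ → Set (Pre k)) : Pre j :=
  cast (pre_eq j).symm f

theorem co_mkp {j : K} (f : (k : K) → k < j → List ℕ → Set (Pre k)) : co (mkp f) = f := by
  unfold co mkp
  simp

theorem mkp_co {j : K} (p : Pre j) : mkp (co p) = p := by
  unfold co mkp
  simp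

theorem co_inj {j : K} {p q : Pre j} (h : co p = co q) : p = q := by
  rw [← mkp_co p, ← mkp_co q, h]

/-- restriction -/
noncomputable def rst {i j : K} (h : i ≤ j) (p : Pre j) : Pre i :=
  mkp (fun k hk => co p k (hk.trans_le h))

theorem co_rst {i j : K} (h : i ≤ j) (p : Pre j) (k : K) (hk : k < i) :
    co (rst h p) k hk = co p k (hk.trans_le h) := by
  unfold rst
  rw [co_mkp]

theorem rst_rst {i j k : K} (h : i ≤ j) (h' : j ≤ k) (p : Pre k) :
    rst h (rst h' p) = rst (h.trans h') p := by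
  apply co_inj
  funext l hl
  rw [co_rst, co_rst, co_rst]

/-- the good families, and the order -/
noncomputable def gdl : (j : K) → (Pre j → Prop) × (Pre j → Pre j → Prop) :=
  WellFounded.fix (C := fun j => (Pre j → Prop) × (Pre j → Pre j → Prop)) (wellFounded_lt (α := K))
    (fun j F =>
      (fun p => (∀ (i : K) (hi : i < j), (∀ s, ∀ a ∈ co p i hi s, (F i hi).1 a) ∧
          FLaverR (F i hi).1 (F i hi).2 (co p i hi)) ∧
        {i : K | ∃ hi : i < j, co p i hi ≠ fun _ => {a | (F i hi).1 a}}.Countable,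
      fun p q => ∀ (i : K) (hi : i < j) (s : List ℕ) (c : Pre i), (F i hi).1 c →
        (F i hi).2 c (rst hi.le p) → FInR (F i hi).1 (F i hi).2 (co p i hi s) c →
        FInR (F i hi).1 (F i hi).2 (co q i hi s) c))

def Good {j : K} (p : Pre j) : Prop := (gdl j).1 p

def Le {j : K} (p q : Pre j) : Prop := (gdl j).2 p q

theorem good_iff {j : K} (p : Pre j) : Good p ↔
    (∀ (i : K) (hi : i < j), (∀ s, ∀ a ∈ co p i hi s, Good a) ∧
      FLaverR (Good (j := i)) (Le (j := i)) (co p i hi)) ∧
    {i : K | ∃ hi : i < j, co p i hi ≠ fun _ => {a | Good a}}.Countable := by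
  unfold Good Le
  conv_lhs => rw [gdl, WellFounded.fix_eq]
  rfl

theorem le_iff {j : K} (p q : Pre j) : Le p q ↔
    ∀ (i : K) (hi : i < j) (s : List ℕ) (c : Pre i), Good c → Le c (rst hi.le p) →
      FInR (Good (j := i)) (Le (j := i)) (co p i hi s) c →
      FInR (Good (j := i)) (Le (j := i)) (co q i hi s) c := by
  unfold Good Le
  conv_lhs => rw [gdl, WellFounded.fix_eq]
  rfl

theorem le_refl {j : K} (p : Pre j) : Le p p := by
  rw [le_iff]
  intro i hi s c _ _ h
  exact h

theorem le_rst {i j : K} (h : i ≤ j) {p q : Pre j} (hpq : Le p q) : Le (rst h p) (rst h q) := by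
  rw [le_iff] at *
  intro k hk s c hc h1 h2
  rw [rst_rst] at h1
  rw [co_rst] at h2 ⊢
  exact hpq k (hk.trans_le h) s c hc h1 h2

theorem le_trans {j : K} {p q r : Pre j} (h : Le p q) (h' : Le q r) : Le p r := by
  induction j using WellFoundedLT.induction with
  | ind j ih =>
    have h1 := (le_iff p q).1 h
    have h2 := (le_iff q r).1 h'
    rw [le_iff]
    intro i hi s c hc h3 h4
    exact h2 i hi s c hc (ih i hi h3 (le_rst hi.le h)) (h1 i hi s c hc h3 h4)

theorem fInR_full {j : K} (c : Pre j) : FInR (Good (j := j)) (Le (j := j)) {a | Good a} c :=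
  fun r hr _ => ⟨r, hr, le_refl r, r, hr, le_refl r⟩

theorem fLaverR_full (j : K) :
    FLaverR (Good (j := j)) (Le (j := j)) (fun _ => {a : Pre j | Good a}) := by
  intro p hp
  refine ⟨p, hp, le_refl p, [], fInR_full p, fun c hc _ s _ => ⟨?_, fun s' _ => fInR_full c, ?_⟩⟩
  · exact Or.inr s.nil_suffix
  · intro _ n
    exact ⟨n, _root_.le_refl n, c, hc, le_refl c, fInR_full c⟩

theorem good_rst {i j : K} (h : i ≤ j) {p : Pre j} (hp : Good p) : Good (rst h p) := by
  rw [good_iff] at *
  refine ⟨fun k hk => ?_, hp.2.mono ?_⟩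
  · rw [co_rst]
    exact hp.1 k (hk.trans_le h)
  · rintro k ⟨hk, hk'⟩
    rw [co_rst] at hk'
    exact ⟨hk.trans_le h, hk'⟩

open Classical in
/-- truncation at `i`: the coordinates from `i` on are replaced by full names -/
noncomputable def tru {j : K} (i : K) (p : Pre j) : Pre j :=
  mkp (fun k hk s => if k < i then co p k hk s else {a | Good a})

theorem co_tru_lt {j : K} (i : K) (p : Pre j) {k : K} (hk : k < j) (h : k < i) :
    co (tru i p) k hk = co p k hk := by
  unfold tru
  rw [co_mkp]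
  simp [h]

theorem co_tru_ge {j : K} (i : K) (p : Pre j) {k : K} (hk : k < j) (h : i ≤ k) :
    co (tru i p) k hk = fun _ => {a | Good a} := by
  unfold tru
  rw [co_mkp]
  simp [not_lt.2 h]

theorem good_tru {j : K} (i : K) {p : Pre j} (hp : Good p) : Good (tru i p) := by
  rw [good_iff] at *
  refine ⟨fun k hk => ?_, hp.2.mono ?_⟩
  · by_cases h : k < i
    · rw [co_tru_lt i p hk h]
      exact hp.1 k hk
    · rw [co_tru_ge i p hk (not_lt.1 h)]
      exact ⟨fun s a ha => ha, fLaverR_full k⟩
  · rintro k ⟨hk, hk'⟩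
    refine ⟨hk, ?_⟩
    by_cases h : k < i
    · rwa [co_tru_lt i p hk h] at hk'
    · rw [co_tru_ge i p hk (not_lt.1 h)] at hk'
      exact absurd rfl hk'

theorem rst_tru {i j : K} (h : i ≤ j) (p : Pre j) : rst h (tru i p) = rst h p := by
  apply co_inj
  funext k hk
  rw [co_rst, co_rst, co_tru_lt i p _ hk]

theorem tru_eq_iff {j : K} (i : K) (p : Pre j) :
    tru i p = p ↔ ∀ (k : K) (hk : k < j), i ≤ k → co p k hk = fun _ => {a | Good a} := by
  constructor
  · intro h k hk hik
    rw [← h, co_tru_ge i p hk hik]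
  · intro h
    apply co_inj
    funext k hk
    by_cases hki : k < i
    · rw [co_tru_lt i p hk hki]
    · rw [co_tru_ge i p hk (not_lt.1 hki), h k hk (not_lt.1 hki)]

/-- for `q` truncated at `i` the order is determined by the restrictions to `i` -/
theorem le_iff_rst {i j : K} (h : i ≤ j) {p q : Pre j} (hq : tru i q = q) :
    Le p q ↔ Le (rst h p) (rst h q) := by
  refine ⟨le_rst h, fun h1 => ?_⟩
  rw [le_iff]
  intro k hk s c hc h2 h3
  by_cases hki : k < i
  · rw [le_iff] at h1
    have h4 := h1 k hki s c hc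
    rw [rst_rst, co_rst, co_rst] at h4
    exact h4 h2 h3
  · rw [(tru_eq_iff i q).1 hq k hk (not_lt.1 hki)]
    exact fInR_full c

/-- padding by full names -/
theorem exists_pad {i j : K} (h : i ≤ j) {a : Pre i} (ha : Good a) :
    ∃ q : Pre j, Good q ∧ tru i q = q ∧ rst h q = a := by
  classical
  let q : Pre j := mkp (fun k hk s => if hki : k < i then co a k hki s else {a | Good a})
  have h1 : ∀ (k : K) (hk : k < j) (hki : k < i), co q k hk = co a k hki := by
    intro k hk hki
    simp only [q, co_mkp, hki, dite_true]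
  have h2 : ∀ (k : K) (hk : k < j), i ≤ k → co q k hk = fun _ => {a | Good a} := by
    intro k hk hki
    simp only [q, co_mkp, not_lt.2 hki, dite_false]
  refine ⟨q, ?_, (tru_eq_iff i q).2 h2, ?_⟩
  · rw [good_iff] at *
    refine ⟨fun k hk => ?_, ha.2.mono ?_⟩
    · by_cases hki : k < i
      · rw [h1 k hk hki]
        exact ha.1 k hki
      · rw [h2 k hk (not_lt.1 hki)]
        exact ⟨fun s a ha => ha, fLaverR_full k⟩
    · rintro k ⟨hk, hk'⟩
      by_cases hki : k < i
      · exact ⟨hki, by rwa [h1 k hk hki] at hk'⟩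
      · rw [h2 k hk (not_lt.1 hki)] at hk'
        exact absurd rfl hk'
  · apply co_inj
    funext k hk
    rw [co_rst, h1 k _ hk]

theorem eq_of_rst {i j : K} (h : i ≤ j) {p q : Pre j} (hp : tru i p = p) (hq : tru i q = q)
    (he : rst h p = rst h q) : p = q := by
  apply co_inj
  funext k hk
  by_cases hki : k < i
  · rw [← co_rst h p k hki, ← co_rst h q k hki, he]
  · rw [(tru_eq_iff i p).1 hp k hk (not_lt.1 hki), (tru_eq_iff i q).1 hq k hk (not_lt.1 hki)]

end EX

end LM
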