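import Pool.Agent.Helper18.LM.TreeB

/-!
# LM-T3: components (about 120 lines)

`comp T n k` consists of the nodes of `T` comparable with `nd T k` which do not extend any canonical
node `nd T k'`, `k' ≤ n`, properly extending `nd T k`.  It is a Laver tree with stem `nd T k`: a node
`u` of `comp T n k` extending `nd T k` has infinitely many successors in `T`, and only finitely many of
them (at most `n + 1`) are of the form `nd T k'` with `k' ≤ n`; a successor `m :: u` extends `nd T k'`
only if `u` does or `m :: u = nd T k'`.  Nodes below `nd T k` do not extend any `nd T k'` which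
properly extends `nd T k`.

`br_comp`: a branch `f` of `T` passes the stem `nd T 0`.  If `pos T n f = k` then `nd T k` is on `f`
(`isg_pos`), and `nd T k'` is not on `f` for `k < k' ≤ n`; for `k' ≤ n`, `k' ≠ k`,
`nd T k <:+ nd T k'` one has `k < k'` (`le_of_nd_suf`), so `nd T k'` is not on `f`.  Conversely, if `f`
is a branch of `comp T n k` then `nd T k` is on `f` (look at a long initial segment), and if `k' ≤ n`,
`k < k'`, were on `f` then `nd T k <:+ nd T k'` and `ini f (length of nd T k') = nd T k'` is not in
`comp T n k`.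
-/

set_option autoImplicit false

namespace LM

variable {T T' : Set (List ℕ)} {n k : ℕ} {f : ℕ → ℕ}

private theorem fg_congr {P Q : ℕ → Prop} [DecidablePred P] [DecidablePred Q] (n : ℕ)
    (h : ∀ i ≤ n, (P i ↔ Q i)) : Nat.findGreatest P n = Nat.findGreatest Q n := by
  induction n with
  | zero => rfl
  | succ n ih =>
    have ih' := ih fun i hi => h i (Nat.le_succ_of_le hi)
    by_cases hP : P (n + 1)
    · rw [Nat.findGreatest_eq hP, Nat.findGreatest_eq ((h _ le_rfl).mp hP)]
    · rw [Nat.findGreatest_of_not hP, Nat.findGreatest_of_not fun hQ => hP ((h _ le_rfl).mpr hQ),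
        ih']

private theorem suf_antisymm {u v : List ℕ} (h : u <:+ v) (h' : v <:+ u) : u = v :=
  h.eq_of_length (le_antisymm h.length_le h'.length_le)

theorem pos_le (T : Set (List ℕ)) (n : ℕ) (f : ℕ → ℕ) : pos T n f ≤ n := by
  classical
  exact Nat.findGreatest_le n

theorem isg_pos (h : LTree T) (hb : Br T f) (n : ℕ) : Isg (nd T (pos T n f)) f := by
  classical
  unfold pos
  refine Nat.findGreatest_spec (P := fun k => Isg (nd T k) f) (Nat.zero_le n) ?_
  show Isg (nd T 0) f
  rw [nd_zero]
  exact hb.isg_stem h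

theorem le_pos (hk : k ≤ n) (hi : Isg (nd T k) f) : k ≤ pos T n f := by
  classical
  unfold pos
  exact Nat.le_findGreatest hk hi

theorem pos_congr (h : ∀ i ≤ n, nd T' i = nd T i) (f : ℕ → ℕ) : pos T' n f = pos T n f := by
  classical
  unfold pos
  apply fg_congr
  intro i hi
  rw [h i hi]

/-- the position changes at stage `n + 1` only if the new canonical node is on `f` -/
theorem pos_succ_of_not (h : ¬ Isg (nd T (n + 1)) f) : pos T (n + 1) f = pos T n f := by
  classical
  unfold pos
  exact Nat.findGreatest_of_not h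

theorem comp_subset (T : Set (List ℕ)) (n k : ℕ) : comp T n k ⊆ T := fun _ h => h.1

theorem comp_isStem (h : LTree T) (hk : k ≤ n) : IsStem (comp T n k) (nd T k) := by
  refine ⟨⟨nd_mem h k, Or.inl List.suffix_rfl, ?_⟩, ?_, fun u hu => hu.2.1, ?_⟩
  · intro k' _ hne hs hs'
    exact hne (nd_inj h (suf_antisymm hs' hs))
  · intro u hu v hv
    refine ⟨h.closed hu.1 hv, ?_, fun k' hk' hne hs hs' => hu.2.2 k' hk' hne hs (hs'.trans hv)⟩
    rcases hu.2.1 with h1 | h1
    · exact Or.inl (hv.trans h1)
    · exact List.suffix_or_suffix_of_suffix hv h1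
  · intro u hu hs N
    have hinf := h.inf hu.1 ((stem_suf_nd T k).trans hs)
    have hfin : {m | ∃ k' ≤ n, m :: u = nd T k'}.Finite := by
      refine ((Set.finite_Iic n).image fun k' => (nd T k').headI).subset ?_
      rintro m ⟨k', hk', he⟩
      exact ⟨k', hk', by simp only [← he, List.headI_cons]⟩
    obtain ⟨m, ⟨hm, hm'⟩, hN⟩ := (hinf.sdiff hfin).exists_gt N
    refine ⟨m, hN.le, hm, Or.inr (hs.trans (List.suffix_cons m u)), ?_⟩
    intro k' hk' hne h1 h2
    rcases List.suffix_cons_iff.mp h2 with h3 | h3
    · exact hm' ⟨k', hk', h3.symm⟩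
    · exact hu.2.2 k' hk' hne h1 h3

theorem br_comp (h : LTree T) (hk : k ≤ n) : Br (comp T n k) f ↔ Br T f ∧ pos T n f = k := by
  constructor
  · intro hb
    have hb' : Br T f := hb.mono (comp_subset T n k)
    have hi : Isg (nd T k) f := by
      have h1 := (hb (nd T k).length).2.1
      rcases h1 with h1 | h1
      · exact h1.eq_of_length (ini_length _ _)
      · exact (h1.eq_of_length (ini_length _ _).symm).symm
    refine ⟨hb', le_antisymm ?_ (le_pos hk hi)⟩
    by_contra hlt
    push Not at hlt
    have h2 := isg_pos h hb' n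
    have h3 := nd_suf_of_isg h hi h2 hlt.le
    have h4 := hb (nd T (pos T n f)).length
    have h5 : ini f (nd T (pos T n f)).length = nd T (pos T n f) := h2
    rw [h5] at h4
    exact h4.2.2 _ (pos_le T n f) hlt.ne' h3 List.suffix_rfl
  · rintro ⟨hb, hp⟩ m
    have hi : Isg (nd T k) f := by
      rw [← hp]
      exact isg_pos h hb n
    refine ⟨hb m, ?_, ?_⟩
    · have h1 : ini f (nd T k).length = nd T k := hi
      rw [← h1]
      rcases le_total m (nd T k).length with h2 | h2
      · exact Or.inl (ini_suf f h2)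
      · exact Or.inr (ini_suf f h2)
    · intro k' hk' hne h1 h2
      have h3 : Isg (nd T k') f := (suf_ini h2).symm
      have h4 := le_pos hk' h3
      rw [hp] at h4
      exact hne (le_antisymm h4 (le_of_nd_suf h h1))

theorem comp_mono (hs : T' ⊆ T) (hn : ∀ i ≤ n, nd T' i = nd T i) (hk : k ≤ n) :
    comp T' n k ⊆ comp T n k := by
  rintro s ⟨h1, h2, h3⟩
  rw [hn k hk] at h2 h3
  refine ⟨hs h1, h2, fun k' hk' hne h4 h5 => h3 k' hk' hne ?_ ?_⟩
  · rw [hn k' hk']; exact h4
  · rw [hn k' hk']; exact h5

end LM
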