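import Pool.Agent.Helper18.LM.RealC
import Pool.Agent.Helper18.LM.TreeC

/-!
# Definitions for the fusion argument
-/

set_option autoImplicit false

namespace LM

/-- A set of conditions is sigma-closed if every condition forcing the generic filter to meet a given
countable subset of it belongs to it. -/
def Sig {C : Type} [Preorder C] (D : Set C) : Prop :=
  ∀ (u : C) (w : ℕ → C), (∀ n, w n ∈ D) → Frc u (fun G => ∃ n, w n ∈ G.S) → u ∈ D

namespace LIter

variable {J C : Type} [LinearOrder J] [Preorder C] (L : LIter J C)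

/-- `p ≤ q` and the canonical nodes with index `≤ n` at the coordinates in `F` are the same -/
def leF (F : Finset J) (n : ℕ) (p q : C) : Prop :=
  p ≤ q ∧ ∀ ξ ∈ F, Frc p (fun G => ∀ k ≤ n, nd (L.tr p ξ G) k = nd (L.tr q ξ G) k)

/-- the forcing below `ζ` is distributive with respect to sigma-closed dense sets -/
def CapO (ζ : WithTop J) : Prop :=
  ∀ p : C, L.rs ζ p = p → ∀ D : ℕ → Set C, (∀ k, Sig (D k)) →
    (∀ (k : ℕ) (q : C), L.rs ζ q = q → q ≤ p → ∃ r, L.rs ζ r = r ∧ r ≤ q ∧ r ∈ D k) →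
    ∃ q, L.rs ζ q = q ∧ q ≤ p ∧ ∀ k, q ∈ D k

/-- the restrictions to the coordinates below `ξ` of the conditions `u ≤ p` in `D` which force that
the stem at `ξ` is `t` -/
def Wt (ξ : J) (p : C) (D : Set C) (t : List ℕ) : Set C :=
  {w | ∃ u, u ≤ p ∧ u ∈ D ∧ L.rs ξ u = w ∧ Frc u (fun G => stem (L.tr u ξ G) = t)}

/-- the positions at stage `n` of the coordinates in `F`, with respect to the trees of `p`, are given
by `σ` -/
def PosIs (p : C) (F : Finset J) (n : ℕ) (σ : J → ℕ) (G : Flt C) : Prop :=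
  ∀ ξ ∈ F, pos (L.tr p ξ G) n (L.lr ξ G) = σ ξ

end LIter

end LM
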