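import Pool.Agent.Helper18.LM.Fus

/-!
# LM-Q1: elementary facts on the relations `leF` and on sigma-closed sets (about 120 lines)

`sig_frc`: the statement `φ` holds for almost every `G` containing some `w n`.
`sig_preimage`: if `u` forces `∃ n, w n ∈ G.S` then it forces `∃ n, L.rs ζ (w n) ∈ G.S`
(`(L.pj ζ).le`, `G.up`), which is a statement decided by the conditions below `ζ` (`dcd_exists`,
`dcd_mem`, `idem`), so by `frc_rs` `L.rs ζ u` forces it.
`leF_rs`: `L.tr (L.rs ζ p) ξ = L.tr p ξ` for `ξ < ζ` (`tr_rs`) and the statement about the canonical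
nodes is decided below `ξ` (`measurable_tr`, `measurable_nd`), use `frc_rs` and `Bm_mono`.
`posIs_congr`: `pos_congr` and `leF`.
-/

set_option autoImplicit false

namespace LM

theorem Sig.anti {C : Type} [Preorder C] {D : Set C} (h : Sig D) {p q : C} (hp : p ∈ D) (hq : q ≤ p) :
    q ∈ D :=
  h q (fun _ => p) (fun _ => hp) (Filter.Eventually.of_forall fun G hG => ⟨0, G.up hG hq⟩)

theorem sig_frc {C : Type} [Preorder C] (φ : Flt C → Prop) : Sig {u : C | Frc u φ} := by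
  intro u w hw hu
  have h1 : ∀ᶠ G in Gen C, ∀ n, w n ∈ G.S → φ G := eventually_countable_forall.2 hw
  show Frc u φ
  unfold Frc at *
  filter_upwards [h1, hu] with G h2 h3 h4
  obtain ⟨n, hn⟩ := h3 h4
  exact h2 n hn

theorem sig_countable {C : Type} [Preorder C] {ι : Type*} [Countable ι] {D : Set C} (h : Sig D) {u : C}
    (w : ι → C) (hw : ∀ i, w i ∈ D) (hu : Frc u (fun G => ∃ i, w i ∈ G.S)) : u ∈ D := by
  obtain ⟨G, _, i₀, _⟩ := frc_exists hu
  have : Nonempty ι := ⟨i₀⟩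
  obtain ⟨f, hf⟩ := exists_surjective_nat ι
  refine h u (fun n => w (f n)) (fun n => hw _) (hu.mono (le_refl u) fun G hG => ?_)
  obtain ⟨i, hi⟩ := hG
  obtain ⟨n, rfl⟩ := hf i
  exact ⟨n, hi⟩

namespace LIter

variable {J C : Type} [LinearOrder J] [Preorder C] (L : LIter J C)

theorem sig_preimage (ζ : WithTop J) {D : Set C} (h : Sig D) : Sig {u : C | L.rs ζ u ∈ D} := by
  intro u w hw hu
  refine h (L.rs ζ u) (fun n => L.rs ζ (w n)) hw ?_
  have hm : @MeasurableSet _ (L.Bm ζ) {G : Flt C | ∃ n, L.rs ζ (w n) ∈ G.S} :=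
    (L.pj ζ).dcd_exists fun n => (L.pj ζ).dcd_mem ((L.pj ζ).idem _)
  rw [L.frc_rs hm]
  refine hu.mono (le_refl u) fun G hG => ?_
  obtain ⟨n, hn⟩ := hG
  exact ⟨n, G.up hn (L.le_rs ζ _)⟩

theorem fa_measurable_tr {i : J} {ζ : WithTop J} (h : (i : WithTop J) ≤ ζ) (p : C) :
    @Measurable _ _ (L.Bm ζ) _ (L.tr p i) :=
  (L.measurable_tr p i).mono (L.Bm_mono h) le_rfl

theorem fa_measurableSet_nd {i : J} {ζ : WithTop J} (h : (i : WithTop J) ≤ ζ) (p q : C) (n : ℕ) :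
    @MeasurableSet _ (L.Bm ζ) {G | ∀ k ≤ n, nd (L.tr p i G) k = nd (L.tr q i G) k} := by
  let _ := L.Bm ζ
  have h1 : {G | ∀ k ≤ n, nd (L.tr p i G) k = nd (L.tr q i G) k} =
      ⋂ k : ℕ, ⋂ _ : k ≤ n, {G | nd (L.tr p i G) k = nd (L.tr q i G) k} := by
    ext G
    simp
  rw [h1]
  refine MeasurableSet.iInter fun k => MeasurableSet.iInter fun _ => ?_
  have h2 : {G | nd (L.tr p i G) k = nd (L.tr q i G) k} =
      ⋃ t : List ℕ, ({G | nd (L.tr p i G) k = t} ∩ {G | nd (L.tr q i G) k = t}) := by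
    ext G
    simp [eq_comm]
  rw [h2]
  exact MeasurableSet.iUnion fun t =>
    (((measurable_nd k).comp (L.fa_measurable_tr h p)) (measurableSet_singleton t)).inter
      (((measurable_nd k).comp (L.fa_measurable_tr h q)) (measurableSet_singleton t))

theorem leF_refl (F : Finset J) (n : ℕ) (p : C) : L.leF F n p p :=
  ⟨le_refl p, fun _ _ => frc_of_ae (Filter.Eventually.of_forall fun _ _ _ => rfl)⟩

theorem leF_trans {F : Finset J} {n : ℕ} {p q r : C} (h : L.leF F n p q) (h' : L.leF F n q r) :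
    L.leF F n p r := by
  refine ⟨h.1.trans h'.1, fun ξ hξ => ?_⟩
  refine ((h.2 ξ hξ).and ((h'.2 ξ hξ).anti h.1)).mono (le_refl p) fun G hG k hk => ?_
  rw [hG.1 k hk, hG.2 k hk]

theorem leF_mono {F F' : Finset J} {n n' : ℕ} {p q : C} (h : L.leF F n p q) (hF : F' ⊆ F)
    (hn : n' ≤ n) : L.leF F' n' p q :=
  ⟨h.1, fun ξ hξ => (h.2 ξ (hF hξ)).mono (le_refl p) fun _ hG k hk => hG k (hk.trans hn)⟩

theorem leF_rs {ζ : WithTop J} {F : Finset J} {n : ℕ} {p q : C} (h : L.leF F n p q)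
    (hF : ∀ ξ ∈ F, (ξ : WithTop J) < ζ) : L.leF F n (L.rs ζ p) (L.rs ζ q) := by
  refine ⟨L.rs_mono ζ p q h.1, fun ξ hξ => ?_⟩
  rw [L.tr_rs (hF ξ hξ), L.tr_rs (hF ξ hξ), L.frc_rs (L.fa_measurableSet_nd (hF ξ hξ).le p q n)]
  exact h.2 ξ hξ

/-- the equality of the canonical nodes is forced by the restriction -/
theorem leF_nd {F : Finset J} {n : ℕ} {p q : C} (h : L.leF F n p q) {ξ : J} (hξ : ξ ∈ F) :
    ∀ᶠ G in Gen C, L.rs ξ p ∈ G.S → ∀ k ≤ n, nd (L.tr p ξ G) k = nd (L.tr q ξ G) k :=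
  (L.frc_rs (L.fa_measurableSet_nd le_rfl p q n)).2 (h.2 ξ hξ)

theorem posIs_congr {F : Finset J} {n : ℕ} {p q : C} (h : L.leF F n p q) (σ : J → ℕ) :
    ∀ᶠ G in Gen C, p ∈ G.S → (L.PosIs p F n σ G ↔ L.PosIs q F n σ G) := by
  have h1 : ∀ᶠ G in Gen C, ∀ ξ ∈ F, p ∈ G.S →
      ∀ k ≤ n, nd (L.tr p ξ G) k = nd (L.tr q ξ G) k :=
    (Filter.eventually_all_finset F).2 fun ξ hξ => h.2 ξ hξ
  filter_upwards [h1] with G h2 h3
  have h4 : ∀ ξ ∈ F, pos (L.tr p ξ G) n (L.lr ξ G) = pos (L.tr q ξ G) n (L.lr ξ G) :=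
    fun ξ hξ => pos_congr (h2 ξ hξ h3) _
  constructor
  · intro h5 ξ hξ
    rw [← h4 ξ hξ]
    exact h5 ξ hξ
  · intro h5 ξ hξ
    rw [h4 ξ hξ]
    exact h5 ξ hξ

theorem measurable_pos_lr {i : J} {ζ : WithTop J} (h : (i : WithTop J) < ζ) (p : C) (n : ℕ) :
    @Measurable _ _ (L.Bm ζ) _ (fun G => pos (L.tr p i G) n (L.lr i G)) := by
  let _ := L.Bm ζ
  exact (measurable_pos n).comp ((L.fa_measurable_tr h.le p).prodMk (L.measurable_lr h))

/-- measurability of the statements about positions -/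
theorem measurableSet_posIs (p : C) (F : Finset J) (n : ℕ) (σ : J → ℕ) :
    @MeasurableSet _ (L.Bm ⊤) {G | L.PosIs p F n σ G} := by
  let _ := L.Bm ⊤
  have h1 : {G | L.PosIs p F n σ G} = ⋂ ξ ∈ F, {G | pos (L.tr p ξ G) n (L.lr ξ G) = σ ξ} := by
    ext G
    simp only [PosIs, Set.mem_ofPred_eq, Set.mem_iInter]
  rw [h1]
  refine Finset.measurableSet_biInter F fun ξ _ => ?_
  exact L.measurable_pos_lr (WithTop.coe_lt_top ξ) p n (measurableSet_singleton (σ ξ))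

end LIter

end LM
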