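import Pool.Agent.Helper18.LM.Defs

/-!
# Generic filters, almost everywhere

`Flt C` is the set of all filters of conditions, `Gen C` is the (countably complete) filter on `Flt C`
generated by the sets of all `G` which meet a given dense set.  `Frc p φ` says that almost every filter
`G` containing `p` satisfies `φ`.
-/

set_option autoImplicit false

namespace LM

/-- a filter of conditions -/
structure Flt (C : Type) [Preorder C] where
  S : Set C
  ne : S.Nonempty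
  up : ∀ {p q : C}, p ∈ S → p ≤ q → q ∈ S
  dir : ∀ {p q : C}, p ∈ S → q ∈ S → ∃ r ∈ S, r ≤ p ∧ r ≤ q

section

variable {C : Type} [Preorder C]

/-- dense sets of conditions -/
def Dns (D : Set C) : Prop := ∀ p, ∃ q ∈ D, q ≤ p

/-- the filter `G` meets the set `A` -/
def Mts (A : Set C) (G : Flt C) : Prop := ∃ q ∈ A, q ∈ G.S

/-- The filter generated by the sets of filters meeting a dense set, with countable intersections. -/
def Gen (C : Type) [Preorder C] : Filter (Flt C) where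
  sets := {s | ∃ D : ℕ → Set C, (∀ n, Dns (D n)) ∧ ∀ G : Flt C, (∀ n, Mts (D n) G) → G ∈ s}
  univ_sets := ⟨fun _ => Set.univ, fun _ p => ⟨p, trivial, le_refl p⟩, fun _ _ => trivial⟩
  sets_of_superset := by
    rintro s t ⟨D, hD, h⟩ hst
    exact ⟨D, hD, fun G hG => hst (h G hG)⟩
  inter_sets := by
    rintro s t ⟨D, hD, h⟩ ⟨D', hD', h'⟩
    refine ⟨fun n => if n % 2 = 0 then D (n / 2) else D' (n / 2), fun n => ?_, fun G hG => ?_⟩
    · dsimp only
      split_ifs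
      · exact hD _
      · exact hD' _
    · refine ⟨h G fun n => ?_, h' G fun n => ?_⟩
      · have := hG (2 * n)
        simpa using this
      · have h1 := hG (2 * n + 1)
        have h2 : (2 * n + 1) % 2 ≠ 0 := by omega
        have h3 : (2 * n + 1) / 2 = n := by omega
        simp only [h2, if_false, h3] at h1
        exact h1

theorem mem_gen {s : Set (Flt C)} : s ∈ Gen C ↔
    ∃ D : ℕ → Set C, (∀ n, Dns (D n)) ∧ ∀ G : Flt C, (∀ n, Mts (D n) G) → G ∈ s := Iff.rfl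

instance : CountableInterFilter (Gen C) := by
  refine ⟨fun S hS h => ?_⟩
  rcases S.eq_empty_or_nonempty with rfl | hne
  · simp
  obtain ⟨f, hf⟩ := hS.exists_eq_range hne
  have h1 : ∀ n, ∃ D : ℕ → Set C, (∀ m, Dns (D m)) ∧ ∀ G : Flt C, (∀ m, Mts (D m) G) → G ∈ f n := by
    intro n
    exact h (f n) (hf ▸ ⟨n, rfl⟩)
  choose D hD hD' using h1
  refine ⟨fun k => D k.unpair.1 k.unpair.2, fun k => hD _ _, fun G hG => ?_⟩
  rw [hf]
  rintro s ⟨n, rfl⟩
  refine hD' n G fun m => ?_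
  have := hG (Nat.pair n m)
  simpa using this

/-- almost every filter meets a given dense set -/
theorem ae_mts {D : Set C} (hD : Dns D) : ∀ᶠ G in Gen C, Mts D G :=
  ⟨fun _ => D, fun _ => hD, fun _ hG => hG 0⟩

/-- Rasiowa and Sikorski -/
theorem exists_flt (p : C) {φ : Flt C → Prop} (h : ∀ᶠ G in Gen C, φ G) : ∃ G : Flt C, p ∈ G.S ∧ φ G := by
  obtain ⟨D, hD, h⟩ := h
  choose g hg hg' using hD
  let s : ℕ → C := fun n => Nat.rec p (fun k q => g k q) n
  have hs : ∀ n, s (n + 1) = g n (s n) := fun n => rfl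
  have hanti : Antitone s := antitone_nat_of_succ_le fun n => by rw [hs]; exact hg' _ _
  refine ⟨⟨{q | ∃ n, s n ≤ q}, ⟨p, 0, le_refl p⟩, ?_, ?_⟩, ⟨0, le_refl p⟩, h _ fun n => ?_⟩
  · rintro a b ⟨n, hn⟩ hab
    exact ⟨n, hn.trans hab⟩
  · rintro a b ⟨n, hn⟩ ⟨m, hm⟩
    exact ⟨s (max n m), ⟨max n m, le_refl _⟩, (hanti (le_max_left n m)).trans hn,
      (hanti (le_max_right n m)).trans hm⟩
  · exact ⟨s (n + 1), by rw [hs]; exact hg _ _, n + 1, le_refl _⟩

/-- `Frc p φ`: the condition `p` forces `φ` -/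
def Frc (p : C) (φ : Flt C → Prop) : Prop := ∀ᶠ G in Gen C, p ∈ G.S → φ G

theorem Frc.mono {p q : C} {φ ψ : Flt C → Prop} (h : Frc p φ) (hq : q ≤ p) (hφ : ∀ G, φ G → ψ G) :
    Frc q ψ := by
  unfold Frc at *
  filter_upwards [h] with G hG hGq
  exact hφ G (hG (G.up hGq hq))

theorem Frc.anti {p q : C} {φ : Flt C → Prop} (h : Frc p φ) (hq : q ≤ p) : Frc q φ :=
  h.mono hq fun _ => id

theorem Frc.mp {p : C} {φ ψ : Flt C → Prop} (h : Frc p φ) (h' : Frc p fun G => φ G → ψ G) : Frc p ψ := by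
  unfold Frc at *
  filter_upwards [h, h'] with G h1 h2 h3
  exact h2 h3 (h1 h3)

theorem Frc.and {p : C} {φ ψ : Flt C → Prop} (h : Frc p φ) (h' : Frc p ψ) :
    Frc p fun G => φ G ∧ ψ G := by
  unfold Frc at *
  filter_upwards [h, h'] with G h1 h2 h3
  exact ⟨h1 h3, h2 h3⟩

theorem frc_of_ae {p : C} {φ : Flt C → Prop} (h : ∀ᶠ G in Gen C, φ G) : Frc p φ := by
  unfold Frc
  filter_upwards [h] with G h1 _
  exact h1

theorem frc_forall {ι : Type*} [Countable ι] {p : C} {φ : ι → Flt C → Prop} (h : ∀ i, Frc p (φ i)) :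
    Frc p fun G => ∀ i, φ i G := by
  unfold Frc at *
  have := eventually_countable_forall.2 h
  filter_upwards [this] with G h1 h2 i
  exact h1 i h2

theorem frc_exists {p : C} {φ : Flt C → Prop} (h : Frc p φ) : ∃ G : Flt C, p ∈ G.S ∧ φ G := by
  obtain ⟨G, h1, h2⟩ := exists_flt p h
  exact ⟨G, h1, h2 h1⟩

theorem frc_absurd {p : C} {φ : Flt C → Prop} (h : Frc p φ) (h' : Frc p fun G => ¬ φ G) : False := by
  obtain ⟨G, _, h2⟩ := frc_exists (h.and h')
  exact h2.2 h2.1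

/-- A statement forced by densely many conditions holds almost everywhere. -/
theorem ae_of_dense {φ : Flt C → Prop} (h : ∀ q : C, ∃ r ≤ q, Frc r φ) : ∀ᶠ G in Gen C, φ G := by
  classical
  -- a maximal antichain of conditions forcing `φ`
  let T : Set C := {r | Frc r φ}
  have hT : ∀ q, ∃ r ∈ T, r ≤ q := by
    intro q
    obtain ⟨r, h3, h4⟩ := h q
    exact ⟨r, h4, h3⟩
  obtain ⟨A, hA⟩ := zorn_subset {A : Set C | A ⊆ T ∧ ∀ a ∈ A, ∀ b ∈ A, a ≠ b → ∀ s, s ≤ a → ¬ s ≤ b} (by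
    intro c hc hchain
    refine ⟨⋃₀ c, ⟨?_, ?_⟩, fun s hs => Set.subset_sUnion_of_mem hs⟩
    · exact Set.sUnion_subset fun s hs => (hc hs).1
    · rintro a ⟨s, hs, has⟩ b ⟨t, ht, hbt⟩ hab
      rcases hchain.total hs ht with hst | hst
      · exact (hc ht).2 a (hst has) b hbt hab
      · exact (hc hs).2 a has b (hst hbt) hab)
  obtain ⟨⟨hAT, hanti⟩, hmax⟩ := hA
  have hpre : ∀ q, ∃ r, r ≤ q ∧ ∃ a ∈ A, r ≤ a := by
    intro q
    obtain ⟨r, hr, hrq⟩ := hT q
    by_contra hcon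
    push Not at hcon
    have h1 : insert r A ⊆ A := by
      refine hmax ⟨Set.insert_subset hr hAT, ?_⟩ (Set.subset_insert _ _)
      rintro a (rfl | ha) b (rfl | hb) hab s hsa hsb
      · exact hab rfl
      · exact hcon s (hsa.trans hrq) b hb hsb
      · exact hcon s (hsb.trans hrq) a ha hsa
      · exact hanti a ha b hb hab s hsa hsb
    exact hcon r hrq r (h1 (Set.mem_insert _ _)) (le_refl r)
  have h2 : ∀ a : C, ∃ D : ℕ → Set C, a ∈ A → (∀ n, Dns (D n)) ∧
      ∀ G : Flt C, (∀ n, Mts (D n) G) → a ∈ G.S → φ G := by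
    intro a
    by_cases ha : a ∈ A
    · obtain ⟨D, hD, hD'⟩ : Frc a φ := hAT ha
      exact ⟨D, fun _ => ⟨hD, hD'⟩⟩
    · exact ⟨fun _ => Set.univ, fun h3 => absurd h3 ha⟩
  choose D hD using h2
  refine ⟨fun n => {r | ∃ a ∈ A, r ≤ a ∧ ∃ d ∈ D a n, r ≤ d}, ?_, ?_⟩
  · intro n q
    obtain ⟨r, hr, a, ha, hra⟩ := hpre q
    obtain ⟨d, hd, hdr⟩ := (hD a ha).1 n r
    exact ⟨d, ⟨a, ha, hdr.trans hra, ⟨d, hd, le_refl d⟩⟩, hdr.trans hr⟩
  · intro G hG
    obtain ⟨r, ⟨a, ha, hra, _⟩, hrG⟩ := hG 0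
    have haG : a ∈ G.S := G.up hrG hra
    refine (hD a ha).2 G (fun n => ?_) haG
    obtain ⟨r', ⟨a', ha', hra', h6⟩, hrG'⟩ := hG n
    have : a' = a := by
      by_contra hne
      obtain ⟨s, _, hs1, hs2⟩ := G.dir (G.up hrG' hra') haG
      exact hanti a' ha' a ha hne s hs1 hs2
    subst this
    obtain ⟨d, hd, hrd⟩ := h6
    exact ⟨d, hd, G.up hrG' hrd⟩

/-- Regularity: a statement forced by densely many conditions below `p` is forced by `p`. -/
theorem frc_of_dense {p : C} {φ : Flt C → Prop} (h : ∀ q ≤ p, ∃ r ≤ q, Frc r φ) : Frc p φ := by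
  refine ae_of_dense (φ := fun G => p ∈ G.S → φ G) fun q => ?_
  by_cases hq : ∃ s, s ≤ q ∧ s ≤ p
  · obtain ⟨s, h1, h2⟩ := hq
    obtain ⟨r, h3, h4⟩ := h s h2
    exact ⟨r, h3.trans h1, h4.mono (le_refl r) fun G h _ => h⟩
  · push Not at hq
    refine ⟨q, le_refl q, Filter.Eventually.of_forall fun G h1 h2 => ?_⟩
    obtain ⟨s, _, h3, h4⟩ := G.dir h1 h2
    exact absurd h4 (hq s h3)

theorem frc_iff_dense {p : C} {φ : Flt C → Prop} : Frc p φ ↔ ∀ q ≤ p, ∃ r ≤ q, Frc r φ :=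
  ⟨fun h q hq => ⟨q, le_refl q, h.anti hq⟩, frc_of_dense⟩

/-- `p` forces that the generic filter meets `A` iff `A` is predense below `p` -/
theorem frc_mts {A : Set C} {p : C} : Frc p (Mts A) ↔ FIn Set.univ A p := by
  constructor
  · intro h q _ hq
    obtain ⟨G, h1, a, ha, haG⟩ := frc_exists (h.anti hq)
    obtain ⟨r, _, h3, h4⟩ := G.dir h1 haG
    exact ⟨r, trivial, h3, a, ha, h4⟩
  · intro h
    refine frc_of_dense fun q hq => ?_
    obtain ⟨r, _, h1, a, ha, h2⟩ := h q trivial hq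
    exact ⟨r, h1, Filter.Eventually.of_forall fun G h3 => ⟨a, ha, G.up h3 h2⟩⟩

theorem frc_not_mts {A : Set C} {p : C} : Frc p (fun G => ¬ Mts A G) ↔ ∀ q ≤ p, ∀ a ∈ A, ¬ q ≤ a := by
  constructor
  · intro h q hq a ha hqa
    obtain ⟨G, h1, h2⟩ := frc_exists (h.anti hq)
    exact h2 ⟨a, ha, G.up h1 hqa⟩
  · intro h
    refine Filter.Eventually.of_forall fun G h1 h2 => ?_
    obtain ⟨a, ha, haG⟩ := h2
    obtain ⟨r, _, h3, h4⟩ := G.dir h1 haG
    exact h r h3 a ha h4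

/-- either some extension of `p` forces `φ`, or `p` forces `¬ φ`, provided `φ` is densely decided -/
theorem frc_mem {p q : C} : Frc p (fun G => q ∈ G.S) ↔ ∀ r ≤ p, ∃ s, s ≤ r ∧ s ≤ q := by
  have h : Frc p (fun G => q ∈ G.S) ↔ Frc p (Mts {q}) := by
    unfold Mts
    simp
  rw [h, frc_mts]
  constructor
  · intro h r hr
    obtain ⟨s, _, h1, a, rfl, h2⟩ := h r trivial hr
    exact ⟨s, h1, h2⟩
  · intro h r _ hr
    obtain ⟨s, h1, h2⟩ := h r hr
    exact ⟨s, trivial, h1, q, rfl, h2⟩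

end

end LM
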