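import Pool.Agent.Helper18.LM.Fus

/-!
# LM-Q2: gluing countably many conditions (about 120 lines)

Let `b n` be conditions and `N : Flt C → ℕ` a selector.  Use `exists_upd` with base `L.rs ξ w`,
`S = {ξ} ∪ {j | ξ < j ∧ ∃ n, j ∈ L.supp (b n)}`, and the trees `T` at `ξ`, `G ↦ L.tr (b (N G)) j G` at
`j > ξ` (measurable: for every `s` the set `{G | s ∈ L.tr (b (N G)) j G}` is the union over `n` of
`{G | N G = n} ∩ {G | s ∈ L.tr (b n) j G}`; a Laver tree almost everywhere since this holds for the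
countably many `L.tr (b n) j G`).  For `j > ξ`, `j ∉ S`: both sides are `Set.univ` (`tr_eq_univ`).
-/

set_option autoImplicit false

namespace LM

namespace LIter

variable {J C : Type} [LinearOrder J] [Preorder C] (L : LIter J C)

theorem exists_glue (w : C) (ξ : J) (T : Flt C → Set (List ℕ)) (hT : @Measurable _ _ (L.Bm ξ) _ T)
    (hT' : ∀ᶠ G in Gen C, LTree (T G)) (b : ℕ → C) (N : Flt C → ℕ)
    (hN : ∀ j, ξ < j → @Measurable _ _ (L.Bm j) _ N) :
    ∃ v : C, L.rs ξ v = L.rs ξ w ∧ (∀ᶠ G in Gen C, L.tr v ξ G = T G) ∧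
      (∀ j, ξ < j → ∀ᶠ G in Gen C, L.tr v j G = L.tr (b (N G)) j G) ∧
      ∀ j ∈ L.supp v, ξ < j → ∃ n, j ∈ L.supp (b n) := by
  classical
  set S : Set J := {ξ} ∪ ⋃ n, {j | ξ < j ∧ j ∈ L.supp (b n)} with hS
  have hSc : S.Countable := (Set.countable_singleton ξ).union
    (Set.countable_iUnion fun n => (L.supp_countable (b n)).mono fun j hj => hj.2)
  have hmem : ∀ j, j ∈ S ↔ j = ξ ∨ ∃ n, ξ < j ∧ j ∈ L.supp (b n) := by
    intro j
    rw [hS, Set.mem_union, Set.mem_singleton_iff, Set.mem_iUnion]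
    rfl
  have hlt : ∀ j ∈ S, j ≠ ξ → ξ < j := by
    intro j hj hne
    rcases (hmem j).1 hj with h | ⟨n, h, _⟩
    · exact absurd h hne
    · exact h
  obtain ⟨v, hv1, hv2⟩ := L.exists_upd (L.rs ξ w) hSc
    (fun i G => if i = ξ then T G else L.tr (b (N G)) i G)
    (by
      intro i hi
      rcases eq_or_ne i ξ with rfl | hne
      · simpa using hT
      · simp only [hne, if_false]
        have hj := hlt i hi hne
        let _ := L.Bm i
        refine measurable_set_iff.2 fun s => measurableSet_setOfPred.1 ?_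
        have he : {G : Flt C | s ∈ L.tr (b (N G)) i G}
            = ⋃ n, (N ⁻¹' {n} ∩ {G | s ∈ L.tr (b n) i G}) := by
          ext G
          simp only [Set.mem_iUnion, Set.mem_inter_iff, Set.mem_preimage, Set.mem_singleton_iff]
          constructor
          · intro h
            exact ⟨N G, rfl, h⟩
          · rintro ⟨n, h1, h2⟩
            subst h1
            exact h2
        rw [he]
        exact MeasurableSet.iUnion fun n =>
          ((hN i hj) (MeasurableSet.singleton n)).inter (L.measurableSet_mem_tr (b n) i s))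
    (by
      intro i hi
      rcases eq_or_ne i ξ with rfl | hne
      · simpa using hT'
      · simp only [hne, if_false]
        filter_upwards [eventually_countable_forall.2 fun n => L.ae_ltree (b n) i] with G hG
        exact hG (N G))
  refine ⟨v, ?_, ?_, ?_, ?_⟩
  · refine L.rs_congr fun j hj => ?_
    have hjS : j ∉ S := by
      intro h
      have hj' : j < ξ := by exact_mod_cast hj
      rcases (hmem j).1 h with h | ⟨n, h, _⟩
      · exact absurd h hj'.ne
      · exact absurd h hj'.asymm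
    rw [hv2 j hjS, L.t_rs_lt hj]
  · filter_upwards [hv1 ξ ((hmem ξ).2 (Or.inl rfl))] with G hG
    rw [hG, if_pos rfl]
  · intro j hj
    by_cases hjS : j ∈ S
    · filter_upwards [hv1 j hjS] with G hG
      rw [hG, if_neg hj.ne']
    · refine Filter.Eventually.of_forall fun G => ?_
      have h1 : j ∉ L.supp v := by
        intro h
        apply h
        rw [hv2 j hjS, L.t_rs_ge]
        exact_mod_cast hj.le
      have h2 : j ∉ L.supp (b (N G)) := fun h => hjS ((hmem j).2 (Or.inr ⟨N G, hj, h⟩))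
      rw [L.tr_eq_univ h1, L.tr_eq_univ h2]
  · intro j hj hξ
    by_cases hjS : j ∈ S
    · rcases (hmem j).1 hjS with h | ⟨n, _, h⟩
      · exact absurd h hξ.ne'
      · exact ⟨n, h⟩
    · exfalso
      apply hj
      rw [hv2 j hjS, L.t_rs_ge]
      exact_mod_cast hξ.le

/-- If moreover on `v` the selected condition is satisfied below `ξ` and at `ξ` then `v` forces that
the selected condition is in the generic filter.  (By `ae_mem_rs_iff` and `ae_mem_iff` for `v` and for
the countably many `b n`, pointwise: for `i ∈ L.supp (b n)`, `n = N G`, one has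
`Br (L.tr (b n) i G) (L.lr i G)`: for `i < ξ` by `L.rs ξ (b n) ∈ G.S`, for `i = ξ` by assumption, for
`i > ξ` since `L.tr v i G = L.tr (b n) i G` and `v ∈ G.S`, `ae_br`.) -/
theorem glue_mem {v : C} {ξ : J} {b : ℕ → C} {N : Flt C → ℕ}
    (hv : ∀ j, ξ < j → ∀ᶠ G in Gen C, L.tr v j G = L.tr (b (N G)) j G)
    (h1 : Frc v (fun G => L.rs ξ (b (N G)) ∈ G.S))
    (h2 : Frc v (fun G => Br (L.tr (b (N G)) ξ G) (L.lr ξ G))) :
    Frc v (fun G => b (N G) ∈ G.S) := by
  have hc : (⋃ n, L.supp (b n)).Countable := Set.countable_iUnion fun n => L.supp_countable (b n)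
  have e1 : ∀ᶠ G in Gen C, ∀ n, L.rs ξ (b n) ∈ G.S ↔
      ∀ i ∈ L.supp (b n), (i : WithTop J) < ξ → Br (L.tr (b n) i G) (L.lr i G) :=
    eventually_countable_forall.2 fun n => L.ae_mem_rs_iff ξ (b n)
  have e2 : ∀ᶠ G in Gen C, ∀ n, b n ∈ G.S ↔ ∀ i ∈ L.supp (b n), Br (L.tr (b n) i G) (L.lr i G) :=
    eventually_countable_forall.2 fun n => L.ae_mem_iff (b n)
  have e3 : ∀ᶠ G in Gen C, ∀ i ∈ ⋃ n, L.supp (b n), v ∈ G.S → Br (L.tr v i G) (L.lr i G) :=
    (eventually_countable_ball hc).2 fun i _ => L.ae_br v i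
  have e4 : ∀ᶠ G in Gen C, ∀ i ∈ ⋃ n, L.supp (b n), ξ < i → L.tr v i G = L.tr (b (N G)) i G := by
    refine (eventually_countable_ball hc).2 fun i _ => ?_
    by_cases hi : ξ < i
    · filter_upwards [hv i hi] with G hG _
      exact hG
    · exact Filter.Eventually.of_forall fun G h => absurd h hi
  unfold Frc at *
  filter_upwards [e1, e2, e3, e4, h1, h2] with G g1 g2 g3 g4 g5 g6 hG
  rw [g2 (N G)]
  intro i hi
  have hi' : i ∈ ⋃ n, L.supp (b n) := Set.mem_iUnion.2 ⟨N G, hi⟩
  rcases lt_trichotomy i ξ with h | h | h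
  · exact (g1 (N G)).1 (g5 hG) i hi (by exact_mod_cast h)
  · subst h
    exact g6 hG
  · have h7 := g3 i hi' hG
    rw [g4 i hi' h] at h7
    exact h7

end LIter

end LM
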