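import Pool.Agent.Helper18.LM.Meas

/-!
# Basic facts on the iteration: restrictions, gluing of names, the trees of a condition
-/

set_option autoImplicit false

namespace LM

namespace LIter

variable {J C : Type} [LinearOrder J] [Preorder C] (L : LIter J C)

/-- restriction below a point of `J` or the whole condition -/
def rs (ξ : WithTop J) (p : C) : C :=
  match ξ with
  | none => p
  | some j => L.res j p

@[simp] theorem rs_top (p : C) : L.rs ⊤ p = p := rfl

@[simp] theorem rs_coe (j : J) (p : C) : L.rs (j : WithTop J) p = L.res j p := rfl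

/-- the name of the full tree -/
def full (j : J) : List ℕ → Set C := fun _ => {q | L.res j q = q}

theorem t_rs_lt {ξ : WithTop J} {j : J} (h : (j : WithTop J) < ξ) (p : C) :
    L.t (L.rs ξ p) j = L.t p j := by
  induction ξ with
  | top => rfl
  | coe i => exact L.res_lt i p j (by exact_mod_cast h)

theorem t_rs_ge {ξ : WithTop J} {j : J} (h : ξ ≤ (j : WithTop J)) (p : C) :
    L.t (L.rs ξ p) j = L.full j := by
  induction ξ with
  | top => simp at h
  | coe i => exact L.res_ge i p j (by exact_mod_cast h)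

theorem rs_rs (ξ η : WithTop J) (p : C) : L.rs ξ (L.rs η p) = L.rs (min ξ η) p := by
  apply L.ext
  funext j
  by_cases h : (j : WithTop J) < ξ
  · rw [L.t_rs_lt h]
    by_cases h' : (j : WithTop J) < η
    · rw [L.t_rs_lt h', L.t_rs_lt (lt_min h h')]
    · rw [L.t_rs_ge (not_lt.1 h'), L.t_rs_ge ((min_le_right _ _).trans (not_lt.1 h'))]
  · rw [L.t_rs_ge (not_lt.1 h), L.t_rs_ge ((min_le_left _ _).trans (not_lt.1 h))]

theorem rs_eq_of_le {ξ η : WithTop J} {p : C} (hp : L.rs ξ p = p) (h : ξ ≤ η) : L.rs η p = p := by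
  rw [← hp, L.rs_rs, min_eq_right h]

theorem rs_rs_of_le {ξ η : WithTop J} (h : ξ ≤ η) (p : C) : L.rs ξ (L.rs η p) = L.rs ξ p := by
  rw [L.rs_rs, min_eq_left h]

theorem rs_rs_of_ge {ξ η : WithTop J} (h : η ≤ ξ) (p : C) : L.rs ξ (L.rs η p) = L.rs η p := by
  rw [L.rs_rs, min_eq_right h]

theorem fIn_full {Q : Set C} {c : C} : FIn Q Q c := fun r hr _ => ⟨r, hr, le_refl r, r, hr, le_refl r⟩

theorem le_rs (ξ : WithTop J) (p : C) : p ≤ L.rs ξ p := by
  rw [L.le_iff]
  intro i s c hc hcp h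
  by_cases hi : (i : WithTop J) < ξ
  · rw [L.t_rs_lt hi]
    exact h
  · rw [L.t_rs_ge (not_lt.1 hi)]
    exact fIn_full

theorem rs_mono (ξ : WithTop J) (p q : C) (h : p ≤ q) : L.rs ξ p ≤ L.rs ξ q := by
  rw [L.le_iff] at *
  intro i s c hc hcp h1
  by_cases hi : (i : WithTop J) < ξ
  · rw [L.t_rs_lt hi] at *
    rw [← L.rs_coe, L.rs_rs_of_le hi.le] at hcp
    exact h i s c hc hcp h1
  · rw [L.t_rs_ge (not_lt.1 hi)]
    exact fIn_full

theorem rs_eq_iff {ξ : WithTop J} {p : C} :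
    L.rs ξ p = p ↔ ∀ j : J, ξ ≤ (j : WithTop J) → L.t p j = L.full j := by
  constructor
  · intro h j hj
    rw [← h, L.t_rs_ge hj]
  · intro h
    apply L.ext
    funext j
    by_cases hj : (j : WithTop J) < ξ
    · exact L.t_rs_lt hj p
    · rw [L.t_rs_ge (not_lt.1 hj), h j (not_lt.1 hj)]

/-- the support of a condition -/
def supp (p : C) : Set J := {i | L.t p i ≠ L.full i}

theorem supp_countable (p : C) : (L.supp p).Countable := L.ctb p

/-- the concatenation of the lower part of `q` and the upper part of `p` -/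
theorem exists_cat (ξ : WithTop J) (q p : C) : ∃ r : C,
    (∀ j : J, (j : WithTop J) < ξ → L.t r j = L.t q j) ∧
    (∀ j : J, ξ ≤ (j : WithTop J) → L.t r j = L.t p j) := by
  classical
  obtain ⟨r, hr⟩ := L.cond (fun j => if (j : WithTop J) < ξ then L.t q j else L.t p j)
    (fun i s => by split_ifs <;> exact L.sub _ _ _)
    (fun i => by split_ifs <;> exact L.laver _ _)
    (((L.ctb q).union (L.ctb p)).mono (by
      intro i hi
      by_cases h : (i : WithTop J) < ξ
      · simp only [h, if_true, Set.mem_ofPred_eq] at hi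
        exact Or.inl hi
      · simp only [h, if_false, Set.mem_ofPred_eq] at hi
        exact Or.inr hi))
  refine ⟨r, fun j hj => ?_, fun j hj => ?_⟩
  · rw [hr]
    simp only [hj, if_true]
  · rw [hr]
    simp only [not_lt.2 hj, if_false]

theorem rs_congr {ξ : WithTop J} {p q : C} (h : ∀ j : J, (j : WithTop J) < ξ → L.t p j = L.t q j) :
    L.rs ξ p = L.rs ξ q := by
  apply L.ext
  funext j
  by_cases hj : (j : WithTop J) < ξ
  · rw [L.t_rs_lt hj, L.t_rs_lt hj, h j hj]
  · rw [L.t_rs_ge (not_lt.1 hj), L.t_rs_ge (not_lt.1 hj)]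

theorem pj (ξ : WithTop J) : Pj (L.rs ξ) where
  le := L.le_rs ξ
  mono := L.rs_mono ξ
  idem p := by rw [L.rs_rs, min_self]
  cat p q hq hqp := by
    obtain ⟨r, h1, h2⟩ := L.exists_cat ξ q p
    have h3 : L.rs ξ r = q := by rw [L.rs_congr h1, hq]
    refine ⟨r, ?_, ?_, h3⟩
    · rw [L.le_iff] at *
      intro i s c hc hcr h4
      by_cases hi : (i : WithTop J) < ξ
      · have h5 := hqp i s c hc
        rw [L.t_rs_lt hi] at h5
        refine h5 ?_ ?_
        · rw [← L.rs_coe, ← h3, L.rs_rs_of_le hi.le]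
          exact hcr
        · rw [← h1 i hi]
          exact h4
      · rw [← h2 i (not_lt.1 hi)]
        exact h4
    · rw [← h3]
      exact L.le_rs ξ r

/-- the sigma-algebra of the statements decided by the conditions below `ξ` -/
@[reducible]
def Bm (ξ : WithTop J) : MeasurableSpace (Flt C) := (L.pj ξ).ms

theorem measurableSet_Bm {ξ : WithTop J} {s : Set (Flt C)} :
    @MeasurableSet _ (L.Bm ξ) s ↔ Dcd (L.rs ξ) (fun G => G ∈ s) := Iff.rfl

theorem Bm_mono {ξ η : WithTop J} (h : ξ ≤ η) : L.Bm ξ ≤ L.Bm η := by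
  intro s hs
  rw [measurableSet_Bm] at *
  intro p hp
  obtain ⟨q, hq, hqp, h1⟩ := hs (L.rs ξ p) ((L.pj ξ).idem p)
  obtain ⟨r, hr, hrq, _⟩ := (L.pj ξ).cat p q hq hqp
  refine ⟨L.rs η r, (L.pj η).idem r, hp ▸ L.rs_mono η _ _ hr, ?_⟩
  have h2 : L.rs η r ≤ q := by
    rw [← L.rs_eq_of_le hq h]
    exact L.rs_mono η _ _ hrq
  rcases h1 with h1 | h1
  · exact Or.inl (h1.anti h2)
  · exact Or.inr (h1.anti h2)

/-- transfer between a condition and its restriction -/
theorem frc_rs {ξ : WithTop J} {p : C} {φ : Flt C → Prop}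
    (hφ : @MeasurableSet _ (L.Bm ξ) {G | φ G}) : Frc (L.rs ξ p) φ ↔ Frc p φ :=
  (L.pj ξ).frc_proj hφ

/-- the forcing relation of the sub-forcing in terms of generic filters of `C` -/
theorem fIn_iff {ξ : WithTop J} {A : Set C} (hA : A ⊆ {q | L.rs ξ q = q}) {c : C} (hc : L.rs ξ c = c) :
    FIn {q | L.rs ξ q = q} A c ↔ Frc c (Mts A) := by
  rw [frc_mts]
  constructor
  · intro h r _ hr
    obtain ⟨r', h1, h2, a, ha, h3⟩ := h (L.rs ξ r) ((L.pj ξ).idem r) (hc ▸ L.rs_mono ξ _ _ hr)
    obtain ⟨s, h4, h5, _⟩ := (L.pj ξ).cat r r' h1 h2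
    exact ⟨s, trivial, h4, a, ha, h5.trans h3⟩
  · intro h r hr hrc
    obtain ⟨r', _, h2, a, ha, h3⟩ := h r trivial hrc
    refine ⟨L.rs ξ r', (L.pj ξ).idem r', ?_, a, ha, ?_⟩
    · rw [← (show L.rs ξ r = r from hr)]
      exact L.rs_mono ξ _ _ h2
    · rw [← (show L.rs ξ a = a from hA ha)]
      exact L.rs_mono ξ _ _ h3

/-- the interpretation of the `i`-th coordinate of `p` -/
def tr (p : C) (i : J) (G : Flt C) : Set (List ℕ) := {s | Mts (L.t p i s) G}

theorem tr_congr {p q : C} {i : J} (h : L.t p i = L.t q i) : L.tr p i = L.tr q i := by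
  unfold tr
  rw [h]

theorem tr_rs {ξ : WithTop J} {i : J} (h : (i : WithTop J) < ξ) (p : C) :
    L.tr (L.rs ξ p) i = L.tr p i := L.tr_congr (L.t_rs_lt h p)

theorem measurableSet_mem_tr (p : C) (i : J) (s : List ℕ) :
    @MeasurableSet _ (L.Bm i) {G | s ∈ L.tr p i G} :=
  (L.pj i).dcd_mts fun _ ha => L.sub p i s ha

theorem measurable_tr (p : C) (i : J) : @Measurable _ _ (L.Bm i) _ (L.tr p i) := by
  let _ := L.Bm i
  exact measurable_set_iff.2 fun s => measurableSet_setOfPred.1 (L.measurableSet_mem_tr p i s)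

end LIter

end LM
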