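import Pool.Agent.Helper18.LM.TreeA

/-!
# LM-T8: Borel measurability of stems and canonical nodes (about 150 lines)

The sigma-algebra on `Set (List ℕ)` is Mathlib's `Set.instMeasurableSpace` (`measurable_set_iff`: a map
`g` into `Set α` is measurable iff `x ↦ a ∈ g x` is measurable for all `a`; see also
`measurable_set_mem`, `measurableSet_setOfPred`).  `List ℕ` is countable and has the discrete
sigma-algebra, so a map into `List ℕ` (or `ℕ`, `Bool`) is measurable iff its fibres are
(`measurable_to_countable'`).
`measurableSet_isStem`: countable intersections and unions.  `measurableSet_ltree`: union over `s`.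
`measurable_stem`: `{T | stem T = s} = {T | IsStem T s} ∪ {T | ¬ LTree T ∧ s = []}`.
`measurable_ndl`: by induction on `u`; with `X = ndl T u` (countably many values) it suffices that
`T ↦ Nat.nth (fun m => m :: x ∈ T) l` is measurable for every fixed `x`; by strong induction on `l` and
`Nat.nth_eq_sInf` (`Nat.nth p n = sInf {x | p x ∧ ∀ k < n, Nat.nth p k < x}`); for a set valued
measurable `S`, `{x | sInf (S x) = m}` is measurable.
-/

set_option autoImplicit false

namespace LM

/-- the least element of a measurable set of natural numbers is measurable -/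
theorem measurable_sInf_nat {Ω : Type*} [MeasurableSpace Ω] {S : Ω → ℕ → Prop}
    (h : ∀ m, MeasurableSet {ω | S ω m}) : Measurable (fun ω => sInf {m | S ω m}) := by
  refine measurable_to_countable' fun x => ?_
  have key : (fun ω => sInf {m | S ω m}) ⁻¹' {x} =
      ({ω | S ω x} ∩ ⋂ k : ℕ, {ω | k < x → ¬ S ω k}) ∪ ({_ω | x = 0} ∩ ⋂ m : ℕ, {ω | ¬ S ω m}) := by
    ext ω
    simp only [Set.mem_preimage, Set.mem_singleton_iff, Set.mem_union, Set.mem_inter_iff,
      Set.mem_ofPred_eq, Set.mem_iInter]
    constructor
    · intro hx
      by_cases hne : {m | S ω m}.Nonempty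
      · left
        refine ⟨?_, ?_⟩
        · have := Nat.sInf_mem hne
          rw [hx] at this
          exact this
        · intro k hk hS
          rw [← hx] at hk
          exact Nat.notMem_of_lt_sInf hk hS
      · right
        have he : {m | S ω m} = ∅ := Set.not_nonempty_iff_eq_empty.mp hne
        refine ⟨?_, ?_⟩
        · rw [← hx, he]
          exact Nat.sInf_empty
        · intro m hm
          exact hne ⟨m, hm⟩
    · rintro (⟨h1, h2⟩ | ⟨h1, h2⟩)
      · apply le_antisymm (Nat.sInf_le h1)
        by_contra hlt
        push Not at hlt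
        exact h2 _ hlt (Nat.sInf_mem ⟨x, h1⟩)
      · have he : {m | S ω m} = ∅ := by
          ext m
          simp [h2 m]
        rw [he, h1]
        exact Nat.sInf_empty
  rw [key]
  refine MeasurableSet.union ?_ ?_
  · refine (h x).inter (MeasurableSet.iInter fun k => ?_)
    by_cases hk : k < x
    · have : {ω | k < x → ¬ S ω k} = {ω | S ω k}ᶜ := by
        ext ω
        simp [hk]
      rw [this]
      exact (h k).compl
    · have : {ω | k < x → ¬ S ω k} = Set.univ := by
        ext ω
        simp [hk]
      rw [this]
      exact MeasurableSet.univ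
  · refine (MeasurableSet.const _).inter (MeasurableSet.iInter fun m => ?_)
    exact (h m).compl

theorem measurable_nth {Ω : Type*} [MeasurableSpace Ω] {S : Ω → ℕ → Prop}
    (h : ∀ m, MeasurableSet {ω | S ω m}) (l : ℕ) : Measurable (fun ω => Nat.nth (S ω) l) := by
  induction l using Nat.strong_induction_on with
  | _ l ih =>
    have e : (fun ω => Nat.nth (S ω) l) =
        fun ω => sInf {x | S ω x ∧ ∀ k < l, Nat.nth (S ω) k < x} := by
      funext ω
      exact Nat.nth_eq_sInf (S ω) l
    rw [e]
    apply measurable_sInf_nat
      (S := fun ω x => S ω x ∧ ∀ k < l, Nat.nth (S ω) k < x)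
    intro x
    have e2 : {ω | S ω x ∧ ∀ k < l, Nat.nth (S ω) k < x} =
        {ω | S ω x} ∩ ⋂ k : ℕ, ⋂ _ : k < l, {ω | Nat.nth (S ω) k < x} := by
      ext ω
      simp
    rw [e2]
    refine (h x).inter (MeasurableSet.iInter fun k => MeasurableSet.iInter fun hk => ?_)
    have hm := ih k hk
    exact hm (measurableSet_Iio (a := x))

theorem measurableSet_mem_tree (s : List ℕ) : MeasurableSet {T : Set (List ℕ) | s ∈ T} :=
  measurableSet_setOfPred.mpr (measurable_set_mem s)

theorem measurableSet_isStem (s : List ℕ) : MeasurableSet {T : Set (List ℕ) | IsStem T s} := by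
  have e : {T : Set (List ℕ) | IsStem T s} =
      {T | s ∈ T} ∩ ((⋂ u : List ℕ, ⋂ v : List ℕ, ⋂ _ : v <:+ u, ({T | u ∈ T}ᶜ ∪ {T | v ∈ T})) ∩
      ((⋂ u : List ℕ, ({T | u ∈ T}ᶜ ∪ {_T | u <:+ s ∨ s <:+ u})) ∩
      (⋂ u : List ℕ, ⋂ _ : s <:+ u, ⋂ n : ℕ, ({T | u ∈ T}ᶜ ∪ ⋃ m : ℕ, ⋃ _ : n ≤ m, {T | m :: u ∈ T})))) := by
    ext T
    simp only [IsStem, Set.mem_ofPred_eq, Set.mem_inter_iff, Set.mem_iInter, Set.mem_union,
      Set.mem_compl_iff, Set.mem_iUnion, exists_prop]
    constructor
    · rintro ⟨h1, h2, h3, h4⟩
      refine ⟨h1, ?_, ?_, ?_⟩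
      · intro u v hv
        by_cases hu : u ∈ T
        · exact Or.inr (h2 u hu v hv)
        · exact Or.inl hu
      · intro u
        by_cases hu : u ∈ T
        · exact Or.inr (h3 u hu)
        · exact Or.inl hu
      · intro u hs n
        by_cases hu : u ∈ T
        · exact Or.inr (h4 u hu hs n)
        · exact Or.inl hu
    · rintro ⟨h1, h2, h3, h4⟩
      refine ⟨h1, ?_, ?_, ?_⟩
      · intro u hu v hv
        exact (h2 u v hv).resolve_left (fun h => h hu)
      · intro u hu
        exact (h3 u).resolve_left (fun h => h hu)
      · intro u hu hs n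
        exact (h4 u hs n).resolve_left (fun h => h hu)
  rw [e]
  refine (measurableSet_mem_tree s).inter (MeasurableSet.inter ?_ (MeasurableSet.inter ?_ ?_))
  · exact MeasurableSet.iInter fun u => MeasurableSet.iInter fun v => MeasurableSet.iInter fun _ =>
      (measurableSet_mem_tree u).compl.union (measurableSet_mem_tree v)
  · exact MeasurableSet.iInter fun u => (measurableSet_mem_tree u).compl.union (MeasurableSet.const _)
  · exact MeasurableSet.iInter fun u => MeasurableSet.iInter fun _ => MeasurableSet.iInter fun n =>
      (measurableSet_mem_tree u).compl.union (MeasurableSet.iUnion fun m =>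
        MeasurableSet.iUnion fun _ => measurableSet_mem_tree _)

theorem measurableSet_ltree : MeasurableSet {T : Set (List ℕ) | LTree T} := by
  have e : {T : Set (List ℕ) | LTree T} = ⋃ s : List ℕ, {T | IsStem T s} := by
    ext T
    simp [LTree]
  rw [e]
  exact MeasurableSet.iUnion fun s => measurableSet_isStem s

theorem measurable_stem : Measurable stem := by
  refine measurable_to_countable' fun s => ?_
  have e : stem ⁻¹' {s} = {T | IsStem T s} ∪ ({T | LTree T}ᶜ ∩ {_T | s = []}) := by
    ext T
    simp only [Set.mem_preimage, Set.mem_singleton_iff, Set.mem_union, Set.mem_ofPred_eq,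
      Set.mem_inter_iff, Set.mem_compl_iff]
    constructor
    · intro hs
      by_cases hT : LTree T
      · left
        rw [← hs]
        exact isStem_stem hT
      · right
        refine ⟨hT, ?_⟩
        rw [← hs]
        simp [stem, hT]
    · rintro (h1 | ⟨h1, h2⟩)
      · exact stem_eq h1
      · rw [h2]
        simp [stem, h1]
  rw [e]
  exact (measurableSet_isStem s).union (measurableSet_ltree.compl.inter (MeasurableSet.const _))

/-- composition with a countably valued measurable map -/
theorem measurable_bind_countable {Ω A B : Type*} [MeasurableSpace Ω] [MeasurableSpace A]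
    [MeasurableSpace B] [Countable A] [DiscreteMeasurableSpace A] {X : Ω → A} (hX : Measurable X)
    {F : A → Ω → B} (hF : ∀ a, Measurable (F a)) : Measurable (fun ω => F (X ω) ω) := by
  intro s hs
  have e : (fun ω => F (X ω) ω) ⁻¹' s = ⋃ a : A, (X ⁻¹' {a} ∩ (F a) ⁻¹' s) := by
    ext ω
    simp
  rw [e]
  exact MeasurableSet.iUnion fun a => (hX (MeasurableSet.singleton a)).inter (hF a hs)

theorem measurable_ndl (u : List ℕ) : Measurable (fun T : Set (List ℕ) => ndl T u) := by
  induction u with
  | nil =>
    exact measurable_stem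
  | cons l u ih =>
    have hF : ∀ x : List ℕ, Measurable
        (fun T : Set (List ℕ) => Nat.nth (fun m => m :: x ∈ T) l :: x) := by
      intro x
      have h1 : Measurable (fun T : Set (List ℕ) => Nat.nth (fun m => m :: x ∈ T) l) :=
        measurable_nth (S := fun (T : Set (List ℕ)) m => m :: x ∈ T)
          (fun m => measurableSet_mem_tree (m :: x)) l
      have h2 : Measurable (fun n : ℕ => n :: x) := measurable_from_top
      exact h2.comp h1
    exact measurable_bind_countable ih hF

theorem measurable_nd (k : ℕ) : Measurable (fun T : Set (List ℕ) => nd T k) :=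
  measurable_ndl (dec k)

end LM
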