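import Pool.Agent.Helper18.LM.Iter
import Pool.Agent.Helper18.LM.TreeM

/-!
# LM-P1: the trees of a condition are Laver trees, and the order in terms of them (about 120 lines)

`frc_imp`: given `r ≤ c`, extend `L.rs ξ r ≤ c` to `c'` deciding `φ` (`L.measurableSet_Bm`), and use
`(L.pj ξ).frc_of_dense`: if `c'` forces `φ` use the hypothesis, if `c'` forces `¬ φ` trivial.

`ae_ltree`: by `(L.pj i).ae_of_dense` and `L.laver p i`: given `q` with `L.rs i q = q` take `q' ≤ q` and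
`s₀` from `FLaver`, and show that `q'` forces `IsStem (L.tr p i G) s₀`: all the clauses of `IsStem` are
countable conjunctions (`frc_forall`), `FIn .. (L.t p i s) c` is the same as
`Frc c (fun G => s ∈ L.tr p i G)` for `c` with `L.rs i c = c` (`L.fIn_iff`), and implications are handled
by `frc_imp`.  For the last clause use `(L.pj i).frc_of_dense`.

`le_iff_tr`: by `L.le_iff` and `frc_imp`, `L.fIn_iff`.
-/

set_option autoImplicit false

namespace LM

namespace LIter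

variable {J C : Type} [LinearOrder J] [Preorder C] (L : LIter J C)

theorem frc_mem_tr_iff {p c : C} {i : J} (hc : L.rs i c = c) (s : List ℕ) :
    FIn {q | L.res i q = q} (L.t p i s) c ↔ Frc c (fun G => s ∈ L.tr p i G) :=
  L.fIn_iff (ξ := (i : WithTop J)) (L.sub p i s) hc

theorem frc_imp {ξ : WithTop J} {c : C} (hc : L.rs ξ c = c) {φ ψ : Flt C → Prop}
    (hφ : @MeasurableSet _ (L.Bm ξ) {G | φ G})
    (h : ∀ c', L.rs ξ c' = c' → c' ≤ c → Frc c' φ → Frc c' ψ) : Frc c (fun G => φ G → ψ G) := by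
  refine (L.pj ξ).frc_of_dense hc fun q hq hqc => ?_
  obtain ⟨r, hr, hrq, h1 | h1⟩ := (L.measurableSet_Bm.1 hφ) q hq
  · exact ⟨r, hr, hrq, (h r hr (hrq.trans hqc) h1).mono (le_refl r) fun G h2 _ => h2⟩
  · exact ⟨r, hr, hrq, h1.mono (le_refl r) fun G h2 h3 => absurd h3 h2⟩

theorem iterB_prop {P : Prop} {c : C} {φ : Flt C → Prop} (h : P → Frc c φ) :
    Frc c (fun G => P → φ G) := by
  by_cases hP : P
  · exact (h hP).mono (le_refl c) fun G h1 _ => h1
  · exact frc_of_ae (Filter.Eventually.of_forall fun G h1 => absurd h1 hP)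

theorem ae_ltree (p : C) (i : J) : ∀ᶠ G in Gen C, LTree (L.tr p i G) := by
  refine (L.pj (i : WithTop J)).ae_of_dense fun q hq => ?_
  obtain ⟨q', hq', hq'q, s₀, h0, h1⟩ := L.laver p i q hq
  refine ⟨q', hq', hq'q, ?_⟩
  have hrs : L.rs (i : WithTop J) q' = q' := hq'
  have b1 : ∀ c', L.rs (i : WithTop J) c' = c' → c' ≤ q' → ∀ u : List ℕ,
      Frc c' (fun G => u ∈ L.tr p i G) →
      (u <:+ s₀ ∨ s₀ <:+ u) ∧ (∀ s' : List ℕ, s' <:+ u → Frc c' (fun G => s' ∈ L.tr p i G)) ∧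
      (s₀ <:+ u → ∀ n : ℕ, ∃ m : ℕ, n ≤ m ∧ ∃ c'', L.rs (i : WithTop J) c'' = c'' ∧ c'' ≤ c' ∧
        Frc c'' (fun G => m :: u ∈ L.tr p i G)) := by
    intro c' hc' hle u hu
    obtain ⟨h2, h3, h4⟩ := h1 c' hc' hle u ((L.frc_mem_tr_iff hc' u).2 hu)
    refine ⟨h2, fun s' hs' => (L.frc_mem_tr_iff hc' s').1 (h3 s' hs'), fun hs n => ?_⟩
    obtain ⟨m, hm, c'', h5, h6, h7⟩ := h4 hs n
    exact ⟨m, hm, c'', h5, h6, (L.frc_mem_tr_iff h5 _).1 h7⟩
  have a1 : Frc q' (fun G => s₀ ∈ L.tr p i G) := (L.frc_mem_tr_iff hrs s₀).1 h0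
  have a2 : Frc q' (fun G => ∀ u v : List ℕ, v <:+ u → u ∈ L.tr p i G → v ∈ L.tr p i G) := by
    refine frc_forall fun u => frc_forall fun v => iterB_prop fun hv => ?_
    exact L.frc_imp hrs (L.measurableSet_mem_tr p i u) fun c' hc' hle hF =>
      (b1 c' hc' hle u hF).2.1 v hv
  have a3 : Frc q' (fun G => ∀ u : List ℕ, u ∈ L.tr p i G → (u <:+ s₀ ∨ s₀ <:+ u)) := by
    refine frc_forall fun u => ?_
    exact L.frc_imp hrs (L.measurableSet_mem_tr p i u) fun c' hc' hle hF =>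
      frc_of_ae (Filter.Eventually.of_forall fun G => (b1 c' hc' hle u hF).1)
  have a4 : Frc q' (fun G => ∀ (u : List ℕ) (n : ℕ), s₀ <:+ u → u ∈ L.tr p i G →
      ∃ m, n ≤ m ∧ m :: u ∈ L.tr p i G) := by
    refine frc_forall fun u => frc_forall fun n => iterB_prop fun hs => ?_
    refine L.frc_imp hrs (L.measurableSet_mem_tr p i u) fun c' hc' hle hF => ?_
    refine (L.pj (i : WithTop J)).frc_of_dense hc' fun q₁ hq₁ hq₁c => ?_
    obtain ⟨m, hm, c'', h5, h6, h7⟩ := (b1 q₁ hq₁ (hq₁c.trans hle) u (hF.anti hq₁c)).2.2 hs n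
    exact ⟨c'', h5, h6, h7.mono (le_refl c'') fun G hG => ⟨m, hm, hG⟩⟩
  refine (((a1.and a2).and a3).and a4).mono (le_refl q') fun G hG => ?_
  obtain ⟨⟨⟨c1, c2⟩, c3⟩, c4⟩ := hG
  exact ⟨s₀, c1, fun u hu v hv => c2 u v hv hu, c3, fun u hu hs n => c4 u n hs hu⟩

theorem le_iff_tr (p q : C) :
    p ≤ q ↔ ∀ i : J, Frc (L.rs i p) (fun G => L.tr p i G ⊆ L.tr q i G) := by
  rw [L.le_iff]
  constructor
  · intro h i
    have h1 : Frc (L.rs (i : WithTop J) p) (fun G => ∀ s : List ℕ, s ∈ L.tr p i G → s ∈ L.tr q i G) := by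
      refine frc_forall fun s => ?_
      refine L.frc_imp ((L.pj (i : WithTop J)).idem p) (L.measurableSet_mem_tr p i s)
        fun c' hc' hle hF => ?_
      exact (L.frc_mem_tr_iff hc' s).1 (h i s c' hc' hle ((L.frc_mem_tr_iff hc' s).2 hF))
    exact h1.mono (le_refl _) fun G hG s hs => hG s hs
  · intro h i s c hc hcp h1
    have hc' : L.rs (i : WithTop J) c = c := hc
    have h2 := (L.frc_mem_tr_iff hc' s).1 h1
    have h3 : Frc c (fun G => L.tr p i G ⊆ L.tr q i G) := (h i).anti hcp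
    exact (L.frc_mem_tr_iff hc' s).2 (h2.mp (h3.mono (le_refl c) fun G hG hs => hG hs))

/-- outside the support the tree is the full tree, for every filter -/
theorem tr_eq_univ {p : C} {i : J} (hi : i ∉ L.supp p) (G : Flt C) : L.tr p i G = Set.univ := by
  have h1 : L.t p i = L.full i := by
    by_contra h
    exact hi h
  refine Set.eq_univ_of_forall fun s => ?_
  show Mts (L.t p i s) G
  rw [h1]
  obtain ⟨q, hq⟩ := G.ne
  exact ⟨L.rs (i : WithTop J) q, (L.pj (i : WithTop J)).idem q, G.up hq (L.le_rs _ q)⟩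

theorem supp_rs (ξ : WithTop J) (p : C) : L.supp (L.rs ξ p) = {i ∈ L.supp p | (i : WithTop J) < ξ} := by
  ext i
  simp only [supp, Set.mem_ofPred_eq]
  by_cases h : (i : WithTop J) < ξ
  · rw [L.t_rs_lt h]
    exact ⟨fun h1 => ⟨h1, h⟩, fun h1 => h1.1⟩
  · rw [L.t_rs_ge (not_lt.1 h)]
    exact ⟨fun h1 => absurd rfl h1, fun h1 => absurd h1.2 h⟩

theorem rs_eq_iff_supp {ξ : WithTop J} {p : C} :
    L.rs ξ p = p ↔ ∀ i ∈ L.supp p, (i : WithTop J) < ξ := by
  rw [L.rs_eq_iff]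
  constructor
  · intro h i hi
    by_contra h1
    exact hi (h i (not_lt.1 h1))
  · intro h i hi
    by_contra h1
    exact absurd (h i h1) (not_lt.2 hi)

end LIter

end LM
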