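import Pool.Agent.Helper18.LM.IterB

/-!
# LM-P2: conditions from measurable families of trees (about 130 lines)

For `i ∈ S` put `τ i s = {c | L.rs i c = c ∧ Frc c (fun G => s ∈ T i G)}`, for `i ∉ S` put
`τ i = L.t w i`, and use `L.cond`.

`FLaver` of `τ i`, `i ∈ S`: for `c` with `L.rs i c = c` one has
`FIn {q | L.res i q = q} (τ i s) c ↔ Frc c (fun G => s ∈ T i G)`: by `L.fIn_iff` the left side is
`Frc c (Mts (τ i s))`, and by `(L.pj i).ae_iff_frc` almost everywhere `s ∈ T i G ↔ Mts (τ i s) G`.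
Given `p` with `L.rs i p = p`, by `(L.pj i).decide` applied to `G ↦ stem (T i G)` (measurable:
`measurable_stem.comp`, a map into the countable set of lists) there are `q ≤ p` and `s₀` such that `q`
forces `stem (T i G) = s₀`, hence `IsStem (T i G) s₀`.  The clauses of `FLaver` follow; for the last one:
if `c ≤ q` forces `s ∈ T i G`, `s₀ <:+ s`, then `c` forces that there is `m ≥ n` with `m :: s ∈ T i G`;
decide such an `m` by some `c' ≤ c` (otherwise, by measurability, `c` forces `m :: s ∉ T i G` for all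
`m ≥ n`, contradiction).

Finally `L.tr p i G = T i G` almost everywhere by `ae_iff_frc` (for all `s`, countably many).
-/

set_option autoImplicit false

namespace LM

namespace LIter

variable {J C : Type} [LinearOrder J] [Preorder C] (L : LIter J C)

/-- the canonical name of a measurable set of finite sequences -/
def nmOf (i : J) (T : Flt C → Set (List ℕ)) (s : List ℕ) : Set C :=
  {c | L.res i c = c ∧ Frc c (fun G => s ∈ T G)}

theorem dcd_of_meas {i : J} {T : Flt C → Set (List ℕ)} (hm : @Measurable _ _ (L.Bm i) _ T)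
    (s : List ℕ) : Dcd (L.rs i) (fun G => s ∈ T G) :=
  hm (measurableSet_mem_tree s)

theorem ae_nmOf {i : J} {T : Flt C → Set (List ℕ)} (hm : @Measurable _ _ (L.Bm i) _ T)
    (s : List ℕ) : ∀ᶠ G in Gen C, s ∈ T G ↔ Mts (L.nmOf i T s) G :=
  (L.pj i).ae_iff_frc (L.dcd_of_meas hm s)

theorem fIn_nmOf {i : J} {T : Flt C → Set (List ℕ)} (hm : @Measurable _ _ (L.Bm i) _ T)
    (s : List ℕ) {c : C} (hc : L.res i c = c) :
    FIn {q | L.res i q = q} (L.nmOf i T s) c ↔ Frc c (fun G => s ∈ T G) := by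
  have h1 : FIn {q | L.rs (i : WithTop J) q = q} (L.nmOf i T s) c ↔ Frc c (Mts (L.nmOf i T s)) :=
    L.fIn_iff (fun a ha => ha.1) hc
  have h2 : FIn {q | L.res i q = q} (L.nmOf i T s) c ↔ Frc c (Mts (L.nmOf i T s)) := h1
  rw [h2]
  constructor
  · intro h
    exact h.mp (frc_of_ae ((L.ae_nmOf hm s).mono fun G hG => hG.2))
  · intro h
    exact h.mp (frc_of_ae ((L.ae_nmOf hm s).mono fun G hG => hG.1))

theorem laver_nmOf {i : J} {T : Flt C → Set (List ℕ)} (hm : @Measurable _ _ (L.Bm i) _ T)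
    (hT : ∀ᶠ G in Gen C, LTree (T G)) : FLaver {q | L.res i q = q} (L.nmOf i T) := by
  intro p hp
  obtain ⟨q, hq, hqp, s₀, hs₀⟩ := (L.pj i).decide (f := fun G => stem (T G))
    (fun a => by
      have h1 : @Measurable _ _ (L.Bm i) _ (fun G => stem (T G)) := measurable_stem.comp hm
      exact h1 (MeasurableSet.singleton a)) hp
  have hst : Frc q (fun G => IsStem (T G) s₀) := by
    refine hs₀.mp (frc_of_ae (hT.mono fun G hG h => ?_))
    rw [← h]
    exact isStem_stem hG
  refine ⟨q, hq, hqp, s₀, (L.fIn_nmOf hm s₀ hq).2 (hst.mono (le_refl q) fun G h => h.1), ?_⟩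
  intro c hc hcq s hs
  rw [L.fIn_nmOf hm s hc] at hs
  have hst' := hst.anti hcq
  refine ⟨?_, fun s' hs' => ?_, fun hss n => ?_⟩
  · obtain ⟨G, _, h1, h2⟩ := frc_exists (hs.and hst')
    exact h2.2.2.1 s h1
  · rw [L.fIn_nmOf hm s' hc]
    exact (hs.and hst').mono (le_refl c) fun G h => h.2.2.1 s h.1 s' hs'
  · by_contra hcon
    push Not at hcon
    have h1 : ∀ m, Frc c (fun G => n ≤ m → ¬ (m :: s ∈ T G)) := by
      intro m
      by_cases hnm : n ≤ m
      · refine (L.pj i).frc_of_dense hc fun q' hq' hq'c => ?_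
        obtain ⟨r, hr, hrq, h2 | h2⟩ := L.dcd_of_meas hm (m :: s) q' hq'
        · exact absurd ((L.fIn_nmOf hm (m :: s) hr).2 h2) (hcon m hnm r hr (hrq.trans hq'c))
        · exact ⟨r, hr, hrq, h2.mono (le_refl r) fun G h _ => h⟩
      · exact frc_of_ae (Filter.Eventually.of_forall fun G h => absurd h hnm)
    obtain ⟨G, _, ⟨h2, h3⟩, h4⟩ := frc_exists ((hs.and hst').and (frc_forall h1))
    obtain ⟨m, hm1, hm2⟩ := h3.2.2.2 s h2 hss n
    exact h4 m hm1 hm2

/-- There is a condition with the coordinates `T i` for `i ∈ S` and the coordinates of `w` elsewhere. -/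
theorem exists_upd (w : C) {S : Set J} (hS : S.Countable) (T : J → Flt C → Set (List ℕ))
    (hm : ∀ i ∈ S, @Measurable _ _ (L.Bm i) _ (T i)) (hT : ∀ i ∈ S, ∀ᶠ G in Gen C, LTree (T i G)) :
    ∃ p : C, (∀ i ∈ S, ∀ᶠ G in Gen C, L.tr p i G = T i G) ∧ ∀ i ∉ S, L.t p i = L.t w i := by
  classical
  obtain ⟨p, hp⟩ := L.cond (fun i => if i ∈ S then L.nmOf i (T i) else L.t w i)
    (fun i s => by
      split_ifs
      · exact fun a ha => ha.1
      · exact L.sub _ _ _)
    (fun i => by
      split_ifs with h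
      · exact L.laver_nmOf (hm i h) (hT i h)
      · exact L.laver _ _)
    ((hS.union (L.ctb w)).mono (by
      intro i hi
      by_cases h : i ∈ S
      · exact Or.inl h
      · simp only [h, if_false, Set.mem_ofPred_eq] at hi
        exact Or.inr hi))
  refine ⟨p, fun i hi => ?_, fun i hi => ?_⟩
  · have h1 : ∀ᶠ G in Gen C, ∀ s : List ℕ, s ∈ T i G ↔ Mts (L.nmOf i (T i) s) G :=
      eventually_countable_forall.2 fun s => L.ae_nmOf (hm i hi) s
    filter_upwards [h1] with G hG
    ext s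
    have h2 : L.t p i = L.nmOf i (T i) := by
      rw [hp]
      simp only [hi, if_true]
    show Mts (L.t p i s) G ↔ s ∈ T i G
    rw [h2, hG s]
  · rw [hp]
    simp only [hi, if_false]

end LIter

end LM
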