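import Pool.Agent.Helper18.LM.Gen

/-!
# Projections to sub-forcings and the sigma-algebras of decided statements
-/

set_option autoImplicit false

namespace LM

variable {C : Type} [Preorder C]

/-- `π` is the projection of `C` onto the sub-forcing `{q | π q = q}` -/
structure Pj (π : C → C) : Prop where
  le : ∀ p, p ≤ π p
  mono : ∀ p q, p ≤ q → π p ≤ π q
  idem : ∀ p, π (π p) = π p
  cat : ∀ p q, π q = q → q ≤ π p → ∃ r, r ≤ p ∧ r ≤ q ∧ π r = q

/-- `φ` is densely decided in the sub-forcing -/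
def Dcd (π : C → C) (φ : Flt C → Prop) : Prop :=
  ∀ p, π p = p → ∃ q, π q = q ∧ q ≤ p ∧ (Frc q φ ∨ Frc q fun G => ¬ φ G)

namespace Pj

variable {π : C → C} (hπ : Pj π)

include hπ

/-- regularity inside the sub-forcing -/
theorem frc_of_dense {p : C} (hp : π p = p) {φ : Flt C → Prop}
    (h : ∀ q, π q = q → q ≤ p → ∃ r, π r = r ∧ r ≤ q ∧ Frc r φ) : Frc p φ := by
  refine LM.frc_of_dense fun q hq => ?_
  have h1 : π q ≤ p := hp ▸ hπ.mono _ _ hq
  obtain ⟨r, hr, hrq, hf⟩ := h (π q) (hπ.idem q) h1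
  obtain ⟨s, h2, h3, _⟩ := hπ.cat q r hr hrq
  exact ⟨s, h2, hf.anti h3⟩

/-- a.e. statements from density in the sub-forcing -/
theorem ae_of_dense {φ : Flt C → Prop}
    (h : ∀ q, π q = q → ∃ r, π r = r ∧ r ≤ q ∧ Frc r φ) : ∀ᶠ G in Gen C, φ G := by
  refine LM.ae_of_dense fun q => ?_
  obtain ⟨r, hr, hrq, hf⟩ := h (π q) (hπ.idem q)
  obtain ⟨s, h2, h3, _⟩ := hπ.cat q r hr hrq
  exact ⟨s, h2, hf.anti h3⟩

theorem frc_proj {p : C} {φ : Flt C → Prop} (hφ : Dcd π φ) : Frc (π p) φ ↔ Frc p φ := by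
  constructor
  · intro h
    exact h.anti (hπ.le p)
  · intro h
    refine hπ.frc_of_dense (hπ.idem p) fun q hq hqp => ?_
    obtain ⟨r, hr, hrq, h1 | h1⟩ := hφ q hq
    · exact ⟨r, hr, hrq, h1⟩
    · obtain ⟨s, h2, h3, _⟩ := hπ.cat p r hr (hrq.trans hqp)
      exact (frc_absurd (h.anti h2) (h1.anti h3)).elim

omit hπ in
theorem dcd_univ : Dcd π (fun _ => True) := fun p hp =>
  ⟨p, hp, le_refl p, Or.inl (Filter.Eventually.of_forall fun _ _ => trivial)⟩

omit hπ in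
theorem dcd_false : Dcd π (fun _ => False) := fun p hp =>
  ⟨p, hp, le_refl p, Or.inr (Filter.Eventually.of_forall fun _ _ => id)⟩

omit hπ in
theorem dcd_not {φ : Flt C → Prop} (h : Dcd π φ) : Dcd π (fun G => ¬ φ G) := by
  intro p hp
  obtain ⟨q, h1, h2, h3 | h3⟩ := h p hp
  · exact ⟨q, h1, h2, Or.inr (h3.mono (le_refl q) fun G h4 => not_not_intro h4)⟩
  · exact ⟨q, h1, h2, Or.inl h3⟩

theorem dcd_exists {φ : ℕ → Flt C → Prop} (h : ∀ n, Dcd π (φ n)) : Dcd π (fun G => ∃ n, φ n G) := by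
  intro p hp
  by_cases hc : ∃ q, π q = q ∧ q ≤ p ∧ ∃ n, Frc q (φ n)
  · obtain ⟨q, h1, h2, n, h3⟩ := hc
    exact ⟨q, h1, h2, Or.inl (h3.mono (le_refl q) fun G h4 => ⟨n, h4⟩)⟩
  · push Not at hc
    refine ⟨p, hp, le_refl p, Or.inr ?_⟩
    have h1 : ∀ n, Frc p (fun G => ¬ φ n G) := by
      intro n
      refine hπ.frc_of_dense hp fun q hq hqp => ?_
      obtain ⟨r, hr, hrq, h1 | h1⟩ := h n q hq
      · exact absurd h1 (hc r hr (hrq.trans hqp) n)
      · exact ⟨r, hr, hrq, h1⟩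
    exact (frc_forall h1).mono (le_refl p) fun G h2 h3 => by
      obtain ⟨n, hn⟩ := h3
      exact h2 n hn

omit hπ in
theorem dcd_congr {φ ψ : Flt C → Prop} (h : Dcd π φ) (he : ∀ᶠ G in Gen C, φ G ↔ ψ G) : Dcd π ψ := by
  intro p hp
  obtain ⟨q, h1, h2, h3 | h3⟩ := h p hp
  · refine ⟨q, h1, h2, Or.inl ?_⟩
    exact h3.mp (frc_of_ae (he.mono fun G h4 => h4.1))
  · refine ⟨q, h1, h2, Or.inr ?_⟩
    exact h3.mp (frc_of_ae (he.mono fun G h4 h5 h6 => h5 (h4.2 h6)))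

/-- the sigma-algebra of the sub-forcing -/
@[reducible]
def ms : MeasurableSpace (Flt C) where
  MeasurableSet' s := Dcd π (fun G => G ∈ s)
  measurableSet_empty := dcd_false
  measurableSet_compl s hs := dcd_not hs
  measurableSet_iUnion f hf := by
    have := hπ.dcd_exists hf
    refine dcd_congr this (Filter.Eventually.of_forall fun G => ?_)
    simp

theorem measurableSet_iff {s : Set (Flt C)} :
    @MeasurableSet _ hπ.ms s ↔ Dcd π (fun G => G ∈ s) := Iff.rfl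

/-- meeting a set of conditions of the sub-forcing is decided -/
theorem dcd_mts {A : Set C} (hA : ∀ a ∈ A, π a = a) : Dcd π (Mts A) := by
  intro p hp
  by_cases hc : ∃ q, π q = q ∧ q ≤ p ∧ ∃ a ∈ A, q ≤ a
  · obtain ⟨q, h1, h2, a, ha, h3⟩ := hc
    exact ⟨q, h1, h2, Or.inl (Filter.Eventually.of_forall fun G h4 => ⟨a, ha, G.up h4 h3⟩)⟩
  · push Not at hc
    refine ⟨p, hp, le_refl p, Or.inr (frc_not_mts.2 fun q hq a ha hqa => ?_)⟩
    refine hc (π q) (hπ.idem q) ?_ a ha ?_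
    · exact hp ▸ hπ.mono _ _ hq
    · exact hA a ha ▸ hπ.mono _ _ hqa

theorem dcd_mem {a : C} (ha : π a = a) : Dcd π (fun G => a ∈ G.S) := by
  refine dcd_congr (hπ.dcd_mts (A := {a}) (by rintro b rfl; exact ha))
    (Filter.Eventually.of_forall fun G => ?_)
  unfold Mts
  simp

/-- a decided statement holds iff it is forced by a condition in the filter -/
theorem ae_iff_frc {φ : Flt C → Prop} (hφ : Dcd π φ) :
    ∀ᶠ G in Gen C, φ G ↔ Mts {c | π c = c ∧ Frc c φ} G := by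
  refine hπ.ae_of_dense fun q hq => ?_
  obtain ⟨r, hr, hrq, h1 | h1⟩ := hφ q hq
  · refine ⟨r, hr, hrq, ?_⟩
    unfold Frc at *
    filter_upwards [h1] with G h2 h3
    exact ⟨fun _ => ⟨r, ⟨hr, h1⟩, h3⟩, fun _ => h2 h3⟩
  · refine ⟨r, hr, hrq, ?_⟩
    have h4 : Frc r (fun G => ¬ Mts {c | π c = c ∧ Frc c φ} G) := by
      refine frc_not_mts.2 fun q hq a ha hqa => ?_
      exact frc_absurd (ha.2.anti hqa) (h1.anti hq)
    unfold Frc at *
    filter_upwards [h1, h4] with G h2 h3 h5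
    exact ⟨fun h6 => absurd h6 (h2 h5), fun h6 => absurd h6 (h3 h5)⟩

/-- a decided function with values in a countable type is decided -/
theorem decide {α : Type*} [Countable α] {f : Flt C → α} (h : ∀ a, Dcd π (fun G => f G = a)) {p : C}
    (hp : π p = p) : ∃ q, π q = q ∧ q ≤ p ∧ ∃ a, Frc q (fun G => f G = a) := by
  by_contra hc
  push Not at hc
  have h1 : ∀ a, Frc p (fun G => ¬ f G = a) := by
    intro a
    refine hπ.frc_of_dense hp fun q hq hqp => ?_
    obtain ⟨r, hr, hrq, h1 | h1⟩ := h a q hq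
    · exact absurd h1 (hc r hr (hrq.trans hqp) a)
    · exact ⟨r, hr, hrq, h1⟩
  obtain ⟨G, _, h2⟩ := frc_exists (frc_forall h1)
  exact h2 (f G) rfl

end Pj

end LM
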