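import Pool.Agent.Helper18.LM.TreeB

/-!
# LM-T7: cones, fast subtrees, avoiding subtrees, unions (about 150 lines)

All direct.  `cone_ltree`: if `stem T <:+ s` then `s` is the stem of `cone T s`; otherwise
`s <:+ stem T` and `cone T s = T`.  `avoid_isStem`: a node `u` of the avoiding subtree extending
`stem T` is not in `A`, so only finitely many of its successors in `T` are in `A`.
`br_union`: `ini f (t.length + 1)` lies in some `S j`, `j ∈ H`; it is comparable with the stem `j :: t`
and has the same length, so it is `j :: t`; so `f t.length = j` and `t` is on `f`.  For every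
`n > t.length`, `ini f n` is in some `S j'`, `j' ∈ H`, and extends `j :: t`, and is comparable with
`j' :: t`, so `j' = j`.
-/

set_option autoImplicit false

namespace LM

variable {T : Set (List ℕ)} {f : ℕ → ℕ}

theorem cone_subset (T : Set (List ℕ)) (s : List ℕ) : cone T s ⊆ T := fun _ h => h.1

/-- two initial segments of the same sequence are comparable -/
theorem suf_or_suf {a b c : List ℕ} (ha : a <:+ c) (hb : b <:+ c) : a <:+ b ∨ b <:+ a :=
  List.suffix_or_suffix_of_suffix ha hb

/-- a node above the stem has successors of arbitrarily large label -/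
theorem LTree.big (h : LTree T) {u : List ℕ} (hu : u ∈ T) (hs : stem T <:+ u) (n : ℕ) :
    ∃ m, n ≤ m ∧ m :: u ∈ T := (isStem_stem h).2.2.2 u hu hs n

theorem cone_isStem (h : LTree T) {s : List ℕ} (hs : s ∈ T) (hst : stem T <:+ s) :
    IsStem (cone T s) s := by
  refine ⟨⟨hs, Or.inl (List.suffix_refl s)⟩, ?_, ?_, ?_⟩
  · rintro u ⟨hu, hu'⟩ v hv
    refine ⟨h.closed hu hv, ?_⟩
    rcases hu' with hu' | hu'
    · exact Or.inl (hv.trans hu')
    · exact suf_or_suf hv hu'
  · rintro u ⟨_, hu'⟩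
    exact hu'
  · rintro u ⟨hu, _⟩ hsu n
    obtain ⟨m, hm, hm'⟩ := h.big hu (hst.trans hsu) n
    exact ⟨m, hm, hm', Or.inr (hsu.trans (List.suffix_cons m u))⟩

theorem cone_ltree (h : LTree T) {s : List ℕ} (hs : s ∈ T) : LTree (cone T s) := by
  rcases h.cmp hs with h1 | h1
  · have e : cone T s = T := by
      ext u
      constructor
      · exact fun hu => hu.1
      · intro hu
        refine ⟨hu, ?_⟩
        rcases h.cmp hu with h2 | h2
        · exact suf_or_suf h2 h1
        · exact Or.inr (h1.trans h2)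
    rw [e]
    exact h
  · exact ⟨s, cone_isStem h hs h1⟩

theorem br_cone {s : List ℕ} : Br (cone T s) f ↔ Br T f ∧ Isg s f := by
  constructor
  · intro hb
    refine ⟨fun n => (hb n).1, ?_⟩
    have h1 := (hb s.length).2
    have hl : (ini f s.length).length = s.length := ini_length f s.length
    rcases h1 with h1 | h1
    · exact h1.eq_of_length hl
    · exact (h1.eq_of_length hl.symm).symm
  · rintro ⟨hb, hs⟩ n
    refine ⟨hb n, ?_⟩
    unfold Isg at hs
    rcases le_total n s.length with hn | hn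
    · left
      have := ini_suf f hn
      rwa [hs] at this
    · right
      have := ini_suf f hn
      rwa [hs] at this

theorem fast_subset (T : Set (List ℕ)) (H : List ℕ → ℕ) : fast T H ⊆ T := fun _ h => h.1

/-- a proper initial segment of the stem is not an extension of it -/
theorem not_suf_of_cons {m : ℕ} {u s : List ℕ} (h : (m :: u) <:+ s) : ¬ s <:+ u := by
  intro h'
  have h1 := h.length_le
  have h2 := h'.length_le
  simp only [List.length_cons] at h1
  omega

theorem fast_isStem (h : LTree T) (H : List ℕ → ℕ) : IsStem (fast T H) (stem T) := by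
  refine ⟨⟨h.stem_mem, fun m u hm hs => absurd hs (not_suf_of_cons hm)⟩, ?_, ?_, ?_⟩
  · rintro u ⟨hu, hu'⟩ v hv
    exact ⟨h.closed hu hv, fun m w hm hs => hu' m w (hm.trans hv) hs⟩
  · rintro u ⟨hu, _⟩
    exact h.cmp hu
  · rintro u ⟨hu, hu'⟩ hsu n
    obtain ⟨m, hm, hm'⟩ := h.big hu hsu (max n (H u))
    refine ⟨m, (le_max_left _ _).trans hm, hm', ?_⟩
    intro m' w hw hs
    rcases List.suffix_cons_iff.1 hw with hw | hw
    · obtain ⟨h1, h2⟩ := List.cons_eq_cons.1 hw
      rw [h1, h2]
      exact (le_max_right _ _).trans hm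
    · exact hu' m' w hw hs

theorem br_fast (h : LTree T) {H : List ℕ → ℕ} (hb : Br (fast T H) f) {n : ℕ}
    (hn : (stem T).length ≤ n) : H (ini f n) ≤ f n := by
  have h1 := (hb (n + 1)).2 (f n) (ini f n) (List.suffix_refl _)
  apply h1
  have h2 : Br T f := fun k => (hb k).1
  rcases h.cmp (h2 n) with h3 | h3
  · have := h3.eq_of_length_le (by rw [ini_length]; exact hn)
    rw [this]
  · exact h3

theorem avoid_subset (T : Set (List ℕ)) (A : Set (List ℕ)) : avoid T A ⊆ T := fun _ h => h.1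

theorem avoid_not_mem {A : Set (List ℕ)} {s : List ℕ} (hs : s ∈ avoid T A) (hst : stem T <:+ s) :
    s ∉ A := hs.2 s (List.suffix_refl s) hst

theorem avoid_isStem (h : LTree T) {A : Set (List ℕ)} (h0 : stem T ∉ A)
    (hA : ∀ u ∈ T, stem T <:+ u → u ∉ A → {m | m :: u ∈ A}.Finite) : IsStem (avoid T A) (stem T) := by
  refine ⟨⟨h.stem_mem, ?_⟩, ?_, ?_, ?_⟩
  · intro u hu hs
    have : u = stem T := hu.eq_of_length_le hs.length_le
    rw [this]
    exact h0
  · rintro u ⟨hu, hu'⟩ v hv
    exact ⟨h.closed hu hv, fun w hw hs => hu' w (hw.trans hv) hs⟩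
  · rintro u ⟨hu, _⟩
    exact h.cmp hu
  · rintro u ⟨hu, hu'⟩ hsu n
    have hf := hA u hu hsu (hu' u (List.suffix_refl u) hsu)
    obtain ⟨N, hN⟩ := hf.bddAbove
    obtain ⟨m, hm, hm'⟩ := h.big hu hsu (max n (N + 1))
    refine ⟨m, (le_max_left _ _).trans hm, hm', ?_⟩
    intro w hw hs
    rcases List.suffix_cons_iff.1 hw with hw | hw
    · rw [hw]
      intro hmem
      have h1 : m ≤ N := hN hmem
      have h2 : N + 1 ≤ m := (le_max_right _ _).trans hm
      omega
    · exact hu' w hw hs

theorem union_isStem {H : Set ℕ} (hH : H.Infinite) {S : ℕ → Set (List ℕ)} {t : List ℕ}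
    (hS : ∀ j ∈ H, IsStem (S j) (j :: t)) : IsStem (⋃ j ∈ H, S j) t := by
  have ht : ∀ j ∈ H, t ∈ S j := fun j hj =>
    (hS j hj).2.1 _ (hS j hj).1 t (List.suffix_cons j t)
  refine ⟨?_, ?_, ?_, ?_⟩
  · obtain ⟨j, hj⟩ := hH.nonempty
    exact Set.mem_biUnion hj (ht j hj)
  · intro u hu v hv
    obtain ⟨j, hj, hu⟩ := Set.mem_iUnion₂.1 hu
    exact Set.mem_biUnion hj ((hS j hj).2.1 u hu v hv)
  · intro u hu
    obtain ⟨j, hj, hu⟩ := Set.mem_iUnion₂.1 hu
    rcases (hS j hj).2.2.1 u hu with h1 | h1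
    · rcases List.suffix_cons_iff.1 h1 with h1 | h1
      · right
        rw [h1]
        exact List.suffix_cons j t
      · exact Or.inl h1
    · exact Or.inr ((List.suffix_cons j t).trans h1)
  · intro u hu htu n
    obtain ⟨j, hj, hu⟩ := Set.mem_iUnion₂.1 hu
    rcases (hS j hj).2.2.1 u hu with h1 | h1
    · rcases List.suffix_cons_iff.1 h1 with h1 | h1
      · obtain ⟨m, hm, hm'⟩ := (hS j hj).2.2.2 u hu (by rw [h1]) n
        exact ⟨m, hm, Set.mem_biUnion hj hm'⟩
      · have e : u = t := h1.eq_of_length_le htu.length_le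
        obtain ⟨m, hm, hm'⟩ := hH.exists_gt n
        refine ⟨m, hm'.le, ?_⟩
        rw [e]
        exact Set.mem_biUnion hm (hS m hm).1
    · obtain ⟨m, hm, hm'⟩ := (hS j hj).2.2.2 u hu h1 n
      exact ⟨m, hm, Set.mem_biUnion hj hm'⟩

theorem br_union {H : Set ℕ} {S : ℕ → Set (List ℕ)} {t : List ℕ}
    (hS : ∀ j ∈ H, IsStem (S j) (j :: t)) (hb : Br (⋃ j ∈ H, S j) f) :
    Isg t f ∧ f t.length ∈ H ∧ Br (S (f t.length)) f := by
  have key : ∀ n, t.length + 1 ≤ n → ∀ j ∈ H, ini f n ∈ S j → f t.length = j ∧ Isg t f := by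
    intro n hn j hj hm
    have h1 : (j :: t) <:+ ini f n := by
      rcases (hS j hj).2.2.1 _ hm with h1 | h1
      · have := h1.eq_of_length_le (by rw [ini_length]; simpa using hn)
        rw [this]
      · exact h1
    have h2 : ini f (t.length + 1) <:+ ini f n := ini_suf f hn
    have h3 : ini f (t.length + 1) = j :: t := by
      rcases suf_or_suf h1 h2 with h3 | h3
      · exact (h3.eq_of_length (by rw [ini_length]; simp)).symm
      · exact h3.eq_of_length (by rw [ini_length]; simp)
    have h4 : f t.length :: ini f t.length = j :: t := h3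
    obtain ⟨h5, h6⟩ := List.cons_eq_cons.1 h4
    exact ⟨h5, h6⟩
  obtain ⟨j, hj, hm⟩ := Set.mem_iUnion₂.1 (hb (t.length + 1))
  obtain ⟨h1, h2⟩ := key _ le_rfl j hj hm
  refine ⟨h2, h1 ▸ hj, ?_⟩
  intro n
  obtain ⟨j', hj', hm'⟩ := Set.mem_iUnion₂.1 (hb (max n (t.length + 1)))
  obtain ⟨h3, _⟩ := key _ (le_max_right _ _) j' hj' hm'
  rw [h3]
  exact (hS j' hj').2.1 _ hm' _ (ini_suf f (le_max_left _ _))

end LM
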