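import Pool.Agent.Helper18.LM.TreeB

/-!
# LM-T6: sparse subtrees, and fast growing reals (about 130 lines)

`prune_isStem`: the stem is in `prune T g` (a condition about canonical nodes of positive length); a
node of `prune T g` extending the stem is `ndl T u`, and its successors `ndl T (l :: u)` with
`l ≥ g (idx u)` are in `prune T g` (`le_idx_cons`).
`br_prune`: `nd T i <:+ nd T i'` (`nd_suf_of_isg`) and they are different, so `dec i <:+ dec i'`
properly, so there is `l` with `l :: dec i <:+ dec i'`; then `ndl T (l :: dec i)` is an initial segment of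
`f`, hence in `prune T g`, so `g i ≤ idx (l :: dec i) ≤ i'` (`idx_le_of_suf`).

`Hn T ρ s` is the value of the successor number `ρ i` of `s` if `s` is the canonical node with index `i`.
`index_of_fast`: the canonical nodes on `f` of length `< N₀` are finitely many; let `i₀` be larger than
their indices.  If `i ≥ i₀`, `i < i'` are both on `f`, let `l :: dec i <:+ dec i'` as above,
`ndl T (l :: dec i) = m :: nd T i` with `m = f n`, `n` the length of `nd T i`, and `n ≥ N₀`.  So
`m ≥ Hn T ρ (nd T i) = Nat.nth _ (ρ i)`, and `m = Nat.nth _ l`, so `l ≥ ρ i` and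
`i' ≥ idx (l :: dec i) ≥ l ≥ ρ i`.
-/

set_option autoImplicit false

namespace LM

variable {T : Set (List ℕ)} {f : ℕ → ℕ}

theorem prune_subset (T : Set (List ℕ)) (g : ℕ → ℕ) : prune T g ⊆ T := fun _ h => h.1

theorem prune_isStem (h : LTree T) (g : ℕ → ℕ) : IsStem (prune T g) (stem T) := by
  have hst := isStem_stem h
  refine ⟨⟨hst.1, fun l u hlu => ?_⟩, fun u hu v hv => ⟨hst.2.1 u hu.1 v hv, fun l w hw =>
    hu.2 l w (hw.trans hv)⟩, fun u hu => hst.2.2.1 u hu.1, fun u hu hsu n => ?_⟩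
  · exfalso
    have h1 := hlu.length_le
    rw [ndl_length, List.length_cons] at h1
    omega
  · obtain ⟨w, rfl⟩ := ndl_surj h hu.1 hsu
    have hinf := h.inf hu.1 hsu
    obtain ⟨m, hm, hlt⟩ := hinf.exists_gt
      (max n (Nat.nth (fun m => m :: ndl T w ∈ T) (g (idx w))))
    obtain ⟨l, hl⟩ := cons_ndl h hm
    have h0 : ndl T (g (idx w) :: w) =
        Nat.nth (fun m => m :: ndl T w ∈ T) (g (idx w)) :: ndl T w := rfl
    have hgl : g (idx w) < l := (ndl_cons_lt h h0 hl).mpr (lt_of_le_of_lt (le_max_right _ _) hlt)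
    refine ⟨m, (lt_of_le_of_lt (le_max_left _ _) hlt).le, hm, fun l' u' hlu => ?_⟩
    rw [← hl, ndl_suf_iff h] at hlu
    rcases List.suffix_cons_iff.mp hlu with heq | hsuf
    · obtain ⟨rfl, rfl⟩ := List.cons.inj heq
      exact hgl.le.trans (le_idx_cons _ _)
    · exact hu.2 l' u' (ndl_suf T hsuf)

private theorem exists_cons (h : LTree T) {i i' : ℕ} (hi : Isg (nd T i) f)
    (hi' : Isg (nd T i') f) (hlt : i < i') : ∃ l, l :: dec i <:+ dec i' := by
  have h1 : dec i <:+ dec i' := (ndl_suf_iff h).mp (nd_suf_of_isg h hi hi' hlt.le)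
  obtain ⟨t, ht⟩ := h1
  rcases List.eq_nil_or_concat t with rfl | ⟨t', l, rfl⟩
  · exfalso
    rw [List.nil_append] at ht
    have h2 : idx (dec i) = idx (dec i') := by rw [ht]
    rw [idx_dec, idx_dec] at h2
    omega
  · refine ⟨l, t', ?_⟩
    rw [← ht]
    simp

theorem br_prune (h : LTree T) {g : ℕ → ℕ} (hb : Br (prune T g) f) {i i' : ℕ} (hi : Isg (nd T i) f)
    (hi' : Isg (nd T i') f) (hlt : i < i') : g i ≤ i' := by
  obtain ⟨l, hl⟩ := exists_cons h hi hi' hlt
  have h1 : nd T i' ∈ prune T g := by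
    rw [← hi']
    exact hb _
  have h2 := h1.2 l (dec i) (ndl_suf T hl)
  have h3 := idx_le_of_suf hl
  rw [idx_dec] at h2 h3
  exact h2.trans h3

/-- if `s` is the canonical node of `T` with index `i`, the last entry of its successor number `ρ i` -/
noncomputable def Hn (T : Set (List ℕ)) (ρ : ℕ → ℕ) (s : List ℕ) : ℕ :=
  Nat.nth (fun m => m :: s ∈ T) (ρ (sInf {i | nd T i = s}))

theorem index_of_fast (h : LTree T) (hb : Br T f) (ρ : ℕ → ℕ) (N₀ : ℕ)
    (hH : ∀ n, N₀ ≤ n → Hn T ρ (ini f n) ≤ f n) :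
    ∃ i₀, ∀ i i', i₀ ≤ i → i < i' → Isg (nd T i) f → Isg (nd T i') f → ρ i ≤ i' := by
  have hfin : {i | Isg (nd T i) f ∧ (nd T i).length < N₀}.Finite := by
    refine Set.Finite.of_injOn (f := fun i => (nd T i).length) (t := Set.Iio N₀)
      (fun i hi => hi.2) (fun i hi j hj hij => ?_) (Set.finite_Iio N₀)
    have h1 : ini f (nd T i).length = nd T i := hi.1
    have h2 : ini f (nd T j).length = nd T j := hj.1
    have h3 : (nd T i).length = (nd T j).length := hij
    apply nd_inj h
    rw [← h1, ← h2, h3]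
  obtain ⟨B, hB⟩ := hfin.bddAbove
  refine ⟨B + 1, fun i i' hi₀ hlt hi hi' => ?_⟩
  have hlen : N₀ ≤ (nd T i).length := by
    by_contra hcon
    have := hB ⟨hi, not_le.mp hcon⟩
    omega
  obtain ⟨l, hl⟩ := exists_cons h hi hi' hlt
  have h1 : Isg (ndl T (l :: dec i)) f := Isg.suf hi' (ndl_suf T hl)
  have h0 : ndl T (l :: dec i) =
      Nat.nth (fun m => m :: ndl T (dec i) ∈ T) l :: ndl T (dec i) := rfl
  rw [h0, isg_cons_iff] at h1
  have h2 := hH _ hlen
  have h3 : ini f (nd T i).length = nd T i := hi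
  have h4 : f (nd T i).length = Nat.nth (fun m => m :: ndl T (dec i) ∈ T) l := h1.1
  have h5 : sInf {k | nd T k = nd T i} = i := by
    have : {k | nd T k = nd T i} = {i} := by
      ext k
      exact ⟨fun hk => nd_inj h hk, fun hk => by rw [Set.mem_singleton_iff] at hk; rw [hk]; rfl⟩
    rw [this, csInf_singleton]
  unfold Hn at h2
  rw [h3, h5, h4] at h2
  have h6 : ρ i ≤ l := by
    by_contra hcon
    have h7 : ndl T (ρ i :: dec i) =
      Nat.nth (fun m => m :: ndl T (dec i) ∈ T) (ρ i) :: ndl T (dec i) := rfl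
    have h8 := (ndl_cons_lt h h0 h7).mp (not_le.mp hcon)
    exact absurd h2 (not_le.mpr h8)
  have h9 := idx_le_of_suf hl
  rw [idx_dec] at h9
  exact h6.trans ((le_idx_cons _ _).trans h9)

end LM
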