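import Pool.Agent.Helper18.LM.TreeM
import Pool.Agent.Helper18.LM.TreeF

/-!
# LM-T9: Borel measurability of the tree operations (about 200 lines)

See the comment of `TreeM.lean`.  For a map into `Set (List ℕ)` use `measurable_set_iff`; every
membership statement is a countable combination of statements `s ∈ T`, `nd T k = s`, `stem T = s`,
`ndl T u = s`, `h i = j`, which are measurable.
For `pos`: `pos T n f = k` is decided by the finitely many statements `Isg (nd T i) f`, `i ≤ n`
(induction on `n` with `Nat.findGreatest_succ`).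
-/

set_option autoImplicit false

namespace LM

section TreeNAux

variable {Ω : Type*} [MeasurableSpace Ω]

/-- a random element of a sequence of random variables -/
private theorem tn_apply {F : Ω → ℕ → ℕ} {L : Ω → ℕ} (hF : ∀ l, Measurable (fun ω => F ω l))
    (hL : Measurable L) : Measurable (fun ω => F ω (L ω)) := by
  apply measurable_to_countable'
  intro v
  have : (fun ω => F ω (L ω)) ⁻¹' {v} = ⋃ l, (L ⁻¹' {l} ∩ (fun ω => F ω l) ⁻¹' {v}) := by
    ext ω
    simp only [Set.mem_preimage, Set.mem_singleton_iff, Set.mem_iUnion, Set.mem_inter_iff]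
    constructor
    · intro h; exact ⟨L ω, rfl, h⟩
    · rintro ⟨l, h1, h2⟩; rw [h1]; exact h2
  rw [this]
  exact MeasurableSet.iUnion fun l => (hL (measurableSet_singleton l)).inter
    (hF l (measurableSet_singleton v))

/-- a predicate of a discrete random variable -/
private theorem tn_pred {α : Type*} [MeasurableSpace α] [DiscreteMeasurableSpace α] {a : Ω → α}
    (ha : Measurable a) (p : α → Prop) : Measurable (fun ω => p (a ω)) :=
  (Measurable.of_discrete (f := p)).comp ha

/-- a predicate of a random list with measurable values at all lists -/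
private theorem tn_list {a : Ω → List ℕ} (ha : Measurable a) {p : Ω → List ℕ → Prop}
    (hp : ∀ s, Measurable (fun ω => p ω s)) : Measurable (fun ω => p ω (a ω)) := by
  have : (fun ω => p ω (a ω)) = fun ω => ∃ s, a ω = s ∧ p ω s := by
    funext ω
    simp
  rw [this]
  exact Measurable.exists fun s => (tn_pred ha (fun t => t = s)).and (hp s)

/-- membership in a random tree -/
private theorem tn_mem {g : Ω → Set (List ℕ)} (hg : Measurable g) (s : List ℕ) :
    Measurable (fun ω => s ∈ g ω) := measurable_set_iff.1 hg s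

end TreeNAux

theorem measurable_ini (n : ℕ) : Measurable (fun f : ℕ → ℕ => ini f n) := by
  induction n with
  | zero => exact measurable_const
  | succ n ih =>
    apply measurable_to_countable'
    intro v
    have : (fun f : ℕ → ℕ => ini f (n + 1)) ⁻¹' {v} =
        ⋃ m, ⋃ s, ⋃ (_ : m :: s = v), ((fun f : ℕ → ℕ => f n) ⁻¹' {m} ∩ (fun f => ini f n) ⁻¹' {s}) := by
      ext f
      simp only [Set.mem_preimage, Set.mem_singleton_iff, Set.mem_iUnion, Set.mem_inter_iff, ini]
      constructor
      · intro h; exact ⟨f n, ini f n, h, rfl, rfl⟩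
      · rintro ⟨m, s, h, h1, h2⟩; rw [h1, h2]; exact h
    rw [this]
    exact MeasurableSet.iUnion fun m => MeasurableSet.iUnion fun s => MeasurableSet.iUnion fun _ =>
      (measurable_pi_apply n (measurableSet_singleton m)).inter (ih (measurableSet_singleton s))

theorem measurable_cod : Measurable (fun f : ℕ → ℕ => cod f) := by
  rw [measurable_pi_iff]
  intro j
  apply measurable_to_countable'
  intro v
  have hm : MeasurableSet {f : ℕ → ℕ | ∃ n, idx (ini f n) = j} := by
    have : {f : ℕ → ℕ | ∃ n, idx (ini f n) = j} =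
        ⋃ n, (fun f : ℕ → ℕ => ini f n) ⁻¹' {s | idx s = j} := by
      ext f; simp
    rw [this]
    exact MeasurableSet.iUnion fun n => measurable_ini n (MeasurableSet.of_discrete)
  cases v with
  | true =>
    have : (fun f : ℕ → ℕ => cod f j) ⁻¹' {true} = {f : ℕ → ℕ | ∃ n, idx (ini f n) = j} := by
      ext f
      simp [cod]
    rw [this]; exact hm
  | false =>
    have : (fun f : ℕ → ℕ => cod f j) ⁻¹' {false} = {f : ℕ → ℕ | ∃ n, idx (ini f n) = j}ᶜ := by
      ext f
      simp [cod]
    rw [this]; exact hm.compl

theorem measurableSet_br : MeasurableSet {x : Set (List ℕ) × (ℕ → ℕ) | Br x.1 x.2} := by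
  rw [measurableSet_setOfPred]
  exact Measurable.forall fun n => tn_list ((measurable_ini n).comp measurable_snd)
    (p := fun x s => s ∈ x.1) fun s => tn_mem measurable_fst s

private theorem tn_isg {Ω : Type*} [MeasurableSpace Ω] {a : Ω → List ℕ} (ha : Measurable a)
    {g : Ω → ℕ → ℕ} (hg : Measurable g) : Measurable (fun ω => Isg (a ω) (g ω)) :=
  tn_list ha (p := fun ω s => Isg s (g ω)) fun s =>
    tn_pred ((measurable_ini s.length).comp hg) (fun t => t = s)

private theorem tn_isg_nd (k : ℕ) :
    Measurable (fun x : Set (List ℕ) × (ℕ → ℕ) => Isg (nd x.1 k) x.2) :=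
  tn_isg ((measurable_nd k).comp measurable_fst) measurable_snd

theorem measurableSet_isg_nd (k : ℕ) :
    MeasurableSet {x : Set (List ℕ) × (ℕ → ℕ) | Isg (nd x.1 k) x.2} := by
  rw [measurableSet_setOfPred]
  exact tn_isg_nd k

theorem measurable_pos (n : ℕ) : Measurable (fun x : Set (List ℕ) × (ℕ → ℕ) => pos x.1 n x.2) := by
  classical
  unfold pos
  exact measurable_findGreatest fun k _ => measurableSet_isg_nd k

theorem measurable_comp (n k : ℕ) : Measurable (fun T : Set (List ℕ) => comp T n k) := by
  rw [measurable_set_iff]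
  intro s
  change Measurable fun T : Set (List ℕ) => s ∈ T ∧ (s <:+ nd T k ∨ nd T k <:+ s) ∧
    ∀ k' ≤ n, k' ≠ k → nd T k <:+ nd T k' → ¬ nd T k' <:+ s
  refine (tn_mem measurable_id s).and (((tn_pred (measurable_nd k) fun t => s <:+ t).or
    (tn_pred (measurable_nd k) fun t => t <:+ s)).and ?_)
  refine Measurable.forall fun k' => Measurable.imp measurable_const (Measurable.imp
    measurable_const (Measurable.imp ?_ (tn_pred (measurable_nd k') fun t => t <:+ s).not))
  exact tn_list (measurable_nd k) (p := fun T t => t <:+ nd T k') fun t =>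
    tn_pred (measurable_nd k') fun t' => t <:+ t'

theorem measurable_amal (n k : ℕ) :
    Measurable (fun x : Set (List ℕ) × Set (List ℕ) => amal x.1 n k x.2) := by
  rw [measurable_set_iff]
  intro s
  change Measurable fun x : Set (List ℕ) × Set (List ℕ) =>
    (s ∈ x.1 ∧ (¬ s ∈ comp x.1 n k ∨ s <:+ nd x.1 k)) ∨ s ∈ x.2
  exact ((tn_mem measurable_fst s).and
    ((tn_mem ((measurable_comp n k).comp measurable_fst) s).not.or
      (tn_pred ((measurable_nd k).comp measurable_fst) fun t => s <:+ t))).or
    (tn_mem measurable_snd s)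

theorem measurable_cone (s : List ℕ) : Measurable (fun T : Set (List ℕ) => cone T s) := by
  rw [measurable_set_iff]
  intro u
  change Measurable fun T : Set (List ℕ) => u ∈ T ∧ (u <:+ s ∨ s <:+ u)
  exact (tn_mem measurable_id u).and measurable_const

theorem measurable_prune : Measurable (fun x : Set (List ℕ) × (ℕ → ℕ) => prune x.1 x.2) := by
  rw [measurable_set_iff]
  intro s
  change Measurable fun x : Set (List ℕ) × (ℕ → ℕ) =>
    s ∈ x.1 ∧ ∀ l u, ndl x.1 (l :: u) <:+ s → x.2 (idx u) ≤ idx (l :: u)
  refine (tn_mem measurable_fst s).and (Measurable.forall fun l => Measurable.forall fun u => ?_)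
  have h2 : Measurable fun x : Set (List ℕ) × (ℕ → ℕ) => x.2 (idx u) :=
    (measurable_pi_apply (idx u)).comp measurable_snd
  exact (tn_pred ((measurable_ndl (l :: u)).comp measurable_fst) fun t => t <:+ s).imp
    (tn_pred h2 fun t : ℕ => t ≤ idx (l :: u))

theorem measurable_fast : Measurable (fun x : Set (List ℕ) × (List ℕ → ℕ) => fast x.1 x.2) := by
  rw [measurable_set_iff]
  intro s
  change Measurable fun x : Set (List ℕ) × (List ℕ → ℕ) =>
    s ∈ x.1 ∧ ∀ m u, (m :: u) <:+ s → stem x.1 <:+ u → x.2 u ≤ m
  refine (tn_mem measurable_fst s).and (Measurable.forall fun m => Measurable.forall fun u => ?_)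
  have h2 : Measurable fun x : Set (List ℕ) × (List ℕ → ℕ) => x.2 u :=
    (measurable_pi_apply u).comp measurable_snd
  exact measurable_const.imp ((tn_pred (measurable_stem.comp measurable_fst) fun t => t <:+ u).imp
    (tn_pred h2 fun t : ℕ => t ≤ m))

theorem measurable_avoid :
    Measurable (fun x : Set (List ℕ) × Set (List ℕ) => avoid x.1 x.2) := by
  rw [measurable_set_iff]
  intro s
  change Measurable fun x : Set (List ℕ) × Set (List ℕ) =>
    s ∈ x.1 ∧ ∀ u, u <:+ s → stem x.1 <:+ u → ¬ u ∈ x.2
  refine (tn_mem measurable_fst s).and (Measurable.forall fun u => ?_)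
  exact measurable_const.imp ((tn_pred (measurable_stem.comp measurable_fst) fun t => t <:+ u).imp
    (tn_mem measurable_snd u).not)

theorem measurable_iInter_tree : Measurable (fun x : ℕ → Set (List ℕ) => ⋂ m, x m) := by
  rw [measurable_set_iff]
  intro s
  have : (fun x : ℕ → Set (List ℕ) => s ∈ ⋂ m, x m) = fun x => ∀ m, s ∈ x m := by
    funext x
    simp
  rw [this]
  exact Measurable.forall fun m => tn_mem (measurable_pi_apply m) s

theorem measurable_Hn (s : List ℕ) :
    Measurable (fun x : Set (List ℕ) × (ℕ → ℕ) => Hn x.1 x.2 s) := by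
  unfold Hn
  have hJ : Measurable fun x : Set (List ℕ) × (ℕ → ℕ) => sInf {i | nd x.1 i = s} := by
    apply measurable_sInf_nat (S := fun (x : Set (List ℕ) × (ℕ → ℕ)) i => nd x.1 i = s)
    intro m
    rw [measurableSet_setOfPred]
    exact tn_pred ((measurable_nd m).comp measurable_fst) fun t => t = s
  have hL : Measurable fun x : Set (List ℕ) × (ℕ → ℕ) => x.2 (sInf {i | nd x.1 i = s}) :=
    tn_apply (F := fun x => x.2) (fun l => (measurable_pi_apply l).comp measurable_snd) hJ
  refine tn_apply (F := fun x l => Nat.nth (fun m => m :: s ∈ x.1) l) (fun l => ?_) hL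
  apply measurable_nth (S := fun (x : Set (List ℕ) × (ℕ → ℕ)) m => m :: s ∈ x.1)
  intro m
  rw [measurableSet_setOfPred]
  exact tn_mem measurable_fst (m :: s)

end LM
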