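import Pool.Agent.Helper18.LM.IterC
import Pool.Agent.Helper18.LM.TreeG
import Pool.Agent.Helper18.LM.TreeN

/-!
# LM-P3: the Laver reals (about 150 lines)

`exists_cone`: use `exists_upd` with base `w` = a condition with lower part `c` and upper part `p`
(`exists_cat i c p`), `S = {i}` and
`T i G = cone (L.tr p i G) s` if `s ∈ L.tr p i G` and `LTree (L.tr p i G)`, and `Set.univ` otherwise
(measurable: `measurable_cone`, `Measurable.ite`/piecewise; Laver: `cone_ltree`, `isStem_univ`).
`q ≤ p` by `le_iff_tr`: for coordinates `j < i` one has `L.tr q j = L.tr c j` and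
`L.rs j q = L.rs j c ≤ L.rs j p`, use `le_iff_tr` for `c ≤ L.rs i p`; for `j = i` use that
`L.rs i q = c` forces `s ∈ L.tr p i G`; for `j > i` the coordinates agree.

`pas_unique` (for every filter `G`): if `p ∈ Ee i s ∩ G` and `q ∈ Ee i s' ∩ G` take `r ∈ G` below
both; `L.rs i r` forces `L.tr r i G ⊆ L.tr p i G, L.tr q i G`, so forces all nodes of the Laver tree
`L.tr r i G` to be comparable with `s` and with `s'`; it has a node of length `s.length`
(`LTree.exists_length`), equal to `s` and `s'`.

`ae_pas`: by `ae_of_dense`; given `q`, `L.rs i q` forces that `L.tr q i G` has a node of length `n`;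
decide one, `s`, by `c ≤ L.rs i q` (`(L.pj i).decide` or countable unions), and apply `exists_cone`; the
result is in `Ee i s`.
-/

set_option autoImplicit false

namespace LM

namespace LIter

variable {J C : Type} [LinearOrder J] [Preorder C] (L : LIter J C)

/-- Let `c ≤ L.rs i p` force that `s` is a node of the `i`-th tree of `p`.  Then there is `q ≤ p` with
lower part `c` whose `i`-th tree is the cone of `s`. -/
theorem exists_cone {p c : C} {i : J} {s : List ℕ} (hc : L.rs i c = c) (hcp : c ≤ L.rs i p)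
    (h : Frc c (fun G => s ∈ L.tr p i G)) :
    ∃ q, q ≤ p ∧ L.rs i q = c ∧ Frc c (fun G => L.tr q i G = cone (L.tr p i G) s) ∧
      ∀ j, i < j → L.t q j = L.t p j := by
  classical
  obtain ⟨w, hw1, hw2⟩ := L.exists_cat (i : WithTop J) c p
  let T : J → Flt C → Set (List ℕ) := fun _ G =>
    if s ∈ L.tr p i G ∧ LTree (L.tr p i G) then cone (L.tr p i G) s else Set.univ
  have hm : ∀ j ∈ ({i} : Set J), @Measurable _ _ (L.Bm j) _ (T j) := by
    intro j hj
    rw [Set.mem_singleton_iff] at hj
    subst hj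
    let _ := L.Bm j
    have h1 : Measurable (L.tr p j) := L.measurable_tr p j
    refine Measurable.ite ?_ ((measurable_cone s).comp h1) measurable_const
    exact MeasurableSet.inter (h1 (measurableSet_mem_tree s)) (h1 measurableSet_ltree)
  have hT : ∀ j ∈ ({i} : Set J), ∀ᶠ G in Gen C, LTree (T j G) := by
    intro j _
    refine Filter.Eventually.of_forall fun G => ?_
    show LTree (if s ∈ L.tr p i G ∧ LTree (L.tr p i G) then cone (L.tr p i G) s else Set.univ)
    split_ifs with h1
    · exact cone_ltree h1.2 h1.1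
    · exact ⟨[], isStem_univ⟩
  obtain ⟨q, hq1, hq2⟩ := L.exists_upd w (Set.countable_singleton i) T hm hT
  have hqt : ∀ j, j ≠ i → L.t q j = L.t w j := fun j hj => hq2 j (by simpa using hj)
  have hqlt : ∀ j : J, j < i → L.t q j = L.t c j := fun j hj => by
    rw [hqt j (ne_of_lt hj)]
    exact hw1 j (by exact_mod_cast hj)
  have hqgt : ∀ j : J, i < j → L.t q j = L.t p j := fun j hj => by
    rw [hqt j (ne_of_gt hj)]
    exact hw2 j (by exact_mod_cast hj.le)
  have hrs : L.rs i q = c := by
    rw [← hc]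
    exact L.rs_congr fun j hj => hqlt j (by exact_mod_cast hj)
  have hfc : Frc c (fun G => L.tr q i G = cone (L.tr p i G) s) := by
    have h1 : Frc c (fun G => L.tr q i G = T i G) := frc_of_ae (hq1 i (Set.mem_singleton i))
    have h2 : Frc c (fun G => LTree (L.tr p i G)) := frc_of_ae (L.ae_ltree p i)
    refine ((h1.and h2).and h).mono (le_refl c) ?_
    rintro G ⟨⟨h3, h4⟩, h5⟩
    rw [h3]
    show (if s ∈ L.tr p i G ∧ LTree (L.tr p i G) then cone (L.tr p i G) s else Set.univ) = _
    rw [if_pos ⟨h5, h4⟩]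
  refine ⟨q, ?_, hrs, hfc, hqgt⟩
  rw [L.le_iff_tr]
  intro j
  rcases lt_trichotomy j i with hj | hj | hj
  · have h1 : L.rs j q = L.rs j c := L.rs_congr fun k hk => hqlt k (by
      have : k < j := by exact_mod_cast hk
      exact this.trans hj)
    have h2 : L.tr q j = L.tr c j := L.tr_congr (hqlt j hj)
    have h3 := (L.le_iff_tr c (L.rs i p)).1 hcp j
    rw [L.tr_rs (by exact_mod_cast hj)] at h3
    rw [h1, h2]
    exact h3
  · subst hj
    rw [hrs]
    refine hfc.mono (le_refl c) fun G h3 => ?_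
    rw [h3]
    exact cone_subset _ _
  · rw [L.tr_congr (hqgt j hj)]
    exact frc_of_ae (Filter.Eventually.of_forall fun G => Set.Subset.refl _)

/-- the conditions forcing that all nodes of the `i`-th tree are comparable with `s` -/
def Ee (i : J) (s : List ℕ) : Set C :=
  {q | Frc (L.rs i q) (fun G => ∀ u ∈ L.tr q i G, u <:+ s ∨ s <:+ u)}

/-- `s` is an initial segment of the `i`-th Laver real -/
def pas (i : J) (s : List ℕ) (G : Flt C) : Prop := Mts (L.Ee i s) G

/-- the `i`-th Laver real -/
noncomputable def lr (i : J) (G : Flt C) (n : ℕ) : ℕ := sInf {m | ∃ u : List ℕ, u.length = n ∧ L.pas i (m :: u) G}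

theorem Ee_anti {i : J} {s : List ℕ} {p q : C} (hp : p ∈ L.Ee i s) (hq : q ≤ p) : q ∈ L.Ee i s := by
  have h1 : Frc (L.rs i q) (fun G => L.tr q i G ⊆ L.tr p i G) := (L.le_iff_tr q p).1 hq i
  have h2 : Frc (L.rs i q) (fun G => ∀ u ∈ L.tr p i G, u <:+ s ∨ s <:+ u) :=
    Frc.anti hp (L.rs_mono i q p hq)
  exact (h1.and h2).mono (le_refl _) fun G h3 u hu => h3.2 u (h3.1 hu)

theorem Ee_suf {i : J} {s s' : List ℕ} (h' : s' <:+ s) {q : C} (hq : q ∈ L.Ee i s) :
    q ∈ L.Ee i s' := by
  refine Frc.mono hq (le_refl _) fun G h1 u hu => ?_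
  rcases h1 u hu with h2 | h2
  · exact suf_or_suf h2 h'
  · exact Or.inr (h'.trans h2)

theorem pas_suf {i : J} {s s' : List ℕ} {G : Flt C} (h : L.pas i s G) (h' : s' <:+ s) :
    L.pas i s' G := by
  obtain ⟨q, hq, hG⟩ := h
  exact ⟨q, L.Ee_suf h' hq, hG⟩

private theorem eq_of_cmp {u s : List ℕ} (h : u <:+ s ∨ s <:+ u) (hl : u.length = s.length) :
    u = s := by
  rcases h with h | h
  · exact h.eq_of_length hl
  · exact (h.eq_of_length hl.symm).symm

theorem pas_unique {i : J} {s s' : List ℕ} {G : Flt C} (h : L.pas i s G) (h' : L.pas i s' G)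
    (hl : s.length = s'.length) : s = s' := by
  obtain ⟨p, hp, hpG⟩ := h
  obtain ⟨q, hq, hqG⟩ := h'
  obtain ⟨r, _, hrp, hrq⟩ := G.dir hpG hqG
  have h1 : Frc (L.rs i r) (fun G => ∀ u ∈ L.tr r i G, u <:+ s ∨ s <:+ u) := L.Ee_anti hp hrp
  have h2 : Frc (L.rs i r) (fun G => ∀ u ∈ L.tr r i G, u <:+ s' ∨ s' <:+ u) := L.Ee_anti hq hrq
  have h3 : Frc (L.rs i r) (fun G => LTree (L.tr r i G)) := frc_of_ae (L.ae_ltree r i)
  obtain ⟨G', _, ⟨h4, h5⟩, h6⟩ := frc_exists ((h1.and h2).and h3)
  obtain ⟨u, hu, hul⟩ := h6.exists_length s.length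
  rw [← eq_of_cmp (h4 u hu) hul, eq_of_cmp (h5 u hu) (hul.trans hl)]

theorem ae_pas (i : J) : ∀ᶠ G in Gen C, ∀ n : ℕ, ∃ s : List ℕ, s.length = n ∧ L.pas i s G := by
  rw [eventually_countable_forall]
  intro n
  refine ae_of_dense fun q => ?_
  have key : ∃ c, L.rs i c = c ∧ c ≤ L.rs i q ∧ ∃ s : List ℕ, s.length = n ∧
      Frc c (fun G => s ∈ L.tr q i G) := by
    by_contra hcon
    push Not at hcon
    have h1 : ∀ s : List ℕ, Frc (L.rs i q) (fun G => s.length = n → s ∉ L.tr q i G) := by
      intro s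
      refine (L.pj i).frc_of_dense ((L.pj i).idem q) fun r hr hrq => ?_
      obtain ⟨r', hr', hr'r, h2 | h2⟩ := L.measurableSet_mem_tr q i s r hr
      · refine ⟨r', hr', hr'r, ?_⟩
        by_cases hn : s.length = n
        · exact absurd h2 (hcon r' hr' (hr'r.trans hrq) s hn)
        · exact frc_of_ae (Filter.Eventually.of_forall fun G h => absurd h hn)
      · exact ⟨r', hr', hr'r, h2.mono (le_refl r') fun G h3 _ => h3⟩
    have h2 : Frc (L.rs i q) (fun G => LTree (L.tr q i G)) := frc_of_ae (L.ae_ltree q i)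
    obtain ⟨G, _, h3, h4⟩ := frc_exists ((frc_forall h1).and h2)
    obtain ⟨u, hu, hul⟩ := h4.exists_length n
    exact h3 u hul hu
  obtain ⟨c, hc, hcq, s, hs, hf⟩ := key
  obtain ⟨q', hq', hrs, hco, _⟩ := L.exists_cone hc hcq hf
  refine ⟨q', hq', ?_⟩
  have hE : q' ∈ L.Ee i s := by
    show Frc (L.rs i q') _
    rw [hrs]
    refine hco.mono (le_refl c) fun G h1 u hu => ?_
    rw [h1] at hu
    exact hu.2
  exact Filter.Eventually.of_forall fun G hG => ⟨s, hs, q', hE, hG⟩

/-- almost everywhere the initial segments of the Laver real are the `s` with `L.pas i s G` -/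
theorem ae_isg_iff (i : J) : ∀ᶠ G in Gen C, ∀ s : List ℕ, Isg s (L.lr i G) ↔ L.pas i s G := by
  filter_upwards [L.ae_pas i] with G hG
  choose S hS1 hS2 using hG
  have hini : ∀ n, ini (L.lr i G) n = S n := by
    intro n
    induction n with
    | zero =>
      have := hS1 0
      rw [List.length_eq_zero_iff] at this
      rw [this]
      rfl
    | succ n ih =>
      have h1 := hS1 (n + 1)
      obtain ⟨m, u, hmu⟩ : ∃ m u, S (n + 1) = m :: u := by
        cases hS : S (n + 1) with
        | nil => rw [hS] at h1; simp at h1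
        | cons m u => exact ⟨m, u, rfl⟩
      have hul : u.length = n := by
        rw [hmu] at h1
        simpa using h1
      have hpas : L.pas i (m :: u) G := hmu ▸ hS2 (n + 1)
      have hu : u = S n :=
        L.pas_unique (L.pas_suf hpas (List.suffix_cons m u)) (hS2 n) (hul.trans (hS1 n).symm)
      have hset : {m' | ∃ u' : List ℕ, u'.length = n ∧ L.pas i (m' :: u') G} = {m} := by
        ext m'
        constructor
        · rintro ⟨u', hu', hp'⟩
          have := L.pas_unique hp' hpas (by simp [hu', hul])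
          rw [List.cons.injEq] at this
          exact this.1
        · rintro rfl
          exact ⟨u, hul, hpas⟩
      have hlr : L.lr i G n = m := by
        unfold lr
        rw [hset]
        simp
      show L.lr i G n :: ini (L.lr i G) n = S (n + 1)
      rw [hlr, ih, hmu, hu]
  intro s
  unfold Isg
  rw [hini]
  constructor
  · intro h
    rw [← h]
    exact hS2 _
  · intro h
    exact L.pas_unique (hS2 _) h (hS1 _)

end LIter

end LM
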