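import Pool.Agent.Helper18.LM.RealA

/-!
# LM-P4: measurability of the Laver reals, and they are branches (about 120 lines)

`measurable_lr`: for `i < ξ` and `q ∈ Ee i s` also `L.rs ξ q ∈ Ee i s` (`L.rs_rs_of_le`, `L.tr_rs`), so for
every filter `G`: `L.pas i s G ↔ Mts (L.Ee i s ∩ {q | L.rs ξ q = q}) G`, which is decided
(`(L.pj ξ).dcd_mts`).  Then `L.lr i G n` is the least element of a measurable set
(`measurable_sInf_nat`), and `measurable_pi_iff`.

`ae_br`: by `frc_of_dense` for each `s` with `Isg s (L.lr i G)`: by `ae_isg_iff` it is enough that for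
every `s` the condition `p` forces `L.pas i s G → s ∈ L.tr p i G`.  Given `q ≤ p`; if no `r ≤ q` is in
`Ee i s` then `q` forces `¬ L.pas i s G` (`frc_not_mts`); otherwise let `r ≤ q`, `r ∈ Ee i s`; `r` forces
`L.tr r i G ⊆ L.tr p i G` (as `L.rs i r ∈ G`), that `L.tr r i G` is a Laver tree, so has a node of length
`s.length`, and that this node is comparable with `s`, hence equal to `s`.

`frc_rs_isg`: if the conclusion fails then some `c ≤ L.rs i p` (`L.rs i c = c`) forces `u ∈ L.tr p i G`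
for some `u` not comparable with `s` (decide the countably many statements `u ∈ L.tr p i G`); the
condition `q ≤ p` of `exists_cone` is in `Ee i u` so forces `Isg u (L.lr i G)`, but it also forces
`Isg s (L.lr i G)`, contradiction (`Isg.suf_of_length`).
-/

set_option autoImplicit false

namespace LM

namespace LIter

variable {J C : Type} [LinearOrder J] [Preorder C] (L : LIter J C)

private theorem rb_pas {i : J} {ξ : WithTop J} (h : (i : WithTop J) < ξ) (s : List ℕ) :
    @MeasurableSet _ (L.Bm ξ) {G | L.pas i s G} := by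
  have h1 : ∀ G, Mts (L.Ee i s ∩ {q | L.rs ξ q = q}) G ↔ L.pas i s G := by
    intro G
    constructor
    · rintro ⟨q, ⟨hq, -⟩, hG⟩
      exact ⟨q, hq, hG⟩
    · rintro ⟨q, hq, hG⟩
      refine ⟨L.rs ξ q, ⟨?_, (L.pj ξ).idem q⟩, G.up hG (L.le_rs ξ q)⟩
      change Frc (L.rs i (L.rs ξ q)) _
      rw [L.rs_rs_of_le h.le, L.tr_rs h]
      exact hq
  exact (L.measurableSet_Bm).2 (Pj.dcd_congr ((L.pj ξ).dcd_mts fun a ha => ha.2)
    (Filter.Eventually.of_forall h1))

theorem measurable_lr {i : J} {ξ : WithTop J} (h : (i : WithTop J) < ξ) :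
    @Measurable _ _ (L.Bm ξ) _ (L.lr i) := by
  let _ := L.Bm ξ
  refine measurable_pi_iff.2 fun n => ?_
  refine measurable_sInf_nat (S := fun G m => ∃ u : List ℕ, u.length = n ∧ L.pas i (m :: u) G) ?_
  intro m
  have e : {G | ∃ u : List ℕ, u.length = n ∧ L.pas i (m :: u) G} =
      ⋃ u : List ℕ, ⋃ _ : u.length = n, {G | L.pas i (m :: u) G} := by
    ext G
    simp
  rw [e]
  exact MeasurableSet.iUnion fun u => MeasurableSet.iUnion fun _ => L.rb_pas h (m :: u)

private theorem rb_tr_sub {r p : C} {i : J} (h : r ≤ p) :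
    Frc r (fun G => L.tr r i G ⊆ L.tr p i G) :=
  ((L.le_iff_tr r p).1 h i).anti (L.le_rs i r)

private theorem rb_mem {p : C} {i : J} (s : List ℕ) :
    Frc p (fun G => L.pas i s G → s ∈ L.tr p i G) := by
  refine frc_of_dense fun q hq => ?_
  by_cases hc : ∃ r ≤ q, r ∈ L.Ee i s
  · obtain ⟨r, hr, hs⟩ := hc
    refine ⟨r, hr, ?_⟩
    have h1 : Frc r (fun G => ∀ u ∈ L.tr r i G, u <:+ s ∨ s <:+ u) :=
      Frc.anti hs (L.le_rs i r)
    have h2 := L.rb_tr_sub (i := i) (hr.trans hq)
    have h3 : Frc r (fun G => LTree (L.tr r i G)) := frc_of_ae (L.ae_ltree r i)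
    unfold Frc at *
    filter_upwards [h1, h2, h3] with G g1 g2 g3 hG _
    obtain ⟨u, hu, hl⟩ := (g3 hG).exists_length s.length
    have h4 : u = s := by
      rcases g1 hG u hu with h5 | h5
      · exact h5.eq_of_length hl
      · exact (h5.eq_of_length hl.symm).symm
    rw [← h4]
    exact g2 hG hu
  · push Not at hc
    refine ⟨q, le_refl q, ?_⟩
    have h1 : Frc q (fun G => ¬ Mts (L.Ee i s) G) := by
      refine frc_not_mts.2 fun q' hq' a ha hqa => ?_
      exact hc q' hq' (L.Ee_anti ha hqa)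
    exact h1.mono (le_refl q) fun G h2 h3 => absurd h3 h2

theorem ae_br (p : C) (i : J) : ∀ᶠ G in Gen C, p ∈ G.S → Br (L.tr p i G) (L.lr i G) := by
  have h1 : Frc p (fun G => ∀ s : List ℕ, L.pas i s G → s ∈ L.tr p i G) :=
    frc_forall fun s => L.rb_mem s
  have h2 := L.ae_isg_iff i
  unfold Frc at h1
  filter_upwards [h1, h2] with G g1 g2 hG n
  exact g1 hG _ ((g2 _).1 (isg_ini (L.lr i G) n))

private theorem rb_isg {q : C} {i : J} {s : List ℕ} (h : q ∈ L.Ee i s) :
    Frc q (fun G => Isg s (L.lr i G)) := by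
  have h2 := L.ae_isg_iff i
  unfold Frc
  filter_upwards [h2] with G g2 hG
  exact (g2 s).2 ⟨q, h, hG⟩

private theorem rb_Ee {q p c : C} {i : J} {s : List ℕ} (h1 : L.rs i q = c)
    (h : Frc c (fun G => L.tr q i G = cone (L.tr p i G) s)) : q ∈ L.Ee i s := by
  change Frc (L.rs i q) _
  rw [h1]
  refine h.mono (le_refl c) fun G hG u hu => ?_
  rw [hG] at hu
  exact hu.2

theorem frc_rs_isg {p : C} {i : J} {s : List ℕ} (h : Frc p (fun G => Isg s (L.lr i G))) :
    Frc (L.rs i p) (fun G => ∀ u ∈ L.tr p i G, u <:+ s ∨ s <:+ u) := by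
  refine frc_forall fun u => ?_
  by_cases hu : u <:+ s ∨ s <:+ u
  · exact Filter.Eventually.of_forall fun G _ _ => hu
  · have h1 : Frc (L.rs i p) (fun G => ¬ u ∈ L.tr p i G) := by
      refine (L.pj i).frc_of_dense ((L.pj i).idem p) fun q hq hqp => ?_
      have hm : Dcd (L.rs i) (fun G => u ∈ L.tr p i G) := L.measurableSet_mem_tr p i u
      obtain ⟨c, hc, hcq, h2 | h2⟩ := hm q hq
      · exfalso
        obtain ⟨q', h3, h4, h5, -⟩ := L.exists_cone hc (hcq.trans hqp) h2
        have h6 := L.rb_isg (L.rb_Ee h4 h5)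
        obtain ⟨G, -, h7, h8⟩ := frc_exists (h6.and (h.anti h3))
        apply hu
        rcases le_total u.length s.length with hl | hl
        · exact Or.inl (h7.suf_of_length h8 hl)
        · exact Or.inr (h8.suf_of_length h7 hl)
      · exact ⟨c, hc, hcq, h2⟩
    exact h1.mono (le_refl _) fun G h2 h3 => absurd h3 h2

/-- the condition of `exists_cone` forces that `s` is an initial segment of the Laver real -/
theorem exists_isg {p c : C} {i : J} {s : List ℕ} (hc : L.rs i c = c) (hcp : c ≤ L.rs i p)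
    (h : Frc c (fun G => s ∈ L.tr p i G)) :
    ∃ q, q ≤ p ∧ L.rs i q = c ∧ Frc q (fun G => Isg s (L.lr i G)) ∧
      ∀ j, i < j → L.t q j = L.t p j := by
  obtain ⟨q, h1, h2, h3, h4⟩ := L.exists_cone hc hcp h
  exact ⟨q, h1, h2, L.rb_isg (L.rb_Ee h2 h3), h4⟩

end LIter

end LM
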