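import Pool.Agent.Helper18.LM.RealB

/-!
# LM-P5: a condition is in the generic filter iff the Laver reals are branches of its trees (100 lines)

`ae_mem_iff`: `→` is `ae_br` for the countably many `i ∈ L.supp p`.  `←`: by `ae_of_dense`: given `q`;
if there is `r ≤ q`, `r ≤ p`, then `r` forces `p ∈ G.S`.  Otherwise `q` is incompatible with `p`, and it
suffices that some `r ≤ q` forces `¬ Br (L.tr p i G) (L.lr i G)` for some `i ∈ L.supp p`.  Suppose not.
Then (countable conjunction, each statement `Br (L.tr p i G) (L.lr i G)` is decided with respect to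
`L.Bm ⊤`: `measurable_tr`, `Bm_mono`, `measurable_lr`, `measurableSet_br`) `q` forces
`Br (L.tr p i G) (L.lr i G)` for all `i ∈ L.supp p`, and we show `q ≤ p`, a contradiction: by `le_iff_tr`
we need `Frc (L.rs i q) (L.tr q i G ⊆ L.tr p i G)` for all `i` (trivial for `i ∉ L.supp p` by
`tr_eq_univ`).  If this fails then some `c ≤ L.rs i q`, `L.rs i c = c`, forces
`s ∈ L.tr q i G`, `s ∉ L.tr p i G` for some `s`; by `exists_isg` there is `q' ≤ q` with `L.rs i q' = c`
forcing `Isg s (L.lr i G)`, so forcing `s ∈ L.tr p i G`, contradiction.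

`le_iff_frc`: `→`: `G.up`.  `←`: as above: `p` forces `Br (L.tr q i G) (L.lr i G)` for all `i`
(`ae_br`), so `p ≤ q` by the same argument.  (Prove this first as an auxiliary lemma.)

`ae_mem_rs_iff`: apply `ae_mem_iff` to `L.rs ξ p` with `supp_rs`, `tr_rs`.
-/

set_option autoImplicit false

namespace LM

namespace LIter

variable {J C : Type} [LinearOrder J] [Preorder C] (L : LIter J C)

theorem le_of_frc_br {p q : C} (h : ∀ i ∈ L.supp q, Frc p (fun G => Br (L.tr q i G) (L.lr i G))) :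
    p ≤ q := by
  rw [L.le_iff_tr]
  intro i
  by_cases hi : i ∈ L.supp q
  · have h1 : ∀ s : List ℕ, Frc (L.rs i p) (fun G => s ∈ L.tr p i G → s ∈ L.tr q i G) := by
      intro s
      refine L.frc_imp ((L.pj i).idem p) (L.measurableSet_mem_tr p i s) fun c hc hcp hs => ?_
      refine (L.pj i).frc_of_dense hc fun c' hc' hcc' => ?_
      obtain ⟨r, hr, hrc, h2 | h2⟩ := L.measurableSet_Bm.1 (L.measurableSet_mem_tr q i s) c' hc'
      · exact ⟨r, hr, hrc, h2⟩
      · exfalso
        obtain ⟨q', hq1, hq2, hq3, _⟩ := L.exists_isg hr (hrc.trans (hcc'.trans hcp))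
          (hs.anti (hrc.trans hcc'))
        have hq4 : q' ≤ r := hq2 ▸ L.le_rs i q'
        have h3 : Frc q' (fun G => s ∈ L.tr q i G) := by
          refine (((h i hi).anti hq1).and hq3).mono (le_refl q') fun G h4 => ?_
          have h5 := h4.1 s.length
          have h6 : ini (L.lr i G) s.length = s := h4.2
          rwa [h6] at h5
        exact frc_absurd h3 (h2.anti hq4)
    exact (frc_forall h1).mono (le_refl _) fun G h2 s hs => h2 s hs
  · refine Filter.Eventually.of_forall fun G _ => ?_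
    show L.tr p i G ⊆ L.tr q i G
    rw [L.tr_eq_univ hi G]
    exact Set.subset_univ _

include L in
theorem le_iff_frc (p q : C) : p ≤ q ↔ Frc p (fun G => q ∈ G.S) := by
  constructor
  · intro h
    exact Filter.Eventually.of_forall fun G hp => G.up hp h
  · intro h
    refine L.le_of_frc_br fun i _ => ?_
    exact h.mp (frc_of_ae (L.ae_br q i))

theorem ae_mem_iff (p : C) :
    ∀ᶠ G in Gen C, p ∈ G.S ↔ ∀ i ∈ L.supp p, Br (L.tr p i G) (L.lr i G) := by
  have hbr : ∀ i ∈ L.supp p, ∀ r : C, ∃ s ≤ r, Frc s (fun G => Br (L.tr p i G) (L.lr i G)) ∨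
      Frc s (fun G => ¬ Br (L.tr p i G) (L.lr i G)) := by
    intro i _ r
    have h1 : @MeasurableSet _ (L.Bm ⊤) {G | Br (L.tr p i G) (L.lr i G)} := by
      have h2 : @Measurable _ _ (L.Bm ⊤) _ (L.tr p i) :=
        (L.measurable_tr p i).mono (L.Bm_mono le_top) le_rfl
      have h3 : @Measurable _ _ (L.Bm ⊤) _ (L.lr i) := L.measurable_lr (WithTop.coe_lt_top i)
      let _ := L.Bm ⊤
      exact (h2.prodMk h3) measurableSet_br
    obtain ⟨s, _, hs, h2⟩ := L.measurableSet_Bm.1 h1 r rfl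
    exact ⟨s, hs, h2⟩
  refine ae_of_dense fun q => ?_
  by_cases hc : ∃ r, r ≤ q ∧ r ≤ p
  · obtain ⟨r, hrq, hrp⟩ := hc
    refine ⟨r, hrq, ?_⟩
    have h1 : ∀ᶠ G in Gen C, ∀ i ∈ L.supp p, p ∈ G.S → Br (L.tr p i G) (L.lr i G) :=
      (eventually_countable_ball (L.supp_countable p)).2 fun i _ => L.ae_br p i
    unfold Frc
    filter_upwards [h1] with G hG hr
    exact ⟨fun hp i hi => hG i hi hp, fun _ => G.up hr hrp⟩
  · have h1 : ∃ i ∈ L.supp p, ∃ r ≤ q, Frc r (fun G => ¬ Br (L.tr p i G) (L.lr i G)) := by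
      by_contra hcon
      push Not at hcon
      apply hc
      refine ⟨q, le_refl q, L.le_of_frc_br fun i hi => frc_of_dense fun r hr => ?_⟩
      obtain ⟨s, hs, h2 | h2⟩ := hbr i hi r
      · exact ⟨s, hs, h2⟩
      · exact absurd h2 (hcon i hi s (hs.trans hr))
    obtain ⟨i, hi, r, hr, h2⟩ := h1
    refine ⟨r, hr, ?_⟩
    unfold Frc at h2 ⊢
    filter_upwards [h2] with G hG hrG
    refine ⟨fun hp => ?_, fun hb => absurd (hb i hi) (hG hrG)⟩
    obtain ⟨s, _, hs1, hs2⟩ := G.dir (G.up hrG hr) hp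
    exact absurd ⟨s, hs1, hs2⟩ hc

theorem ae_mem_rs_iff (ξ : WithTop J) (p : C) : ∀ᶠ G in Gen C, L.rs ξ p ∈ G.S ↔
    ∀ i ∈ L.supp p, (i : WithTop J) < ξ → Br (L.tr p i G) (L.lr i G) := by
  filter_upwards [L.ae_mem_iff (L.rs ξ p)] with G hG
  rw [hG, L.supp_rs]
  constructor
  · intro h i hi hlt
    have h1 := h i ⟨hi, hlt⟩
    rwa [L.tr_rs hlt] at h1
  · rintro h i ⟨hi, hlt⟩
    rw [L.tr_rs hlt]
    exact h i hi hlt

/-- on the restriction of a stronger condition the trees are smaller -/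
theorem ae_tr_subset {p q : C} (h : p ≤ q) (i : J) :
    ∀ᶠ G in Gen C, L.rs i p ∈ G.S → L.tr p i G ⊆ L.tr q i G := by
  exact (L.le_iff_tr p q).1 h i

end LIter

end LM
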