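import Pool.Agent.Helper18.LM.RealC

/-!
# LM-P6: the Laver real dominates (along itself) all functions of the previous model (about 80 lines)

By `ae_of_dense`.  Given `p`, use `exists_upd` (base `p`, `S = {i}`) with
`T i G = fast (L.tr p i G) (H G)` if `LTree (L.tr p i G)` and `Set.univ` otherwise; let `q` be the
resulting condition.  `L.rs i q = L.rs i p` (`rs_congr`), and `q ≤ p` by `le_iff_tr`.
`q` forces `Br (fast (L.tr p i G) (H G)) (L.lr i G)` (`ae_br`), so `br_fast` gives the claim with
`N = (stem (L.tr p i G)).length`.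
-/

set_option autoImplicit false

namespace LM

namespace LIter

variable {J C : Type} [LinearOrder J] [Preorder C] (L : LIter J C)

theorem ae_dominate (i : J) (H : Flt C → List ℕ → ℕ) (hH : ∀ s, @Measurable _ _ (L.Bm i) _ (fun G => H G s)) :
    ∀ᶠ G in Gen C, ∃ N, ∀ n, N ≤ n → H G (ini (L.lr i G) n) ≤ L.lr i G n := by
  refine ae_of_dense fun p => ?_
  have hH' : @Measurable _ _ (L.Bm i) _ H := by
    let _ := L.Bm i
    exact measurable_pi_iff.2 hH
  have hT : @Measurable _ _ (L.Bm i) _ (fun G => fast (L.tr p i G) (H G)) := by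
    let _ := L.Bm i
    exact measurable_fast.comp ((L.measurable_tr p i).prodMk hH')
  obtain ⟨q, h1, h2⟩ := L.exists_upd p (Set.countable_singleton i)
    (fun _ G => fast (L.tr p i G) (H G))
    (by
      rintro j rfl
      exact hT)
    (by
      rintro j rfl
      filter_upwards [L.ae_ltree p j] with G hG
      exact ⟨_, fast_isStem hG (H G)⟩)
  have h3 := h1 i rfl
  refine ⟨q, ?_, ?_⟩
  · rw [L.le_iff_tr]
    intro j
    by_cases hj : j = i
    · subst hj
      refine frc_of_ae ?_
      filter_upwards [h3] with G hG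
      rw [hG]
      exact fast_subset _ _
    · refine frc_of_ae (Filter.Eventually.of_forall fun G => ?_)
      rw [L.tr_congr (h2 j hj)]
  · unfold Frc
    filter_upwards [L.ae_br q i, h3, L.ae_ltree p i] with G g1 g2 g3 g4
    refine ⟨(stem (L.tr p i G)).length, fun n hn => ?_⟩
    have g5 := g1 g4
    rw [g2] at g5
    exact br_fast g3 g5 hn

end LIter

end LM
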