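import Pool.Agent.Helper18.LM.RealC

/-!
# LM-P7: the code of the Laver real is infinitely often different from every real of the previous model
(about 100 lines)

It suffices to show for every `m` (countably many) by `ae_of_dense` that densely many conditions force
`∃ j ≥ m, z G j ≠ cod (L.lr i G) j`.  Given `p`.  Decide the stem: there are `c₀ ≤ L.rs i p`,
`L.rs i c₀ = c₀`, and `s` with `Frc c₀ (stem (L.tr p i G) = s)`.  As `c₀` forces that `s` has infinitely
many successors in `L.tr p i G`, there are `c₁ ≤ c₀` and `a ≥ m` such that `c₁` forces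
`a :: s ∈ L.tr p i G`, and `c₂ ≤ c₁` and `b > a` such that `c₂` forces `b :: s ∈ L.tr p i G`.  Put
`j = idx (a :: s) ≥ a ≥ m` (`le_idx_cons`).  Decide `z G j` by `c ≤ c₂`, `L.rs i c = c`.
If `c` forces `z G j = false` take `q ≤ p` from `exists_isg` for `a :: s`: it forces that `a :: s` is an
initial segment of the Laver real, so `cod (L.lr i G) j = true`.  If `c` forces `z G j = true` take
`q` from `exists_isg` for `b :: s`: it forces that `a :: s` is not an initial segment (same length,
`a ≠ b`), so `cod (L.lr i G) j = false` (as `idx` is injective).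
-/

set_option autoImplicit false

namespace LM

namespace LIter

variable {J C : Type} [LinearOrder J] [Preorder C] (L : LIter J C)

private theorem re_cod_true {f : ℕ → ℕ} {u : List ℕ} (h : Isg u f) : cod f (idx u) = true := by
  unfold cod
  simp only [decide_eq_true_eq]
  exact ⟨u.length, congrArg idx h⟩

private theorem re_cod_false {f : ℕ → ℕ} {s : List ℕ} {a b : ℕ} (hab : a ≠ b)
    (h : Isg (b :: s) f) : cod f (idx (a :: s)) = false := by
  unfold cod
  simp only [decide_eq_false_iff_not]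
  rintro ⟨n, hn⟩
  have h1 : ini f n = a :: s := by
    rw [← dec_idx (ini f n), hn, dec_idx]
  have h2 : Isg (a :: s) f := by
    rw [← h1]
    exact isg_ini f n
  have h3 : (a :: s) = (b :: s) :=
    (h2.suf_of_length h (by simp)).eq_of_length (by simp)
  rw [List.cons.injEq] at h3
  exact hab h3.1

theorem ae_cod_ne (i : J) (z : Flt C → ℕ → Bool) (hz : @Measurable _ _ (L.Bm i) _ z) :
    ∀ᶠ G in Gen C, ∀ m, ∃ j, m ≤ j ∧ z G j ≠ cod (L.lr i G) j := by
  rw [eventually_countable_forall]
  intro m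
  refine ae_of_dense fun p => ?_
  have key : ∃ c, L.rs i c = c ∧ c ≤ L.rs i p ∧ ∃ (s : List ℕ) (a b : ℕ), m ≤ a ∧ a < b ∧
      Frc c (fun G => a :: s ∈ L.tr p i G ∧ b :: s ∈ L.tr p i G) := by
    by_contra hcon
    push Not at hcon
    have h1 : ∀ x : List ℕ × ℕ × ℕ, Frc (L.rs i p) (fun G => m ≤ x.2.1 → x.2.1 < x.2.2 →
        ¬ (x.2.1 :: x.1 ∈ L.tr p i G ∧ x.2.2 :: x.1 ∈ L.tr p i G)) := by
      rintro ⟨s, a, b⟩
      by_cases hab : m ≤ a ∧ a < b
      · have hd : Dcd (L.rs i) (fun G => a :: s ∈ L.tr p i G ∧ b :: s ∈ L.tr p i G) := by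
          let _ := L.Bm i
          exact (L.measurableSet_mem_tr p i (a :: s)).inter (L.measurableSet_mem_tr p i (b :: s))
        refine (L.pj i).frc_of_dense ((L.pj i).idem p) fun r hr hrp => ?_
        obtain ⟨r', hr', hr'r, h2 | h2⟩ := hd r hr
        · exact absurd h2 (hcon r' hr' (hr'r.trans hrp) s a b hab.1 hab.2)
        · exact ⟨r', hr', hr'r, h2.mono (le_refl r') fun G h3 _ _ => h3⟩
      · exact frc_of_ae (Filter.Eventually.of_forall fun G h1 h2 => absurd ⟨h1, h2⟩ hab)
    have h2 : Frc (L.rs i p) (fun G => LTree (L.tr p i G)) := frc_of_ae (L.ae_ltree p i)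
    obtain ⟨G, _, h3, h4⟩ := frc_exists ((frc_forall h1).and h2)
    have h5 := h4.inf h4.stem_mem List.suffix_rfl
    obtain ⟨a, ha, hma⟩ := h5.exists_gt m
    obtain ⟨b, hb, hab⟩ := h5.exists_gt a
    exact h3 (stem (L.tr p i G), a, b) hma.le hab ⟨ha, hb⟩
  obtain ⟨c, hc, hcp, s, a, b, hma, hab, hf⟩ := key
  have hd : ∀ v : Bool, Dcd (L.rs i) (fun G => z G (idx (a :: s)) = v) := by
    intro v
    let _ := L.Bm i
    exact ((measurable_pi_apply (idx (a :: s))).comp hz) (measurableSet_singleton v)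
  obtain ⟨c', hc', hc'c, v, hv⟩ := (L.pj i).decide hd hc
  have hf' := hf.anti hc'c
  cases v with
  | false =>
    obtain ⟨q, hq, hrs, hisg, -⟩ := L.exists_isg hc' (hc'c.trans hcp)
      (hf'.mono (le_refl c') fun G h => h.1)
    refine ⟨q, hq, ?_⟩
    have hv' : Frc q (fun G => z G (idx (a :: s)) = false) := by
      refine hv.anti ?_
      rw [← hrs]
      exact L.le_rs i q
    refine (hv'.and hisg).mono (le_refl q) ?_
    rintro G ⟨h1, h2⟩
    refine ⟨idx (a :: s), hma.trans (le_idx_cons a s), ?_⟩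
    rw [h1, re_cod_true h2]
    exact Bool.false_ne_true
  | true =>
    obtain ⟨q, hq, hrs, hisg, -⟩ := L.exists_isg hc' (hc'c.trans hcp)
      (hf'.mono (le_refl c') fun G h => h.2)
    refine ⟨q, hq, ?_⟩
    have hv' : Frc q (fun G => z G (idx (a :: s)) = true) := by
      refine hv.anti ?_
      rw [← hrs]
      exact L.le_rs i q
    refine (hv'.and hisg).mono (le_refl q) ?_
    rintro G ⟨h1, h2⟩
    refine ⟨idx (a :: s), hma.trans (le_idx_cons a s), ?_⟩
    rw [h1, re_cod_false hab.ne h2]
    exact Bool.false_ne_true.symm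

end LIter

end LM
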