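import Mathlib

/-!
# Laver trees: definitions

Finite sequences are lists in reverse order: `m :: s` is `s` followed by `m`, and `s <:+ t` says that
`s` is an initial segment of `t`.
-/

set_option autoImplicit false

namespace LM

/-- `s` is the stem of the Laver tree `T` -/
def IsStem (T : Set (List ℕ)) (s : List ℕ) : Prop :=
  s ∈ T ∧ (∀ u ∈ T, ∀ v, v <:+ u → v ∈ T) ∧ (∀ u ∈ T, u <:+ s ∨ s <:+ u) ∧
    ∀ u ∈ T, s <:+ u → ∀ n : ℕ, ∃ m, n ≤ m ∧ m :: u ∈ T

/-- Laver trees -/
def LTree (T : Set (List ℕ)) : Prop := ∃ s, IsStem T s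

open Classical in
/-- the stem -/
noncomputable def stem (T : Set (List ℕ)) : List ℕ := if h : LTree T then h.choose else []

/-- the canonical nodes above the stem, indexed by finite sequences -/
noncomputable def ndl (T : Set (List ℕ)) : List ℕ → List ℕ
  | [] => stem T
  | l :: u => Nat.nth (fun m => m :: ndl T u ∈ T) l :: ndl T u

/-- the number of a finite sequence -/
def idx (u : List ℕ) : ℕ := Encodable.encode u

/-- the finite sequence with a given number -/
def dec (k : ℕ) : List ℕ := Denumerable.ofNat (List ℕ) k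

/-- the canonical nodes, numbered by natural numbers -/
noncomputable def nd (T : Set (List ℕ)) (k : ℕ) : List ℕ := ndl T (dec k)

/-- initial segments of a real -/
def ini (f : ℕ → ℕ) : ℕ → List ℕ
  | 0 => []
  | n + 1 => f n :: ini f n

/-- `f` is a branch of `T` -/
def Br (T : Set (List ℕ)) (f : ℕ → ℕ) : Prop := ∀ n, ini f n ∈ T

/-- the finite sequence `s` is an initial segment of `f` -/
def Isg (s : List ℕ) (f : ℕ → ℕ) : Prop := ini f s.length = s

open Classical in
/-- the position of `f` at stage `n`: the largest index `k ≤ n` of a canonical node on `f` -/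
noncomputable def pos (T : Set (List ℕ)) (n : ℕ) (f : ℕ → ℕ) : ℕ :=
  Nat.findGreatest (fun k => Isg (nd T k) f) n

/-- the `k`-th component of `T` at stage `n` -/
def comp (T : Set (List ℕ)) (n k : ℕ) : Set (List ℕ) :=
  {s | s ∈ T ∧ (s <:+ nd T k ∨ nd T k <:+ s) ∧
    ∀ k' ≤ n, k' ≠ k → nd T k <:+ nd T k' → ¬ nd T k' <:+ s}

/-- the tree `T` with the `k`-th component at stage `n` replaced by `R` -/
def amal (T : Set (List ℕ)) (n k : ℕ) (R : Set (List ℕ)) : Set (List ℕ) :=
  {s | s ∈ T ∧ (s ∉ comp T n k ∨ s <:+ nd T k)} ∪ R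

/-- the nodes of `T` comparable with `s` -/
def cone (T : Set (List ℕ)) (s : List ℕ) : Set (List ℕ) := {u | u ∈ T ∧ (u <:+ s ∨ s <:+ u)}

/-- sparse subtree: the successor with index `i'` of a canonical node with index `i` is only kept if
`h i ≤ i'` -/
def prune (T : Set (List ℕ)) (h : ℕ → ℕ) : Set (List ℕ) :=
  {s | s ∈ T ∧ ∀ l u, ndl T (l :: u) <:+ s → h (idx u) ≤ idx (l :: u)}

/-- subtree growing faster than `H` above the stem -/
def fast (T : Set (List ℕ)) (H : List ℕ → ℕ) : Set (List ℕ) :=
  {s | s ∈ T ∧ ∀ m u, (m :: u) <:+ s → stem T <:+ u → H u ≤ m}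

/-- the subtree avoiding the set `A` above the stem -/
def avoid (T : Set (List ℕ)) (A : Set (List ℕ)) : Set (List ℕ) :=
  {s | s ∈ T ∧ ∀ u, u <:+ s → stem T <:+ u → u ∉ A}

/-- the real coding a real: the characteristic function of the set of numbers of initial segments -/
noncomputable def cod (f : ℕ → ℕ) (j : ℕ) : Bool :=
  haveI := Classical.dec (∃ n, idx (ini f n) = j)
  decide (∃ n, idx (ini f n) = j)

instance : MeasurableSpace (List ℕ) := ⊤

instance : DiscreteMeasurableSpace (List ℕ) := ⟨fun _ => trivial⟩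

end LM
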