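import Pool.Agent.Helper18.LM.Tree

/-!
# LM-T1: stems, numbering of finite sequences, initial segments of reals (about 120 lines, easy)

Uniqueness of stems: two stems `s`, `s'` are comparable, say `s <:+ s'` with `s ≠ s'`; then `s` has
infinitely many successors `m :: s` in `T`, all of which must be comparable with `s'`; but a successor
`m :: s` is comparable with `s'` for at most one `m`.  `stem_suf_stem`: if `s` (stem of `R`) does not
extend `s₀` then `s <:+ s₀` properly and again two successors of `s` in `R ⊆ T` contradict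
comparability with `s₀`.
The numbering: `Encodable.encode_list_cons`, `Nat.right_le_pair`, `Nat.left_le_pair`,
`Nat.pair_lt_pair_left`.
-/

set_option autoImplicit false

namespace LM

private theorem lm1_eq {s t u : List ℕ} (h : s <:+ u) (h' : t <:+ u) (hl : s.length = t.length) :
    s = t :=
  (List.suffix_of_suffix_length_le h h' hl.le).eq_of_length hl

theorem stem_suf_stem {T R : Set (List ℕ)} {s₀ s : List ℕ} (h : IsStem T s₀) (h' : IsStem R s)
    (hs : R ⊆ T) : s₀ <:+ s := by
  rcases h.2.2.1 s (hs h'.1) with h1 | h1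
  · obtain ⟨w, hw⟩ := h1
    rcases List.eq_nil_or_concat w with hn | ⟨w', m₀, hc⟩
    · rw [hn, List.nil_append] at hw
      rw [hw]
    · exfalso
      have h2 : (m₀ :: s) <:+ s₀ := by
        refine ⟨w', ?_⟩
        rw [← hw, hc]
        simp
      obtain ⟨m, hm, hmR⟩ := h'.2.2.2 s h'.1 List.suffix_rfl (m₀ + 1)
      have hne : m ≠ m₀ := by omega
      rcases h.2.2.1 (m :: s) (hs hmR) with h3 | h3
      · have := lm1_eq h3 h2 (by simp)
        simp only [List.cons.injEq, and_true] at this
        exact hne this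
      · have h4 := h2.trans h3
        have := lm1_eq h4 List.suffix_rfl (by simp)
        simp only [List.cons.injEq, and_true] at this
        exact hne this.symm
  · exact h1

theorem isStem_unique {T : Set (List ℕ)} {s s' : List ℕ} (h : IsStem T s) (h' : IsStem T s') : s = s' := by
  have h1 := stem_suf_stem h h' (le_refl _)
  have h2 := stem_suf_stem h' h (le_refl _)
  exact h1.eq_of_length (le_antisymm h1.length_le h2.length_le)

theorem isStem_stem {T : Set (List ℕ)} (h : LTree T) : IsStem T (stem T) := by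
  unfold stem
  rw [dif_pos h]
  exact h.choose_spec

theorem stem_eq {T : Set (List ℕ)} {s : List ℕ} (h : IsStem T s) : stem T = s :=
  isStem_unique (isStem_stem ⟨s, h⟩) h

theorem LTree.closed {T : Set (List ℕ)} (h : LTree T) {u v : List ℕ} (hu : u ∈ T) (hv : v <:+ u) :
    v ∈ T :=
  (isStem_stem h).2.1 u hu v hv

theorem LTree.nil_mem {T : Set (List ℕ)} (h : LTree T) : [] ∈ T :=
  h.closed (isStem_stem h).1 List.nil_suffix

theorem LTree.stem_mem {T : Set (List ℕ)} (h : LTree T) : stem T ∈ T := (isStem_stem h).1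

theorem LTree.cmp {T : Set (List ℕ)} (h : LTree T) {u : List ℕ} (hu : u ∈ T) :
    u <:+ stem T ∨ stem T <:+ u := (isStem_stem h).2.2.1 u hu

theorem LTree.inf {T : Set (List ℕ)} (h : LTree T) {u : List ℕ} (hu : u ∈ T) (hs : stem T <:+ u) :
    {m | m :: u ∈ T}.Infinite := by
  rw [Set.infinite_iff_exists_gt]
  intro a
  obtain ⟨m, hm, hmT⟩ := (isStem_stem h).2.2.2 u hu hs (a + 1)
  exact ⟨m, hmT, by omega⟩

/-- a Laver tree has nodes of every length -/
theorem LTree.exists_length {T : Set (List ℕ)} (h : LTree T) (n : ℕ) : ∃ u ∈ T, u.length = n := by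
  have h1 : ∀ k : ℕ, ∃ u ∈ T, stem T <:+ u ∧ u.length = (stem T).length + k := by
    intro k
    induction k with
    | zero => exact ⟨stem T, h.stem_mem, List.suffix_rfl, rfl⟩
    | succ k ih =>
      obtain ⟨u, hu, hsu, hl⟩ := ih
      obtain ⟨m, hm⟩ := (h.inf hu hsu).nonempty
      refine ⟨m :: u, hm, hsu.trans (List.suffix_cons m u), ?_⟩
      simp [hl]
      omega
  rcases Nat.lt_or_ge n (stem T).length with hn | hn
  · refine ⟨(stem T).drop ((stem T).length - n), h.closed h.stem_mem (List.drop_suffix _ _), ?_⟩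
    rw [List.length_drop]
    omega
  · obtain ⟨u, hu, -, hl⟩ := h1 (n - (stem T).length)
    exact ⟨u, hu, by omega⟩

theorem isStem_univ : IsStem Set.univ [] :=
  ⟨trivial, fun _ _ _ _ => trivial, fun _ _ => Or.inr List.nil_suffix,
    fun _ _ _ n => ⟨n, le_rfl, trivial⟩⟩

theorem idx_nil : idx [] = 0 := rfl

theorem dec_idx (u : List ℕ) : dec (idx u) = u := Denumerable.ofNat_encode u

theorem idx_dec (k : ℕ) : idx (dec k) = k := Denumerable.encode_ofNat k

theorem dec_zero : dec 0 = [] := by
  rw [← idx_nil, dec_idx]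

private theorem lm1_cons (l : ℕ) (u : List ℕ) : idx (l :: u) = Nat.pair l (idx u) + 1 := by
  unfold idx
  rw [Encodable.encode_list_cons]
  rfl

theorem idx_lt_cons (l : ℕ) (u : List ℕ) : idx u < idx (l :: u) := by
  rw [lm1_cons]
  exact Nat.lt_succ_of_le (Nat.right_le_pair _ _)

theorem idx_cons_lt {l l' : ℕ} {u : List ℕ} : idx (l :: u) < idx (l' :: u) ↔ l < l' := by
  rw [lm1_cons, lm1_cons, Nat.add_lt_add_iff_right]
  constructor
  · intro h
    by_contra hc
    have hc : l' ≤ l := not_lt.1 hc
    rcases hc.lt_or_eq with h1 | h1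
    · exact absurd (Nat.pair_lt_pair_left (idx u) h1) (not_lt.2 h.le)
    · rw [h1] at h
      exact lt_irrefl _ h
  · intro h
    exact Nat.pair_lt_pair_left (idx u) h

theorem le_idx_cons (l : ℕ) (u : List ℕ) : l ≤ idx (l :: u) := by
  rw [lm1_cons]
  exact (Nat.left_le_pair _ _).trans (Nat.le_succ _)

theorem idx_le_of_suf {u v : List ℕ} (h : u <:+ v) : idx u ≤ idx v := by
  obtain ⟨w, rfl⟩ := h
  induction w with
  | nil => exact le_rfl
  | cons a w ih => exact ih.trans (idx_lt_cons a (w ++ u)).le

theorem nd_idx (T : Set (List ℕ)) (u : List ℕ) : nd T (idx u) = ndl T u := by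
  unfold nd
  rw [dec_idx]

theorem nd_zero (T : Set (List ℕ)) : nd T 0 = stem T := by
  unfold nd
  rw [dec_zero]
  rfl

theorem ini_length (f : ℕ → ℕ) (n : ℕ) : (ini f n).length = n := by
  induction n with
  | zero => rfl
  | succ n ih =>
    change (ini f n).length + 1 = n + 1
    rw [ih]

theorem ini_suf (f : ℕ → ℕ) {m n : ℕ} (h : m ≤ n) : ini f m <:+ ini f n := by
  induction n, h using Nat.le_induction with
  | base => exact List.suffix_rfl
  | succ n _ ih => exact ih.trans (List.suffix_cons (f n) (ini f n))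

theorem suf_ini {f : ℕ → ℕ} {n : ℕ} {s : List ℕ} (h : s <:+ ini f n) : s = ini f s.length := by
  have hl : s.length ≤ n := by
    have := h.length_le
    rwa [ini_length] at this
  exact lm1_eq h (ini_suf f hl) (ini_length f s.length).symm

theorem isg_ini (f : ℕ → ℕ) (n : ℕ) : Isg (ini f n) f := by
  unfold Isg
  rw [ini_length]

theorem Isg.suf {s s' : List ℕ} {f : ℕ → ℕ} (h : Isg s f) (h' : s' <:+ s) : Isg s' f := by
  unfold Isg at *
  rw [← h] at h'
  exact (suf_ini h').symm

theorem Isg.suf_of_length {s s' : List ℕ} {f : ℕ → ℕ} (h : Isg s f) (h' : Isg s' f)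
    (hl : s.length ≤ s'.length) : s <:+ s' := by
  unfold Isg at *
  rw [← h, ← h']
  exact ini_suf f hl

theorem Isg.cons {s : List ℕ} {f : ℕ → ℕ} (h : Isg s f) : Isg (f s.length :: s) f := by
  unfold Isg at *
  change f s.length :: ini f s.length = _
  rw [h]

theorem isg_cons_iff {m : ℕ} {s : List ℕ} {f : ℕ → ℕ} : Isg (m :: s) f ↔ f s.length = m ∧ Isg s f := by
  unfold Isg
  change f s.length :: ini f s.length = m :: s ↔ _
  rw [List.cons.injEq]

theorem Br.isg_stem {T : Set (List ℕ)} {f : ℕ → ℕ} (hb : Br T f) (h : LTree T) : Isg (stem T) f := by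
  unfold Isg
  rcases h.cmp (hb (stem T).length) with h1 | h1
  · exact h1.eq_of_length (ini_length _ _)
  · exact (h1.eq_of_length (ini_length _ _).symm).symm

theorem Br.mono {T T' : Set (List ℕ)} {f : ℕ → ℕ} (hb : Br T f) (h : T ⊆ T') : Br T' f :=
  fun n => h (hb n)

theorem br_univ (f : ℕ → ℕ) : Br Set.univ f := fun _ => trivial

/-- a real is determined by its initial segments -/
theorem ini_inj {f g : ℕ → ℕ} (h : ∀ n, ini f n = ini g n) : f = g := by
  funext n
  have h1 : f n :: ini f n = g n :: ini g n := h (n + 1)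
  rw [List.cons.injEq] at h1
  exact h1.1

end LM
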