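import Pool.Agent.Helper18.LM.TreeA

/-!
# LM-T2: the canonical nodes (about 120 lines, easy)

All by induction on the sequence `u`, with `Nat.nth` for the infinite sets `{m | m :: ndl T u ∈ T}`
(`Nat.nth_mem_of_infinite`, `Nat.nth_strictMono`, `Nat.range_nth_of_infinite`).
-/

set_option autoImplicit false

namespace LM

variable {T : Set (List ℕ)}

theorem stem_suf (T : Set (List ℕ)) (u : List ℕ) : stem T <:+ ndl T u := by
  induction u with
  | nil => exact List.suffix_rfl
  | cons l u ih => exact ih.trans (List.suffix_cons _ _)

theorem ndl_length (T : Set (List ℕ)) (u : List ℕ) :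
    (ndl T u).length = (stem T).length + u.length := by
  induction u with
  | nil => simp [ndl]
  | cons l u ih => simp only [ndl, List.length_cons, ih]; omega

theorem ndl_suf (T : Set (List ℕ)) {u v : List ℕ} (h : u <:+ v) : ndl T u <:+ ndl T v := by
  induction v with
  | nil =>
    rw [List.suffix_nil] at h
    rw [h]
  | cons l v ih =>
    rcases List.suffix_cons_iff.mp h with h | h
    · rw [h]
    · exact (ih h).trans (List.suffix_cons _ _)

theorem ndl_mem (h : LTree T) (u : List ℕ) : ndl T u ∈ T := by
  induction u with
  | nil => exact h.stem_mem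
  | cons l u ih =>
    have hi : {m | m :: ndl T u ∈ T}.Infinite := h.inf ih (stem_suf T u)
    exact Nat.nth_mem_of_infinite hi l

theorem ndl_inf (h : LTree T) (u : List ℕ) : {m | m :: ndl T u ∈ T}.Infinite :=
  h.inf (ndl_mem h u) (stem_suf T u)

theorem cons_ndl (h : LTree T) {m : ℕ} {u : List ℕ} (hm : m :: ndl T u ∈ T) :
    ∃ l, ndl T (l :: u) = m :: ndl T u := by
  have hr := Nat.range_nth_of_infinite (ndl_inf h u)
  have hm' : m ∈ {m | m :: ndl T u ∈ T} := hm
  rw [← hr] at hm'
  obtain ⟨l, hl⟩ := hm'
  refine ⟨l, ?_⟩
  simp only [ndl]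
  rw [hl]

theorem ndl_surj (h : LTree T) {s : List ℕ} (hs : s ∈ T) (hst : stem T <:+ s) : ∃ u, ndl T u = s := by
  induction s with
  | nil =>
    rw [List.suffix_nil] at hst
    exact ⟨[], by simp only [ndl]; exact hst⟩
  | cons m s ih =>
    rcases List.suffix_cons_iff.mp hst with hst | hst
    · exact ⟨[], by simp only [ndl]; exact hst⟩
    · obtain ⟨u, hu⟩ := ih (h.closed hs (List.suffix_cons _ _)) hst
      subst hu
      obtain ⟨l, hl⟩ := cons_ndl h hs
      exact ⟨l :: u, hl⟩

theorem ndl_inj (h : LTree T) {u v : List ℕ} (he : ndl T u = ndl T v) : u = v := by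
  have hl : u.length = v.length := by
    have := congrArg List.length he
    rw [ndl_length, ndl_length] at this
    omega
  induction u generalizing v with
  | nil =>
    cases v with
    | nil => rfl
    | cons l v => simp at hl
  | cons l u ih =>
    cases v with
    | nil => simp at hl
    | cons l' v =>
      simp only [ndl, List.cons.injEq] at he
      have huv : u = v := ih he.2 (by simpa using hl)
      subst huv
      have := (Nat.nth_strictMono (ndl_inf h u)).injective he.1
      rw [this]

theorem ndl_suf_iff (h : LTree T) {u v : List ℕ} : ndl T u <:+ ndl T v ↔ u <:+ v := by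
  refine ⟨fun hs => ?_, ndl_suf T⟩
  induction v with
  | nil =>
    have h1 := hs.length_le
    rw [ndl_length, ndl_length] at h1
    have h2 : u = [] := List.length_eq_zero_iff.mp (by simp at h1; simpa using h1)
    rw [h2]
  | cons l v ih =>
    simp only [ndl] at hs
    rcases List.suffix_cons_iff.mp hs with hs | hs
    · have : u = l :: v := ndl_inj h (by simp only [ndl]; exact hs)
      rw [this]
    · exact (ih hs).trans (List.suffix_cons _ _)

/-- the order of the successors is the order of the indices -/
theorem ndl_cons_lt (h : LTree T) {l l' m m' : ℕ} {u : List ℕ} (h1 : ndl T (l :: u) = m :: ndl T u)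
    (h2 : ndl T (l' :: u) = m' :: ndl T u) : l < l' ↔ m < m' := by
  simp only [ndl, List.cons.injEq, and_true] at h1 h2
  rw [← h1, ← h2]
  exact ((Nat.nth_strictMono (ndl_inf h u)).lt_iff_lt).symm

theorem nd_mem (h : LTree T) (k : ℕ) : nd T k ∈ T := ndl_mem h _

theorem nd_inj (h : LTree T) {k k' : ℕ} (he : nd T k = nd T k') : k = k' := by
  have h1 : dec k = dec k' := ndl_inj h he
  rw [← idx_dec k, ← idx_dec k', h1]

theorem le_of_nd_suf (h : LTree T) {k k' : ℕ} (he : nd T k <:+ nd T k') : k ≤ k' := by
  have h1 : dec k <:+ dec k' := (ndl_suf_iff h).mp he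
  have h2 := idx_le_of_suf h1
  rwa [idx_dec, idx_dec] at h2

theorem stem_suf_nd (T : Set (List ℕ)) (k : ℕ) : stem T <:+ nd T k := stem_suf T _

/-- of two canonical nodes on a real the one with the smaller index is an initial segment of the other -/
theorem nd_suf_of_isg (h : LTree T) {f : ℕ → ℕ} {k k' : ℕ} (hk : Isg (nd T k) f)
    (hk' : Isg (nd T k') f) (hlt : k ≤ k') : nd T k <:+ nd T k' := by
  rcases le_total (nd T k).length (nd T k').length with hl | hl
  · exact hk.suf_of_length hk' hl
  · have h1 : nd T k' <:+ nd T k := hk'.suf_of_length hk hl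
    have h2 := le_of_nd_suf h h1
    have h3 : k = k' := le_antisymm hlt h2
    rw [h3]

/-- Recognition of the canonical nodes up to index `n`: if `T'` is a Laver tree with the same stem and
for every `k < n`-th canonical node `nd T k` that is a node with successors of index `≤ n` these
successors agree, then the canonical nodes up to `n` agree.  Precisely: suppose that for all `u`, `l`
with `idx (l :: u) ≤ n` and for all `m` with `m ≤` the last entry of `ndl T (l :: u)` one has
`m :: ndl T u ∈ T' ↔ m :: ndl T u ∈ T`.  Proof by induction on `u`: the `l`-th element of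
`{m | m :: ndl T u ∈ T}` depends only on the part of the set up to this element
(`Nat.nth_count` and `Nat.count`). -/
theorem nd_congr {T' : Set (List ℕ)} (h : LTree T) (h' : LTree T') (hs : stem T' = stem T) {n : ℕ}
    (hc : ∀ (l : ℕ) (u : List ℕ) (m' : ℕ), idx (l :: u) ≤ n → ndl T (l :: u) = m' :: ndl T u →
      ∀ m ≤ m', (m :: ndl T u ∈ T' ↔ m :: ndl T u ∈ T)) :
    ∀ k ≤ n, nd T' k = nd T k := by
  classical
  have key : ∀ u : List ℕ, idx u ≤ n → ndl T' u = ndl T u := by
    intro u
    induction u with
    | nil => intro _; exact hs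
    | cons l u ih =>
      intro hn
      have hu := ih ((idx_lt_cons l u).le.trans hn)
      simp only [ndl]
      rw [hu]
      congr 1
      have hinf := ndl_inf h u
      set m' := Nat.nth (fun m => m :: ndl T u ∈ T) l with hm'
      have hcc := hc l u m' hn rfl
      have hmem : m' :: ndl T u ∈ T := Nat.nth_mem_of_infinite hinf l
      have hmem' : m' :: ndl T u ∈ T' := (hcc m' le_rfl).mpr hmem
      have hcount : Nat.count (fun m => m :: ndl T u ∈ T) m' = l :=
        Nat.count_nth_of_infinite hinf l
      have hcount' : Nat.count (fun m => m :: ndl T u ∈ T') m' = l := by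
        rw [← hcount, Nat.count_eq_card_filter_range, Nat.count_eq_card_filter_range]
        congr 1
        apply Finset.filter_congr
        intro m hm
        exact hcc m (Finset.mem_range.mp hm).le
      have := Nat.nth_count (p := fun m => m :: ndl T u ∈ T') hmem'
      rw [hcount'] at this
      exact this
  intro k hk
  exact key (dec k) (by rw [idx_dec]; exact hk)

end LM
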