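import Pool.Agent.Helper18.LM.TreeC

/-!
# LM-T4: replacing a component (about 120 lines)

Let `R ⊆ comp T n k` be a Laver tree with the same stem `nd T k`, and
`T' = amal T n k R = {s ∈ T | s ∉ comp T n k ∨ s <:+ nd T k} ∪ R`.

`T'` is closed under initial segments: let `s ∈ T`, `s ∉ comp T n k`, `v <:+ s`; if `v ∈ comp T n k` and
`v` is not an initial segment of `nd T k` then `nd T k <:+ v <:+ s`, so `s` is comparable with
`nd T k` and hence (as `s ∉ comp`) `s` extends some `nd T k'` (`k' ≤ n`, `k' ≠ k`,
`nd T k <:+ nd T k'`); hmm, then `v` need not extend `nd T k'`, but `nd T k' <:+ s` and `v <:+ s` are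
comparable: as `v ∈ comp`, `v` does not extend `nd T k'`, so `v <:+ nd T k'` is a proper initial segment of
`nd T k'`.  To exclude this note that `nd T k'` may be taken to be a SUCCESSOR `m :: nd T k` of
`nd T k`: with `nd T k' = ndl T (w ++ dec k)`, `w ≠ []`, the initial segment
`ndl T (l :: dec k)` of `nd T k'` (`l` the last entry of `w`) has index `≤ k' ≤ n`.  So `v`, which
properly extends `nd T k` and is comparable with `nd T k'`, extends this successor, contradiction.

The stem is `stem T` (it is an initial segment of `nd T k`, so it is in `R` as well).  Successors: let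
`u ∈ T'` extend `stem T`.  If `u` is not in `comp T n k` or `u` is a proper initial segment of `nd T k`:
then all but at most one of the successors of `u` in `T` are in `T'` (for `u ∉ comp T n k` all: the
argument above with `v = u`, `s` the successor shows that `s ∈ comp` implies `u ∈ comp`, comp being
closed under initial segments).  If `u = nd T k` or `u ∈ R` extends `nd T k`: use the successors in `R`.

Canonical nodes up to `n`: use `nd_congr`.  Let `idx (l :: u) ≤ n`, `ndl T (l :: u) = m' :: ndl T u`,
`m ≤ m'`; show `m :: ndl T u ∈ T' ↔ m :: ndl T u ∈ T`.  Assume `m :: ndl T u ∈ T`; it is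
`ndl T (l₁ :: u)` with `l₁ ≤ l`, so its index is `≤ n`.  If it is in `comp T n k` then it is not a
canonical node `nd T k'` with `k' ≤ n` properly extending `nd T k`, so it is an initial segment of
`nd T k` and in `T'`.

`comp T' n k = R`: `⊇`: `R ⊆ comp T n k`, canonical nodes agree.  `⊆`: if `s ∈ comp T' n k` then
`s ∈ comp T n k` (by `comp_mono`), so either `s ∈ R` or `s <:+ nd T k = stem R`.
-/

set_option autoImplicit false

namespace LM

variable {T R : Set (List ℕ)} {n k : ℕ}

/-- a canonical node properly extending `nd T k` extends a successor which is canonical, with a smaller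
index -/
private theorem exists_succ (h : LTree T) {k k' : ℕ} (hne : k' ≠ k) (hs : nd T k <:+ nd T k') :
    ∃ l, idx (l :: dec k) ≤ k' ∧ ndl T (l :: dec k) <:+ nd T k' := by
  have h1 : dec k <:+ dec k' := (ndl_suf_iff h).1 hs
  obtain ⟨w, hw⟩ := h1
  rcases List.eq_nil_or_concat w with hw0 | ⟨w', l, hw'⟩
  · exfalso
    apply hne
    rw [hw0, List.nil_append] at hw
    rw [← idx_dec k', ← hw, idx_dec]
  · have h2 : l :: dec k <:+ dec k' := by
      refine ⟨w', ?_⟩
      rw [← hw, hw', List.concat_eq_append, List.append_assoc]
      rfl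
    refine ⟨l, ?_, ndl_suf T h2⟩
    have h3 := idx_le_of_suf h2
    rwa [idx_dec] at h3

private theorem comp_closed (h : LTree T) (hk : k ≤ n) {u v : List ℕ} (hu : u ∈ comp T n k)
    (hv : v <:+ u) : v ∈ comp T n k := (comp_isStem h hk).2.1 u hu v hv

theorem amal_subset (hR : R ⊆ comp T n k) : amal T n k R ⊆ T := by
  rintro s (hs | hs)
  · exact hs.1
  · exact comp_subset T n k (hR hs)

theorem amal_isStem (h : LTree T) (hk : k ≤ n) (hs : IsStem R (nd T k)) (hR : R ⊆ comp T n k) :
    IsStem (amal T n k R) (stem T) := by
  refine ⟨?_, ?_, ?_, ?_⟩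
  · exact Or.inl ⟨h.stem_mem, Or.inr (stem_suf_nd T k)⟩
  · rintro u (⟨huT, hu⟩ | hu) v hv
    · rcases hu with hu | hu
      · have hvT := h.closed huT hv
        by_cases hvc : v ∈ comp T n k
        · rcases hvc.2.1 with hvK | hvK
          · exact Or.inl ⟨hvT, Or.inr hvK⟩
          · by_cases hvK' : v <:+ nd T k
            · exact Or.inl ⟨hvT, Or.inr hvK'⟩
            · exfalso
              -- `u` extends `nd T k`
              have hKu : nd T k <:+ u := hvK.trans hv
              have hex : ∃ k' ≤ n, k' ≠ k ∧ nd T k <:+ nd T k' ∧ nd T k' <:+ u := by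
                by_contra hcon
                push Not at hcon
                exact hu ⟨huT, Or.inr hKu, fun k' h1 h2 h3 => hcon k' h1 h2 h3⟩
              obtain ⟨k', hk', hne, hs1, hs2⟩ := hex
              obtain ⟨l, hl, hs3⟩ := exists_succ h hne hs1
              have hs4 : ndl T (l :: dec k) <:+ v := by
                refine List.suffix_of_suffix_length_le (hs3.trans hs2) hv ?_
                have e1 : (ndl T (l :: dec k)).length = (nd T k).length + 1 := by
                  rw [nd, ndl_length, ndl_length, List.length_cons]
                  omega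
                rw [e1]
                by_contra hlen
                apply hvK'
                have e2 := hvK.length_le
                rw [hvK.eq_of_length (by omega)]
              refine hvc.2.2 (idx (l :: dec k)) (hl.trans hk') ?_ ?_ ?_
              · intro he
                have e1 := idx_lt_cons l (dec k)
                rw [idx_dec, he] at e1
                exact lt_irrefl _ e1
              · rw [nd_idx]
                exact ndl_suf T (List.suffix_cons l _)
              · rw [nd_idx]
                exact hs4
        · exact Or.inl ⟨hvT, Or.inl hvc⟩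
      · exact Or.inl ⟨h.closed huT hv, Or.inr (hv.trans hu)⟩
    · exact Or.inr (hs.2.1 u hu v hv)
  · intro u hu
    exact h.cmp (amal_subset hR hu)
  · intro u hu hst N
    have huT := amal_subset hR hu
    have hinf := h.inf huT hst
    by_cases hA : u ∈ R ∧ nd T k <:+ u
    · obtain ⟨m, hm, hm'⟩ := hs.2.2.2 u hA.1 hA.2 N
      exact ⟨m, hm, Or.inr hm'⟩
    · by_cases hc : u ∈ comp T n k
      · -- `u` is a proper initial segment of `nd T k`
        have huK : u <:+ nd T k := by
          rcases hu with ⟨_, hu | hu⟩ | hu
          · exact absurd hc hu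
          · exact hu
          · rcases hc.2.1 with h1 | h1
            · exact h1
            · exact absurd ⟨hu, h1⟩ hA
        have hne : u ≠ nd T k := by
          rintro rfl
          exact hA ⟨hs.1, List.suffix_rfl⟩
        obtain ⟨m1, hm1, hN1⟩ := hinf.exists_gt N
        obtain ⟨m2, hm2, hN2⟩ := hinf.exists_gt m1
        have hkey : ∀ m, m :: u ∈ T → ¬ (m :: u <:+ nd T k) → m :: u ∈ amal T n k R := by
          intro m hmT hmK
          refine Or.inl ⟨hmT, Or.inl fun hmc => hmK ?_⟩
          rcases hmc.2.1 with h1 | h1
          · exact h1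
          · have e1 := h1.length_le
            have e2 := huK.length_le
            have e3 : u.length ≠ (nd T k).length := fun e => hne (huK.eq_of_length e)
            rw [List.length_cons] at e1
            rw [h1.eq_of_length (by rw [List.length_cons]; omega)]
        by_cases h1 : m1 :: u <:+ nd T k
        · refine ⟨m2, by omega, hkey m2 hm2 fun h2 => ?_⟩
          have h3 := List.suffix_of_suffix_length_le h1 h2 (by simp)
          have h4 := h3.eq_of_length (by simp)
          rw [List.cons.injEq] at h4
          omega
        · exact ⟨m1, hN1.le, hkey m1 hm1 h1⟩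
      · obtain ⟨m, hm, hN⟩ := hinf.exists_gt N
        refine ⟨m, hN.le, Or.inl ⟨hm, Or.inl fun hmc => hc ?_⟩⟩
        exact comp_closed h hk hmc (List.suffix_cons m u)

theorem nd_amal (h : LTree T) (hk : k ≤ n) (hs : IsStem R (nd T k)) (hR : R ⊆ comp T n k) :
    ∀ i ≤ n, nd (amal T n k R) i = nd T i := by
  have h' := amal_isStem h hk hs hR
  refine nd_congr h ⟨_, h'⟩ (stem_eq h') ?_
  intro l u m' hl hm' m hm
  refine ⟨fun hmem => amal_subset hR hmem, fun hmem => ?_⟩
  obtain ⟨l1, hl1⟩ := cons_ndl h hmem
  have h1 : l1 ≤ l := by
    by_contra hlt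
    have h2 := (ndl_cons_lt h hm' hl1).1 (not_le.1 hlt)
    omega
  have h2 : idx (l1 :: u) ≤ n := by
    refine le_trans ?_ hl
    rcases lt_or_eq_of_le h1 with h3 | h3
    · exact (idx_cons_lt.2 h3).le
    · rw [h3]
  have h3 : nd T (idx (l1 :: u)) = m :: ndl T u := by rw [nd_idx, hl1]
  by_cases hc : m :: ndl T u ∈ comp T n k
  · refine Or.inl ⟨hmem, Or.inr ?_⟩
    rcases hc.2.1 with h4 | h4
    · exact h4
    · by_cases h5 : idx (l1 :: u) = k
      · rw [← h3, h5]
      · exfalso
        refine hc.2.2 _ h2 h5 ?_ ?_
        · rw [h3]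
          exact h4
        · rw [h3]
  · exact Or.inl ⟨hmem, Or.inl hc⟩

theorem comp_amal (h : LTree T) (hk : k ≤ n) (hs : IsStem R (nd T k)) (hR : R ⊆ comp T n k) :
    comp (amal T n k R) n k = R := by
  have hnd := nd_amal h hk hs hR
  apply Set.Subset.antisymm
  · intro s hsc
    have h1 : s ∈ comp T n k := comp_mono (amal_subset hR) hnd hk hsc
    rcases hsc.1 with ⟨_, h2 | h2⟩ | h2
    · exact absurd h1 h2
    · exact hs.2.1 _ hs.1 s h2
    · exact h2
  · intro s hsR
    have h1 := hR hsR
    refine ⟨Or.inr hsR, ?_, ?_⟩
    · rw [hnd k hk]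
      exact h1.2.1
    · intro k' hk' hne
      rw [hnd k hk, hnd k' hk']
      exact h1.2.2 k' hk' hne

end LM
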