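import Pool.Agent.Helper18.LM.TreeB

/-!
# LM-T5: fusion of a decreasing sequence of Laver trees (about 120 lines)

`T 0 ⊇ T 1 ⊇ ...` with `nd (T (m + 1)) k = nd (T m) k` for `n₀ ≤ m`, `k ≤ m`.  Put
`v u := ndl (T (max n₀ (idx u))) u`; then `ndl (T m) u = v u` for all `m ≥ max n₀ (idx u)`, so `v u` is in
all `T m` (for `m ≤` use that the sequence decreases).  `v (l :: u)` is a successor of `v u` and
`v (l :: u)` is increasing in `l` (compare in `T m` with large `m`, `ndl_cons_lt`).
Every `s` in the intersection `I` extending `v []` is some `v u`: by induction on the length,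
`s = j :: v u`; in `T m` (`m` large) `s = ndl (T m) (l_m :: u)` for some `l_m ≤ j`
(`cons_ndl`, `Nat.nth` is strictly increasing); for `m ≥ max n₀ (sup_{l ≤ j} idx (l :: u))` this gives
`s = v (l_m :: u)`.
So `I` is a Laver tree with stem `v []`, and the successors of `v u` in `I` are exactly the
`v (l :: u)`, in increasing order, so `ndl I u = v u` for all `u` (`Nat.nth` of a set whose elements
are enumerated increasingly, or `Nat.nth_count`).
-/

set_option autoImplicit false

namespace LM

/-- the index of a successor is at most its last entry -/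
theorem le_of_ndl_cons {T : Set (List ℕ)} (h : LTree T) {l j : ℕ} {u : List ℕ}
    (he : ndl T (l :: u) = j :: ndl T u) : l ≤ j := by
  have hinf : {m | m :: ndl T u ∈ T}.Infinite := h.inf (ndl_mem h u) (stem_suf T u)
  rw [ndl] at he
  have h1 : Nat.nth (fun m => m :: ndl T u ∈ T) l = j := (List.cons.inj he).1
  rw [← h1]
  exact (Nat.nth_strictMono hinf).le_apply

theorem fus_tree (T : ℕ → Set (List ℕ)) (h : ∀ m, LTree (T m)) (hd : ∀ m, T (m + 1) ⊆ T m) (n₀ : ℕ)
    (hn : ∀ m, n₀ ≤ m → ∀ k ≤ m, nd (T (m + 1)) k = nd (T m) k) :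
    LTree (⋂ m, T m) ∧ ∀ m, n₀ ≤ m → ∀ k ≤ m, nd (⋂ m, T m) k = nd (T m) k := by
  have hanti : ∀ {a b : ℕ}, a ≤ b → T b ⊆ T a := by
    intro a b hab
    induction b, hab using Nat.le_induction with
    | base => exact subset_rfl
    | succ k _ ih => exact (hd k).trans ih
  set v : List ℕ → List ℕ := fun u => ndl (T (max n₀ (idx u))) u with hv
  -- stabilisation
  have hst : ∀ (u : List ℕ) (m : ℕ), n₀ ≤ m → idx u ≤ m → ndl (T m) u = v u := by
    intro u m h1 h2
    have h3 : max n₀ (idx u) ≤ m := max_le h1 h2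
    induction m, h3 using Nat.le_induction with
    | base => rfl
    | succ k hk ih =>
      have h4 : n₀ ≤ k := (le_max_left _ _).trans hk
      have h5 : idx u ≤ k := (le_max_right _ _).trans hk
      rw [← ih h4 h5, ← nd_idx, ← nd_idx, hn k h4 (idx u) h5]
  have hvm : ∀ (u : List ℕ) (m : ℕ), v u ∈ T m := by
    intro u m
    rcases le_total m (max n₀ (idx u)) with h1 | h1
    · exact hanti h1 (ndl_mem (h _) u)
    · rw [← hst u m ((le_max_left _ _).trans h1) ((le_max_right _ _).trans h1)]
      exact ndl_mem (h m) u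
  have hvI : ∀ u, v u ∈ ⋂ m, T m := fun u => Set.mem_iInter.mpr (hvm u)
  -- successors
  have hex : ∀ (l : ℕ) (u : List ℕ), ∃ a, v (l :: u) = a :: v u := by
    intro l u
    have h1 : idx u ≤ max n₀ (idx (l :: u)) := (idx_lt_cons l u).le.trans (le_max_right _ _)
    refine ⟨Nat.nth (fun m => m :: ndl (T (max n₀ (idx (l :: u)))) u ∈
      T (max n₀ (idx (l :: u)))) l, ?_⟩
    rw [← hst u (max n₀ (idx (l :: u))) (le_max_left _ _) h1]
    rfl
  choose a ha using hex
  have hmono : ∀ u : List ℕ, StrictMono fun l => a l u := by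
    intro u l l' hl
    have h1 : n₀ ≤ max n₀ (idx (l' :: u)) := le_max_left _ _
    have h2 : idx (l' :: u) ≤ max n₀ (idx (l' :: u)) := le_max_right _ _
    have h3 : idx (l :: u) ≤ max n₀ (idx (l' :: u)) := (idx_cons_lt.mpr hl).le.trans h2
    have h4 : idx u ≤ max n₀ (idx (l' :: u)) := (idx_lt_cons l' u).le.trans h2
    refine (ndl_cons_lt (h (max n₀ (idx (l' :: u)))) (u := u) ?_ ?_).mp hl
    · rw [hst (l :: u) _ h1 h3, hst u _ h1 h4]
      exact ha l u
    · rw [hst (l' :: u) _ h1 h2, hst u _ h1 h4]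
      exact ha l' u
  have hsuc : ∀ (u : List ℕ) (j : ℕ), (j :: v u ∈ ⋂ m, T m) → ∃ l, a l u = j := by
    intro u j hj
    have h1 : n₀ ≤ max n₀ (idx (j :: u)) := le_max_left _ _
    have h2 : idx (j :: u) ≤ max n₀ (idx (j :: u)) := le_max_right _ _
    have h4 : idx u ≤ max n₀ (idx (j :: u)) := (idx_lt_cons j u).le.trans h2
    have h5 : j :: ndl (T (max n₀ (idx (j :: u)))) u ∈ T (max n₀ (idx (j :: u))) := by
      rw [hst u _ h1 h4]
      exact Set.mem_iInter.mp hj _
    obtain ⟨l, hl⟩ := cons_ndl (h _) h5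
    have hlj : l ≤ j := le_of_ndl_cons (h _) hl
    have h6 : idx (l :: u) ≤ idx (j :: u) := by
      rcases hlj.lt_or_eq with h7 | h7
      · exact (idx_cons_lt.mpr h7).le
      · rw [h7]
    refine ⟨l, ?_⟩
    rw [hst (l :: u) _ h1 (h6.trans h2), hst u _ h1 h4, ha l u] at hl
    exact (List.cons.inj hl).1
  have hsurj : ∀ t : List ℕ, (t ++ v [] ∈ ⋂ m, T m) → ∃ w, v w = t ++ v [] := by
    intro t
    induction t with
    | nil => intro _; exact ⟨[], rfl⟩
    | cons j t ih =>
      intro hj
      have h1 : t ++ v [] ∈ ⋂ m, T m := by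
        refine Set.mem_iInter.mpr fun m => ?_
        exact (h m).closed (Set.mem_iInter.mp hj m) (List.suffix_cons j _)
      obtain ⟨w, hw⟩ := ih h1
      have h2 : j :: v w ∈ ⋂ m, T m := by rw [hw]; exact hj
      obtain ⟨l, hl⟩ := hsuc w j h2
      exact ⟨l :: w, by rw [ha, hl, hw]; rfl⟩
  have hstem : IsStem (⋂ m, T m) (v []) := by
    refine ⟨hvI [], ?_, ?_, ?_⟩
    · intro u hu w hw
      exact Set.mem_iInter.mpr fun m => (h m).closed (Set.mem_iInter.mp hu m) hw
    · intro u hu
      have h1 : v [] = stem (T (max n₀ (idx []))) := rfl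
      rw [h1]
      exact (h _).cmp (Set.mem_iInter.mp hu _)
    · intro u hu hsu n
      obtain ⟨t, rfl⟩ := hsu
      obtain ⟨w, hw⟩ := hsurj t hu
      refine ⟨a n w, (hmono w).le_apply, ?_⟩
      rw [← hw, ← ha]
      exact hvI _
  have hI : LTree (⋂ m, T m) := ⟨_, hstem⟩
  have hndl : ∀ u, ndl (⋂ m, T m) u = v u := by
    intro u
    induction u with
    | nil => exact stem_eq hstem
    | cons l u ih =>
      rw [ndl, ih, ha]
      congr 1
      have h1 := Nat.nth_comp_of_strictMono (p := fun m => m :: v u ∈ ⋂ m, T m) (n := l)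
        (hmono u) (fun k hk => hsuc u k hk) ?_
      · rw [← h1]
        have h2 : (fun i => (fun m => m :: v u ∈ ⋂ m, T m) (a i u)) = fun _ => True := by
          funext i
          refine eq_true ?_
          show a i u :: v u ∈ ⋂ m, T m
          rw [← ha]
          exact hvI _
        show a (Nat.nth (fun i => (fun m => m :: v u ∈ ⋂ m, T m) (a i u)) l) u = a l u
        rw [h2, Nat.nth_true]
      · intro hfin
        exfalso
        refine Set.not_infinite.mpr hfin ?_
        refine Set.infinite_of_injective_forall_mem (f := fun i => a i u) (hmono u).injective ?_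
        intro i
        show a i u :: v u ∈ ⋂ m, T m
        rw [← ha]
        exact hvI _
  refine ⟨hI, ?_⟩
  intro m hm k hk
  show ndl (⋂ m, T m) (dec k) = ndl (T m) (dec k)
  rw [hndl, hst (dec k) m hm (by rw [idx_dec]; exact hk)]

end LM
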