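import Pool.Agent.Helper18.LM.Glue
import Pool.Agent.Helper18.LM.FusA

/-!
# LM-Q3: infinitely many good successors make a node good (about 250 lines)

Write `U j = {u | u ≤ p ∧ u ∈ D ∧ Frc u (fun G => stem (L.tr u ξ G) = j :: t)}`, so that
`L.Wt ξ p D (j :: t) = L.rs ξ '' U j`.

Step 1.  `D' j := {v | ∃ B ⊆ U j, B.Countable ∧
Frc v (fun G => Mts (L.Wt ξ p D (j :: t)) G → Mts (L.rs ξ '' B) G)}` is sigma-closed (take the union of
the countable sets `B` of the `w n`) and dense below `w` in the conditions with `L.rs ξ v = v`: given such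
`v`, if there are `v' ≤ v` and `u ∈ U j` with `v' ≤ L.rs ξ u` (wlog `L.rs ξ v' = v'`) then `v' ∈ D' j` with
`B = {u}`, otherwise `v` forces `¬ Mts (L.Wt ξ p D (j :: t)) G` (`frc_not_mts`) and `B = ∅` works.
By `hc` there is `w' ≤ w`, `L.rs ξ w' = w'`, in all `D' j`; choose `B j` for all `j`.

Step 2.  The set `⋃ j, B j` is countable; it is nonempty, because `w'` forces that some
`L.Wt ξ p D (j :: t)` is met.  Let `b : ℕ → C` enumerate it.  For a filter `G` let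
`Hj G = {j | ∃ m, b m ∈ B j ∧ L.rs ξ (b m) ∈ G.S}`, `m j G = sInf {m | b m ∈ B j ∧ L.rs ξ (b m) ∈ G.S}`,
`S j G = L.tr (b (m j G)) ξ G`, and `T G = ⋃ j ∈ Hj G, S j G` if this is a Laver tree, `T G = univ`
otherwise.  All this is measurable with respect to `L.Bm ξ` (`dcd_mem`: `L.rs ξ (b m) ∈ G.S` is decided;
`measurable_sInf_nat`).  Almost everywhere on `w'`: `Hj G` is infinite (by `h`, which `w'` forces as
well), and for `j ∈ Hj G` the tree `S j G` has the stem `j :: t` (`b m ∈ U j` forces this, so `L.rs ξ (b m)`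
forces it by `frc_rs`; `ae_ltree`, `isStem_stem`), so `T G` is the union and has the stem `t`
(`union_isStem`).

Step 3.  `N G := m (L.lr ξ G t.length) G` is measurable with respect to `L.Bm j` for all `j > ξ`
(`measurable_lr`).  Let `v` be given by `exists_glue` for `w'`, `ξ`, `T`, `b`, `N`.  `L.rs ξ v = w'`.
Almost everywhere on `v`: `w' ∈ G.S`; `Br (T G) (L.lr ξ G)` (`ae_br`), so by `br_union`
`j := L.lr ξ G t.length ∈ Hj G` and `Br (S j G) (L.lr ξ G)`, `S j G = L.tr (b (N G)) ξ G`, and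
`L.rs ξ (b (N G)) ∈ G.S`.  By `glue_mem` `v` forces `b (N G) ∈ G.S`.  So `v ≤ p` (`le_iff_frc`,
all `b n ≤ p`), `v ∈ D` (`hD`, all `b n ∈ D`), and `v` forces `stem (L.tr v ξ G) = t` (`stem_eq`).  So
`w' = L.rs ξ v ∈ L.Wt ξ p D t`.
-/

set_option autoImplicit false

namespace LM

namespace LIter

variable {J C : Type} [LinearOrder J] [Preorder C] (L : LIter J C)

theorem good_of_inf {ξ : J} (hc : L.CapO ξ) {p : C} {D : Set C} (hD : Sig D) {t : List ℕ} {w : C}
    (hw : L.rs ξ w = w) (h : Frc w (fun G => ∀ n, ∃ j, n ≤ j ∧ Mts (L.Wt ξ p D (j :: t)) G)) :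
    ∃ w', w' ≤ w ∧ w' ∈ L.Wt ξ p D t := by
  classical
  have hidem : ∀ q : C, L.rs ξ (L.rs ξ q) = L.rs ξ q := fun q => (L.pj ξ).idem q
  let U : ℕ → Set C := fun j => {u | u ≤ p ∧ u ∈ D ∧ Frc u (fun G => stem (L.tr u ξ G) = j :: t)}
  have hWt : ∀ j a, a ∈ L.Wt ξ p D (j :: t) ↔ ∃ u ∈ U j, L.rs ξ u = a := by
    intro j a
    constructor
    · rintro ⟨u, h1, h2, h3, h4⟩
      exact ⟨u, ⟨h1, h2, h4⟩, h3⟩
    · rintro ⟨u, ⟨h1, h2, h4⟩, h3⟩
      exact ⟨u, h1, h2, h3, h4⟩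
  -- Step 1
  let D' : ℕ → Set C := fun j => {v | ∃ B : Set C, B ⊆ U j ∧ B.Countable ∧
    Frc v (fun G => Mts (L.Wt ξ p D (j :: t)) G → Mts (L.rs ξ '' B) G)}
  have hsig : ∀ j, Sig (D' j) := by
    intro j u x hx hu
    choose B hB1 hB2 hB3 using hx
    refine ⟨⋃ n, B n, Set.iUnion_subset hB1, Set.countable_iUnion hB2, ?_⟩
    have h3 := eventually_countable_forall.2 hB3
    unfold Frc at hu ⊢
    filter_upwards [hu, h3] with G h1 h2 hG hM
    obtain ⟨n, hn⟩ := h1 hG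
    obtain ⟨a, ha, haG⟩ := h2 n hn hM
    exact ⟨a, Set.image_mono (Set.subset_iUnion B n) ha, haG⟩
  have hdense : ∀ (k : ℕ) (q : C), L.rs ξ q = q → q ≤ w → ∃ r, L.rs ξ r = r ∧ r ≤ q ∧ r ∈ D' k := by
    intro k q hq _
    by_cases hex : ∃ v' ≤ q, ∃ u ∈ U k, v' ≤ L.rs ξ u
    · obtain ⟨v', hv', u, hu, hvu⟩ := hex
      refine ⟨L.rs ξ v', hidem v', ?_, {u}, by simpa using hu, Set.countable_singleton u, ?_⟩
      · have := L.rs_mono ξ _ _ hv'
        rwa [hq] at this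
      · refine Filter.Eventually.of_forall fun G hG _ => ⟨L.rs ξ u, ⟨u, rfl, rfl⟩, ?_⟩
        refine G.up hG ?_
        have := L.rs_mono ξ _ _ hvu
        rwa [hidem] at this
    · refine ⟨q, hq, le_rfl, ∅, Set.empty_subset _, Set.countable_empty, ?_⟩
      have h1 : Frc q (fun G => ¬ Mts (L.Wt ξ p D (k :: t)) G) := by
        rw [frc_not_mts]
        intro q' hq' a ha hqa
        obtain ⟨u, hu, rfl⟩ := (hWt k a).1 ha
        exact hex ⟨q', hq', u, hu, hqa⟩
      exact h1.mono le_rfl fun G h2 h3 => absurd h3 h2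
  obtain ⟨w', hw', hw'w, hw'D⟩ := hc w hw D' hsig hdense
  choose B hBU hBc hBF using hw'D
  -- Step 2
  have hBF' : Frc w' (fun G => ∀ j, Mts (L.Wt ξ p D (j :: t)) G → Mts (L.rs ξ '' B j) G) :=
    frc_forall hBF
  have hne : (⋃ j, B j).Nonempty := by
    obtain ⟨G, _, h1, h2⟩ := frc_exists ((h.anti hw'w).and hBF')
    obtain ⟨j, _, hj⟩ := h1 0
    obtain ⟨_, ⟨a, ha, rfl⟩, _⟩ := h2 j hj
    exact ⟨a, Set.mem_iUnion.2 ⟨j, ha⟩⟩
  obtain ⟨b, hb⟩ := (Set.countable_iUnion hBc).exists_eq_range hne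
  have hbB : ∀ m, ∃ j, b m ∈ B j := by
    intro m
    have : b m ∈ ⋃ j, B j := hb ▸ Set.mem_range_self m
    exact Set.mem_iUnion.1 this
  have hbe : ∀ j, ∀ a ∈ B j, ∃ m, b m = a := by
    intro j a ha
    have : a ∈ ⋃ j, B j := Set.mem_iUnion.2 ⟨j, ha⟩
    rw [hb] at this
    exact this
  let mf : ℕ → Flt C → ℕ := fun j G => sInf {m | b m ∈ B j ∧ L.rs ξ (b m) ∈ G.S}
  let H : Flt C → Set ℕ := fun G => {j | ∃ m, b m ∈ B j ∧ L.rs ξ (b m) ∈ G.S}
  let S : ℕ → Flt C → Set (List ℕ) := fun j G => L.tr (b (mf j G)) ξ G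
  let T0 : Flt C → Set (List ℕ) := fun G => ⋃ j ∈ H G, S j G
  let T : Flt C → Set (List ℕ) := fun G => if LTree (T0 G) then T0 G else Set.univ
  have hm1 : ∀ j m, @MeasurableSet _ (L.Bm ξ) {G : Flt C | b m ∈ B j ∧ L.rs ξ (b m) ∈ G.S} := by
    intro j m
    let _ := L.Bm ξ
    have h1 : MeasurableSet {G : Flt C | L.rs ξ (b m) ∈ G.S} := (L.pj ξ).dcd_mem (hidem _)
    exact (MeasurableSet.const (b m ∈ B j)).inter h1
  have hm2 : ∀ j, @Measurable _ _ (L.Bm ξ) _ (mf j) := by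
    intro j
    let _ := L.Bm ξ
    exact measurable_sInf_nat (S := fun (G : Flt C) m => b m ∈ B j ∧ L.rs ξ (b m) ∈ G.S) (hm1 j)
  have hm3 : ∀ j, @MeasurableSet _ (L.Bm ξ) {G : Flt C | j ∈ H G} := by
    intro j
    let _ := L.Bm ξ
    have : {G : Flt C | j ∈ H G} = ⋃ m, {G : Flt C | b m ∈ B j ∧ L.rs ξ (b m) ∈ G.S} := by
      ext G
      simp [H]
    rw [this]
    exact MeasurableSet.iUnion (hm1 j)
  have hm4 : ∀ j, @Measurable _ _ (L.Bm ξ) _ (S j) := by
    intro j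
    let _ := L.Bm ξ
    exact measurable_bind_countable (hm2 j) (F := fun m G => L.tr (b m) ξ G)
      (fun m => L.measurable_tr (b m) ξ)
  have hm5 : @Measurable _ _ (L.Bm ξ) _ T0 := by
    let _ := L.Bm ξ
    refine measurable_set_iff.2 fun s => measurableSet_setOfPred.1 ?_
    have : {G : Flt C | s ∈ T0 G} = ⋃ j, ({G : Flt C | j ∈ H G} ∩ {G : Flt C | s ∈ S j G}) := by
      ext G
      simp [T0]
    rw [this]
    refine MeasurableSet.iUnion fun j => (hm3 j).inter ?_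
    exact (hm4 j) (measurableSet_mem_tree s)
  have hm6 : @Measurable _ _ (L.Bm ξ) _ T := by
    let _ := L.Bm ξ
    exact Measurable.ite (hm5 measurableSet_ltree) hm5 measurable_const
  have hT : ∀ᶠ G in Gen C, LTree (T G) := by
    refine Filter.Eventually.of_forall fun G => ?_
    by_cases hG : LTree (T0 G)
    · simp only [T, if_pos hG]
      exact hG
    · simp only [T, if_neg hG]
      exact ⟨[], isStem_univ⟩
  have hst1 : ∀ j m, b m ∈ B j → ∀ᶠ G in Gen C, L.rs ξ (b m) ∈ G.S → stem (L.tr (b m) ξ G) = j :: t := by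
    intro j m hbm
    have h1 : Frc (b m) (fun G => stem (L.tr (b m) ξ G) = j :: t) := (hBU j hbm).2.2
    have h2 : Frc (L.rs ξ (b m)) (fun G => stem (L.tr (b m) ξ G) = j :: t) := by
      refine (L.frc_rs ?_).2 h1
      let _ := L.Bm ξ
      exact (measurable_stem.comp (L.measurable_tr (b m) ξ)) (measurableSet_singleton (j :: t))
    exact h2
  have hst2 : ∀ᶠ G in Gen C, ∀ j m, b m ∈ B j → L.rs ξ (b m) ∈ G.S →
      stem (L.tr (b m) ξ G) = j :: t := by
    refine eventually_countable_forall.2 fun j => eventually_countable_forall.2 fun m => ?_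
    by_cases hbm : b m ∈ B j
    · filter_upwards [hst1 j m hbm] with G h1 _
      exact h1
    · exact Filter.Eventually.of_forall fun G h1 => absurd h1 hbm
  have hlt : ∀ᶠ G in Gen C, ∀ m, LTree (L.tr (b m) ξ G) :=
    eventually_countable_forall.2 fun m => L.ae_ltree (b m) ξ
  have hmem : ∀ G : Flt C, ∀ j ∈ H G, b (mf j G) ∈ B j ∧ L.rs ξ (b (mf j G)) ∈ G.S := by
    intro G j hj
    exact Nat.sInf_mem hj
  have hS : ∀ᶠ G in Gen C, ∀ j ∈ H G, IsStem (S j G) (j :: t) := by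
    filter_upwards [hst2, hlt] with G h1 h2 j hj
    have h3 := hmem G j hj
    have h4 := h1 j _ h3.1 h3.2
    have h5 := isStem_stem (h2 (mf j G))
    rw [h4] at h5
    exact h5
  have hinf : Frc w' (fun G => (H G).Infinite) := by
    have h1 := (h.anti hw'w).and hBF'
    refine h1.mono le_rfl fun G hG => ?_
    rw [Set.infinite_iff_exists_gt]
    intro n
    obtain ⟨j, hj, hj'⟩ := hG.1 (n + 1)
    obtain ⟨_, ⟨a, ha, rfl⟩, haG⟩ := hG.2 j hj'
    obtain ⟨m, rfl⟩ := hbe j a ha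
    exact ⟨j, ⟨m, ha, haG⟩, hj⟩
  have hTt : Frc w' (fun G => T G = T0 G ∧ IsStem (T G) t) := by
    unfold Frc at hinf ⊢
    filter_upwards [hinf, hS] with G h1 h2 hG
    have h3 : IsStem (T0 G) t := union_isStem (h1 hG) h2
    have h4 : T G = T0 G := by
      simp only [T]
      rw [if_pos ⟨t, h3⟩]
    exact ⟨h4, h4.symm ▸ h3⟩
  -- Step 3
  let N : Flt C → ℕ := fun G => mf (L.lr ξ G t.length) G
  have hN : ∀ j, ξ < j → @Measurable _ _ (L.Bm j) _ N := by
    intro j hj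
    have hjj : (ξ : WithTop J) < (j : WithTop J) := by exact_mod_cast hj
    let _ := L.Bm j
    have h1 : Measurable (fun G => L.lr ξ G t.length) :=
      (measurable_pi_apply t.length).comp (L.measurable_lr hjj)
    exact measurable_bind_countable h1 (F := fun a G => mf a G)
      (fun a => (hm2 a).mono (L.Bm_mono hjj.le) le_rfl)
  obtain ⟨v, hv1, hv2, hv3, _⟩ := L.exists_glue w' ξ T hm6 hT b N hN
  rw [hw'] at hv1
  have hvw : v ≤ w' := hv1 ▸ L.le_rs ξ v
  have hall : Frc v (fun G => L.rs ξ (b (N G)) ∈ G.S ∧ Br (L.tr (b (N G)) ξ G) (L.lr ξ G) ∧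
      stem (L.tr v ξ G) = t) := by
    have hTt' := hTt.anti hvw
    unfold Frc at hTt' ⊢
    filter_upwards [hTt', L.ae_br v ξ, hv2, hS] with G h1 h2 h3 h4 hG
    obtain ⟨h5, h6⟩ := h1 hG
    have h7 := h2 hG
    rw [h3, h5] at h7
    obtain ⟨_, h8, h9⟩ := br_union h4 h7
    refine ⟨(hmem G _ h8).2, h9, ?_⟩
    rw [h3]
    exact stem_eq h6
  have hbG : Frc v (fun G => b (N G) ∈ G.S) :=
    L.glue_mem hv3 (hall.mono le_rfl fun G h1 => h1.1) (hall.mono le_rfl fun G h1 => h1.2.1)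
  refine ⟨w', hw'w, v, ?_, ?_, hv1, hall.mono le_rfl fun G h1 => h1.2.2⟩
  · refine L.le_of_frc_br fun i _ => ?_
    unfold Frc at hbG ⊢
    filter_upwards [hbG, L.ae_br p i] with G h1 h2 hG
    obtain ⟨j, hj⟩ := hbB (N G)
    exact h2 (G.up (h1 hG) (hBU j hj).1)
  · refine hD v b (fun n => ?_) (hbG.mono le_rfl fun G hG => ⟨N G, hG⟩)
    obtain ⟨j, hj⟩ := hbB n
    exact (hBU j hj).2.1

end LIter

end LM
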