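import Pool.Agent.Helper18.LM.UA

/-!
# LM-Q4: the undecided subtree (about 200 lines)

Extending `w` we may assume that `w` forces `stem (L.tr p ξ G) = s₀` (`(L.pj ξ).decide`, `measurable_tr`,
`measurable_stem`).  Suppose that the conclusion fails.  Let
`A G = {u | ∃ y, Mts (L.Wt ξ p (𝒢 y) u) G}` (measurable with respect to `L.Bm ξ` by `dcd_mts`, as the
elements of `L.Wt` are fixed by `L.rs ξ`; `Y` is finite).
(1) `w` forces `s₀ ∉ A G`: otherwise there are `q ≤ w`, `y` and `a ∈ L.Wt ξ p (𝒢 y) s₀` with `q ≤ a`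
(`frc_not_mts`; countable conjunction over `y`); let `u` witness `a ∈ L.Wt ..`, and glue: there is `u' ≤ u`
with `L.rs ξ u' = L.rs ξ q` (`(L.pj ξ).cat`; `L.rs ξ q ≤ a = L.rs ξ u`), `u' ∈ 𝒢 y` (`Sig.anti`),
`u' ≤ p`, and `w' := L.rs ξ u' ≤ w`; `u'` forces `stem (L.tr u' ξ G) = stem (L.tr p ξ G)`: hmm, here use
`u'` with `L.t u' ξ = L.t u ξ` (from `exists_cat`), so `stem (L.tr u' ξ G) = s₀` on `u'`.
(2) For every `u` and `y`: `w` forces that if `¬ Mts (L.Wt ξ p (𝒢 y) u) G` then only finitely many `j`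
satisfy `Mts (L.Wt ξ p (𝒢 y) (j :: u)) G`: otherwise some `w₂ ≤ w`, `L.rs ξ w₂ = w₂`, forces
`¬ Mts (L.Wt ξ p (𝒢 y) u) G` and `∀ n, ∃ j ≥ n, Mts (L.Wt ξ p (𝒢 y) (j :: u)) G` (both decided below `ξ`), and
by `good_of_inf` there is `w' ≤ w₂` in `L.Wt ξ p (𝒢 y) u`, contradiction.
So `w` forces: for all `u ∉ A G` the set `{j | j :: u ∈ A G}` is finite (finite union over `y`).
(3) By `avoid_isStem`, `w` forces `IsStem (avoid (L.tr p ξ G) (A G)) s₀`.  Let `p'` be the condition with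
lower part `w`, upper part `p` (`exists_cat ξ w p`) and `ξ`-th tree `avoid (L.tr p ξ G) (A G)` if this is a
Laver tree, `univ` otherwise (`exists_upd`, `measurable_avoid`).  `p' ≤ p`, `L.rs ξ p' = w`.
By density there are `r ≤ p'` and `y` with `r ∈ 𝒢 y`.  Decide the stem: `c ≤ L.rs ξ r`,
`L.rs ξ c = c`, `Frc c (fun G => stem (L.tr r ξ G) = s)`; let `r' ≤ r` with `L.rs ξ r' = c` and
`L.t r' ξ = L.t r ξ` (`exists_cat` and the proof of `pj`).  Then `c ∈ L.Wt ξ p (𝒢 y) s`, so `c` forces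
`s ∈ A G`.  But `c` forces `L.tr r' ξ G ⊆ avoid (L.tr p ξ G) (A G)` (`ae_tr_subset`), so
`s ∈ avoid ..` and `s₀ <:+ s` (`stem_suf_stem`), so `s ∉ A G` (`avoid_not_mem`).  Contradiction
(`frc_absurd`).
-/

set_option autoImplicit false

namespace LM

namespace LIter

variable {J C : Type} [LinearOrder J] [Preorder C] (L : LIter J C)

/-- concatenation with control of the coordinates -/
theorem exists_cat_le {ξ : WithTop J} {p c : C} (hc : L.rs ξ c = c) (hcp : c ≤ L.rs ξ p) :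
    ∃ q, q ≤ p ∧ L.rs ξ q = c ∧ ∀ j : J, ξ ≤ (j : WithTop J) → L.t q j = L.t p j := by
  obtain ⟨r, h1, h2⟩ := L.exists_cat ξ c p
  have h3 : L.rs ξ r = c := by rw [L.rs_congr h1, hc]
  refine ⟨r, ?_, h3, h2⟩
  rw [L.le_iff] at *
  intro i s c' hc' hcr h4
  by_cases hi : (i : WithTop J) < ξ
  · have h5 := hcp i s c' hc'
    rw [L.t_rs_lt hi] at h5
    refine h5 ?_ ?_
    · rw [← L.rs_coe, ← h3, L.rs_rs_of_le hi.le]
      exact hcr
    · rw [← h1 i hi]
      exact h4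
  · rw [← h2 i (not_lt.1 hi)]
    exact h4

private theorem ub_wt_fix {ξ : J} {p : C} {D : Set C} {t : List ℕ} :
    ∀ a ∈ L.Wt ξ p D t, L.rs ξ a = a := by
  rintro a ⟨u, _, _, h3, _⟩
  rw [← h3]
  exact (L.pj ξ).idem u

private theorem ub_dcd {ξ : J} {p : C} {D : Set C} {t : List ℕ} :
    Dcd (L.rs ξ) (Mts (L.Wt ξ p D t)) := (L.pj ξ).dcd_mts L.ub_wt_fix

/-- step (2): only finitely many successors of a bad node are good -/
private theorem ub_fin {ξ : J} (hc : L.CapO ξ) {p : C} {D : Set C} (hD : Sig D) {w : C}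
    (hw : L.rs ξ w = w) (t : List ℕ) :
    Frc w (fun G => ¬ Mts (L.Wt ξ p D t) G → {j | Mts (L.Wt ξ p D (j :: t)) G}.Finite) := by
  let B : Flt C → Prop := fun G => ¬ Mts (L.Wt ξ p D t) G ∧ ∀ n : ℕ, ∃ j : ℕ, n ≤ j ∧
    Mts (L.Wt ξ p D (j :: t)) G
  have hBm : @MeasurableSet _ (L.Bm ξ) {G | B G} := by
    let _ := L.Bm ξ
    have h1 : ∀ u : List ℕ, Measurable (fun G : Flt C => Mts (L.Wt ξ p D u) G) := fun u =>
      measurableSet_setOfPred.1 (L.ub_dcd)
    exact measurableSet_setOfPred.2 ((h1 t).not.and (Measurable.forall fun n =>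
      Measurable.exists fun j => measurable_const.and (h1 (j :: t))))
  have h2 : Frc w (fun G => ¬ B G) := by
    refine (L.pj ξ).frc_of_dense hw fun q hq hqw => ?_
    obtain ⟨r, hr, hrq, h3 | h3⟩ := hBm q hq
    · exfalso
      have h4 : Frc r (fun G => ∀ n, ∃ j, n ≤ j ∧ Mts (L.Wt ξ p D (j :: t)) G) :=
        h3.mono (le_refl r) fun G h => h.2
      obtain ⟨w', h5, h6⟩ := L.good_of_inf hc hD hr h4
      obtain ⟨G, h7, h8⟩ := frc_exists (h3.anti h5)
      exact h8.1 ⟨w', h6, h7⟩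
    · exact ⟨r, hr, hrq, h3⟩
  refine h2.mono (le_refl w) fun G h3 h4 => ?_
  by_contra h5
  refine h3 ⟨h4, fun n => ?_⟩
  obtain ⟨j, hj, hn⟩ := (Set.not_finite.1 h5 : Set.Infinite _).exists_gt n
  exact ⟨j, hn.le, hj⟩

theorem exists_same_stem {ξ : J} (hc : L.CapO ξ) {p : C} {Y : Type} [Finite Y] {𝒢 : Y → Set C}
    (hS : ∀ y, Sig (𝒢 y)) (hd : ∀ q, q ≤ p → ∃ r, r ≤ q ∧ ∃ y, r ∈ 𝒢 y) {w : C}
    (hw : L.rs ξ w = w) (hwp : w ≤ L.rs ξ p) :
    ∃ w', w' ≤ w ∧ ∃ y, ∃ u, u ≤ p ∧ u ∈ 𝒢 y ∧ L.rs ξ u = w' ∧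
      Frc u (fun G => stem (L.tr u ξ G) = stem (L.tr p ξ G)) := by
  classical
  -- the stem is a decided function
  have hst : ∀ (q : C) (s : List ℕ), Dcd (L.rs ξ) (fun G => stem (L.tr q ξ G) = s) := by
    intro q s
    have h : @MeasurableSet _ (L.Bm ξ) {G | stem (L.tr q ξ G) = s} := by
      let _ := L.Bm ξ
      exact (measurable_stem.comp (L.measurable_tr q ξ)) (measurableSet_singleton s)
    exact h
  by_contra hcon
  obtain ⟨w₁, hw₁, hw₁w, s₀, hs₀⟩ := (L.pj ξ).decide (hst p) hw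
  have hw₁p : w₁ ≤ L.rs ξ p := hw₁w.trans hwp
  let A : Flt C → Set (List ℕ) := fun G => {u | ∃ y, Mts (L.Wt ξ p (𝒢 y) u) G}
  -- (1)
  have h1 : Frc w₁ (fun G => s₀ ∉ A G) := by
    have h : ∀ y, Frc w₁ (fun G => ¬ Mts (L.Wt ξ p (𝒢 y) s₀) G) := by
      intro y
      refine frc_not_mts.2 fun q hq a ha hqa => hcon ?_
      obtain ⟨u, hup, huD, hua, hus⟩ := ha
      have hq1 : L.rs ξ q ≤ L.rs ξ u := by
        have := L.rs_mono ξ _ _ hqa
        rw [← hua, L.rs_rs_of_le (le_refl _)] at this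
        exact this
      obtain ⟨u', hu'u, hu'q, hu't⟩ := L.exists_cat_le ((L.pj ξ).idem q) hq1
      have hq2 : L.rs ξ q ≤ w₁ := hw₁ ▸ L.rs_mono ξ _ _ hq
      refine ⟨L.rs ξ q, hq2.trans hw₁w, y, u', hu'u.trans hup, (hS y).anti huD hu'u, hu'q, ?_⟩
      rw [L.tr_congr (hu't ξ (le_refl _))]
      have h2 : u' ≤ w₁ := by
        refine ((L.pj ξ).le u').trans ?_
        rw [hu'q]
        exact hq2
      exact ((hus.anti hu'u).and (hs₀.anti h2)).mono (le_refl _) fun G h => h.1.trans h.2.symm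
    exact (frc_forall h).mono (le_refl _) fun G h3 h4 => by
      obtain ⟨y, hy⟩ := h4
      exact h3 y hy
  -- (2)
  have h2 : Frc w₁ (fun G => ∀ u : List ℕ, u ∉ A G → {j | j :: u ∈ A G}.Finite) := by
    have h : Frc w₁ (fun G => ∀ (u : List ℕ) (y : Y), ¬ Mts (L.Wt ξ p (𝒢 y) u) G →
        {j | Mts (L.Wt ξ p (𝒢 y) (j :: u)) G}.Finite) :=
      frc_forall fun u => frc_forall fun y => L.ub_fin hc (hS y) hw₁ u
    refine h.mono (le_refl _) fun G h3 u hu => ?_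
    have h4 : {j | j :: u ∈ A G} = ⋃ y, {j | Mts (L.Wt ξ p (𝒢 y) (j :: u)) G} := by
      ext j
      simp only [A, Set.mem_ofPred_eq, Set.mem_iUnion]
    rw [h4]
    exact Set.finite_iUnion fun y => h3 u y fun h5 => hu ⟨y, h5⟩
  -- the avoiding subtree
  have hLp := L.ae_ltree p ξ
  have h3 : Frc w₁ (fun G => LTree (avoid (L.tr p ξ G) (A G))) := by
    refine ((h1.and h2).and (hs₀.and (frc_of_ae hLp))).mono (le_refl _) fun G h => ?_
    obtain ⟨⟨g1, g2⟩, g3, g4⟩ := h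
    refine ⟨_, avoid_isStem g4 ?_ fun u _ _ hu => g2 u hu⟩
    rw [g3]
    exact g1
  let F : Set (List ℕ) → Set (List ℕ) := fun X => if LTree X then X else Set.univ
  have hFm : Measurable F := Measurable.ite measurableSet_ltree measurable_id measurable_const
  have hFL : ∀ X, LTree (F X) := by
    intro X
    simp only [F]
    split_ifs with h
    · exact h
    · exact ⟨_, isStem_univ⟩
  have hAm : @Measurable _ _ (L.Bm ξ) _ A := by
    let _ := L.Bm ξ
    refine measurable_set_iff.2 fun s => ?_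
    change Measurable fun G : Flt C => ∃ y, Mts (L.Wt ξ p (𝒢 y) s) G
    exact Measurable.exists fun y => measurableSet_setOfPred.1 (L.ub_dcd)
  have hTm : @Measurable _ _ (L.Bm ξ) _ (fun G => F (avoid (L.tr p ξ G) (A G))) := by
    let _ := L.Bm ξ
    exact hFm.comp (measurable_avoid.comp ((L.measurable_tr p ξ).prodMk hAm))
  obtain ⟨p₀, hp₀p, hp₀w, hp₀t⟩ := L.exists_cat_le hw₁ hw₁p
  obtain ⟨p', hp'1, hp'2⟩ := L.exists_upd p₀ (S := {ξ}) (Set.countable_singleton ξ)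
    (fun _ G => F (avoid (L.tr p ξ G) (A G)))
    (by
      rintro i rfl
      exact hTm)
    (fun i _ => Filter.Eventually.of_forall fun G => hFL _)
  have hp'ξ := hp'1 ξ rfl
  have hp'rs : ∀ i : J, i ≤ ξ → L.rs i p' = L.rs i p₀ := by
    intro i hi
    refine L.rs_congr fun j hj => hp'2 j fun h => ?_
    have hj' : j < i := by exact_mod_cast hj
    rw [Set.mem_singleton_iff] at h
    exact absurd (hj'.trans_le hi) (by rw [h]; exact lt_irrefl _)
  have hp'w : L.rs ξ p' = w₁ := by rw [hp'rs ξ (le_refl _), hp₀w]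
  have hp'tr : Frc w₁ (fun G => L.tr p' ξ G = avoid (L.tr p ξ G) (A G)) := by
    refine (h3.and (frc_of_ae hp'ξ)).mono (le_refl _) fun G h => ?_
    obtain ⟨g1, g2⟩ := h
    rw [g2]
    simp only [F]
    rw [if_pos g1]
  have hp'p : p' ≤ p := by
    rw [L.le_iff_tr]
    intro i
    rcases lt_trichotomy i ξ with hi | hi | hi
    · rw [hp'rs i hi.le, L.tr_congr (hp'2 i (by rw [Set.mem_singleton_iff]; exact hi.ne))]
      exact (L.le_iff_tr p₀ p).1 hp₀p i
    · rw [hi, hp'w]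
      refine hp'tr.mono (le_refl _) fun G h => ?_
      rw [h]
      exact avoid_subset _ _
    · rw [L.tr_congr ((hp'2 i (by rw [Set.mem_singleton_iff]; exact hi.ne')).trans
        (hp₀t i (by exact_mod_cast hi.le)))]
      exact Filter.Eventually.of_forall fun G _ => subset_rfl
  -- (3)
  obtain ⟨r, hrp', y, hry⟩ := hd p' hp'p
  obtain ⟨c, hc1, hc2, s, hs⟩ := (L.pj ξ).decide (hst r) ((L.pj ξ).idem r)
  obtain ⟨r', hr'r, hr'c, hr't⟩ := L.exists_cat_le hc1 hc2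
  have hcW : c ∈ L.Wt ξ p (𝒢 y) s := by
    refine ⟨r', (hr'r.trans hrp').trans hp'p, (hS y).anti hry hr'r, hr'c, ?_⟩
    rw [L.tr_congr (hr't ξ (le_refl _))]
    refine hs.anti (((L.pj ξ).le r').trans ?_)
    rw [hr'c]
  have hcw : c ≤ w₁ := by
    refine hc2.trans ?_
    rw [← hp'w]
    exact L.rs_mono ξ _ _ hrp'
  have e1 : Frc c (fun G => L.tr r' ξ G ⊆ L.tr p' ξ G) := by
    have := L.ae_tr_subset (hr'r.trans hrp') ξ
    rw [hr'c] at this
    exact this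
  have e2 : Frc c (fun G => stem (L.tr r' ξ G) = s) := by
    rw [L.tr_congr (hr't ξ (le_refl _))]
    exact hs
  have e3 : Frc c (fun G => c ∈ G.S) := Filter.Eventually.of_forall fun G h => h
  obtain ⟨G, _, ⟨g1, g2, g3⟩, ⟨g4, g5⟩, g6, g7⟩ := frc_exists
    ((e1.and (e2.and e3)).and (((hp'tr.anti hcw).and (hs₀.anti hcw)).and
      ((frc_of_ae hLp).and (frc_of_ae (L.ae_ltree r' ξ)))))
  rw [g4] at g1
  have k1 : s ∈ L.tr r' ξ G := by
    have := g7.stem_mem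
    rw [g2] at this
    exact this
  have k2 : s ∈ avoid (L.tr p ξ G) (A G) := g1 k1
  have k3 : stem (L.tr p ξ G) <:+ stem (L.tr r' ξ G) :=
    stem_suf_stem (isStem_stem g6) (isStem_stem g7) (g1.trans (avoid_subset _ _))
  rw [g2] at k3
  exact avoid_not_mem k2 k3 ⟨y, c, hcW, g3⟩

end LIter

end LM
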