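import Pool.Agent.Helper18.LM.UB

/-!
# LM-Q5: pure decision for finitely many coordinates (about 200 lines)

`sig_same_stem`: let `v` be covered by `w n` in the set, with witnesses `u n`.  Let
`N G = sInf {n | L.rs ξ (u n) ∈ G.S}` (measurable with respect to `L.Bm ξ`: `dcd_mem`,
`measurable_sInf_nat`), and let `v'` be given by `exists_glue` for `w := v`, `ξ`,
`T G = L.tr (u (N G)) ξ G`, `b := u`, `N`.  `v` forces `∃ n, L.rs ξ (w n) ∈ G.S`, so (`frc_rs`) `L.rs ξ v` and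
hence `v'` force `∃ n, L.rs ξ (u n) ∈ G.S` (as `L.rs ξ (u n) = L.rs ξ (w n)`), so `L.rs ξ (u (N G)) ∈ G.S`
(`Nat.sInf_mem`), and `Br (T G) (L.lr ξ G)` (`ae_br` for `v'`).  By `glue_mem`, `v'` forces `u (N G) ∈ G.S`;
so `v' ≤ p` (`le_iff_frc`), `v' ∈ D`, `L.rs ξ v' = L.rs ξ v`, and `v'` forces
`stem (L.tr v' ξ G) = stem (L.tr (u (N G)) ξ G) = stem (L.tr p ξ G)`.

`pure_dec`: induction on `F` (`Finset.induction_on_max`).  `F = ∅`: density.  `F = insert ξ F'` with all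
elements of `F'` below `ξ`: let `W y` be the set of `sig_same_stem` for `𝒢 y`.  It is sigma-closed, and
`⋃ y, W y` is dense below `L.rs ξ p`: given `v ≤ L.rs ξ p`, `exists_same_stem` for `L.rs ξ v ≤ L.rs ξ p`
gives `w' ≤ L.rs ξ v` and `u`, and `(L.pj ξ).cat` gives `v' ≤ v` with `L.rs ξ v' = w' = L.rs ξ u`.
By induction hypothesis there are `y`, `v ∈ W y` with `L.leF F' 0 v (L.rs ξ p)`; let `u` be the witness.
`L.leF F 0 u p`: for `η ∈ F'` the statement `∀ k ≤ 0, nd (L.tr u η G) k = nd (L.tr p η G) k` is decided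
below `η`, and `L.tr u η = L.tr (L.rs ξ u) η = L.tr (L.rs ξ v) η = L.tr v η` (`tr_rs`); for `ξ` use
`nd_zero`.
-/

set_option autoImplicit false

namespace LM

namespace LIter

variable {J C : Type} [LinearOrder J] [Preorder C] (L : LIter J C)

theorem sig_same_stem (ξ : J) (p : C) {D : Set C} (hD : Sig D) :
    Sig {v : C | ∃ u, u ≤ p ∧ u ∈ D ∧ L.rs ξ u = L.rs ξ v ∧
      Frc u (fun G => stem (L.tr u ξ G) = stem (L.tr p ξ G))} := by
  intro v w hw hv
  choose u hup huD hus hust using hw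
  let N : Flt C → ℕ := fun G => sInf {n | L.rs ξ (u n) ∈ G.S}
  have hNm : @Measurable _ _ (L.Bm ξ) _ N := by
    let _ := L.Bm (ξ : WithTop J)
    refine measurable_sInf_nat (fun m => ?_)
    exact (L.pj ξ).dcd_mem ((L.pj ξ).idem (u m))
  have hTm : @Measurable _ _ (L.Bm ξ) _ (fun G => L.tr (u (N G)) ξ G) := by
    let _ := L.Bm (ξ : WithTop J)
    exact measurable_bind_countable hNm (F := fun n G => L.tr (u n) ξ G)
      (fun n => L.measurable_tr (u n) ξ)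
  have hTl : ∀ᶠ G in Gen C, LTree (L.tr (u (N G)) ξ G) := by
    have h0 : ∀ᶠ G in Gen C, ∀ n, LTree (L.tr (u n) ξ G) :=
      eventually_countable_forall.2 (fun n => L.ae_ltree (u n) ξ)
    filter_upwards [h0] with G hG using hG (N G)
  obtain ⟨v', hv1, hv2, hv3, -⟩ := L.exists_glue v ξ (fun G => L.tr (u (N G)) ξ G) hTm hTl u N
    (fun j hj => hNm.mono (L.Bm_mono (by exact_mod_cast hj.le)) le_rfl)
  have hms : @MeasurableSet _ (L.Bm ξ) {G : Flt C | ∃ n, L.rs ξ (u n) ∈ G.S} := by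
    let _ := L.Bm (ξ : WithTop J)
    have e : {G : Flt C | ∃ n, L.rs ξ (u n) ∈ G.S} = ⋃ n, {G : Flt C | L.rs ξ (u n) ∈ G.S} := by
      ext G; simp
    rw [e]
    exact MeasurableSet.iUnion fun n => (L.pj ξ).dcd_mem ((L.pj ξ).idem (u n))
  have h1 : Frc v (fun G => ∃ n, L.rs ξ (u n) ∈ G.S) :=
    hv.mono le_rfl fun G ⟨n, hn⟩ => ⟨n, by rw [hus n]; exact G.up hn (L.le_rs ξ _)⟩
  have h2 : Frc v' (fun G => ∃ n, L.rs ξ (u n) ∈ G.S) := by
    rw [← L.frc_rs hms] at h1 ⊢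
    rw [hv1]
    exact h1
  have h3 : Frc v' (fun G => L.rs ξ (u (N G)) ∈ G.S) :=
    h2.mono le_rfl fun G hG => Nat.sInf_mem (s := {n | L.rs ξ (u n) ∈ G.S}) hG
  have h4 : Frc v' (fun G => Br (L.tr (u (N G)) ξ G) (L.lr ξ G)) := by
    unfold Frc
    filter_upwards [L.ae_br v' ξ, hv2] with G h5 h6 h7
    have := h5 h7
    rwa [h6] at this
  have h5 : Frc v' (fun G => u (N G) ∈ G.S) := L.glue_mem hv3 h3 h4
  have hvp : v' ≤ p := by
    refine L.le_of_frc_br fun i _ => ?_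
    unfold Frc at h5 ⊢
    filter_upwards [h5, L.ae_br p i] with G h6 h7 h8
    exact h7 (G.up (h6 h8) (hup _))
  refine ⟨v', hvp, hD v' u huD (h5.mono le_rfl fun G hG => ⟨_, hG⟩), hv1, ?_⟩
  have h6 : ∀ᶠ G in Gen C, ∀ n, u n ∈ G.S → stem (L.tr (u n) ξ G) = stem (L.tr p ξ G) :=
    eventually_countable_forall.2 hust
  unfold Frc at h5 ⊢
  filter_upwards [h5, h6, hv2] with G h7 h8 h9 h10
  rw [h9]
  exact h8 _ (h7 h10)

theorem pure_dec (F : Finset J) (hF : ∀ ξ ∈ F, L.CapO (ξ : WithTop J)) (p : C) {Y : Type} [Finite Y]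
    {𝒢 : Y → Set C} (hS : ∀ y, Sig (𝒢 y)) (hd : ∀ q, q ≤ p → ∃ r, r ≤ q ∧ ∃ y, r ∈ 𝒢 y) :
    ∃ y, ∃ u ∈ 𝒢 y, L.leF F 0 u p := by
  classical
  induction F using Finset.induction_on_max generalizing p 𝒢 with
  | empty =>
    obtain ⟨r, hr, y, hy⟩ := hd p le_rfl
    exact ⟨y, r, hy, hr, by simp⟩
  | insert ξ F' hlt ih =>
    have hc := hF ξ (Finset.mem_insert_self _ _)
    have hW : ∀ y, Sig {v : C | ∃ u, u ≤ p ∧ u ∈ 𝒢 y ∧ L.rs ξ u = L.rs ξ v ∧
      Frc u (fun G => stem (L.tr u ξ G) = stem (L.tr p ξ G))} :=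
      fun y => L.sig_same_stem ξ p (hS y)
    have hdW : ∀ q, q ≤ L.rs ξ p → ∃ r, r ≤ q ∧ ∃ y, r ∈ {v : C | ∃ u, u ≤ p ∧ u ∈ 𝒢 y ∧
        L.rs ξ u = L.rs ξ v ∧ Frc u (fun G => stem (L.tr u ξ G) = stem (L.tr p ξ G))} := by
      intro v hv
      have h1 : L.rs ξ v ≤ L.rs ξ p := by
        have := L.rs_mono ξ _ _ hv
        rwa [(L.pj ξ).idem] at this
      obtain ⟨w', hw', y, u, hup, huG, hus, hust⟩ :=
        L.exists_same_stem hc hS hd ((L.pj ξ).idem v) h1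
      have hfix : L.rs ξ w' = w' := by rw [← hus, (L.pj ξ).idem]
      obtain ⟨v', hv', -, hv's⟩ := (L.pj ξ).cat v w' hfix hw'
      exact ⟨v', hv', y, u, hup, huG, by rw [hus, hv's], hust⟩
    obtain ⟨y, v, ⟨u, hup, huG, hus, hust⟩, hle, hnd⟩ :=
      ih (fun η hη => hF η (Finset.mem_insert_of_mem hη)) (L.rs ξ p) hW hdW
    refine ⟨y, u, huG, hup, fun η hη => ?_⟩
    rcases Finset.mem_insert.1 hη with rfl | hη
    · refine hust.mono le_rfl (fun G hG k hk => ?_)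
      obtain rfl : k = 0 := by omega
      rw [nd_zero, nd_zero, hG]
    · have hlt' : (η : WithTop J) < ξ := by exact_mod_cast hlt η hη
      have h2 := hnd η hη
      have e1 : L.tr v η = L.tr u η := by rw [← L.tr_rs hlt' v, ← hus, L.tr_rs hlt' u]
      rw [e1, L.tr_rs hlt' p] at h2
      have hm : @MeasurableSet _ (L.Bm ξ)
          {G | ∀ k ≤ 0, nd (L.tr u η G) k = nd (L.tr p η G) k} := by
        let _ := L.Bm (ξ : WithTop J)
        have hmu : ∀ q k, Measurable (fun G => nd (L.tr q η G) k) := fun q k =>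
          (measurable_nd k).comp ((L.measurable_tr q η).mono (L.Bm_mono hlt'.le) le_rfl)
        have e : {G | ∀ k ≤ 0, nd (L.tr u η G) k = nd (L.tr p η G) k} =
            {G | nd (L.tr u η G) 0 = nd (L.tr p η G) 0} := by
          ext G; simp
        rw [e]
        have e2 : {G | nd (L.tr u η G) 0 = nd (L.tr p η G) 0} =
            ⋃ a : List ℕ, ((fun G => nd (L.tr u η G) 0) ⁻¹' {a} ∩
              (fun G => nd (L.tr p η G) 0) ⁻¹' {a}) := by
          ext G; simp [eq_comm]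
        rw [e2]
        exact MeasurableSet.iUnion fun a => ((hmu u 0) trivial).inter ((hmu p 0) trivial)
      have h3 := (L.frc_rs hm).2 h2
      rw [← hus] at h3
      exact (L.frc_rs hm).1 h3

end LIter

end LM
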