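import Pool.Agent.Helper18.LM.FusA

/-!
# LM-Q6: component conditions (about 100 lines)

`exists_upd` with base `p`, `S = F`, and `T ξ G = comp (L.tr p ξ G) n (σ ξ)` (measurable by
`measurable_comp`; Laver almost everywhere by `comp_isStem` and `ae_ltree`).
The statement on `p' ∈ G.S` follows pointwise from `ae_mem_iff` for `p` and `p'` and from `br_comp` (for
`i ∉ F` the coordinates agree; `L.supp p' ⊆ L.supp p ∪ F`, and for `i ∈ F` outside a support the tree is
`univ`, of which everything is a branch, `tr_eq_univ`, `br_univ`).  `p' ≤ p` by `le_iff_frc`.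
-/

set_option autoImplicit false

namespace LM

namespace LIter

variable {J C : Type} [LinearOrder J] [Preorder C] (L : LIter J C)

theorem exists_comp (p : C) (F : Finset J) (n : ℕ) (σ : J → ℕ) (hσ : ∀ ξ ∈ F, σ ξ ≤ n) :
    ∃ p' : C, p' ≤ p ∧ (∀ᶠ G in Gen C, p' ∈ G.S ↔ p ∈ G.S ∧ L.PosIs p F n σ G) ∧
      (∀ ξ ∈ F, ∀ᶠ G in Gen C, L.tr p' ξ G = comp (L.tr p ξ G) n (σ ξ)) := by
  classical
  obtain ⟨p', h1, h2⟩ := L.exists_upd p (S := (↑F : Set J)) F.countable_toSet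
    (fun ξ G => comp (L.tr p ξ G) n (σ ξ))
    (fun ξ _ => (measurable_comp n (σ ξ)).comp (L.measurable_tr p ξ))
    (fun ξ hξ => by
      filter_upwards [L.ae_ltree p ξ] with G hG
      exact ⟨_, comp_isStem hG (hσ ξ hξ)⟩)
  have h3 : ∀ᶠ G in Gen C, p' ∈ G.S ↔ p ∈ G.S ∧ L.PosIs p F n σ G := by
    have e1 : ∀ᶠ G in Gen C, ∀ ξ : F, L.tr p' ξ G = comp (L.tr p ξ G) n (σ ξ) :=
      eventually_countable_forall.2 fun ξ => h1 ξ ξ.2
    have e2 : ∀ᶠ G in Gen C, ∀ ξ : F, LTree (L.tr p ξ G) :=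
      eventually_countable_forall.2 fun ξ => L.ae_ltree p ξ
    filter_upwards [L.ae_mem_iff p, L.ae_mem_iff p', e1, e2] with G g1 g2 g3 g4
    rw [g1, g2]
    have key : ∀ i, Br (L.tr p' i G) (L.lr i G) ↔
        Br (L.tr p i G) (L.lr i G) ∧ (i ∈ F → pos (L.tr p i G) n (L.lr i G) = σ i) := by
      intro i
      by_cases hi : i ∈ F
      · rw [g3 ⟨i, hi⟩, br_comp (g4 ⟨i, hi⟩) (hσ i hi)]
        simp [hi]
      · rw [L.tr_congr (h2 i hi)]
        simp [hi]
    have all : ∀ q : C, (∀ i ∈ L.supp q, Br (L.tr q i G) (L.lr i G)) ↔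
        ∀ i, Br (L.tr q i G) (L.lr i G) := by
      intro q
      refine ⟨fun h i => ?_, fun h i _ => h i⟩
      by_cases hi : i ∈ L.supp q
      · exact h i hi
      · rw [L.tr_eq_univ hi]
        exact br_univ _
    rw [all, all]
    constructor
    · intro h
      exact ⟨fun i => ((key i).1 (h i)).1, fun ξ hξ => ((key ξ).1 (h ξ)).2 hξ⟩
    · rintro ⟨h, h'⟩ i
      exact (key i).2 ⟨h i, h' i⟩
  refine ⟨p', ?_, h3, h1⟩
  refine L.le_of_frc_br fun i _ => ?_
  unfold Frc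
  filter_upwards [h3, L.ae_br p i] with G g g' hG
  exact g' (g.1 hG).1

end LIter

end LM
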