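import Pool.Agent.Helper18.LM.VA
import Pool.Agent.Helper18.LM.TreeD

/-!
# LM-Q7: amalgamation: replacing the component `σ` of `p` by a stronger condition with the same stems
(about 180 lines)

Let `p'` be a component condition (`hp'`, `hc`), and `r ≤ p'` with the same stems at the coordinates in
`F`.  Use `exists_upd` with base `p`, `S = L.supp p ∪ L.supp r ∪ F` and
`T ξ G = ` `L.tr p ξ G` if `L.rs ξ r ∉ G.S`; otherwise `amal (L.tr p ξ G) n (σ ξ) (L.tr r ξ G)` if `ξ ∈ F`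
and `L.tr r ξ G` if `ξ ∉ F`.  (To have Laver trees, replace this by `univ` on the null set where it is
not a Laver tree, or just prove that it is one almost everywhere.)  Measurable: `L.rs ξ r ∈ G.S` is
decided below `ξ` (`dcd_mem`), `measurable_amal`, `measurable_tr`.

Almost everywhere: if `L.rs ξ r ∈ G.S` then `L.tr r ξ G ⊆ L.tr p' ξ G` (`ae_tr_subset`), and for `ξ ∈ F`
`L.tr p' ξ G = comp (L.tr p ξ G) n (σ ξ)`, whose stem is `nd (L.tr p ξ G) (σ ξ)`; the stem of `L.tr r ξ G` is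
the same (`leF_nd`, `nd_zero`, `stem_eq`).  So `amal_isStem`, `nd_amal`, `amal_subset`, `comp_amal` apply.
In all cases `L.tr q ξ G = T ξ G ⊆ L.tr p ξ G` (for `ξ ∉ F`, `L.rs ξ r ∈ G.S`: `r ≤ p' ≤ p`), for
`ξ ∉ S` both are `univ`; so `q ≤ p` by `le_iff_tr` or `le_iff_frc`, and the canonical nodes with index
`≤ n` at `ξ ∈ F` are those of `L.tr p ξ G`: `L.leF F n q p`.

Let `u ≤ q` force `L.PosIs q F n σ`.  Show `u ≤ r` by `le_iff_frc`: almost everywhere on `u`, by
well-founded induction on `ξ ∈ L.supp r`: `Br (L.tr r ξ G) (L.lr ξ G)`.  By induction hypothesis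
`L.rs ξ r ∈ G.S` (`ae_mem_rs_iff`), `Br (L.tr q ξ G) (L.lr ξ G)` (`ae_br` as `q ∈ G.S`), and
`L.tr q ξ G = T ξ G`.  If `ξ ∉ F` this is `L.tr r ξ G`.  If `ξ ∈ F` then by `br_comp` (with
`pos = σ ξ`) `L.lr ξ G` is a branch of `comp (L.tr q ξ G) n (σ ξ)`, which is `L.tr r ξ G` by `comp_amal`.
-/

set_option autoImplicit false

namespace LM

namespace LIter

variable {J C : Type} [LinearOrder J] [WellFoundedLT J] [Preorder C] (L : LIter J C)

theorem exists_amal {p p' r : C} {F : Finset J} {n : ℕ} {σ : J → ℕ} (hσ : ∀ ξ ∈ F, σ ξ ≤ n)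
    (hp' : p' ≤ p) (hc : ∀ ξ ∈ F, ∀ᶠ G in Gen C, L.tr p' ξ G = comp (L.tr p ξ G) n (σ ξ))
    (hr : L.leF F 0 r p') :
    ∃ q, L.leF F n q p ∧ ∀ u, u ≤ q → Frc u (L.PosIs q F n σ) → u ≤ r := by
  classical
  have key : ∀ ξ ∈ F, ∀ᶠ G in Gen C, L.rs ξ r ∈ G.S →
      (LTree (L.tr p ξ G) ∧ IsStem (L.tr r ξ G) (nd (L.tr p ξ G) (σ ξ)) ∧
        L.tr r ξ G ⊆ comp (L.tr p ξ G) n (σ ξ)) := by
    intro ξ hξ
    filter_upwards [L.ae_tr_subset hr.1 ξ, hc ξ hξ, L.ae_ltree p ξ, L.ae_ltree r ξ, L.leF_nd hr hξ]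
      with G h1 h2 h3 h4 h5 hG
    have h6 := h5 hG 0 le_rfl
    rw [nd_zero, nd_zero, h2, stem_eq (comp_isStem h3 (hσ ξ hξ))] at h6
    refine ⟨h3, ?_, h2 ▸ h1 hG⟩
    rw [← h6]
    exact isStem_stem h4
  let T : J → Flt C → Set (List ℕ) := fun ξ G =>
    if L.rs ξ r ∈ G.S then
      (if ξ ∈ F then amal (L.tr p ξ G) n (σ ξ) (L.tr r ξ G) else L.tr r ξ G)
    else L.tr p ξ G
  have hTF : ∀ ξ ∈ F, ∀ G : Flt C, L.rs ξ r ∈ G.S →
      T ξ G = amal (L.tr p ξ G) n (σ ξ) (L.tr r ξ G) := by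
    intro ξ hξ G hG
    simp only [T, if_pos hG, if_pos hξ]
  have hTN : ∀ ξ : J, ξ ∉ F → ∀ G : Flt C, L.rs ξ r ∈ G.S → T ξ G = L.tr r ξ G := by
    intro ξ hξ G hG
    simp only [T, if_pos hG, if_neg hξ]
  have hT0 : ∀ ξ : J, ∀ G : Flt C, L.rs ξ r ∉ G.S → T ξ G = L.tr p ξ G := by
    intro ξ G hG
    simp only [T, if_neg hG]
  have hm : ∀ ξ : J, @Measurable _ _ (L.Bm ξ) _ (T ξ) := by
    intro ξ
    let _ := L.Bm ξ
    have hset : MeasurableSet {G : Flt C | L.rs ξ r ∈ G.S} :=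
      (L.pj ξ).dcd_mem ((L.pj ξ).idem r)
    have hA : Measurable (fun G => amal (L.tr p ξ G) n (σ ξ) (L.tr r ξ G)) :=
      (measurable_amal n (σ ξ)).comp ((L.measurable_tr p ξ).prodMk (L.measurable_tr r ξ))
    by_cases hξ : ξ ∈ F
    · have : T ξ = fun G => if L.rs ξ r ∈ G.S then amal (L.tr p ξ G) n (σ ξ) (L.tr r ξ G)
          else L.tr p ξ G := by
        funext G
        simp only [T, if_pos hξ]
      rw [this]
      exact Measurable.ite hset hA (L.measurable_tr p ξ)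
    · have : T ξ = fun G => if L.rs ξ r ∈ G.S then L.tr r ξ G else L.tr p ξ G := by
        funext G
        simp only [T, if_neg hξ]
      rw [this]
      exact Measurable.ite hset (L.measurable_tr r ξ) (L.measurable_tr p ξ)
  have hT : ∀ ξ : J, ∀ᶠ G in Gen C, LTree (T ξ G) := by
    intro ξ
    by_cases hξ : ξ ∈ F
    · filter_upwards [key ξ hξ, L.ae_ltree p ξ] with G h1 h2
      by_cases hG : L.rs ξ r ∈ G.S
      · rw [hTF ξ hξ G hG]
        obtain ⟨h3, h4, h5⟩ := h1 hG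
        exact ⟨_, amal_isStem h3 (hσ ξ hξ) h4 h5⟩
      · rw [hT0 ξ G hG]
        exact h2
    · filter_upwards [L.ae_ltree r ξ, L.ae_ltree p ξ] with G h1 h2
      by_cases hG : L.rs ξ r ∈ G.S
      · rw [hTN ξ hξ G hG]
        exact h1
      · rw [hT0 ξ G hG]
        exact h2
  have hsub : ∀ ξ : J, ∀ᶠ G in Gen C, T ξ G ⊆ L.tr p ξ G := by
    intro ξ
    by_cases hξ : ξ ∈ F
    · filter_upwards [key ξ hξ] with G h1
      by_cases hG : L.rs ξ r ∈ G.S
      · rw [hTF ξ hξ G hG]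
        exact amal_subset (h1 hG).2.2
      · rw [hT0 ξ G hG]
    · filter_upwards [L.ae_tr_subset (hr.1.trans hp') ξ] with G h1
      by_cases hG : L.rs ξ r ∈ G.S
      · rw [hTN ξ hξ G hG]
        exact h1 hG
      · rw [hT0 ξ G hG]
  obtain ⟨q, hq1, hq2⟩ := L.exists_upd p (S := L.supp p ∪ L.supp r ∪ (F : Set J))
    (((L.supp_countable p).union (L.supp_countable r)).union F.countable_toSet) T
    (fun i _ => hm i) (fun i _ => hT i)
  have hqp : q ≤ p := by
    rw [L.le_iff_tr]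
    intro i
    apply frc_of_ae
    by_cases hi : i ∈ L.supp p ∪ L.supp r ∪ (F : Set J)
    · filter_upwards [hq1 i hi, hsub i] with G h1 h2
      rw [h1]
      exact h2
    · refine Filter.Eventually.of_forall fun G => ?_
      rw [L.tr_congr (hq2 i hi)]
  refine ⟨q, ⟨hqp, fun ξ hξ => ?_⟩, fun u huq hu => ?_⟩
  · apply frc_of_ae
    filter_upwards [hq1 ξ (Or.inr (by exact_mod_cast hξ)), key ξ hξ] with G h1 h2 k hk
    rw [h1]
    by_cases hG : L.rs ξ r ∈ G.S
    · rw [hTF ξ hξ G hG]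
      obtain ⟨h3, h4, h5⟩ := h2 hG
      exact nd_amal h3 (hσ ξ hξ) h4 h5 k hk
    · rw [hT0 ξ G hG]
  · apply L.le_of_frc_br
    intro i
    induction i using WellFoundedLT.induction with
    | ind i ih =>
      intro hi
      have h0 : ∀ᶠ G in Gen C, ∀ j ∈ L.supp r, j < i → u ∈ G.S → Br (L.tr r j G) (L.lr j G) := by
        refine (eventually_countable_ball (L.supp_countable r)).2 fun j hj => ?_
        by_cases hji : j < i
        · filter_upwards [ih j hji hj] with G h1 _ h2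
          exact h1 h2
        · exact Filter.Eventually.of_forall fun G h => absurd h hji
      have hkey : ∀ᶠ G in Gen C, i ∈ F → L.rs i r ∈ G.S →
          (LTree (L.tr p i G) ∧ IsStem (L.tr r i G) (nd (L.tr p i G) (σ i)) ∧
            L.tr r i G ⊆ comp (L.tr p i G) n (σ i)) := by
        by_cases hF : i ∈ F
        · filter_upwards [key i hF] with G h1 _
          exact h1
        · exact Filter.Eventually.of_forall fun G h => absurd h hF
      unfold Frc at hu ⊢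
      filter_upwards [h0, L.ae_mem_rs_iff i r, L.ae_br q i, hq1 i (Or.inl (Or.inr hi)), hkey, hu,
        L.ae_ltree q i] with G h1 h2 h3 h4 h5 h6 h7 hG
      have hb := h3 (G.up hG huq)
      have hrG : L.rs i r ∈ G.S := h2.2 fun j hj hji => h1 j hj (by exact_mod_cast hji) hG
      by_cases hF : i ∈ F
      · obtain ⟨h8, h9, h10⟩ := h5 hF hrG
        have h11 : pos (L.tr q i G) n (L.lr i G) = σ i := h6 hG i hF
        have h12 := (br_comp h7 (hσ i hF)).2 ⟨hb, h11⟩
        rw [h4, hTF i hF G hrG, comp_amal h8 (hσ i hF) h9 h10] at h12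
        exact h12
      · rw [h4, hTN i hF G hrG] at hb
        exact hb

end LIter

end LM
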