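import Pool.Agent.Helper18.LM.VB
import Pool.Agent.Helper18.LM.UC

/-!
# LM-Q8: the step lemma (about 150 lines)

For one `σ` with `σ ξ ≤ n` on `F`: take the component condition `p'` (`exists_comp`), then
(`pure_dec`) `y` and `r ∈ 𝒢 y` with `L.leF F 0 r p'`, then `q` from `exists_amal`: every `u ≤ q` forcing
`L.PosIs q F n σ` is `≤ r`, so in `𝒢 y` (`Sig.anti`).  This remains true for every `q'` with
`L.leF F n q' q`: if `u ≤ q'` forces `L.PosIs q' F n σ` then `u` forces `L.PosIs q F n σ` (`posIs_congr`).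
Two functions `σ` which agree on `F` have the same `L.PosIs`; so, starting with `p`, treat one after the
other the finitely many functions `σ` with values `≤ n` on `F` and `0` outside `F` (induction over a
finset of functions, with `leF_trans`).  For a `σ` which takes a value `> n` on `F` no condition forces
`L.PosIs q F n σ` (`pos_le`, `frc_exists`), and `Z σ` is arbitrary (`Y` is nonempty by density).

`step_mem`: apply `exists_step` with `Y = Unit`.  `q` forces `∃ σ` (in the finite set) `L.PosIs q F n σ G`,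
so by `exists_comp` for `q` and all these `σ`, `q` is covered by the finitely many component conditions,
which are in `D`: `sig_countable`.
-/

set_option autoImplicit false

namespace LM

namespace LIter

variable {J C : Type} [LinearOrder J] [WellFoundedLT J] [Preorder C] (L : LIter J C)

/-- one function `σ` -/
theorem vc_one (F : Finset J) (hF : ∀ ξ ∈ F, L.CapO (ξ : WithTop J)) (n : ℕ) (p : C) {Y : Type}
    [Finite Y] {𝒢 : Y → Set C} (hS : ∀ y, Sig (𝒢 y))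
    (hd : ∀ q, q ≤ p → ∃ r, r ≤ q ∧ ∃ y, r ∈ 𝒢 y) (σ : J → ℕ) (hσ : ∀ ξ ∈ F, σ ξ ≤ n) :
    ∃ q, L.leF F n q p ∧ ∃ y, ∀ u : C, u ≤ q → Frc u (L.PosIs q F n σ) → u ∈ 𝒢 y := by
  obtain ⟨p', hp', _, h2⟩ := L.exists_comp p F n σ hσ
  obtain ⟨y, r, hr, hle⟩ := L.pure_dec F hF p' hS fun q hq => hd q (hq.trans hp')
  obtain ⟨q, hq, hq'⟩ := L.exists_amal hσ hp' h2 hle
  exact ⟨q, hq, y, fun u hu h => (hS y).anti hr (hq' u hu h)⟩

/-- finitely many functions `σ` -/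
theorem vc_many (F : Finset J) (hF : ∀ ξ ∈ F, L.CapO (ξ : WithTop J)) (n : ℕ) (p : C) {Y : Type}
    [Finite Y] {𝒢 : Y → Set C} (hS : ∀ y, Sig (𝒢 y))
    (hd : ∀ q, q ≤ p → ∃ r, r ≤ q ∧ ∃ y, r ∈ 𝒢 y) (S : Finset (J → ℕ))
    (hσ : ∀ σ ∈ S, ∀ ξ ∈ F, σ ξ ≤ n) :
    ∃ q, L.leF F n q p ∧ ∃ Z : (J → ℕ) → Y, ∀ σ ∈ S, ∀ u : C, u ≤ q →
      Frc u (L.PosIs q F n σ) → u ∈ 𝒢 (Z σ) := by
  classical
  induction S using Finset.induction_on with
  | empty =>
    obtain ⟨_, _, y, _⟩ := hd p le_rfl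
    exact ⟨p, L.leF_refl F n p, fun _ => y, by simp⟩
  | insert σ₀ S _ ih =>
    obtain ⟨q, hq, Z, hZ⟩ := ih fun σ h => hσ σ (Finset.mem_insert_of_mem h)
    obtain ⟨q₁, hq₁, y, hy⟩ := L.vc_one F hF n q hS (fun q' h => hd q' (h.trans hq.1)) σ₀
      (hσ σ₀ (Finset.mem_insert_self _ _))
    refine ⟨q₁, L.leF_trans hq₁ hq, Function.update Z σ₀ y, fun σ hm u hu hf => ?_⟩
    by_cases h : σ = σ₀
    · subst h
      rw [Function.update_self]
      exact hy u hu hf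
    · rw [Function.update_of_ne h]
      refine hZ σ ((Finset.mem_insert.1 hm).resolve_left h) u (hu.trans hq₁.1) ?_
      have h1 := L.posIs_congr hq₁ σ
      unfold Frc at *
      filter_upwards [h1, hf] with G h2 h3 h4
      exact (h2 (G.up h4 hu)).1 (h3 h4)

/-- the function with values given by `g` on `F` and `0` outside `F` -/
def vcf (F : Finset J) (n : ℕ) (g : ↥F → Fin (n + 1)) : J → ℕ :=
  fun ξ => if h : ξ ∈ F then (g ⟨ξ, h⟩ : ℕ) else 0

omit [WellFoundedLT J] in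
theorem vcf_le (F : Finset J) (n : ℕ) (g : ↥F → Fin (n + 1)) (ξ : J) : vcf F n g ξ ≤ n := by
  unfold vcf
  split_ifs with h
  · have := (g ⟨ξ, h⟩).2
    omega
  · exact Nat.zero_le _

theorem exists_step (F : Finset J) (hF : ∀ ξ ∈ F, L.CapO (ξ : WithTop J)) (n : ℕ) (p : C) {Y : Type}
    [Finite Y] {𝒢 : Y → Set C} (hS : ∀ y, Sig (𝒢 y))
    (hd : ∀ q, q ≤ p → ∃ r, r ≤ q ∧ ∃ y, r ∈ 𝒢 y) :
    ∃ q, L.leF F n q p ∧ ∃ Z : (J → ℕ) → Y, ∀ (σ : J → ℕ) (u : C), u ≤ q →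
      Frc u (L.PosIs q F n σ) → u ∈ 𝒢 (Z σ) := by
  classical
  obtain ⟨q, hq, Z, hZ⟩ := L.vc_many F hF n p hS hd (Finset.univ.image (vcf F n)) (by
    intro σ hσ ξ _
    obtain ⟨g, _, rfl⟩ := Finset.mem_image.1 hσ
    exact vcf_le F n g ξ)
  refine ⟨q, hq, fun σ => Z fun ξ => if ξ ∈ F then σ ξ else 0, fun σ u hu hf => ?_⟩
  obtain ⟨G₀, _, hG₀⟩ := frc_exists hf
  have hσ : ∀ ξ ∈ F, σ ξ ≤ n := by
    intro ξ hξ
    rw [← hG₀ ξ hξ]
    exact pos_le _ _ _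
  refine hZ _ ?_ u hu ?_
  · refine Finset.mem_image.2 ⟨fun ξ => ⟨σ ξ, Nat.lt_succ_of_le (hσ ξ ξ.2)⟩, Finset.mem_univ _, ?_⟩
    funext ξ
    unfold vcf
    by_cases h : ξ ∈ F
    · simp only [h, dif_pos, if_pos]
    · simp only [h, dif_neg, if_neg, not_false_eq_true]
  · refine hf.mono le_rfl fun G hG ξ hξ => ?_
    rw [hG ξ hξ]
    exact (if_pos hξ).symm

theorem step_mem (F : Finset J) (hF : ∀ ξ ∈ F, L.CapO (ξ : WithTop J)) (n : ℕ) (p : C) {D : Set C}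
    (hS : Sig D) (hd : ∀ q, q ≤ p → ∃ r, r ≤ q ∧ r ∈ D) : ∃ q ∈ D, L.leF F n q p := by
  classical
  obtain ⟨q, hq, _, hZ⟩ := L.exists_step F hF n p (Y := Unit) (𝒢 := fun _ => D) (fun _ => hS)
    (fun q hq => by
      obtain ⟨r, h1, h2⟩ := hd q hq
      exact ⟨r, h1, (), h2⟩)
  refine ⟨q, ?_, hq⟩
  have h1 : ∀ g : ↥F → Fin (n + 1), ∃ p' : C, p' ≤ q ∧
      ∀ᶠ G in Gen C, p' ∈ G.S ↔ q ∈ G.S ∧ L.PosIs q F n (vcf F n g) G := by
    intro g
    obtain ⟨p', h1, h2, _⟩ := L.exists_comp q F n (vcf F n g) fun ξ _ => vcf_le F n g ξ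
    exact ⟨p', h1, h2⟩
  choose w hw hw' using h1
  refine sig_countable hS w (fun g => ?_) ?_
  · refine hZ (vcf F n g) (w g) (hw g) ?_
    unfold Frc
    filter_upwards [hw' g] with G h1 h2
    exact (h1.1 h2).2
  · have h2 := eventually_countable_forall.2 hw'
    unfold Frc
    filter_upwards [h2] with G h3 h4
    refine ⟨fun ξ => ⟨pos (L.tr q ξ G) n (L.lr ξ G), Nat.lt_succ_of_le (pos_le _ _ _)⟩,
      (h3 _).2 ⟨h4, fun ξ hξ => ?_⟩⟩
    unfold vcf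
    rw [dif_pos hξ]

end LIter

end LM
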