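import Pool.Agent.Helper18.LM.FusA
import Pool.Agent.Helper18.LM.TreeE

/-!
# LM-Q9: fusion (about 170 lines)

Let `S = ⋃ m, F m` (countable) and `T ξ G = ⋂ m, L.tr (P m) ξ G` if this is a Laver tree and `univ`
otherwise; let `q` be given by `exists_upd` with base `P 0`, for this `S` and `T` (so for `i ∉ S` the
coordinates of `q` are those of `P 0`, i.e. full, as `L.supp (P 0) ⊆ S`).
Measurable: `measurable_iInter_tree`, `measurable_tr`, `measurableSet_ltree`.

Almost everywhere on `q`: for all `ξ ∈ S` and all `m`, `Br (L.tr (P m) ξ G) (L.lr ξ G)`, by well-founded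
induction on `ξ`: by induction hypothesis and `ae_mem_rs_iff` (with `L.supp (P m) ⊆ S`) all
`L.rs ξ (P m) ∈ G.S`; so `L.tr (P (m + 1)) ξ G ⊆ L.tr (P m) ξ G` (`ae_tr_subset`) and, if `ξ ∈ F n₀`, the
canonical nodes with index `≤ m` of `L.tr (P (m + 1)) ξ G` and `L.tr (P m) ξ G` agree for `m ≥ n₀`
(`leF_nd`, `hF`); by `fus_tree` the intersection is a Laver tree, so it is `T ξ G`, of which `L.lr ξ G` is a
branch (`ae_br` for `q`).
So `q` forces `P m ∈ G.S` for all `m` (`ae_mem_iff`), so `q ≤ P m` (`le_iff_frc`), and the canonical nodes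
of `L.tr q ξ G = T ξ G` with index `≤ n` are those of `L.tr (P n) ξ G` for `ξ ∈ F n` (`fus_tree` with
`n₀ = n`).
-/

set_option autoImplicit false

namespace LM

namespace LIter

variable {J C : Type} [LinearOrder J] [WellFoundedLT J] [Preorder C] (L : LIter J C)

open Classical in
theorem exists_fusion (P : ℕ → C) (F : ℕ → Finset J) (hF : Monotone F)
    (h : ∀ n, L.leF (F n) n (P (n + 1)) (P n)) (hs : ∀ n, ∀ i ∈ L.supp (P n), ∃ m, i ∈ F m) :
    ∃ q, ∀ n, L.leF (F n) n q (P n) := by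
  obtain ⟨S, hSdef⟩ : ∃ S : Set J, S = ⋃ m, (F m : Set J) := ⟨_, rfl⟩
  have hSc : S.Countable := by
    rw [hSdef]
    exact Set.countable_iUnion fun m => (F m).countable_toSet
  have hmemS : ∀ {i : J} {m : ℕ}, i ∈ F m → i ∈ S := by
    intro i m hi
    rw [hSdef]
    exact Set.mem_iUnion.2 ⟨m, hi⟩
  have hSmem : ∀ {i : J}, i ∈ S → ∃ m, i ∈ F m := by
    intro i hi
    rw [hSdef] at hi
    exact Set.mem_iUnion.1 hi
  have hsupp : ∀ n, ∀ i ∈ L.supp (P n), i ∈ S := by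
    intro n i hi
    obtain ⟨m, hm⟩ := hs n i hi
    exact hmemS hm
  obtain ⟨T, hT⟩ : ∃ T : J → Flt C → Set (List ℕ), T = fun ξ G =>
      if LTree (⋂ m, L.tr (P m) ξ G) then (⋂ m, L.tr (P m) ξ G) else Set.univ := ⟨_, rfl⟩
  have hTm : ∀ i ∈ S, @Measurable _ _ (L.Bm i) _ (T i) := by
    intro i _
    let _ := L.Bm i
    have h1 : Measurable (fun G => ⋂ m, L.tr (P m) i G) :=
      measurable_iInter_tree.comp (measurable_pi_iff.2 fun m => L.measurable_tr (P m) i)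
    rw [hT]
    exact Measurable.ite (h1 measurableSet_ltree) h1 measurable_const
  have hTl : ∀ i ∈ S, ∀ᶠ G in Gen C, LTree (T i G) := by
    intro i _
    refine Filter.Eventually.of_forall fun G => ?_
    rw [hT]
    simp only
    split_ifs with h1
    · exact h1
    · exact ⟨[], isStem_univ⟩
  obtain ⟨q, hq1, hq2⟩ := L.exists_upd (P 0) hSc T hTm hTl
  -- the statements which hold almost everywhere
  have ea : ∀ᶠ G in Gen C, ∀ ξ ∈ S, L.tr q ξ G = T ξ G :=
    (eventually_countable_ball hSc).2 hq1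
  have eb : ∀ᶠ G in Gen C, ∀ ξ ∈ S, ∀ m, LTree (L.tr (P m) ξ G) :=
    (eventually_countable_ball hSc).2 fun ξ _ =>
      eventually_countable_forall.2 fun m => L.ae_ltree (P m) ξ
  have ec : ∀ᶠ G in Gen C, ∀ ξ ∈ S, ∀ m, L.rs ξ (P m) ∈ G.S ↔
      ∀ i ∈ L.supp (P m), (i : WithTop J) < ξ → Br (L.tr (P m) i G) (L.lr i G) :=
    (eventually_countable_ball hSc).2 fun ξ _ =>
      eventually_countable_forall.2 fun m => L.ae_mem_rs_iff ξ (P m)
  have ed : ∀ᶠ G in Gen C, ∀ ξ ∈ S, ∀ m, L.rs ξ (P (m + 1)) ∈ G.S →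
      L.tr (P (m + 1)) ξ G ⊆ L.tr (P m) ξ G :=
    (eventually_countable_ball hSc).2 fun ξ _ =>
      eventually_countable_forall.2 fun m => L.ae_tr_subset (h m).1 ξ
  have ee : ∀ᶠ G in Gen C, ∀ m, ∀ ξ ∈ (F m : Set J), L.rs ξ (P (m + 1)) ∈ G.S →
      ∀ k ≤ m, nd (L.tr (P (m + 1)) ξ G) k = nd (L.tr (P m) ξ G) k :=
    eventually_countable_forall.2 fun m =>
      (eventually_countable_ball (F m).countable_toSet).2 fun ξ hξ => L.leF_nd (h m) hξ
  have ef : ∀ᶠ G in Gen C, ∀ ξ ∈ S, q ∈ G.S → Br (L.tr q ξ G) (L.lr ξ G) :=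
    (eventually_countable_ball hSc).2 fun ξ _ => L.ae_br q ξ
  have key : ∀ᶠ G in Gen C, q ∈ G.S → ∀ ξ ∈ S,
      (∀ m, Br (L.tr (P m) ξ G) (L.lr ξ G)) ∧ L.tr q ξ G = (⋂ m, L.tr (P m) ξ G) ∧
      ∀ n, ξ ∈ F n → ∀ k ≤ n, nd (⋂ m, L.tr (P m) ξ G) k = nd (L.tr (P n) ξ G) k := by
    filter_upwards [ea, eb, ec, ed, ee, ef] with G ga gb gc gd ge gf hqG
    intro ξ
    induction ξ using WellFoundedLT.induction with
    | ind ξ ih =>
      intro hξ
      have hrs : ∀ m, L.rs ξ (P m) ∈ G.S := by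
        intro m
        rw [gc ξ hξ m]
        intro i hi hiξ
        exact (ih i (by exact_mod_cast hiξ) (hsupp m i hi)).1 m
      have hfus : ∀ n₀, ξ ∈ F n₀ → LTree (⋂ m, L.tr (P m) ξ G) ∧
          ∀ m, n₀ ≤ m → ∀ k ≤ m, nd (⋂ m, L.tr (P m) ξ G) k = nd (L.tr (P m) ξ G) k := by
        intro n₀ hn₀
        refine fus_tree (fun m => L.tr (P m) ξ G) (fun m => gb ξ hξ m)
          (fun m => gd ξ hξ m (hrs (m + 1))) n₀ ?_
        intro m hm k hk
        exact ge m ξ (hF hm hn₀) (hrs (m + 1)) k hk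
      obtain ⟨n₀, hn₀⟩ := hSmem hξ
      have hlt : LTree (⋂ m, L.tr (P m) ξ G) := (hfus n₀ hn₀).1
      have htr : L.tr q ξ G = ⋂ m, L.tr (P m) ξ G := by
        rw [ga ξ hξ, hT]
        simp only
        rw [if_pos hlt]
      refine ⟨fun m => ?_, htr, fun n hn => (hfus n hn).2 n le_rfl⟩
      have hb := gf ξ hξ hqG
      rw [htr] at hb
      exact hb.mono (Set.iInter_subset _ m)
  refine ⟨q, fun n => ⟨?_, fun ξ hξ => ?_⟩⟩
  · refine L.le_of_frc_br fun i hi => ?_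
    unfold Frc
    filter_upwards [key] with G g1 hqG
    exact (g1 hqG i (hsupp n i hi)).1 n
  · unfold Frc
    filter_upwards [key] with G g1 hqG k hk
    obtain ⟨-, h2, h3⟩ := g1 hqG ξ (hmemS hξ)
    rw [h2]
    exact h3 n hξ k hk

end LIter

end LM
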