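import Pool.Agent.Helper18.LM.VD

/-!
# LM-Q10: fusion sequences with bookkeeping (about 150 lines)

Fix `i₀ < ζ`.  For every condition `q` let `e q : ℕ → J` be a function whose range contains `L.supp q`
(countable) and such that `e q k < ζ` for all `k` if `L.rs ζ q = q` (e.g. the range is
`L.supp q ∪ {i₀}`, `rs_eq_iff_supp`).
Construct recursively a sequence of states `(P N, h N, F N)`, `h N : ℕ → ℕ → J`, `F N : Finset J`:
`P 0 = p`, `h 0 = fun _ => e p`, `F 0 = ∅`; given the state `N`, let `ξ N = h N N.unpair.1 N.unpair.2`; `P (N + 1)`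
is given by `hR N (F N) (P N)`, `F (N + 1) = insert (ξ N) (F N)`, and `h (N + 1) = Function.update (h N) (N + 1) (e (P (N + 1)))`.
(A subtype with the invariants `L.rs ζ (P N) = P N`, `P N ≤ p`, `∀ ξ ∈ F N, ξ < ζ`,
`∀ a k, h N a k < ζ` helps.)  Then `F N = image ξ (range N)`, and `h N a = e (P a)` for all `a ≤ N`, so
(as `N.unpair.1 ≤ N`) every `i ∈ L.supp (P a)`, `i = e (P a) b`, is `ξ (Nat.pair a b)`.  So
`exists_fusion` applies and gives `q`; replace `q` by `L.rs ζ q` (`leF_rs`).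
The last statement: `L.leF (F (N + 1)) (N + 1) q (P (N + 1))` and `leF_mono`.
-/

set_option autoImplicit false

namespace LM

namespace LIter

variable {J C : Type} [LinearOrder J] [WellFoundedLT J] [Preorder C] (L : LIter J C)

theorem exists_scheme {ζ : WithTop J} (hJ : ∃ i : J, (i : WithTop J) < ζ) {p : C} (hp : L.rs ζ p = p)
    (R : ℕ → Finset J → C → C → Prop)
    (hR : ∀ (N : ℕ) (F : Finset J) (q : C), L.rs ζ q = q → q ≤ p → (∀ ξ ∈ F, (ξ : WithTop J) < ζ) →
      ∃ r, L.rs ζ r = r ∧ L.leF F N r q ∧ R N F q r) :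
    ∃ (P : ℕ → C) (ξ : ℕ → J) (q : C), P 0 = p ∧ L.rs ζ q = q ∧ q ≤ p ∧
      (∀ k, (ξ k : WithTop J) < ζ) ∧
      (∀ N, R N ((Finset.range N).image ξ) (P N) (P (N + 1))) ∧
      (∀ N, L.leF ((Finset.range N).image ξ) N q (P N)) ∧
      ∀ N, L.leF ((Finset.range N).image ξ) N q (P (N + 1)) := by
  classical
  obtain ⟨i₀, hi₀⟩ := hJ
  have he : ∀ q : C, ∃ f : ℕ → J, insert i₀ (L.supp q) = Set.range f := fun q =>
    ((L.supp_countable q).insert i₀).exists_eq_range (Set.insert_nonempty _ _)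
  choose e he using he
  have hsupp : ∀ q : C, L.rs ζ q = q → ∀ k, (e q k : WithTop J) < ζ := by
    intro q hq k
    have h1 : e q k ∈ insert i₀ (L.supp q) := by
      rw [he q]
      exact ⟨k, rfl⟩
    rcases h1 with h1 | h1
    · rw [h1]
      exact hi₀
    · by_contra h2
      exact h1 (L.rs_eq_iff.1 hq _ (not_lt.1 h2))
  let T := {s : C × (ℕ → ℕ → J) × Finset J // L.rs ζ s.1 = s.1 ∧ s.1 ≤ p ∧
    (∀ ξ ∈ s.2.2, (ξ : WithTop J) < ζ) ∧ ∀ a k, (s.2.1 a k : WithTop J) < ζ}
  have step : ∀ (N : ℕ) (s : T), ∃ s' : T, L.leF s.1.2.2 N s'.1.1 s.1.1 ∧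
      R N s.1.2.2 s.1.1 s'.1.1 ∧
      s'.1.2.1 = Function.update s.1.2.1 (N + 1) (e s'.1.1) ∧
      s'.1.2.2 = insert (s.1.2.1 N.unpair.1 N.unpair.2) s.1.2.2 := by
    intro N s
    obtain ⟨r, hr1, hr2, hr3⟩ := hR N s.1.2.2 s.1.1 s.2.1 s.2.2.1 s.2.2.2.1
    refine ⟨⟨(r, Function.update s.1.2.1 (N + 1) (e r),
      insert (s.1.2.1 N.unpair.1 N.unpair.2) s.1.2.2), hr1, hr2.1.trans s.2.2.1, ?_, ?_⟩,
      hr2, hr3, rfl, rfl⟩
    · intro ξ hξ
      rcases Finset.mem_insert.1 hξ with h | h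
      · rw [h]
        exact s.2.2.2.2 _ _
      · exact s.2.2.2.1 ξ h
    · intro a k
      show ((Function.update s.1.2.1 (N + 1) (e r) a k : J) : WithTop J) < ζ
      by_cases ha : a = N + 1
      · rw [ha, Function.update_self]
        exact hsupp r hr1 k
      · rw [Function.update_of_ne ha]
        exact s.2.2.2.2 a k
  choose nx hnx1 hnx2 hnx3 hnx4 using step
  let s₀ : T := ⟨(p, fun _ => e p, ∅), hp, le_refl p, fun ξ hξ => absurd hξ (Finset.notMem_empty _),
    fun _ k => hsupp p hp k⟩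
  let S : ℕ → T := fun N => Nat.rec s₀ (fun N s => nx N s) N
  have hS : ∀ N, S (N + 1) = nx N (S N) := fun N => rfl
  let P : ℕ → C := fun N => (S N).1.1
  let h : ℕ → ℕ → ℕ → J := fun N => (S N).1.2.1
  let F : ℕ → Finset J := fun N => (S N).1.2.2
  let ξ : ℕ → J := fun N => h N N.unpair.1 N.unpair.2
  have hF1 : ∀ N, F (N + 1) = insert (ξ N) (F N) := fun N => hnx4 N (S N)
  have hF : ∀ N, F N = (Finset.range N).image ξ := by
    intro N
    induction N with
    | zero => rfl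
    | succ N ih => rw [hF1, ih, Finset.range_add_one, Finset.image_insert]
  have hh1 : ∀ N, h (N + 1) = Function.update (h N) (N + 1) (e (P (N + 1))) := fun N => hnx3 N (S N)
  have hh : ∀ N a, a ≤ N → h N a = e (P a) := by
    intro N
    induction N with
    | zero =>
      intro a ha
      have h0 : a = 0 := Nat.le_zero.1 ha
      rw [h0]
      rfl
    | succ N ih =>
      intro a ha
      rw [hh1]
      by_cases ha' : a = N + 1
      · rw [ha', Function.update_self]
      · rw [Function.update_of_ne ha']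
        exact ih a (by omega)
  have hP1 : ∀ N, L.leF (F N) N (P (N + 1)) (P N) := fun N => hnx1 N (S N)
  have hP2 : ∀ N, R N (F N) (P N) (P (N + 1)) := fun N => hnx2 N (S N)
  have hmono : Monotone F := by
    apply monotone_nat_of_le_succ
    intro N
    rw [hF1]
    exact Finset.subset_insert _ _
  have hcov : ∀ n, ∀ i ∈ L.supp (P n), ∃ m, i ∈ F m := by
    intro a i hi
    have h1 : i ∈ Set.range (e (P a)) := by
      rw [← he]
      exact Set.mem_insert_of_mem _ hi
    obtain ⟨b, hb⟩ := h1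
    refine ⟨Nat.pair a b + 1, ?_⟩
    rw [hF1]
    apply Finset.mem_insert.2
    left
    show i = h (Nat.pair a b) (Nat.pair a b).unpair.1 (Nat.pair a b).unpair.2
    rw [Nat.unpair_pair]
    show i = h (Nat.pair a b) a b
    rw [hh _ _ (Nat.left_le_pair a b), hb]
  obtain ⟨q0, hq0⟩ := L.exists_fusion P F hmono hP1 hcov
  have hPr : ∀ N, L.rs ζ (P N) = P N := fun N => (S N).2.1
  have hFl : ∀ N, ∀ ξ ∈ F N, (ξ : WithTop J) < ζ := fun N => (S N).2.2.2.1
  have hq : ∀ N, L.leF (F N) N (L.rs ζ q0) (P N) := by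
    intro N
    have h1 := L.leF_rs (hq0 N) (hFl N)
    rw [hPr] at h1
    exact h1
  refine ⟨P, ξ, L.rs ζ q0, rfl, (L.pj ζ).idem q0, (hq 0).1, ?_, ?_, ?_, ?_⟩
  · intro k
    exact (S k).2.2.2.2 _ _
  · intro N
    rw [← hF]
    exact hP2 N
  · intro N
    rw [← hF]
    exact hq N
  · intro N
    rw [← hF]
    exact L.leF_mono (hq (N + 1)) (hmono (Nat.le_succ N)) (Nat.le_succ N)

end LIter

end LM
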