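import Pool.Agent.Helper18.LM.WA
import Pool.Agent.Helper18.LM.VC

/-!
# LM-Q11: distributivity with respect to sigma-closed sets (about 100 lines)

Well-founded induction on `ζ : WithTop J`.  If no `i : J` is below `ζ` then `L.rs ζ q = q` holds for only
one condition (`L.rs ζ q = q` means all coordinates are full: `rs_eq_iff`, `L.ext`), so density gives
`p ∈ D k`.  Otherwise apply `exists_scheme` with `R N F q r := r ∈ D N`.  The hypothesis `hR`: let
`D' = {u | L.rs ζ u ∈ D N}` (`sig_preimage`); it is dense below `q`: given `q' ≤ q`, take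
`r ≤ L.rs ζ q'`, `L.rs ζ r = r`, `r ∈ D N`, and `(L.pj ζ).cat` gives `s ≤ q'` with `L.rs ζ s = r`.  By
`step_mem` (with the induction hypothesis for the elements of `F`) there is `u ∈ D'` with
`L.leF F N u q`; take `r = L.rs ζ u` (`leF_rs`, and `L.rs ζ q = q`).
Finally `q ≤ P (N + 1) ∈ D N`, and `D N` is downward closed (`Sig.anti`).
-/

set_option autoImplicit false

namespace LM

namespace LIter

variable {J C : Type} [LinearOrder J] [WellFoundedLT J] [Preorder C] (L : LIter J C)

theorem capO (ζ : WithTop J) : L.CapO ζ := by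
  induction ζ using WellFoundedLT.induction with
  | ind ζ ih =>
  intro p hp D hS hd
  by_cases hJ : ∃ i : J, (i : WithTop J) < ζ
  · obtain ⟨P, ξ, q, _, hq, hqp, _, hR, _, hl2⟩ := L.exists_scheme hJ hp
      (fun N _ _ r => r ∈ D N) (by
        intro N F q hq hqp hF
        have hdense : ∀ q', q' ≤ q → ∃ r, r ≤ q' ∧ r ∈ {u | L.rs ζ u ∈ D N} := by
          intro q' hq'
          have h1 : L.rs ζ q' ≤ p := by
            have h2 := L.rs_mono ζ q' p (hq'.trans hqp)
            rw [hp] at h2
            exact h2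
          obtain ⟨r, hr, hrq, hrD⟩ := hd N (L.rs ζ q') ((L.pj ζ).idem q') h1
          obtain ⟨s, hs1, _, hs3⟩ := (L.pj ζ).cat q' r hr hrq
          refine ⟨s, hs1, ?_⟩
          show L.rs ζ s ∈ D N
          rw [hs3]
          exact hrD
        obtain ⟨u, hu, hleF⟩ := L.step_mem F (fun ξ hξ => ih ξ (hF ξ hξ)) N q
          (L.sig_preimage ζ (hS N)) hdense
        refine ⟨L.rs ζ u, (L.pj ζ).idem u, ?_, hu⟩
        have h3 := L.leF_rs hleF hF
        rw [hq] at h3
        exact h3)
    exact ⟨q, hq, hqp, fun N => (hS N).anti (hR N) (hl2 N).1⟩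
  · have hone : ∀ q, L.rs ζ q = q → q = p := by
      intro q hq
      apply L.ext
      funext j
      have hj : ζ ≤ (j : WithTop J) := not_lt.1 fun h => hJ ⟨j, h⟩
      rw [L.rs_eq_iff.1 hq j hj, L.rs_eq_iff.1 hp j hj]
    refine ⟨p, hp, le_refl p, fun k => ?_⟩
    obtain ⟨r, hr, _, hrD⟩ := hd k p hp (le_refl p)
    rw [hone r hr] at hrD
    exact hrD

end LIter

end LM
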