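import Pool.Agent.Helper18.LM.WB

/-!
# LM-Q12: continuous reading of names (about 130 lines)

`Act ξ k`: the `k`-th coordinate of the sequence `ξ` has not occurred before.

Apply `exists_scheme` with `ζ = ⊤` and `R N F q r :=` `∃ Z : (J → ℕ) → (Fin N → Bool), ∀ σ u, u ≤ r →
Frc u (L.PosIs r F N σ) → Frc u (fun G => (fun i : Fin N => x G i) = Z σ)`.  The hypothesis `hR` is
`exists_step` with `Y = (Fin N → Bool)`, `𝒢 y = {u | Frc u (fun G => (fun i : Fin N => x G i) = y)}`
(`sig_frc`; dense by `(L.pj ⊤).decide`, `measurable` hypothesis on `x`) and `capO`.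
Let `P`, `ξ`, `q` be the result, `Z N : (J → ℕ) → (Fin N → Bool)` the functions, and
`Z' N v i := Z N (σ_v) i` for `i < N` (and `false` otherwise), where
`σ_v j = v k` if `j = ξ k` with `k < N` and `Act ξ k` (this `k` is unique), and `σ_v j = 0` if there is no
such `k`.
Almost everywhere on `q`: for every `N` let `σ j = pos (L.tr q j G) N (L.lr j G)` for
`j ∈ F := image ξ (range N)` and `0` otherwise.  Then `σ = σ_v` for the vector `v` of the statement (every
`j ∈ F` is `ξ k` for the least `k` with this property, which is `< N` and satisfies `Act ξ k`).  It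
remains: almost everywhere on `q`, `L.PosIs q F N σ G` implies `(fun i : Fin N => x G i) = Z N σ` (for
the countably many functions `σ` vanishing outside `F`).  By `frc_of_dense` and `frc_imp`-like
arguments: if some `u ≤ q` forces `L.PosIs q F N σ` then it forces `L.PosIs (P (N + 1)) F N σ`
(`posIs_congr` with `L.leF F N q (P (N + 1))`) and `u ≤ P (N + 1)`, so it forces the conclusion; and
`L.PosIs q F N σ G` is decided (`measurableSet_posIs`).
-/

set_option autoImplicit false

namespace LM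

/-- the value `ξ k` has not occurred before -/
def Act {J : Type} (ξ : ℕ → J) (k : ℕ) : Prop := ∀ j < k, ξ j ≠ ξ k

theorem act_unique {J : Type} {ξ : ℕ → J} {k k' : ℕ} (h : Act ξ k) (h' : Act ξ k')
    (he : ξ k = ξ k') : k = k' := by
  rcases lt_trichotomy k k' with h1 | h1 | h1
  · exact absurd he (h' k h1)
  · exact h1
  · exact absurd he.symm (h k' h1)

theorem exists_act {J : Type} {ξ : ℕ → J} {N k : ℕ} (hk : k < N) :
    ∃ k', k' < N ∧ Act ξ k' ∧ ξ k' = ξ k := by
  classical
  have h : ∃ k', ξ k' = ξ k := ⟨k, rfl⟩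
  refine ⟨Nat.find h, (Nat.find_min' h rfl).trans_lt hk, ?_, Nat.find_spec h⟩
  intro j hj he
  exact Nat.find_min h hj (he.trans (Nat.find_spec h))

open Classical in
/-- the function on the coordinates given by a vector -/
noncomputable def svec {J : Type} (ξ : ℕ → J) (N : ℕ) (v : ℕ → ℕ) (j : J) : ℕ :=
  if h : ∃ k, k < N ∧ Act ξ k ∧ ξ k = j then v h.choose else 0

open Classical in
theorem svec_eq {J : Type} {ξ : ℕ → J} {N : ℕ} (w : J → ℕ) (j : J) :
    svec ξ N (fun k => if Act ξ k ∧ k < N then w (ξ k) else 0) j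
      = if ∃ k < N, ξ k = j then w j else 0 := by
  unfold svec
  by_cases h : ∃ k, k < N ∧ Act ξ k ∧ ξ k = j
  · have hs := h.choose_spec
    have h2 : ∃ k < N, ξ k = j := ⟨h.choose, hs.1, hs.2.2⟩
    rw [dif_pos h, if_pos h2]
    show (if Act ξ h.choose ∧ h.choose < N then w (ξ h.choose) else 0) = w j
    rw [if_pos ⟨hs.2.1, hs.1⟩, hs.2.2]
  · rw [dif_neg h, if_neg]
    rintro ⟨k, hk, hkj⟩
    obtain ⟨k', h1, h2, h3⟩ := exists_act (ξ := ξ) hk
    exact h ⟨k', h1, h2, h3.trans hkj⟩

namespace LIter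

variable {J C : Type} [LinearOrder J] [WellFoundedLT J] [Preorder C] (L : LIter J C)

open Classical in
theorem reading [Nonempty J] {x : Flt C → ℕ → Bool} (hx : @Measurable _ _ (L.Bm ⊤) _ x) (p : C) :
    ∃ q, q ≤ p ∧ ∃ (ξ : ℕ → J) (Z : ℕ → (ℕ → ℕ) → ℕ → Bool), Frc q (fun G => ∀ N i, i < N →
      x G i = Z N (fun k => if Act ξ k ∧ k < N then pos (L.tr q (ξ k) G) N (L.lr (ξ k) G) else 0) i) := by
  obtain ⟨i₀⟩ := ‹Nonempty J›
  have hdcd : ∀ (N : ℕ) (y : Fin N → Bool),
      Dcd (L.rs ⊤) (fun G => (fun i : Fin N => x G i) = y) := by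
    intro N y
    let _ := L.Bm ⊤
    have h1 : Measurable (fun G => (fun i : Fin N => x G i)) := by
      refine measurable_pi_iff.2 fun i => ?_
      exact (measurable_pi_apply (i : ℕ)).comp hx
    have h2 : MeasurableSet ((fun G => (fun i : Fin N => x G i)) ⁻¹' {y}) :=
      h1 (MeasurableSet.singleton y)
    exact h2
  obtain ⟨P, ξ, q, hP0, hq, hqp, -, hR, -, hleF⟩ := L.exists_scheme (ζ := ⊤) (p := p)
    ⟨i₀, WithTop.coe_lt_top i₀⟩ rfl
    (fun N F _ r => ∃ Z : (J → ℕ) → (Fin N → Bool), ∀ σ u, u ≤ r → Frc u (L.PosIs r F N σ) →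
      Frc u (fun G => (fun i : Fin N => x G i) = Z σ))
    (by
      intro N F q' _ _ _
      obtain ⟨r, h1, Z, h2⟩ := L.exists_step F (fun ζ _ => L.capO ζ) N q' (Y := Fin N → Bool)
        (𝒢 := fun y => {u | Frc u (fun G => (fun i : Fin N => x G i) = y)})
        (fun y => sig_frc _)
        (by
          intro s _
          obtain ⟨r, _, h2, y, h3⟩ := (L.pj ⊤).decide (hdcd N) (p := s) rfl
          exact ⟨r, h2, y, h3⟩)
      exact ⟨r, rfl, h1, Z, h2⟩)
  choose Z hZ using hR
  refine ⟨q, hqp, ξ, fun N v i => if h : i < N then Z N (svec ξ N v) ⟨i, h⟩ else false, ?_⟩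
  -- the extension by zero
  let ex : (N : ℕ) → (((Finset.range N).image ξ : Finset J) → ℕ) → J → ℕ :=
    fun N τ j => if h : j ∈ (Finset.range N).image ξ then τ ⟨j, h⟩ else 0
  have key : ∀ N : ℕ, ∀ τ : (((Finset.range N).image ξ : Finset J) → ℕ),
      Frc q (fun G => L.PosIs q ((Finset.range N).image ξ) N (ex N τ) G →
        (fun i : Fin N => x G i) = Z N (ex N τ)) := by
    intro N τ
    refine L.frc_imp (ξ := ⊤) rfl (L.measurableSet_posIs q _ N _) ?_
    intro c' _ hc' hf
    refine hZ N (ex N τ) c' (hc'.trans (hleF N).1) ?_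
    refine hf.mp ?_
    have h1 := L.posIs_congr (hleF N) (ex N τ)
    unfold Frc
    filter_upwards [h1] with G h2 h3 h4
    exact (h2 (G.up h3 hc')).1 h4
  have key2 := frc_forall (fun N => frc_forall (fun τ => key N τ))
  refine key2.mono le_rfl ?_
  intro G hG N i hi
  have h1 := hG N (fun j => pos (L.tr q j G) N (L.lr j G)) (by
    intro ζ hζ
    simp only [ex, dif_pos hζ])
  have h2 := congrFun h1 ⟨i, hi⟩
  have h3 : svec ξ N (fun k => if Act ξ k ∧ k < N then pos (L.tr q (ξ k) G) N (L.lr (ξ k) G) else 0)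
      = ex N (fun j => pos (L.tr q j G) N (L.lr j G)) := by
    funext j
    rw [svec_eq (fun j => pos (L.tr q j G) N (L.lr j G))]
    by_cases hj : j ∈ (Finset.range N).image ξ
    · have h4 : ∃ k < N, ξ k = j := by
        obtain ⟨k, hk, hkj⟩ := Finset.mem_image.1 hj
        exact ⟨k, Finset.mem_range.1 hk, hkj⟩
      simp only [ex, dif_pos hj, if_pos h4]
    · have h4 : ¬ ∃ k < N, ξ k = j := by
        rintro ⟨k, hk, hkj⟩
        exact hj (Finset.mem_image.2 ⟨k, Finset.mem_range.2 hk, hkj⟩)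
      simp only [ex, dif_neg hj, if_neg h4]
  simp only [h3, dif_pos hi]
  exact h2

end LIter

end LM
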