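import Pool.Agent.Helper18.LM.WC

/-!
# LM-Q13: making the branches sparse (about 130 lines)

`exists_upd` with base `q`, `S = Set.range ξ`, and, for `i = ξ k` with `Act ξ k` (`k` is unique),
`T i G = prune (L.tr q i G) (h k G)` with
`h k G a = (Finset.range k).sup (fun j => if ξ j < ξ k then L.lr (ξ j) G (a + k) else 0)`
if `L.tr q i G` is a Laver tree, and `univ` otherwise.  `h k` is measurable with respect to `L.Bm (ξ k)`
(`measurable_lr`: only coordinates `ξ j < ξ k` occur; the condition `ξ j < ξ k` does not depend on `G`);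
`measurable_prune`, `measurable_tr`, `measurableSet_ltree`.  Laver: `prune_isStem`.
`q' ≤ q` by `le_iff_tr` (`prune_subset`), and almost everywhere on `q'` the real `L.lr (ξ k) G` is a branch
of `prune ..` (`ae_br`), so `br_prune` gives the claim.
-/

set_option autoImplicit false

namespace LM

namespace LIter

variable {J C : Type} [LinearOrder J] [WellFoundedLT J] [Preorder C] (L : LIter J C)

theorem exists_sparse (q : C) (ξ : ℕ → J) :
    ∃ q', q' ≤ q ∧ Frc q' (fun G => ∀ k, Act ξ k → ∀ j, j < k → ξ j < ξ k → ∀ i i', i < i' →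
      Isg (nd (L.tr q (ξ k) G) i) (L.lr (ξ k) G) → Isg (nd (L.tr q (ξ k) G) i') (L.lr (ξ k) G) →
      L.lr (ξ j) G (i + k) ≤ i') := by
  classical
  let κ : J → ℕ := fun i => sInf {k | ξ k = i}
  have hκ : ∀ i ∈ Set.range ξ, ξ (κ i) = i := fun i hi => Nat.sInf_mem (s := {k | ξ k = i}) hi
  have hact : ∀ k, Act ξ k → κ (ξ k) = k := by
    intro k hk
    have h1 : κ (ξ k) ≤ k := Nat.sInf_le (m := k) rfl
    rcases h1.eq_or_lt with h2 | h2
    · exact h2
    · exact absurd (hκ (ξ k) ⟨k, rfl⟩) (hk _ h2)
  let g : ℕ → Flt C → ℕ → ℕ := fun k G a =>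
    ∑ j ∈ Finset.range k, if ξ j < ξ k then L.lr (ξ j) G (a + k) else 0
  let T : J → Flt C → Set (List ℕ) := fun i G =>
    if LTree (L.tr q i G) then prune (L.tr q i G) (g (κ i) G) else Set.univ
  have hTL : ∀ i G, LTree (T i G) := by
    intro i G
    by_cases h : LTree (L.tr q i G)
    · have h1 : T i G = prune (L.tr q i G) (g (κ i) G) := if_pos h
      rw [h1]
      exact ⟨_, prune_isStem h _⟩
    · have h1 : T i G = Set.univ := if_neg h
      rw [h1]
      exact ⟨_, isStem_univ⟩
  have hm : ∀ i ∈ Set.range ξ, @Measurable _ _ (L.Bm i) _ (T i) := by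
    intro i hi
    let _ := L.Bm i
    have h1 : Measurable (L.tr q i) := L.measurable_tr q i
    have h2 : Measurable (fun G => g (κ i) G) := by
      refine measurable_pi_iff.2 fun a => ?_
      refine Finset.measurable_sum _ fun j _ => ?_
      by_cases hj : ξ j < ξ (κ i)
      · simp only [hj, if_true]
        rw [hκ i hi] at hj
        have h3 : Measurable (L.lr (ξ j)) := L.measurable_lr (ξ := (i : WithTop J))
          (WithTop.coe_lt_coe.2 hj)
        exact (measurable_pi_apply _).comp h3
      · simp only [hj, if_false]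
        exact measurable_const
    exact Measurable.ite (h1 measurableSet_ltree) (measurable_prune.comp (h1.prodMk h2))
      measurable_const
  obtain ⟨q', h1, h2⟩ := L.exists_upd q (Set.countable_range ξ) T hm
    (fun i _ => Filter.Eventually.of_forall (hTL i))
  have h3 : ∀ i ∈ Set.range ξ, ∀ᶠ G in Gen C, LTree (L.tr q i G) ∧
      L.tr q' i G = prune (L.tr q i G) (g (κ i) G) := by
    intro i hi
    filter_upwards [h1 i hi, L.ae_ltree q i] with G h4 h5
    refine ⟨h5, ?_⟩
    rw [h4]
    exact if_pos h5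
  refine ⟨q', ?_, ?_⟩
  · rw [L.le_iff_tr]
    intro i
    by_cases hi : i ∈ Set.range ξ
    · refine frc_of_ae ?_
      filter_upwards [h3 i hi] with G h4
      rw [h4.2]
      exact prune_subset _ _
    · refine frc_of_ae (Filter.Eventually.of_forall fun G => ?_)
      rw [L.tr_congr (h2 i hi)]
  · refine frc_forall fun k => ?_
    have h4 := L.ae_br q' (ξ k)
    unfold Frc
    filter_upwards [h4, h3 (ξ k) ⟨k, rfl⟩] with G h5 h6 h7 hk j hj hjk i i' hii hi hi'
    have h8 := h5 h7
    rw [h6.2, hact k hk] at h8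
    have h9 := br_prune h6.1 h8 hi hi' hii
    refine le_trans ?_ h9
    have h10 : (fun j => if ξ j < ξ k then L.lr (ξ j) G (i + k) else 0) j ≤
        ∑ j ∈ Finset.range k, (fun j => if ξ j < ξ k then L.lr (ξ j) G (i + k) else 0) j :=
      Finset.single_le_sum (f := fun j => if ξ j < ξ k then L.lr (ξ j) G (i + k) else 0)
        (fun _ _ => Nat.zero_le _) (Finset.mem_range.2 hj)
    simp only [hjk, if_true] at h10
    exact h10

end LIter

end LM
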