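import Pool.Agent.Helper18.LM.RealD
import Pool.Agent.Helper18.LM.RealE
import Pool.Agent.Helper18.LM.FusA
import Pool.Agent.Helper18.LM.CombC

/-!
# LM-X1: genericity facts at the coordinates `α < β` (about 120 lines)

`ae_lower`: for fixed `N`, `τ` the map `G ↦ zz Z Lo (P G) N τ` is measurable with respect to `L.Bm α`
(`measurable_zz`, `hP`), so `ae_cod_ne` applies; `Tau N` is finite, so there are countably many `N`, `τ`.
`ae_block`: `ae_dominate β` with `H G [] = 0` and
`H G (m :: s) = max (bf Z Lo (P G) (cod (L.lr α G)) (s.length + 1) m) (max (m + 1) (s.length + 2))`.  It is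
measurable with respect to `L.Bm β` (`Bm_mono`, `measurable_lr`, `measurable_cod`, `measurable_bf`).  With
`f = L.lr β G`: `ini f (n + 1) = f n :: ini f n`, `(ini f n).length = n`.
-/

set_option autoImplicit false

namespace LM

/-- a function dominating `r` -/
def rho (r : ℕ → ℕ) (m : ℕ) : ℕ := 1 + (Finset.range (m + 3)).sup r

theorem lt_rho (r : ℕ → ℕ) (m j : ℕ) (h : j ≤ m + 2) : r j < rho r m := by
  have h1 : r j ≤ (Finset.range (m + 3)).sup r :=
    Finset.le_sup (f := r) (Finset.mem_range.2 (by omega))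
  unfold rho
  omega

private theorem measurable_sup_range (n : ℕ) :
    Measurable (fun r : ℕ → ℕ => (Finset.range n).sup r) := by
  induction n with
  | zero =>
    simp only [Finset.range_zero, Finset.sup_empty]
    exact measurable_const
  | succ n ih =>
    simp only [Finset.range_add_one, Finset.sup_insert]
    exact (measurable_pi_apply n).sup ih

theorem measurable_rho : Measurable rho := by
  rw [measurable_pi_iff]
  intro m
  exact (measurable_sup_range (m + 3)).const_add 1

namespace LIter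

variable {J C : Type} [LinearOrder J] [Preorder C] (L : LIter J C)

theorem ae_lower {α : J} (Z : ℕ → (ℕ → ℕ) → ℕ → Bool) (Lo : Set ℕ) {P : Flt C → ℕ → ℕ → ℕ}
    (hP : @Measurable _ _ (L.Bm α) _ P) :
    ∀ᶠ G in Gen C, ∀ N, ∀ τ ∈ Tau N, ∀ m, ∃ j, m ≤ j ∧ zz Z Lo (P G) N τ j ≠ cod (L.lr α G) j := by
  rw [eventually_countable_forall]
  intro N
  rw [Filter.eventually_all_finset]
  intro τ _
  exact L.ae_cod_ne α (fun G => zz Z Lo (P G) N τ) ((measurable_zz Z Lo N τ).comp hP)

theorem ae_block {α β : J} (h : α < β) (Z : ℕ → (ℕ → ℕ) → ℕ → Bool) (Lo : Set ℕ)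
    {P : Flt C → ℕ → ℕ → ℕ} (hP : @Measurable _ _ (L.Bm α) _ P) :
    ∀ᶠ G in Gen C, ∃ n₀, ∀ n, n₀ ≤ n → n ≤ L.lr β G n ∧ L.lr β G n < L.lr β G (n + 1) ∧
      bf Z Lo (P G) (cod (L.lr α G)) (n + 1) (L.lr β G n) ≤ L.lr β G (n + 1) := by
  let H : Flt C → List ℕ → ℕ := fun G s => match s with
    | [] => 0
    | m :: s => max (bf Z Lo (P G) (cod (L.lr α G)) (s.length + 1) m) (max (m + 1) (s.length + 2))
  have hlen : ∀ (f : ℕ → ℕ) (n : ℕ), (ini f n).length = n := by
    intro f n
    induction n with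
    | zero => rfl
    | succ n ih => rw [ini, List.length_cons, ih]
  have hαβ : (α : WithTop J) < (β : WithTop J) := by exact_mod_cast h
  have hP' : @Measurable _ _ (L.Bm β) _ P := by
    intro S hS
    exact L.Bm_mono hαβ.le _ (hP hS)
  have hl : @Measurable _ _ (L.Bm β) _ (fun G => cod (L.lr α G)) :=
    measurable_cod.comp (L.measurable_lr hαβ)
  have hH : ∀ s, @Measurable _ _ (L.Bm β) _ (fun G => H G s) := by
    intro s
    let _ := L.Bm β
    cases s with
    | nil => exact measurable_const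
    | cons m s =>
      have h1 : Measurable (fun G : Flt C => (P G, cod (L.lr α G))) := hP'.prodMk hl
      have h2 : Measurable (fun G => bf Z Lo (P G) (cod (L.lr α G)) (s.length + 1) m) :=
        (measurable_bf Z Lo (s.length + 1) m).comp h1
      exact h2.max measurable_const
  filter_upwards [L.ae_dominate β H hH] with G hG
  obtain ⟨N, hN⟩ := hG
  have hstep : ∀ n, N ≤ n → bf Z Lo (P G) (cod (L.lr α G)) (n + 1) (L.lr β G n) ≤ L.lr β G (n + 1) ∧
      L.lr β G n + 1 ≤ L.lr β G (n + 1) ∧ n + 2 ≤ L.lr β G (n + 1) := by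
    intro n hn
    have h1 := hN (n + 1) (by omega)
    have h2 : H G (ini (L.lr β G) (n + 1)) = max (bf Z Lo (P G) (cod (L.lr α G)) (n + 1)
        (L.lr β G n)) (max (L.lr β G n + 1) (n + 2)) := by
      change max (bf Z Lo (P G) (cod (L.lr α G)) ((ini (L.lr β G) n).length + 1) (L.lr β G n))
        (max (L.lr β G n + 1) ((ini (L.lr β G) n).length + 2)) = _
      rw [hlen]
    rw [h2] at h1
    exact ⟨(le_max_left _ _).trans h1, (le_max_left _ _).trans ((le_max_right _ _).trans h1),
      (le_max_right _ _).trans ((le_max_right _ _).trans h1)⟩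
  refine ⟨N + 1, fun n hn => ?_⟩
  obtain ⟨h1, h2, _⟩ := hstep n (by omega)
  obtain ⟨k, rfl⟩ : ∃ k, n = k + 1 := ⟨n - 1, by omega⟩
  obtain ⟨_, _, h3⟩ := hstep k (by omega)
  exact ⟨by omega, by omega, h1⟩

end LIter

end LM
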