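import Pool.Agent.Helper18.LM.XA

/-!
# LM-X2: genericity facts at the upper coordinates (about 80 lines)

`ae_upper`: `ae_dominate γ` with `H G s = Hn (L.tr q γ G) (rho (L.lr β G)) s` (measurable with respect to
`L.Bm γ`: `measurable_Hn`, `measurable_tr`, `measurable_rho`, `measurable_lr`), and `index_of_fast`
(`ae_ltree`, `ae_br`).
`ae_first`: `ae_dominate γ` with `H G s = rho (L.lr β G) s.length` (`ini_length`).
-/

set_option autoImplicit false

namespace LM

namespace LIter

variable {J C : Type} [LinearOrder J] [Preorder C] (L : LIter J C)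

theorem ae_upper {β γ : J} (h : β < γ) (q : C) :
    ∀ᶠ G in Gen C, q ∈ G.S → ∃ i₀, ∀ i i', i₀ ≤ i → i < i' → Isg (nd (L.tr q γ G) i) (L.lr γ G) →
      Isg (nd (L.tr q γ G) i') (L.lr γ G) → rho (L.lr β G) i ≤ i' := by
  have hm : ∀ s, @Measurable _ _ (L.Bm γ) _ (fun G => Hn (L.tr q γ G) (rho (L.lr β G)) s) := by
    intro s
    let _ := L.Bm γ
    have h1 : Measurable (L.tr q γ) := L.measurable_tr q γ
    have h2 : Measurable (L.lr β) := L.measurable_lr (WithTop.coe_lt_coe.2 h)
    exact (measurable_Hn s).comp (h1.prodMk (measurable_rho.comp h2))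
  filter_upwards [L.ae_dominate γ (fun G s => Hn (L.tr q γ G) (rho (L.lr β G)) s) hm,
    L.ae_ltree q γ, L.ae_br q γ] with G hd ht hb hq
  obtain ⟨N, hN⟩ := hd
  exact index_of_fast ht (hb hq) (rho (L.lr β G)) N hN

theorem ae_first {β γ : J} (h : β < γ) :
    ∀ᶠ G in Gen C, ∃ N₀, ∀ n, N₀ ≤ n → rho (L.lr β G) n ≤ L.lr γ G n := by
  have hm : ∀ s : List ℕ, @Measurable _ _ (L.Bm γ) _ (fun G => rho (L.lr β G) s.length) := by
    intro s
    let _ := L.Bm γ
    have h2 : Measurable (L.lr β) := L.measurable_lr (WithTop.coe_lt_coe.2 h)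
    exact (measurable_pi_apply s.length).comp (measurable_rho.comp h2)
  filter_upwards [L.ae_dominate γ (fun G s => rho (L.lr β G) s.length) hm] with G hd
  obtain ⟨N, hN⟩ := hd
  refine ⟨N, fun n hn => ?_⟩
  have h1 := hN n hn
  rw [ini_length] at h1
  exact h1

end LIter

end LM
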