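import Pool.Agent.Helper18.LM.XB
import Pool.Agent.Helper18.LM.WD
import Pool.Agent.Helper18.LM.CombA
import Pool.Agent.Helper18.LM.CombB

/-!
# LM-X3: a real read from positions of coordinates outside `[α, β]` (about 150 lines)

`Lo = {k | Act ξ k ∧ ξ k < α}`, `Up = {k | Act ξ k ∧ β < ξ k}`,
`Q G N k = pos (L.tr q (ξ k) G) N (L.lr (ξ k) G)`, `P G N k = Q G N k` if `k ∈ Lo` and `0` otherwise
(measurable with respect to `L.Bm α`: `measurable_pos_lr`, `measurable_pi_iff`).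
By `hξ` the vector of the reading is `vv Lo (P G) N (tv Up (Q G) N)`.
`On G k i := Isg (nd (L.tr q (ξ k) G) i) (L.lr (ξ k) G)`.

Almost everywhere: `ae_lower`, `ae_block`; for all `k ∈ Up` (countably many) `ae_upper` with `γ = ξ k`;
if `Up` is nonempty, for `γ₀ = ξ c₀` the minimum of `{ξ k | k ∈ Up}` (well-founded), `ae_first`; for
all `k`: `L.tr q (ξ k) G` is a Laver tree (`ae_ltree`), of which `L.lr (ξ k) G` is a branch if `q ∈ G.S`.

Pointwise at such a `G`: `comb_count` with `r = L.lr β G`, `ρ = rho r`, `On G`, `Q G`: `hQ0`: if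
`pos .. ≠ 0` then the canonical node with this index is on the real (`isg_pos`), `pos ≤ N` (`pos_le`);
`hQ`: `pos_succ_of_not`; `hρ`: `lt_rho`; `hr`: `ae_block`; `h2`: `ae_upper`;
`h3`: if `Up` is empty take `k₀ = 0`; otherwise let `N₀` be from `ae_first` and `k₀ = max (c₀ + 1) N₀`; for
`k ∈ Up`, `k ≥ k₀`: `ξ c₀ ≤ ξ k` by minimality and `ξ c₀ ≠ ξ k` by `Act ξ k` and `c₀ < k`; so the sparseness
hypothesis with `j = c₀` gives `L.lr (ξ c₀) G (i + k) ≤ i'`, and `rho r (i + k) ≤ L.lr (ξ c₀) G (i + k)`;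
`h4`: `nd_zero`, `Br.isg_stem`.
Then `comb_main` for all large `n` (`hx`: the reading, `hz`: `ae_lower`, `hQ`: `pos_le`).
-/

set_option autoImplicit false

namespace LM

/-- on almost all blocks `[r n, r (n + 1))` the real `x` differs from `c` -/
def Dif (r : ℕ → ℕ) (c x : ℕ → Bool) : Prop :=
  ∃ n₀, ∀ n, n₀ ≤ n → ∃ i, r n ≤ i ∧ i < r (n + 1) ∧ x i ≠ c i

namespace LIter

variable {J C : Type} [LinearOrder J] [WellFoundedLT J] [Preorder C] (L : LIter J C)

open Classical in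
theorem ae_dif {α β : J} (h : α < β) (q : C) (ξ : ℕ → J) (Z : ℕ → (ℕ → ℕ) → ℕ → Bool)
    (hξ : ∀ k, ξ k < α ∨ β < ξ k) :
    ∀ᶠ G in Gen C, q ∈ G.S →
      (∀ k, Act ξ k → ∀ j, j < k → ξ j < ξ k → ∀ i i', i < i' →
        Isg (nd (L.tr q (ξ k) G) i) (L.lr (ξ k) G) → Isg (nd (L.tr q (ξ k) G) i') (L.lr (ξ k) G) →
        L.lr (ξ j) G (i + k) ≤ i') →
      ∀ x : ℕ → Bool, (∀ N i, i < N → x i =
        Z N (fun k => if Act ξ k ∧ k < N then pos (L.tr q (ξ k) G) N (L.lr (ξ k) G) else 0) i) →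
      Dif (L.lr β G) (cod (L.lr α G)) x := by
  classical
  let Lo : Set ℕ := {k | Act ξ k ∧ ξ k < α}
  let Up : Set ℕ := {k | Act ξ k ∧ β < ξ k}
  let Q : Flt C → ℕ → ℕ → ℕ := fun G N k => pos (L.tr q (ξ k) G) N (L.lr (ξ k) G)
  let P : Flt C → ℕ → ℕ → ℕ := fun G N k => if ξ k < α then Q G N k else 0
  have hP : @Measurable _ _ (L.Bm α) _ P := by
    let _ := L.Bm α
    refine measurable_pi_iff.2 fun N => measurable_pi_iff.2 fun k => ?_
    by_cases hk : ξ k < α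
    · have h1 := L.measurable_pos_lr (WithTop.coe_lt_coe.2 hk) q N
      simpa only [P, Q, hk, if_true] using h1
    · simpa only [P, hk, if_false] using measurable_const
  have h1 := L.ae_lower (α := α) Z Lo hP
  have h2 := L.ae_block h Z Lo hP
  have h3 : ∀ᶠ G in Gen C, ∀ k, β < ξ k → q ∈ G.S → ∃ i₀, ∀ i i', i₀ ≤ i → i < i' →
      Isg (nd (L.tr q (ξ k) G) i) (L.lr (ξ k) G) →
      Isg (nd (L.tr q (ξ k) G) i') (L.lr (ξ k) G) → rho (L.lr β G) i ≤ i' := by
    refine eventually_countable_forall.2 fun k => ?_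
    by_cases hk : β < ξ k
    · filter_upwards [L.ae_upper hk q] with G hG _
      exact hG
    · exact Filter.Eventually.of_forall fun G hG => absurd hG hk
  have h4 : ∀ᶠ G in Gen C, ∀ k, β < ξ k → ∃ N₀, ∀ n, N₀ ≤ n →
      rho (L.lr β G) n ≤ L.lr (ξ k) G n := by
    refine eventually_countable_forall.2 fun k => ?_
    by_cases hk : β < ξ k
    · filter_upwards [L.ae_first hk] with G hG _
      exact hG
    · exact Filter.Eventually.of_forall fun G hG => absurd hG hk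
  have h5 : ∀ᶠ G in Gen C, ∀ k, LTree (L.tr q (ξ k) G) :=
    eventually_countable_forall.2 fun k => L.ae_ltree q (ξ k)
  have h6 : ∀ᶠ G in Gen C, ∀ k, q ∈ G.S → Br (L.tr q (ξ k) G) (L.lr (ξ k) G) :=
    eventually_countable_forall.2 fun k => L.ae_br q (ξ k)
  filter_upwards [h1, h2, h3, h4, h5, h6] with G g1 g2 g3 g4 g5 g6 hq hsp x hx
  obtain ⟨n₀, hn₀⟩ := g2
  have hx' : ∀ N i, i < N → x i = Z N (vv Lo (P G) N (tv Up (Q G) N)) i := by
    intro N i hi
    rw [hx N i hi]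
    congr 1
    funext k
    unfold vv tv
    by_cases hA : Act ξ k ∧ k < N
    · rw [if_pos hA]
      by_cases hk : ξ k < α
      · have hm : k ∈ Lo ∧ k < N := ⟨⟨hA.1, hk⟩, hA.2⟩
        rw [if_pos hm]
        show _ = if ξ k < α then Q G N k else 0
        rw [if_pos hk]
      · have hm : ¬ (k ∈ Lo ∧ k < N) := fun hm => hk hm.1.2
        have hu : k ∈ Up ∧ k < N := ⟨⟨hA.1, (hξ k).resolve_left hk⟩, hA.2⟩
        rw [if_neg hm, if_pos hu]
    · have hm : ¬ (k ∈ Lo ∧ k < N) := fun hm => hA ⟨hm.1.1, hm.2⟩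
      have hu : ¬ (k ∈ Up ∧ k < N) := fun hm => hA ⟨hm.1.1, hm.2⟩
      rw [if_neg hA, if_neg hm, if_neg hu]
  have hQ : ∀ N k, Q G N k ≤ N := fun N k => pos_le _ _ _
  have h7 := comb_count (Up := Up) (Q := Q G) (r := L.lr β G) (ρ := rho (L.lr β G))
    (On := fun k i => Isg (nd (L.tr q (ξ k) G) i) (L.lr (ξ k) G))
    (fun k _ N hN => ⟨Q G N k, Nat.pos_of_ne_zero hN, hQ N k, isg_pos (g5 k) (g6 k hq) N⟩)
    (fun k _ N hN => by
      by_contra hcon
      exact hN (pos_succ_of_not hcon))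
    (fun m j hj => lt_rho _ m j hj)
    ⟨n₀, fun n hn => ⟨(hn₀ n hn).1, (hn₀ n hn).2.1⟩⟩
    (fun k hk => g3 k hk.2 hq)
    (by
      rcases Set.eq_empty_or_nonempty Up with he | hne
      · refine ⟨0, fun k hk => ?_⟩
        rw [he] at hk
        exact absurd hk (Set.notMem_empty k)
      · obtain ⟨γ₀, ⟨c₀, hc₀, rfl⟩, hmin⟩ := WellFounded.has_min (wellFounded_lt (α := J))
          (ξ '' Up) (hne.image ξ)
        obtain ⟨N₀, hN₀⟩ := g4 c₀ hc₀.2
        refine ⟨max (c₀ + 1) N₀, fun k hk hk' i i' hi ho ho' => ?_⟩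
        have h8 : c₀ < k := lt_of_lt_of_le (Nat.lt_succ_self c₀) ((le_max_left _ _).trans hk')
        have h9 : ξ c₀ < ξ k := lt_of_le_of_ne (not_lt.1 (hmin _ ⟨k, hk, rfl⟩)) (hk.1 c₀ h8)
        refine (hN₀ (i + k) ?_).trans (hsp k hk.1 c₀ h8 h9 i i' hi ho ho')
        exact ((le_max_right _ _).trans hk').trans (Nat.le_add_left k i))
    (fun k _ => by
      show Isg (nd (L.tr q (ξ k) G) 0) (L.lr (ξ k) G)
      rw [nd_zero]
      exact (g6 k hq).isg_stem (g5 k))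
  obtain ⟨n₁, hn₁⟩ := h7
  refine ⟨max n₀ n₁, fun n hn => ?_⟩
  exact comb_main hx' g1 hQ n (hn₀ n ((le_max_left _ _).trans hn)).2.2
    (hn₁ n ((le_max_right _ _).trans hn))

end LIter

end LM
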