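import Pool.Agent.Helper18.LM.XC

/-!
# LM-X4: every real lies in all but countably many of the meager sets (about 60 lines)

By `reading` there are `q₀ ≤ p`, `ξ`, `Z`; by `exists_sparse` for `q₀` there is `q ≤ q₀`.  Let
`a : ℕ → J` enumerate the countable set `Set.range ξ ∪ {α | ∃ k, α < ξ k ∧ ∀ γ, α < γ → ξ k ≤ γ}` (for every
`k` at most one such `α`).  If `α` is not in this set and `β` is its successor then for every `k`:
`ξ k < α` or `β < ξ k`: otherwise `α ≤ ξ k ≤ β`, and `ξ k ≠ α`, so `β ≤ ξ k`, so `ξ k = β`, excluded.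
Apply `ae_dif` for `q₀`.
-/

set_option autoImplicit false

namespace LM

namespace LIter

variable {J C : Type} [LinearOrder J] [WellFoundedLT J] [Preorder C] (L : LIter J C)

theorem main_dif [Nonempty J] {x : Flt C → ℕ → Bool} (hx : @Measurable _ _ (L.Bm ⊤) _ x) (p : C) :
    ∃ q, q ≤ p ∧ ∃ a : ℕ → J, ∀ α β : J, α ∉ Set.range a → α < β → (∀ γ, α < γ → β ≤ γ) →
      Frc q (fun G => Dif (L.lr β G) (cod (L.lr α G)) (x G)) := by
  obtain ⟨q₀, hq₀, ξ, Z, hZ⟩ := L.reading hx p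
  obtain ⟨q, hq, hsp⟩ := L.exists_sparse q₀ ξ
  refine ⟨q, hq.trans hq₀, ?_⟩
  have hS : (Set.range ξ ∪ ⋃ k, {α | α < ξ k ∧ ∀ γ, α < γ → ξ k ≤ γ}).Countable := by
    refine (Set.countable_range ξ).union (Set.countable_iUnion fun k => ?_)
    refine Set.Subsingleton.countable fun α hα α' hα' => ?_
    rcases lt_trichotomy α α' with h | h | h
    · exact absurd (hα.2 α' h) (not_le.2 hα'.1)
    · exact h
    · exact absurd (hα'.2 α h) (not_le.2 hα.1)
  obtain ⟨a, ha⟩ := hS.exists_eq_range ⟨ξ 0, Or.inl ⟨0, rfl⟩⟩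
  refine ⟨a, fun α β hα hαβ hβ => ?_⟩
  rw [← ha] at hα
  have hξ : ∀ k, ξ k < α ∨ β < ξ k := by
    intro k
    by_contra hcon
    push Not at hcon
    obtain ⟨h1, h2⟩ := hcon
    have h3 : α ≠ ξ k := fun h => hα (Or.inl ⟨k, h.symm⟩)
    have h4 : α < ξ k := lt_of_le_of_ne h1 h3
    have h5 : ξ k = β := le_antisymm h2 (hβ _ h4)
    refine hα (Or.inr (Set.mem_iUnion.2 ⟨k, h4, ?_⟩))
    rw [h5]
    exact hβ
  have h := L.ae_dif hαβ q₀ ξ Z hξ
  unfold Frc at *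
  filter_upwards [h, hZ, hsp] with G h1 h2 h3 hqG
  exact h1 (G.up hqG hq) (h3 hqG) (x G) (h2 (G.up hqG hq))

end LIter

end LM
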