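import Pool.Agent.Helper18.LM.Meas

/-!
# LM-Y1: names and functions on the space of filters (about 200 lines)

`x.ev G n` is the value at `n` of the function named by `x`, for the filter `G`.
`ae_ev`: `Nm.total` says that `{r | ∃ a, r ∈ x.val n a}` is predense (`ae_of_dense` or `ae_mts` for its
downward closure); `mts_unique` by `Nm.uniq` and `G.dir`.
`vl_iff`: `frc_mts` and `ae_ev`, `mts_unique`.
`dcd_ev`: `Pj.dcd_mts` for the projection `id` (`Pj id` is trivial), or directly.
`feq_iff`: `→`: given `q ≤ p`; by `frc_of_dense` and `frc_forall` it suffices that `p` forces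
`x.ev G n = y.ev G n`; given `q ≤ p`, extend it to `r` deciding `x.ev G n = a` (`Nm.total`); then `Vl x n a r`,
so `Vl y n a r`.  `←`: `vl_iff`.
`fmem_iff`: `→`: density; for given `k` extend conditions to decide both values.  `←`: given
`q ≤ p`, `q` forces `∃ N, ∀ k ≥ N, ..`, so some `r ≤ q` and some `N` are such that `r` forces
`∀ k ≥ N, ..` (otherwise, the statement being decided, `q` forces its negation for every `N`; or: use
`frc_exists` and a countable union argument); if `c ≤ r`, `Vl y k a c`, `Vl s k F c` then `a ∈ F` by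
`frc_exists`.
`exists_nm`: `val n a = {c | Frc c (fun G => y G n = a)}`; total by `Pj.decide` for `id` (countable `A`);
uniqueness by `frc_exists`.
-/

set_option autoImplicit false

namespace LM

variable {C : Type} [Preorder C] {A : Type}

open Classical in
/-- the function named by `x` -/
noncomputable def Nm.ev [Inhabited A] (x : Nm C A) (G : Flt C) (n : ℕ) : A :=
  if h : ∃ a, Mts (x.val n a) G then h.choose else default

theorem pj_id : Pj (id : C → C) :=
  ⟨fun p => le_refl p, fun _ _ h => h, fun _ => rfl, fun _ q _ hqp => ⟨q, hqp, le_refl q, rfl⟩⟩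

theorem Nm.mts_unique (x : Nm C A) {G : Flt C} {n : ℕ} {a b : A} (ha : Mts (x.val n a) G)
    (hb : Mts (x.val n b) G) : a = b := by
  obtain ⟨q, hq, hqG⟩ := ha
  obtain ⟨q', hq', hqG'⟩ := hb
  obtain ⟨r, _, h1, h2⟩ := G.dir hqG hqG'
  exact x.uniq n a b q hq q' hq' r h1 h2

theorem Nm.ae_ev [Inhabited A] (x : Nm C A) : ∀ᶠ G in Gen C, ∀ n, Mts (x.val n (x.ev G n)) G := by
  rw [eventually_countable_forall]
  intro n
  have h1 : ∀ᶠ G in Gen C, ∃ a, Mts (x.val n a) G := by
    refine ae_of_dense fun q => ?_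
    obtain ⟨r, hr, a, s, hs, hrs⟩ := x.total n q
    exact ⟨r, hr, Filter.Eventually.of_forall fun G hG => ⟨a, s, hs, G.up hG hrs⟩⟩
  filter_upwards [h1] with G hG
  unfold Nm.ev
  rw [dif_pos hG]
  exact hG.choose_spec

private theorem ya_iff [Inhabited A] (x : Nm C A) (n : ℕ) (a : A) :
    ∀ᶠ G in Gen C, Mts (x.val n a) G ↔ x.ev G n = a := by
  filter_upwards [x.ae_ev] with G hG
  constructor
  · intro h
    exact x.mts_unique (hG n) h
  · intro h
    rw [← h]
    exact hG n

theorem vl_iff [Inhabited A] (x : Nm C A) (n : ℕ) (a : A) (p : C) :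
    Vl x n a p ↔ Frc p (fun G => x.ev G n = a) := by
  unfold Vl
  rw [← frc_mts]
  constructor
  · intro h
    exact h.mp (frc_of_ae ((ya_iff x n a).mono fun G h1 => h1.1))
  · intro h
    exact h.mp (frc_of_ae ((ya_iff x n a).mono fun G h1 => h1.2))

theorem Nm.dcd_ev [Inhabited A] (x : Nm C A) (n : ℕ) (a : A) : Dcd id (fun G => x.ev G n = a) :=
  Pj.dcd_congr (pj_id.dcd_mts (A := x.val n a) fun _ _ => rfl) (ya_iff x n a)

private theorem ya_vl (x : Nm C A) (n : ℕ) (q : C) : ∃ r, r ≤ q ∧ ∃ a, Vl x n a r := by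
  obtain ⟨r, hr, a, s, hs, hrs⟩ := x.total n q
  exact ⟨r, hr, a, fun c _ hc => ⟨c, trivial, le_refl c, s, hs, hc.trans hrs⟩⟩

private theorem ya_anti {x : Nm C A} {n : ℕ} {a : A} {p q : C} (h : Vl x n a p) (hq : q ≤ p) :
    Vl x n a q := fun r hr hrq => h r hr (hrq.trans hq)

theorem feq_iff [Inhabited A] (x y : Nm C A) (p : C) :
    FEq x y p ↔ Frc p (fun G => x.ev G = y.ev G) := by
  constructor
  · intro h
    have key : ∀ n, Frc p (fun G => x.ev G n = y.ev G n) := by
      intro n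
      refine frc_of_dense fun q hq => ?_
      obtain ⟨r, hr, a, ha⟩ := ya_vl x n q
      have hb := (h n a r (hr.trans hq)).1 ha
      rw [vl_iff] at ha hb
      exact ⟨r, hr, (ha.and hb).mono (le_refl r) fun G h1 => h1.1.trans h1.2.symm⟩
    exact (frc_forall key).mono (le_refl p) fun G h1 => funext h1
  · intro h n a q hq
    rw [vl_iff, vl_iff]
    constructor
    · intro h1
      exact (h1.and (h.anti hq)).mono (le_refl q) fun G h2 => by rw [← h2.2]; exact h2.1
    · intro h1
      exact (h1.and (h.anti hq)).mono (le_refl q) fun G h2 => by rw [h2.2]; exact h2.1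

private theorem ya_dcd (y : Nm C ℕ) (s : Nm C (Finset ℕ)) (N : ℕ) :
    Dcd id (fun G => ∀ k, N ≤ k → y.ev G k ∈ s.ev G k) := by
  have h1 : ∀ k, Dcd id (fun G => N ≤ k ∧ ¬ y.ev G k ∈ s.ev G k) := by
    intro k p _
    obtain ⟨r, hr, a, ha⟩ := ya_vl y k p
    obtain ⟨r', hr', F, hF⟩ := ya_vl s k r
    have ha' := ya_anti ha hr'
    rw [vl_iff] at ha' hF
    refine ⟨r', rfl, hr'.trans hr, ?_⟩
    by_cases h : N ≤ k ∧ ¬ a ∈ F
    · left
      exact (ha'.and hF).mono (le_refl r') fun G h2 => by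
        change N ≤ k ∧ ¬ y.ev G k ∈ s.ev G k
        rw [h2.1, h2.2]
        exact h
    · right
      exact (ha'.and hF).mono (le_refl r') fun G h2 => by
        change ¬ (N ≤ k ∧ ¬ y.ev G k ∈ s.ev G k)
        rw [h2.1, h2.2]
        exact h
  have h2 := Pj.dcd_not (pj_id.dcd_exists h1)
  refine Pj.dcd_congr h2 (Filter.Eventually.of_forall fun G => ?_)
  push Not
  rfl

theorem fmem_iff (y : Nm C ℕ) (s : Nm C (Finset ℕ)) (p : C) :
    FMem y s p ↔ Frc p (fun G => ∃ N, ∀ k, N ≤ k → y.ev G k ∈ s.ev G k) := by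
  constructor
  · intro h
    refine frc_of_dense fun q hq => ?_
    obtain ⟨r, hr, N, hN⟩ := h q hq
    refine ⟨r, hr, ?_⟩
    have key : ∀ k, Frc r (fun G => N ≤ k → y.ev G k ∈ s.ev G k) := by
      intro k
      by_cases hk : N ≤ k
      · refine frc_of_dense fun c hc => ?_
        obtain ⟨c₁, hc₁, a, ha⟩ := ya_vl y k c
        obtain ⟨c₂, hc₂, F, hF⟩ := ya_vl s k c₁
        have ha' := ya_anti ha hc₂
        have h1 := hN k hk c₂ (hc₂.trans (hc₁.trans hc)) a F ha' hF
        rw [vl_iff] at ha' hF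
        exact ⟨c₂, hc₂.trans hc₁, (ha'.and hF).mono (le_refl c₂) fun G h2 _ => by
          rw [h2.1, h2.2]; exact h1⟩
      · exact Filter.Eventually.of_forall fun G _ h1 => absurd h1 hk
    exact (frc_forall key).mono (le_refl r) fun G h1 => ⟨N, h1⟩
  · intro h q hq
    obtain ⟨r, hr, N, hN⟩ : ∃ r, r ≤ q ∧ ∃ N, Frc r (fun G => ∀ k, N ≤ k → y.ev G k ∈ s.ev G k) := by
      by_contra hc
      push Not at hc
      have h1 : ∀ N, Frc q (fun G => ¬ ∀ k, N ≤ k → y.ev G k ∈ s.ev G k) := by
        intro N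
        refine frc_of_dense fun r hr => ?_
        obtain ⟨r', _, hr', h2 | h2⟩ := ya_dcd y s N r rfl
        · exact absurd h2 (hc r' (hr'.trans hr) N)
        · exact ⟨r', hr', h2⟩
      have h2 := frc_forall h1
      refine frc_absurd (h.anti hq) (h2.mono (le_refl q) fun G h3 h4 => ?_)
      obtain ⟨N, hN⟩ := h4
      exact h3 N hN
    refine ⟨r, hr, N, fun k hk c hc a F ha hF => ?_⟩
    rw [vl_iff] at ha hF
    obtain ⟨G, _, h1⟩ := frc_exists ((ha.and hF).and (hN.anti hc))
    have h2 := h1.2 k hk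
    rw [h1.1.1, h1.1.2] at h2
    exact h2

/-- `p` forces that `x` is in the intersection of the open sets -/
theorem FMeet.frc {x : Nm C ℕ} {U : ℕ → List ℕ → Set C} {p : C} (h : FMeet x U p) :
    Frc p (fun G => ∀ k, ∃ s : List ℕ, Mts (U k s) G ∧ ∀ (i : ℕ) (hi : i < s.length), x.ev G i = s[i]) := by
  refine frc_forall fun k => frc_of_dense fun q hq => ?_
  obtain ⟨r, hr, s, h1, h2⟩ := h k q hq
  refine ⟨r, hr, ?_⟩
  have h3 : Frc r (Mts (U k s)) := frc_mts.2 h1
  have h4 : ∀ i, Frc r (fun G => ∀ hi : i < s.length, x.ev G i = s[i]) := by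
    intro i
    by_cases hi : i < s.length
    · have h5 := (vl_iff x i s[i] r).1 (h2 i hi)
      exact h5.mono (le_refl r) fun G h6 _ => h6
    · exact Filter.Eventually.of_forall fun G _ h5 => absurd h5 hi
  exact (h3.and (frc_forall h4)).mono (le_refl r) fun G h5 => ⟨s, h5.1, fun i hi => h5.2 i hi⟩

theorem exists_nm [Inhabited A] [Countable A] {y : Flt C → ℕ → A}
    (hy : ∀ n a, Dcd id (fun G => y G n = a)) :
    ∃ x : Nm C A, (∀ᶠ G in Gen C, x.ev G = y G) ∧
      ∀ n a, x.val n a = {c | Frc c (fun G => y G n = a)} := by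
  let x : Nm C A :=
    { val := fun n a => {c | Frc c (fun G => y G n = a)}
      total := fun n p => by
        obtain ⟨q, _, hq, a, ha⟩ := pj_id.decide (f := fun G => y G n) (hy n) (p := p) rfl
        exact ⟨q, hq, a, q, ha, le_refl q⟩
      uniq := fun n a b p hp q hq r hrp hrq => by
        obtain ⟨G, _, h1⟩ := frc_exists ((Frc.anti hp hrp).and (Frc.anti hq hrq))
        exact h1.1.symm.trans h1.2 }
  refine ⟨x, ?_, fun n a => rfl⟩
  have h1 : ∀ᶠ G in Gen C, ∀ n, ∀ a,
      (y G n = a ↔ Mts {c | id c = c ∧ Frc c (fun G => y G n = a)} G) := by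
    rw [eventually_countable_forall]
    intro n
    rw [eventually_countable_forall]
    intro a
    exact pj_id.ae_iff_frc (hy n a)
  filter_upwards [h1, x.ae_ev] with G h2 h3
  funext n
  obtain ⟨c, hc, hcG⟩ := h3 n
  exact ((h2 n (x.ev G n)).2 ⟨c, ⟨rfl, hc⟩, hcG⟩).symm

end LM
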