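import Pool.Agent.Helper18.LM.YA

/-!
# LM-Y2: the capturing function (about 250 lines)

Fix a well-order on the type of names `Nm C ℕ` (`WellOrderingRel` or `IsWellOrder` of
`exists_wellOrder`).

(1) For every name `x` let `DD x` be the set of all `q` for which there is a (unique) name `y` such
that `q` forces `x = y` (`FEq x y q`) and no `r ≤ q` forces `x = y'` for any `y'` preceding `y`.  `DD x` is
dense: given `p` take the least `y` such that some `q ≤ p` forces `x = y`; and open (downward closed),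
with the same `y`.  So for almost every `G` there is `q ∈ G.S ∩ DD x`, and `y` does not depend on the
choice of `q`: `rep x G := y`.
(2) For every name `y` choose a maximal antichain `AA y` of conditions `q` as in `h` for `y`, i.e. for
which there is `a : ℕ → J` such that `q` forces `X α G (y.ev G)` for all `α ∉ Set.range a`; for
`q ∈ AA y` choose such an `a q`.  Almost every `G` contains exactly one `q ∈ AA y` (predense by `h`).
(3) For `x`, `G` let `y = rep x G`, `q ∈ G.S ∩ AA y`, and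
`s x G n := ((Finset.range n).image (fun m => (f (a q m) y).ev G n))`, a finite set with at most `n` elements
(for the null set of `G` without `y` or `q` take `∅`).
For fixed `n`, `F` the statement `s x G n = F` is decided: given `p`, extend it to `p' ∈ DD x` with the name
`y`, and further to `p'' ≤ q ∈ AA y`; below `p''` almost everywhere `rep x G = y` and the element of
`AA y ∩ G.S` is `q`; then decide the numbers `(f (a q m) y).ev G n`, `m < n` (`Nm.dcd_ev`).
Let `g x` be the name of `s x` (`exists_nm`): `IsSlalom (g x)`, because every condition forcing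
`s x G n = F` has a `G` with `s x G n = F` (`frc_exists`).
(4) `g` is extensional: let `FEq x x' p`, show that `p` forces `(g x).ev G = (g x').ev G` (`feq_iff`).  By
`frc_of_dense`: below `p` extend to `q ∈ DD x` with `y`; then `q` forces `x' = y` and no `r ≤ q` forces
`x' = y'` with `y'` before `y`, so `q ∈ DD x'` with the same `y`.  So `rep x G = rep x' G` for almost all
`G` containing `q`, and `s x G = s x' G`.
(5) Given `α`, `x`, `p` such that `p` forces `¬ X α G (x.ev G)`.  By `frc_of_dense` (and `fmem_iff`) let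
`q ≤ p`; extend it to `q' ∈ DD x` with `y` and to `q'' ≤ b ∈ AA y`.  If `α ∉ Set.range (a b)` then `q''` forces
`X α G (y.ev G)` and `x.ev G = y.ev G`, contradiction (`frc_exists`).  So `α = a b m`; `q''` forces
`(f α x).ev G = (f α y).ev G` (extensionality) and, for all `n > m`,
`(f α y).ev G n ∈ s x G n = (g x).ev G n`.
-/

set_option autoImplicit false

namespace LM

variable {C : Type} [Preorder C]

/-- `t` is the least witness at `q`: `Q t q`, and no extension of `q` has an earlier witness -/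
def LW {T : Type*} (Q : T → C → Prop) (t : T) (q : C) : Prop :=
  Q t q ∧ ∀ t', WellOrderingRel t' t → ∀ r ≤ q, ¬ Q t' r

theorem LW.anti {T : Type*} {Q : T → C → Prop} (hdown : ∀ t p q, Q t p → q ≤ p → Q t q) {t : T}
    {q r : C} (h : LW Q t q) (hr : r ≤ q) : LW Q t r :=
  ⟨hdown t q r h.1 hr, fun t' ht' r' hr' => h.2 t' ht' r' (hr'.trans hr)⟩

theorem LW.unique {T : Type*} {Q : T → C → Prop} (hdown : ∀ t p q, Q t p → q ≤ p → Q t q) {t t' : T}
    {p q r : C} (h : LW Q t p) (h' : LW Q t' q) (hp : r ≤ p) (hq : r ≤ q) : t = t' := by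
  by_contra hne
  rcases trichotomous_of WellOrderingRel t t' with h1 | h1 | h1
  · exact h'.2 t h1 r hq (hdown t p r h.1 hp)
  · exact hne h1
  · exact h.2 t' h1 r hp (hdown t' q r h'.1 hq)

theorem LW.dense {T : Type*} {Q : T → C → Prop} (hd : ∀ p, ∃ q, q ≤ p ∧ ∃ t, Q t q) (p : C) :
    ∃ q, q ≤ p ∧ ∃ t, LW Q t q := by
  have hne : {t | ∃ q, q ≤ p ∧ Q t q}.Nonempty := by
    obtain ⟨q, hq, t, ht⟩ := hd p
    exact ⟨t, q, hq, ht⟩
  have wf : WellFounded (WellOrderingRel : T → T → Prop) := IsWellFounded.wf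
  obtain ⟨q, hq, ht⟩ := wf.min_mem {t | ∃ q, q ≤ p ∧ Q t q} hne
  refine ⟨q, hq, wf.min _ hne, ht, fun t' ht' r hr hQ => ?_⟩
  exact wf.not_lt_min {t | ∃ q, q ≤ p ∧ Q t q} ⟨r, hr.trans hq, hQ⟩ ht'

theorem FEq.refl {A : Type} (x : Nm C A) (p : C) : FEq x x p := fun _ _ _ _ => Iff.rfl

theorem FEq.symm {A : Type} {x y : Nm C A} {p : C} (h : FEq x y p) : FEq y x p :=
  fun n a q hq => (h n a q hq).symm

theorem FEq.trans {A : Type} {x y z : Nm C A} {p : C} (h : FEq x y p) (h' : FEq y z p) :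
    FEq x z p := fun n a q hq => (h n a q hq).trans (h' n a q hq)

theorem FEq.anti {A : Type} {x y : Nm C A} {p q : C} (h : FEq x y p) (hq : q ≤ p) : FEq x y q :=
  fun n a r hr => h n a r (hr.trans hq)

theorem LW.feq_congr {x x' y : Nm C ℕ} {q : C} (h : FEq x x' q)
    (hy : LW (fun (y : Nm C ℕ) q => FEq x y q) y q) :
    LW (fun (y : Nm C ℕ) q => FEq x' y q) y q :=
  ⟨h.symm.trans hy.1, fun t' ht' r hr hc => hy.2 t' ht' r hr ((h.anti hr).trans hc)⟩

section Capture

variable {J : Type} (f : J → Nm C ℕ → Nm C ℕ) (X : J → Flt C → (ℕ → ℕ) → Prop)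

/-- the good codes `a` for the name `y` -/
def Q2 (y : Nm C ℕ) (a : ℕ → J) (q : C) : Prop :=
  ∀ α, α ∉ Set.range a → Frc q (fun G => X α G (y.ev G))

/-- the condition `q` decides the representing name `y` and the code `a` -/
def Dd (x y : Nm C ℕ) (a : ℕ → J) (q : C) : Prop :=
  LW (fun (y : Nm C ℕ) q => FEq x y q) y q ∧ LW (Q2 X y) a q

theorem Q2_down (y : Nm C ℕ) (a : ℕ → J) (p q : C) (h : Q2 X y a p) (hq : q ≤ p) : Q2 X y a q :=
  fun α hα => (h α hα).anti hq

theorem feq_down (x : Nm C ℕ) (y : Nm C ℕ) (p q : C) (h : FEq x y p) (hq : q ≤ p) : FEq x y q :=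
  h.anti hq

theorem Dd.unique {x y y' : Nm C ℕ} {a a' : ℕ → J} {p q r : C} (h : Dd X x y a p)
    (h' : Dd X x y' a' q) (hp : r ≤ p) (hq : r ≤ q) : y = y' ∧ a = a' := by
  have h1 : y = y' := LW.unique (feq_down x) h.1 h'.1 hp hq
  subst h1
  exact ⟨rfl, LW.unique (Q2_down X y) h.2 h'.2 hp hq⟩

theorem Dd.dense
    (h : ∀ (x : Nm C ℕ) (p : C), ∃ q, q ≤ p ∧ ∃ a : ℕ → J, ∀ α, α ∉ Set.range a →
      Frc q (fun G => X α G (x.ev G))) (x : Nm C ℕ) (p : C) :
    ∃ q, q ≤ p ∧ ∃ y a, Dd X x y a q := by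
  obtain ⟨p', hp', y, hy⟩ := LW.dense (Q := fun (y : Nm C ℕ) q => FEq x y q)
    (fun p => ⟨p, le_refl p, x, FEq.refl x p⟩) p
  obtain ⟨q, hq, a, ha⟩ := LW.dense (Q := Q2 X y) (h y) p'
  exact ⟨q, hq.trans hp', y, a, hy.anti (feq_down x) hq, ha⟩

open Classical in
/-- the slalom -/
noncomputable def slm (x : Nm C ℕ) (G : Flt C) (n : ℕ) : Finset ℕ :=
  if h : ∃ (y : Nm C ℕ) (a : ℕ → J) (q : C), q ∈ G.S ∧ Dd X x y a q then
    (Finset.range n).image (fun m => (f (h.choose_spec.choose m) h.choose).ev G n)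
  else ∅

theorem slm_eq {x y : Nm C ℕ} {a : ℕ → J} {q : C} {G : Flt C} (hq : q ∈ G.S) (h : Dd X x y a q)
    (n : ℕ) : slm f X x G n = (Finset.range n).image (fun m => (f (a m) y).ev G n) := by
  classical
  have hex : ∃ (y : Nm C ℕ) (a : ℕ → J) (q : C), q ∈ G.S ∧ Dd X x y a q := ⟨y, a, q, hq, h⟩
  unfold slm
  rw [dif_pos hex]
  obtain ⟨q', hq', h'⟩ := hex.choose_spec.choose_spec
  obtain ⟨r, _, hr1, hr2⟩ := G.dir hq' hq
  obtain ⟨e1, e2⟩ := Dd.unique X h' h hr1 hr2
  have key : ∀ (y' : Nm C ℕ) (a' : ℕ → J), y' = y → a' = a →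
      (Finset.range n).image (fun m => (f (a' m) y').ev G n) =
        (Finset.range n).image (fun m => (f (a m) y).ev G n) := by
    rintro y' a' rfl rfl
    rfl
  exact key _ _ e1 e2

theorem slm_card (x : Nm C ℕ) (G : Flt C) (n : ℕ) : (slm f X x G n).card ≤ n := by
  classical
  unfold slm
  split_ifs
  · exact Finset.card_image_le.trans (by rw [Finset.card_range])
  · simp

theorem slm_decide
    (h : ∀ (x : Nm C ℕ) (p : C), ∃ q, q ≤ p ∧ ∃ a : ℕ → J, ∀ α, α ∉ Set.range a →
      Frc q (fun G => X α G (x.ev G))) (x : Nm C ℕ) (n : ℕ) (p : C) :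
    ∃ q, q ≤ p ∧ ∃ F, Frc q (fun G => slm f X x G n = F) := by
  classical
  obtain ⟨q, hq, y, a, hd⟩ := Dd.dense X h x p
  have key : ∀ k : ℕ, ∃ r, r ≤ q ∧ ∃ v : ℕ → ℕ,
      Frc r (fun G => ∀ m < k, (f (a m) y).ev G n = v m) := by
    intro k
    induction k with
    | zero =>
      exact ⟨q, le_refl q, fun _ => 0, Filter.Eventually.of_forall fun G _ m hm =>
        absurd hm (Nat.not_lt_zero m)⟩
    | succ k ih =>
      obtain ⟨r, hr, v, hv⟩ := ih
      obtain ⟨r', _, hr', b, hb⟩ := pj_id.decide (f := fun G => (f (a k) y).ev G n)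
        (fun b => Nm.dcd_ev (f (a k) y) n b) (p := r) rfl
      refine ⟨r', hr'.trans hr, fun m => if m = k then b else v m, ?_⟩
      refine ((hv.anti hr').and hb).mono (le_refl r') ?_
      rintro G ⟨h1, h2⟩ m hm
      show (f (a m) y).ev G n = if m = k then b else v m
      by_cases hmk : m = k
      · rw [if_pos hmk, hmk]
        exact h2
      · rw [if_neg hmk]
        exact h1 m (by omega)
  obtain ⟨r, hr, v, hv⟩ := key n
  refine ⟨r, hr.trans hq, (Finset.range n).image v, ?_⟩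
  have hv' : ∀ᶠ G in Gen C, r ∈ G.S → ∀ m < n, (f (a m) y).ev G n = v m := hv
  show ∀ᶠ G in Gen C, r ∈ G.S → slm f X x G n = (Finset.range n).image v
  filter_upwards [hv'] with G h1 h2
  rw [slm_eq f X (G.up h2 hr) hd n]
  refine Finset.image_congr fun m hm => ?_
  exact h1 h2 m (Finset.mem_range.1 hm)

end Capture

theorem exists_capture {J : Type} (f : J → Nm C ℕ → Nm C ℕ) (hf : ∀ i, Extl (f i))
    (X : J → Flt C → (ℕ → ℕ) → Prop)
    (h : ∀ (x : Nm C ℕ) (p : C), ∃ q, q ≤ p ∧ ∃ a : ℕ → J, ∀ α, α ∉ Set.range a →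
      Frc q (fun G => X α G (x.ev G))) :
    ∃ g : Nm C ℕ → Nm C (Finset ℕ), Extl g ∧ (∀ x, IsSlalom (g x)) ∧
      ∀ (α : J) (x : Nm C ℕ) (p : C), Frc p (fun G => ¬ X α G (x.ev G)) → FMem (f α x) (g x) p := by
  classical
  have hdec : ∀ (x : Nm C ℕ) (n : ℕ) (F : Finset ℕ), Dcd id (fun G => slm f X x G n = F) := by
    intro x n F p _
    obtain ⟨q, hq, F', hF'⟩ := slm_decide f X h x n p
    refine ⟨q, rfl, hq, ?_⟩
    by_cases e : F' = F
    · left
      rw [← e]
      exact hF'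
    · right
      exact hF'.mono (le_refl q) fun G hG hG' => e (hG.symm.trans hG')
  have hnm := fun x => exists_nm (hdec x)
  choose g hg1 hg2 using hnm
  refine ⟨g, ?_, ?_, ?_⟩
  · intro x x' p hxx
    rw [feq_iff]
    refine frc_of_dense fun q hq => ?_
    obtain ⟨q', hq', y, a, hd⟩ := Dd.dense X h x q
    have hd' : Dd X x' y a q' := ⟨LW.feq_congr (hxx.anti (hq'.trans hq)) hd.1, hd.2⟩
    refine ⟨q', hq', ?_⟩
    show ∀ᶠ G in Gen C, q' ∈ G.S → (g x).ev G = (g x').ev G
    filter_upwards [hg1 x, hg1 x'] with G h1 h2 h3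
    rw [h1, h2]
    funext n
    rw [slm_eq f X h3 hd n, slm_eq f X h3 hd' n]
  · intro x n F hne
    obtain ⟨c, hc⟩ := hne
    rw [hg2] at hc
    obtain ⟨G, _, hG⟩ := frc_exists hc
    rw [← hG]
    exact slm_card f X x G n
  · intro α x p hp
    rw [fmem_iff]
    refine frc_of_dense fun q hq => ?_
    obtain ⟨q', hq', y, a, hd⟩ := Dd.dense X h x q
    have hxy : FEq x y q' := hd.1.1
    by_cases hα : α ∈ Set.range a
    · obtain ⟨m, rfl⟩ := hα
      have h1 := (feq_iff _ _ _).1 (hf (a m) x y q' hxy)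
      refine ⟨q', hq', ?_⟩
      have h1' : ∀ᶠ G in Gen C, q' ∈ G.S → (f (a m) x).ev G = (f (a m) y).ev G := h1
      show ∀ᶠ G in Gen C, q' ∈ G.S → ∃ N, ∀ k, N ≤ k → (f (a m) x).ev G k ∈ (g x).ev G k
      filter_upwards [h1', hg1 x] with G h2 h3 h4
      refine ⟨m + 1, fun k hk => ?_⟩
      rw [h3, slm_eq f X h4 hd k, h2 h4]
      exact Finset.mem_image.2 ⟨m, Finset.mem_range.2 hk, rfl⟩
    · exfalso
      have h1 : Frc q' (fun G => X α G (y.ev G)) := hd.2.1 α hα
      have h2 := (feq_iff _ _ _).1 hxy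
      have h3 : Frc q' (fun G => X α G (x.ev G)) := by
        refine (h1.and h2).mono (le_refl q') ?_
        rintro G ⟨h4, h5⟩
        rw [h5]
        exact h4
      exact frc_absurd h3 (hp.anti (hq'.trans hq))

end LM
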