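import Pool.Agent.Helper18.LM.YA
import Pool.Agent.Helper18.LM.XC

/-!
# LM-Y3: the meager sets (about 130 lines)

`Par x n`: is the value `x n` odd?
Let `r = L.lr β G`, `c = cod (L.lr α G)`, and let `OO k s G` say that there is `n ≥ k` with
`r n < r (n + 1) ≤ s.length` and `Par` of the `i`-th entry of `s` equal to `c i` for all
`i ∈ [r n, r (n + 1))`.  This is decided (`measurable_lr`, `measurable_cod`).
`U k s := {q | Frc q (OO k s)}`.
`FDense U`: given `k`, `s`, `p`.  By `ae_dominate β` with `H G s = max (s.length + 1) (m + 1)` for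
`s = m :: _` almost everywhere `n ≤ r n < r (n + 1)` for all large `n` (or use `ae_block`).  So by
`frc_exists`-like arguments `p` forces that there are `n ≥ k` and `s' ⊇ s` with `OO k s' G`: take
`n ≥ k` with `r n ≥ s.length`, `r n < r (n + 1)`, and extend `s` to length `r (n + 1)` by entries `0`, `1` with
the right parity.  As there are countably many `s'` and `OO k s'` is decided, some `q ≤ p` forces
`OO k s'` for some such `s'` (otherwise `p` forces the negation of all of them), so `q ∈ U k s'`.
If `FMeet x U p` then almost everywhere on `p`, for every `k` there is `s` with `Mts (U k s) G` and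
`x.ev G i = s[i]` for `i < s.length` (`FMeet.frc`); almost everywhere `Mts (U k s) G → OO k s G`
(`Pj.ae_iff_frc` for `id`, or the rank `⊤`); so `x.ev G` has blocks `[r n, r (n + 1))`, `n ≥ k`, on which
`Par (x.ev G)` agrees with `c`: `¬ Dif`.
-/

set_option autoImplicit false

namespace LM

/-- parity -/
def Par (x : ℕ → ℕ) (n : ℕ) : Bool := decide (x n % 2 = 1)

/-- the finite sequence `s` has a block with index at least `k` on which it agrees with `c` -/
def OO (k : ℕ) (s : List ℕ) (r : ℕ → ℕ) (c : ℕ → Bool) : Prop :=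
  ∃ n, k ≤ n ∧ r n < r (n + 1) ∧ r (n + 1) ≤ s.length ∧
    ∀ i, r n ≤ i → i < r (n + 1) → decide (s.getD i 0 % 2 = 1) = c i

theorem OO.exists_ext {r : ℕ → ℕ} {c : ℕ → Bool} (h : ∃ n₀, ∀ n, n₀ ≤ n → n ≤ r n ∧ r n < r (n + 1))
    (k : ℕ) (s : List ℕ) : ∃ s', s <+: s' ∧ OO k s' r c := by
  obtain ⟨n₀, h₀⟩ := h
  obtain ⟨n, h1, h2, h3⟩ : ∃ n, n₀ ≤ n ∧ k ≤ n ∧ s.length ≤ n :=
    ⟨max n₀ (max k s.length), le_max_left _ _, (le_max_left _ _).trans (le_max_right _ _),
      (le_max_right _ _).trans (le_max_right _ _)⟩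
  obtain ⟨h4, h5⟩ := h₀ n h1
  let w : List ℕ := (List.range (r (n + 1) - s.length)).map
    (fun j => if c (s.length + j) = true then 1 else 0)
  have hw : w.length = r (n + 1) - s.length := by
    show ((List.range (r (n + 1) - s.length)).map _).length = _
    rw [List.length_map, List.length_range]
  refine ⟨s ++ w, List.prefix_append s w, n, h2, h5, ?_, ?_⟩
  · rw [List.length_append, hw]
    omega
  · intro i hi hi'
    have h6 : s.length ≤ i := h3.trans (h4.trans hi)
    rw [List.getD_append_right s w 0 i h6]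
    have h7 : i - s.length < w.length := by rw [hw]; omega
    rw [List.getD_eq_getElem w 0 h7]
    have h8 : w[i - s.length] = if c i = true then 1 else 0 := by
      have h9 : s.length + (i - s.length) = i := by omega
      show ((List.range (r (n + 1) - s.length)).map
        (fun j => if c (s.length + j) = true then 1 else 0))[i - s.length] = _
      rw [List.getElem_map, List.getElem_range, h9]
    rw [h8]
    cases c i <;> simp

namespace LIter

variable {J C : Type} [LinearOrder J] [WellFoundedLT J] [Preorder C] (L : LIter J C)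

omit [WellFoundedLT J] in
theorem ae_incr (α β : J) (h : α < β) :
    ∀ᶠ G in Gen C, ∃ n₀, ∀ n, n₀ ≤ n → n ≤ L.lr β G n ∧ L.lr β G n < L.lr β G (n + 1) := by
  have hP : @Measurable _ _ (L.Bm α) _ (fun (_ : Flt C) (_ _ : ℕ) => (0 : ℕ)) := by
    let _ := L.Bm α
    exact measurable_const
  filter_upwards [L.ae_block h (fun _ _ _ => false) ∅ hP] with G hG
  obtain ⟨n₀, h₀⟩ := hG
  exact ⟨n₀, fun n hn => ⟨(h₀ n hn).1, (h₀ n hn).2.1⟩⟩

omit [WellFoundedLT J] in
theorem measurableSet_OO (α β : J) (k : ℕ) (s : List ℕ) :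
    @MeasurableSet _ (L.Bm ⊤) {G | OO k s (L.lr β G) (cod (L.lr α G))} := by
  let _ := L.Bm ⊤
  have h1 : Measurable (L.lr β) := L.measurable_lr (WithTop.coe_lt_top β)
  have h2 : Measurable (L.lr α) := L.measurable_lr (WithTop.coe_lt_top α)
  have h3 : Measurable (fun G => cod (L.lr α G)) := measurable_cod.comp h2
  have h4 : ∀ n, Measurable (fun G => L.lr β G n) := fun n => (measurable_pi_apply n).comp h1
  have h5 : ∀ n, Measurable (fun G => cod (L.lr α G) n) := fun n => (measurable_pi_apply n).comp h3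
  refine measurableSet_setOfPred.2 ?_
  unfold OO
  refine Measurable.exists fun n => ?_
  refine measurable_const.and (Measurable.and (measurableSet_setOfPred.1 (measurableSet_lt (h4 n) (h4 _)))
    (Measurable.and (measurableSet_setOfPred.1 (measurableSet_le (h4 _) measurable_const)) ?_))
  refine Measurable.forall fun i => ?_
  refine Measurable.imp (measurableSet_setOfPred.1 (measurableSet_le (h4 _) measurable_const)) ?_
  refine Measurable.imp (measurableSet_setOfPred.1 (measurableSet_lt measurable_const (h4 _))) ?_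
  exact measurableSet_setOfPred.1 (measurableSet_eq_fun measurable_const (h5 i))

omit [WellFoundedLT J] in
theorem dcd_OO (α β : J) (k : ℕ) (s : List ℕ) :
    Dcd id (fun G => OO k s (L.lr β G) (cod (L.lr α G))) := by
  have h1 := L.measurableSet_Bm.1 (L.measurableSet_OO α β k s)
  intro p _
  obtain ⟨q, _, hq, h2⟩ := h1 p (by simp [LIter.rs])
  exact ⟨q, rfl, hq, h2⟩

theorem exists_open {α β : J} (h : α < β) : ∃ U : ℕ → List ℕ → Set C, FDense U ∧
    ∀ (x : Nm C ℕ) (p : C), FMeet x U p →
      Frc p (fun G => ¬ Dif (L.lr β G) (cod (L.lr α G)) (Par (x.ev G))) := by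
  refine ⟨fun k s => {q | id q = q ∧ Frc q (fun G => OO k s (L.lr β G) (cod (L.lr α G)))}, ?_, ?_⟩
  · intro k s p
    by_contra hc
    push Not at hc
    have h1 : ∀ s', Frc p (fun G => s <+: s' → ¬ OO k s' (L.lr β G) (cod (L.lr α G))) := by
      intro s'
      by_cases hs : s <+: s'
      · have h2 : Frc p (fun G => ¬ OO k s' (L.lr β G) (cod (L.lr α G))) := by
          refine frc_of_dense fun q hq => ?_
          obtain ⟨r, _, hr, h3 | h3⟩ := L.dcd_OO α β k s' q rfl
          · exfalso
            refine hc r (hr.trans hq) s' hs fun r' _ hr' => ?_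
            exact ⟨r', trivial, le_refl r', r, ⟨rfl, h3⟩, hr'⟩
          · exact ⟨r, hr, h3⟩
        exact h2.mono (le_refl p) fun G h3 _ => h3
      · exact Filter.Eventually.of_forall fun G _ h3 => absurd h3 hs
    have h2 := frc_forall h1
    have h3 : Frc p (fun G => ∃ s', s <+: s' ∧ OO k s' (L.lr β G) (cod (L.lr α G))) :=
      frc_of_ae ((L.ae_incr α β h).mono fun G hG => OO.exists_ext hG k s)
    refine frc_absurd h3 (h2.mono (le_refl p) fun G h4 h5 => ?_)
    obtain ⟨s', h6, h7⟩ := h5
    exact h4 s' h6 h7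
  · intro x p hx
    have h1 := hx.frc
    have h2 : ∀ᶠ G in Gen C, ∀ k, ∀ s : List ℕ, (OO k s (L.lr β G) (cod (L.lr α G)) ↔
        Mts {q | id q = q ∧ Frc q (fun G => OO k s (L.lr β G) (cod (L.lr α G)))} G) := by
      rw [eventually_countable_forall]
      intro k
      rw [eventually_countable_forall]
      intro s
      exact pj_id.ae_iff_frc (L.dcd_OO α β k s)
    refine (h1.and (frc_of_ae h2)).mono (le_refl p) ?_
    rintro G ⟨h3, h4⟩ ⟨n₀, h5⟩
    obtain ⟨s, h6, h7⟩ := h3 n₀
    obtain ⟨n, h8, h9, h10, h11⟩ := (h4 n₀ s).2 h6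
    obtain ⟨i, h12, h13, h14⟩ := h5 n h8
    have h15 : i < s.length := lt_of_lt_of_le h13 h10
    refine h14 ?_
    rw [← h11 i h12 h13, List.getD_eq_getElem s 0 h15]
    unfold Par
    rw [h7 i h15]

end LIter

end LM
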