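import Pool.Agent.Helper18.LM.YB
import Pool.Agent.Helper18.LM.YC
import Pool.Agent.Helper18.LM.XD

/-!
# LM-Y4: the main theorem (about 60 lines)

For `α : J` let `β α` be the successor (`NoMaxOrder`, well-foundedness).  Apply `exists_capture` with
`X α G x := Dif (L.lr (β α) G) (cod (L.lr α G)) (Par x)`: hypothesis `h` by `main_dif` for
`G ↦ Par (x.ev G)` (measurable with respect to `L.Bm ⊤`: `Nm.dcd_ev`, `L.rs ⊤ = id`), and `exists_open` for the
meager sets.
-/

set_option autoImplicit false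

namespace LM

theorem LIter.measurable_par {J C : Type} [LinearOrder J] [Preorder C] (L : LIter J C) (x : Nm C ℕ) :
    @Measurable _ _ (L.Bm ⊤) _ (fun G => Par (x.ev G)) := by
  let _ := L.Bm ⊤
  refine measurable_pi_iff.2 fun n => ?_
  have h1 : Measurable (fun G => x.ev G n) := by
    refine measurable_to_countable' fun a => ?_
    have h2 : Dcd (L.rs ⊤) (fun G => G ∈ (fun G => x.ev G n) ⁻¹' {a}) := by
      intro p _
      obtain ⟨q, _, hq, h3⟩ := x.dcd_ev n a p rfl
      exact ⟨q, rfl, hq, h3⟩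
    exact h2
  exact (measurable_of_countable (fun m : ℕ => decide (m % 2 = 1))).comp h1

theorem bdd {J C : Type} [LinearOrder J] [WellFoundedLT J] [NoMaxOrder J] [Nonempty J] [Preorder C]
    (L : LIter J C) : FBdd J C := by
  intro f hf
  have hs : ∀ α : J, ∃ β, α < β ∧ ∀ γ, α < γ → β ≤ γ := by
    intro α
    have wf : WellFounded ((· < ·) : J → J → Prop) := IsWellFounded.wf
    have hne : {γ : J | α < γ}.Nonempty := exists_gt α
    exact ⟨wf.min {γ : J | α < γ} hne, wf.min_mem {γ : J | α < γ} hne,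
      fun γ hγ => not_lt.1 (wf.not_lt_min {γ : J | α < γ} hγ)⟩
  choose β hβ hβ' using hs
  obtain ⟨g, hg1, hg2, hg3⟩ := exists_capture f hf
    (fun α G x => Dif (L.lr (β α) G) (cod (L.lr α G)) (Par x)) (by
      intro x p
      obtain ⟨q, hq, a, ha⟩ := L.main_dif (L.measurable_par x) p
      exact ⟨q, hq, a, fun α hα => ha α (β α) hα (hβ α) (hβ' α)⟩)
  refine ⟨g, hg1, hg2, fun i => ?_⟩
  obtain ⟨U, hU, hU'⟩ := L.exists_open (hβ i)
  exact ⟨U, hU, fun x p hx => hg3 i x p (hU' x p hx)⟩

end LM
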